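import Mathlib

set_option maxHeartbeats 4000000

open Matrix

namespace Pool.Agent.Q112.Leo

variable {K : Type} [Field K]

/-- A square matrix is irreducible tridiagonal if it is tridiagonal and every entry on the sub- and
superdiagonal is nonzero. -/
def IsIrredTridiagonal {n : ℕ} (M : Matrix (Fin n) (Fin n) K) : Prop :=
  (∀ i j : Fin n, (i : ℕ) + 1 < j ∨ (j : ℕ) + 1 < i → M i j = 0) ∧
    ∀ i j : Fin n, (i : ℕ) + 1 = j → M i j ≠ 0 ∧ M j i ≠ 0

/-- The pair `A, A'` is a Leonard pair on the `(d+1)`-dimensional space `V`. -/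
structure IsLeonardPair (d : ℕ) {V : Type} [AddCommGroup V] [Module K V]
    (A A' : Module.End K V) : Prop where
  fst : ∃ b : Module.Basis (Fin (d + 1)) K V,
    IsIrredTridiagonal (LinearMap.toMatrix b b A) ∧ (LinearMap.toMatrix b b A').IsDiag
  snd : ∃ b : Module.Basis (Fin (d + 1)) K V,
    IsIrredTridiagonal (LinearMap.toMatrix b b A') ∧ (LinearMap.toMatrix b b A).IsDiag

/-- The condition `β = 2`: with `θ₀, …, θ_d` the diagonal entries of `A` in a basis making `A`
diagonal and `A'` irreducible tridiagonal, `θ_{i-2} - θ_{i+1} = 3 (θ_{i-1} - θ_i)` for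
`2 ≤ i ≤ d - 1`. -/
def HasBetaTwo (d : ℕ) {V : Type} [AddCommGroup V] [Module K V] (A A' : Module.End K V) : Prop :=
  ∃ b : Module.Basis (Fin (d + 1)) K V,
    IsIrredTridiagonal (LinearMap.toMatrix b b A') ∧ (LinearMap.toMatrix b b A).IsDiag ∧
    ∀ i j k l : Fin (d + 1), (j : ℕ) = i + 1 → (k : ℕ) = i + 2 → (l : ℕ) = i + 3 →
      LinearMap.toMatrix b b A i i - LinearMap.toMatrix b b A l l =
        3 * (LinearMap.toMatrix b b A j j - LinearMap.toMatrix b b A k k)

/-- The operators `x, y, z` satisfy the relations of the equitable basis of `sl₂`, so that they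
define an `sl₂`-module structure on `V`. -/
structure IsEquitable {V : Type} [AddCommGroup V] [Module K V] (x y z : Module.End K V) : Prop where
  xy : x * y - y * x = (2 : K) • x + (2 : K) • y
  yz : y * z - z * y = (2 : K) • y + (2 : K) • z
  zx : z * x - x * z = (2 : K) • z + (2 : K) • x

/-- The only subspaces invariant under `x, y, z` are `0` and `V`. -/
def IsIrreducible {V : Type} [AddCommGroup V] [Module K V] (x y z : Module.End K V) : Prop :=
  ∀ W : Submodule K V, (∀ w ∈ W, x w ∈ W ∧ y w ∈ W ∧ z w ∈ W) → W = ⊥ ∨ W = ⊤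

section SL2

variable [CharZero K] {V : Type} [AddCommGroup V] [Module K V] [FiniteDimensional K V]

omit [FiniteDimensional K V] in
lemma comm_pow (h e f : Module.End K V) (hef : e * f - f * e = h) (hhe : h * e - e * h = (2 : K) • e)
    (m : ℕ) : e ^ (m + 1) * f - f * e ^ (m + 1) = ((m : K) + 1) • (e ^ m * (h + (m : K) • 1)) := by
  induction m with
  | zero => simp [hef]
  | succ m ih =>
    have h1 : e ^ (m + 1 + 1) * f - f * e ^ (m + 1 + 1) =
        e ^ (m + 1) * (e * f - f * e) + (e ^ (m + 1) * f - f * e ^ (m + 1)) * e := by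
      rw [pow_succ e (m + 1)]; noncomm_ring
    have h2 : h * e = e * h + (2 : K) • e := by rw [← hhe]; abel
    rw [h1, hef, ih, smul_mul_assoc, mul_assoc, add_mul, h2, smul_mul_assoc, one_mul]
    have h3 : e ^ m * (e * h + (2 : K) • e + (m : K) • e) = e ^ (m + 1) * h + ((m : K) + 2) • e ^ (m + 1) := by
      rw [pow_succ]
      simp only [mul_add, mul_smul_comm, mul_assoc, add_smul]
      abel
    rw [h3, mul_add, mul_smul_comm, mul_one]
    push_cast
    module

lemma e_nilp (h e : Module.End K V) (hhe : h * e - e * h = (2 : K) • e) : ∃ n, e ^ n = 0 := by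
  by_contra hne
  push Not at hne
  have h1 : ∀ n : ℕ, h * e ^ n - e ^ n * h = (2 * (n : K)) • e ^ n := by
    intro n
    induction n with
    | zero => simp
    | succ n ih =>
      have h2 : h * e ^ (n + 1) - e ^ (n + 1) * h = (h * e ^ n - e ^ n * h) * e +
          e ^ n * (h * e - e * h) := by rw [pow_succ]; noncomm_ring
      rw [h2, ih, hhe, smul_mul_assoc, mul_smul_comm, ← pow_succ]
      push_cast
      module
  let ad : Module.End K (Module.End K V) := LinearMap.mulLeft K h - LinearMap.mulRight K h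
  have h2 : ∀ n : ℕ, ad.HasEigenvalue (2 * (n : K)) := fun n =>
    Module.End.hasEigenvalue_of_hasEigenvector (x := e ^ n)
      ⟨Module.End.mem_eigenspace_iff.mpr (h1 n), hne n⟩
  have h3 := ad.finite_hasEigenvalue
  have h4 : Set.Finite (Set.range fun n : ℕ => 2 * (n : K)) :=
    h3.subset (by rintro _ ⟨n, rfl⟩; exact h2 n)
  have h5 : Function.Injective (fun n : ℕ => 2 * (n : K)) := by
    intro a b hab
    have : (a : K) = b := mul_left_cancel₀ (two_ne_zero) hab
    exact_mod_cast this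
  exact Set.infinite_range_of_injective h5 h4

lemma exists_prim [Nontrivial V] (h e f : Module.End K V) (hef : e * f - f * e = h)
    (hhe : h * e - e * h = (2 : K) • e) :
    ∃ (k : ℕ) (u : V), u ≠ 0 ∧ e u = 0 ∧ h u = (k : K) • u := by
  classical
  have hn := e_nilp h e hhe
  set n := Nat.find hn with hndef
  have hn0 : e ^ n = 0 := Nat.find_spec hn
  have hpos : n ≠ 0 := by
    intro h0
    rw [h0, pow_zero] at hn0
    exact one_ne_zero hn0
  obtain ⟨k, hk⟩ := Nat.exists_eq_succ_of_ne_zero hpos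
  have hk1 : e ^ (k + 1) = 0 := by rw [← Nat.succ_eq_add_one, ← hk]; exact hn0
  have hk0 : e ^ k ≠ 0 := Nat.find_min hn (by omega)
  have h1 := comm_pow h e f hef hhe k
  rw [hk1, zero_mul, mul_zero, sub_zero] at h1
  have h2 : e ^ k * (h + (k : K) • 1) = 0 := by
    have : ((k : K) + 1) ≠ 0 := by exact_mod_cast Nat.succ_ne_zero k
    exact (smul_eq_zero.mp h1.symm).resolve_left this
  have h3 : h * e ^ k - e ^ k * h = (2 * (k : K)) • e ^ k := by
    clear h1 h2 hk0 hk1 hk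
    induction k with
    | zero => simp
    | succ n ih =>
      have h2 : h * e ^ (n + 1) - e ^ (n + 1) * h = (h * e ^ n - e ^ n * h) * e +
          e ^ n * (h * e - e * h) := by rw [pow_succ]; noncomm_ring
      rw [h2, ih, hhe, smul_mul_assoc, mul_smul_comm, ← pow_succ]
      push_cast
      module
  obtain ⟨w, hw⟩ : ∃ w, (e ^ k) w ≠ 0 := by
    by_contra hc
    push Not at hc
    exact hk0 (LinearMap.ext hc)
  refine ⟨k, (e ^ k) w, hw, ?_, ?_⟩
  · rw [← Module.End.mul_apply, ← pow_succ', hk1]; rfl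
  · have h4 : h * e ^ k = (k : K) • e ^ k := by
      rw [mul_add, mul_smul_comm, mul_one] at h2
      have : h * e ^ k = (h * e ^ k - e ^ k * h) + (e ^ k * h + (k : K) • e ^ k) - (k : K) • e ^ k := by
        abel
      rw [this, h3, h2]
      module
    rw [← Module.End.mul_apply, h4]; rfl

/-- the structure of an irreducible four-dimensional module -/
lemma exists_basis (hdim : Module.finrank K V = 4) (h e f : Module.End K V)
    (hef : e * f - f * e = h) (hhe : h * e - e * h = (2 : K) • e) (hhf : h * f - f * h = -((2 : K) • f))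
    (irr : ∀ W : Submodule K V, (∀ w ∈ W, h w ∈ W) → (∀ w ∈ W, e w ∈ W) → (∀ w ∈ W, f w ∈ W) →
      W = ⊥ ∨ W = ⊤) :
    ∃ b : Module.Basis (Fin 4) K V, (h (b 0) = (3 : K) • b 0 ∧ h (b 1) = (1 : K) • b 1 ∧
      h (b 2) = (-1 : K) • b 2 ∧ h (b 3) = (-3 : K) • b 3) ∧
      (f (b 0) = b 1 ∧ f (b 1) = b 2 ∧ f (b 2) = b 3 ∧ f (b 3) = 0) ∧
      (e (b 0) = 0 ∧ e (b 1) = (3 : K) • b 0 ∧ e (b 2) = (4 : K) • b 1 ∧ e (b 3) = (3 : K) • b 2) := by
  haveI : Nontrivial V := Module.nontrivial_of_finrank_pos (R := K) (by omega)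
  obtain ⟨k, u, hu0, hue, huh⟩ := exists_prim h e f hef hhe
  have Hfh : h * f = f * h - (2 : K) • f := by
    have : h * f = (h * f - f * h) + f * h := by abel
    rw [this, hhf]; abel
  have Hef : e * f = f * e + h := by rw [← hef]; abel
  set ψ : ℕ → V := fun n => (f ^ n) u with hψ
  have ψ0 : ψ 0 = u := by simp [hψ]
  have ψs : ∀ n, f (ψ n) = ψ (n + 1) := fun n => by
    simp only [hψ]; rw [pow_succ']; rfl
  have hh : ∀ n, h (ψ n) = ((k : K) - 2 * n) • ψ n := by
    intro n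
    induction n with
    | zero => rw [ψ0, huh]; simp
    | succ n ih =>
      rw [← ψs n, ← Module.End.mul_apply, Hfh, LinearMap.sub_apply, Module.End.mul_apply, ih,
        LinearMap.smul_apply, map_smul]
      push_cast
      module
  have he : ∀ n, e (ψ (n + 1)) = (((n : K) + 1) * ((k : K) - n)) • ψ n := by
    intro n
    induction n with
    | zero =>
      rw [← ψs 0, ← Module.End.mul_apply, Hef, LinearMap.add_apply, Module.End.mul_apply, ψ0, hue,
        map_zero, huh]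
      simp
    | succ n ih =>
      rw [← ψs (n + 1), ← Module.End.mul_apply, Hef, LinearMap.add_apply, Module.End.mul_apply, ih,
        map_smul, ψs, hh]
      push_cast
      module
  -- the weights are distinct
  have hinj : Function.Injective (fun n : ℕ => (k : K) - 2 * n) := by
    intro a b hab
    have : (2 : K) * a = 2 * b := by simpa using hab
    have : (a : K) = b := mul_left_cancel₀ (two_ne_zero) this
    exact_mod_cast this
  have hfin : ∀ m, ∃ n, m ≤ n ∧ ψ n = 0 := by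
    intro m
    by_contra hc
    push Not at hc
    have h3 := h.finite_hasEigenvalue
    have h4 : Set.Finite (Set.range fun n : ℕ => (k : K) - 2 * ((m + n : ℕ) : K)) := by
      refine h3.subset ?_
      rintro _ ⟨n, rfl⟩
      exact Module.End.hasEigenvalue_of_hasEigenvector (x := ψ (m + n))
        ⟨Module.End.mem_eigenspace_iff.mpr (hh _), hc _ (by omega)⟩
    have h5 : Function.Injective (fun n : ℕ => (k : K) - 2 * ((m + n : ℕ) : K)) := by
      intro a b hab
      have := hinj hab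
      omega
    exact Set.infinite_range_of_injective h5 h4
  have hk1 : ψ (k + 1) = 0 := by
    obtain ⟨n, hn, hn0⟩ := hfin (k + 1)
    clear hfin
    obtain ⟨j, rfl⟩ := Nat.exists_eq_add_of_le hn
    clear hn
    induction j with
    | zero => exact hn0
    | succ j ih =>
      apply ih
      have h1 := he (k + 1 + j)
      rw [show k + 1 + j + 1 = k + 1 + (j + 1) by omega, hn0, map_zero] at h1
      refine (smul_eq_zero.mp h1.symm).resolve_left ?_
      apply mul_ne_zero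
      · exact_mod_cast Nat.succ_ne_zero (k + 1 + j)
      · push_cast
        intro h2
        have h3 : ((j : K) + 1) = 0 := by linear_combination -h2
        exact_mod_cast h3
  have hne : ∀ i, i ≤ k → ψ i ≠ 0 := by
    intro i
    induction i with
    | zero => intro _; rw [ψ0]; exact hu0
    | succ i ih =>
      intro hi h0
      have h1 := he i
      rw [h0, map_zero] at h1
      rcases smul_eq_zero.mp h1.symm with h2 | h2
      · rcases mul_eq_zero.mp h2 with h3 | h3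
        · exact absurd h3 (by exact_mod_cast Nat.succ_ne_zero i)
        · have : (k : K) = i := sub_eq_zero.mp h3
          have : k = i := by exact_mod_cast this
          omega
      · exact ih (by omega) h2
  -- linear independence
  have hli : LinearIndependent K (fun i : Fin (k + 1) => ψ i) := by
    apply Module.End.eigenvectors_linearIndependent' h (fun i : Fin (k + 1) => (k : K) - 2 * (i : ℕ))
    · intro a b hab
      exact Fin.ext (hinj hab)
    · intro i
      exact ⟨Module.End.mem_eigenspace_iff.mpr (hh _), hne _ (by omega)⟩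
  -- the span
  set W := Submodule.span K (Set.range (fun i : Fin (k + 1) => ψ i)) with hW
  have hψW : ∀ i, ψ i ∈ W := by
    intro i
    by_cases hi : i ≤ k
    · exact Submodule.subset_span ⟨⟨i, by omega⟩, rfl⟩
    · have : ψ i = 0 := by
        obtain ⟨j, rfl⟩ := Nat.exists_eq_add_of_le (show k + 1 ≤ i by omega)
        clear hi
        induction j with
        | zero => exact hk1
        | succ j ih => rw [← add_assoc, ← ψs, ih, map_zero]
      rw [this]; exact zero_mem _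
  have hclosed : ∀ g : Module.End K V, (∀ i, g (ψ i) ∈ W) → ∀ w ∈ W, g w ∈ W := by
    intro g hg w hw
    induction hw using Submodule.span_induction with
    | zero => rw [map_zero]; exact zero_mem _
    | add x y _ _ hx hy => rw [map_add]; exact add_mem hx hy
    | smul c x _ hx => rw [map_smul]; exact Submodule.smul_mem _ _ hx
    | mem x hx => obtain ⟨i, rfl⟩ := hx; exact hg i
  have hWtop : W = ⊤ := by
    rcases irr W (hclosed h fun i => by rw [hh]; exact Submodule.smul_mem _ _ (hψW i))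
      (hclosed e fun i => by
        cases i with
        | zero => rw [ψ0, hue]; exact zero_mem _
        | succ i => rw [he]; exact Submodule.smul_mem _ _ (hψW i))
      (hclosed f fun i => by rw [ψs]; exact hψW _) with h1 | h1
    · exfalso
      have := hψW 0
      rw [h1, ψ0] at this
      exact hu0 (by simpa using this)
    · exact h1
  have hk : k + 1 = 4 := by
    have := finrank_span_eq_card hli
    rw [← hW, hWtop, finrank_top, hdim, Fintype.card_fin] at this
    exact this.symm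
  obtain rfl : k = 3 := by omega
  let b : Module.Basis (Fin 4) K V := Module.Basis.mk hli (by rw [← hW, hWtop])
  have hb : ∀ i, b i = ψ i := fun i => Module.Basis.mk_apply _ _ i
  have h30 : ψ 4 = 0 := hk1
  refine ⟨b, ⟨?_, ?_, ?_, ?_⟩, ⟨?_, ?_, ?_, ?_⟩, ?_, ?_, ?_, ?_⟩
  · rw [hb]; simpa using hh 0
  · rw [hb]
    have := hh 1
    norm_num at this
    simpa using this
  · rw [hb]
    have := hh 2
    norm_num at this
    simpa using this
  · rw [hb]
    have := hh 3
    norm_num at this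
    simpa using this
  · rw [hb, hb]; exact ψs 0
  · rw [hb, hb]; exact ψs 1
  · rw [hb, hb]; exact ψs 2
  · rw [hb]; exact (ψs 3).trans h30
  · rw [hb]; change e (ψ 0) = 0; rw [ψ0, hue]
  · rw [hb, hb]
    have := he 0
    norm_num at this
    simpa using this
  · rw [hb, hb]
    have := he 1
    norm_num at this
    simpa using this
  · rw [hb, hb]
    have := he 2
    norm_num at this
    simpa using this

end SL2

section Traces

variable [CharZero K]

lemma eig_cases (t0 t1 t2 t3 : K) (h0 : t0 * (t0 - 3) * (t0 - 8) * (t0 - 15) = 0)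
    (h1 : t1 * (t1 - 3) * (t1 - 8) * (t1 - 15) = 0)
    (h2 : t2 * (t2 - 3) * (t2 - 8) * (t2 - 15) = 0)
    (h3 : t3 * (t3 - 3) * (t3 - 8) * (t3 - 15) = 0)
    (hs : t0 + t1 + t2 + t3 = 26) (hd : t0 - t3 = 3 * (t1 - t2)) :
    (t0 = 0 ∧ t1 = 3 ∧ t2 = 8 ∧ t3 = 15) ∨ (t0 = 15 ∧ t1 = 8 ∧ t2 = 3 ∧ t3 = 0) := by
  have key : ∀ t : K, t * (t - 3) * (t - 8) * (t - 15) = 0 →
      ∃ n : ℤ, t = n ∧ (n = 0 ∨ n = 3 ∨ n = 8 ∨ n = 15) := by
    intro t ht
    simp only [mul_eq_zero, or_assoc] at ht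
    rcases ht with h | h | h | h
    · exact ⟨0, by simpa using h, Or.inl rfl⟩
    · exact ⟨3, by push_cast; exact sub_eq_zero.mp h, by simp⟩
    · exact ⟨8, by push_cast; exact sub_eq_zero.mp h, by simp⟩
    · exact ⟨15, by push_cast; exact sub_eq_zero.mp h, by simp⟩
  obtain ⟨n0, rfl, k0⟩ := key _ h0
  obtain ⟨n1, rfl, k1⟩ := key _ h1
  obtain ⟨n2, rfl, k2⟩ := key _ h2
  obtain ⟨n3, rfl, k3⟩ := key _ h3
  have hs' : n0 + n1 + n2 + n3 = 26 := by exact_mod_cast hs
  have hd' : n0 - n3 = 3 * (n1 - n2) := by exact_mod_cast hd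
  have : (n0 = 0 ∧ n1 = 3 ∧ n2 = 8 ∧ n3 = 15) ∨ (n0 = 15 ∧ n1 = 8 ∧ n2 = 3 ∧ n3 = 0) := by omega
  rcases this with ⟨rfl, rfl, rfl, rfl⟩ | ⟨rfl, rfl, rfl, rfl⟩
  · left; norm_num
  · right; norm_num

/-- lower bidiagonal matrix -/
def Lo (t0 t1 t2 t3 s0 s1 s2 : K) : Matrix (Fin 4) (Fin 4) K :=
  !![t0, 0, 0, 0; s0, t1, 0, 0; 0, s1, t2, 0; 0, 0, s2, t3]

/-- upper bidiagonal matrix -/
def Up (t0 t1 t2 t3 r0 r1 r2 : K) : Matrix (Fin 4) (Fin 4) K :=
  !![t0, r0, 0, 0; 0, t1, r1, 0; 0, 0, t2, r2; 0, 0, 0, t3]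

/-- the polynomial `T (T - 3) (T - 8) (T - 15)` -/
def pol {R : Type} [Ring R] (a : R) : R := a * (a - 3) * (a - 8) * (a - 15)

omit [CharZero K] in
lemma Lo_sub (t0 t1 t2 t3 s0 s1 s2 c : K) : Lo t0 t1 t2 t3 s0 s1 s2 - Matrix.diagonal (fun _ => c) =
    Lo (t0 - c) (t1 - c) (t2 - c) (t3 - c) s0 s1 s2 := by
  ext i j
  fin_cases i <;> fin_cases j <;> simp [Lo]

omit [CharZero K] in
lemma Up_sub (t0 t1 t2 t3 s0 s1 s2 c : K) : Up t0 t1 t2 t3 s0 s1 s2 - Matrix.diagonal (fun _ => c) =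
    Up (t0 - c) (t1 - c) (t2 - c) (t3 - c) s0 s1 s2 := by
  ext i j
  fin_cases i <;> fin_cases j <;> simp [Up]

omit [CharZero K] in
lemma pol_Lo (t0 t1 t2 t3 s0 s1 s2 : K) (h : pol (Lo t0 t1 t2 t3 s0 s1 s2) = 0) :
    t0 * (t0 - 3) * (t0 - 8) * (t0 - 15) = 0 ∧ t1 * (t1 - 3) * (t1 - 8) * (t1 - 15) = 0 ∧
    t2 * (t2 - 3) * (t2 - 8) * (t2 - 15) = 0 ∧ t3 * (t3 - 3) * (t3 - 8) * (t3 - 15) = 0 := by
  have e3 : (3 : Matrix (Fin 4) (Fin 4) K) = Matrix.diagonal (fun _ => 3) := rfl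
  have e8 : (8 : Matrix (Fin 4) (Fin 4) K) = Matrix.diagonal (fun _ => 8) := rfl
  have e15 : (15 : Matrix (Fin 4) (Fin 4) K) = Matrix.diagonal (fun _ => 15) := rfl
  rw [pol, e3, e8, e15, Lo_sub, Lo_sub, Lo_sub] at h
  refine ⟨?_, ?_, ?_, ?_⟩
  · have := congrFun (congrFun h 0) 0
    refine Eq.trans ?_ this
    simp [Lo, Matrix.mul_apply, Fin.sum_univ_four]
  · have := congrFun (congrFun h 1) 1
    refine Eq.trans ?_ this
    simp [Lo, Matrix.mul_apply, Fin.sum_univ_four]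
  · have := congrFun (congrFun h 2) 2
    refine Eq.trans ?_ this
    simp [Lo, Matrix.mul_apply, Fin.sum_univ_four]
  · have := congrFun (congrFun h 3) 3
    refine Eq.trans ?_ this
    simp [Lo, Matrix.mul_apply, Fin.sum_univ_four]

omit [CharZero K] in
lemma pol_Up (t0 t1 t2 t3 s0 s1 s2 : K) (h : pol (Up t0 t1 t2 t3 s0 s1 s2) = 0) :
    t0 * (t0 - 3) * (t0 - 8) * (t0 - 15) = 0 ∧ t1 * (t1 - 3) * (t1 - 8) * (t1 - 15) = 0 ∧
    t2 * (t2 - 3) * (t2 - 8) * (t2 - 15) = 0 ∧ t3 * (t3 - 3) * (t3 - 8) * (t3 - 15) = 0 := by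
  have e3 : (3 : Matrix (Fin 4) (Fin 4) K) = Matrix.diagonal (fun _ => 3) := rfl
  have e8 : (8 : Matrix (Fin 4) (Fin 4) K) = Matrix.diagonal (fun _ => 8) := rfl
  have e15 : (15 : Matrix (Fin 4) (Fin 4) K) = Matrix.diagonal (fun _ => 15) := rfl
  rw [pol, e3, e8, e15, Up_sub, Up_sub, Up_sub] at h
  refine ⟨?_, ?_, ?_, ?_⟩
  · have := congrFun (congrFun h 0) 0
    refine Eq.trans ?_ this
    simp [Up, Matrix.mul_apply, Fin.sum_univ_four]
  · have := congrFun (congrFun h 1) 1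
    refine Eq.trans ?_ this
    simp [Up, Matrix.mul_apply, Fin.sum_univ_four]
  · have := congrFun (congrFun h 2) 2
    refine Eq.trans ?_ this
    simp [Up, Matrix.mul_apply, Fin.sum_univ_four]
  · have := congrFun (congrFun h 3) 3
    refine Eq.trans ?_ this
    simp [Up, Matrix.mul_apply, Fin.sum_univ_four]

omit [CharZero K] in
lemma tr1 (t0 t1 t2 t3 s0 s1 s2 : K) : (Lo t0 t1 t2 t3 s0 s1 s2).trace = t0 + t1 + t2 + t3 := by
  simp [Matrix.trace, Lo, Fin.sum_univ_four]
omit [CharZero K] in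
lemma tr1' (t0 t1 t2 t3 s0 s1 s2 : K) : (Up t0 t1 t2 t3 s0 s1 s2).trace = t0 + t1 + t2 + t3 := by
  simp [Matrix.trace, Up, Fin.sum_univ_four]
omit [CharZero K] in
lemma tr2 (t0 t1 t2 t3 s0 s1 s2 u0 u1 u2 u3 r0 r1 r2 : K) :
    (Lo t0 t1 t2 t3 s0 s1 s2 * Up u0 u1 u2 u3 r0 r1 r2).trace =
      t0 * u0 + t1 * u1 + t2 * u2 + t3 * u3 + s0 * r0 + s1 * r1 + s2 * r2 := by
  simp [Matrix.trace, Lo, Up, Fin.sum_univ_four, Matrix.mul_apply]; ring
omit [CharZero K] in
lemma tr3 (t0 t1 t2 t3 s0 s1 s2 u0 u1 u2 u3 r0 r1 r2 : K) :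
    (Lo t0 t1 t2 t3 s0 s1 s2 * Lo t0 t1 t2 t3 s0 s1 s2 * Up u0 u1 u2 u3 r0 r1 r2).trace =
      t0 ^ 2 * u0 + t1 ^ 2 * u1 + t2 ^ 2 * u2 + t3 ^ 2 * u3 + s0 * r0 * (t0 + t1) +
      s1 * r1 * (t1 + t2) + s2 * r2 * (t2 + t3) := by
  simp [Matrix.trace, Lo, Up, Fin.sum_univ_four, Matrix.mul_apply]; ring

/-- The final computation. -/
lemma final (δ : K) (a0 a1 a2 a3 b0 b1 b2 b3 : K)
    (M M' : Matrix (Fin 4) (Fin 4) K)
    (hM : M = Lo (a0 + 3 * (a2 - a1) - 9 * a3) (a0 + (a2 - a1) - a3) (a0 - (a2 - a1) - a3)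
      (a0 - 3 * (a2 - a1) - 9 * a3) (-4 * (a1 + 3 * a3)) (-4 * (a1 + a3)) (-4 * (a1 - a3)))
    (hM' : M' = Up (b0 + 3 * (b1 - b2) - 9 * b3) (b0 + (b1 - b2) - b3) (b0 - (b1 - b2) - b3)
      (b0 - 3 * (b1 - b2) - 9 * b3) (3 * (b2 + 3 * b3)) (4 * (b2 + b3)) (3 * (b2 - b3)))
    (hp : pol M = 0) (hp' : pol M' = 0) (ht : M.trace = 26) (ht' : M'.trace = 26)
    (h2 : (M * M').trace = 42 + 10 * δ) (h3 : (M * M * M').trace = 186 + 122 * δ) : IsSquare δ := by
  rw [hM] at hp ht
  rw [hM'] at hp' ht'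
  rw [hM, hM', tr2] at h2
  rw [hM, hM', tr3] at h3
  rw [tr1] at ht
  rw [tr1'] at ht'
  obtain ⟨p0, p1, p2, p3⟩ := pol_Lo _ _ _ _ _ _ _ hp
  obtain ⟨q0, q1, q2, q3⟩ := pol_Up _ _ _ _ _ _ _ hp'
  have hc := eig_cases _ _ _ _ p0 p1 p2 p3 ht (by ring)
  have hc' := eig_cases _ _ _ _ q0 q1 q2 q3 ht' (by ring)
  clear p0 p1 p2 p3 q0 q1 q2 q3 hp hp' hM hM'
  rcases hc with ⟨c0, c1, c2, c3⟩ | ⟨c0, c1, c2, c3⟩ <;>
    rcases hc' with ⟨d0, d1, d2, d3⟩ | ⟨d0, d1, d2, d3⟩ <;>
    rw [c0, c1, c2, c3, d0, d1, d2, d3] at h2 h3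
  · have ea : a3 = -1 / 4 := by linear_combination (-1 / 16) * (c0 + c3 - c1 - c2)
    have eb : b3 = -1 / 4 := by linear_combination (-1 / 16) * (d0 + d3 - d1 - d2)
    rw [ea, eb] at h2 h3
    have hS : a1 + b2 = 11 / 2 := by linear_combination (61 / 600) * h2 - (1 / 120) * h3
    have hP : a1 * b2 = 121 / 16 - δ / 4 := by linear_combination (1 / 2400) * h2 - (1 / 480) * h3
    exact ⟨a1 - b2, by linear_combination (-(a1 + b2) - 11 / 2) * hS + 4 * hP⟩
  · have ea : a3 = -1 / 4 := by linear_combination (-1 / 16) * (c0 + c3 - c1 - c2)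
    have eb : b3 = -1 / 4 := by linear_combination (-1 / 16) * (d0 + d3 - d1 - d2)
    rw [ea, eb] at h2 h3
    have hS : a1 + b2 = 1 / 2 := by linear_combination (61 / 600) * h2 - (1 / 120) * h3
    have hP : a1 * b2 = 1 / 16 - δ / 4 := by linear_combination (1 / 2400) * h2 - (1 / 480) * h3
    exact ⟨a1 - b2, by linear_combination (-(a1 + b2) - 1 / 2) * hS + 4 * hP⟩
  · have ea : a3 = -1 / 4 := by linear_combination (-1 / 16) * (c0 + c3 - c1 - c2)
    have eb : b3 = -1 / 4 := by linear_combination (-1 / 16) * (d0 + d3 - d1 - d2)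
    rw [ea, eb] at h2 h3
    have hS : a1 + b2 = 1 / 2 := by linear_combination (-61 / 600) * h2 + (1 / 120) * h3
    have hP : a1 * b2 = 1 / 16 - δ / 4 := by linear_combination (-121 / 2400) * h2 + (1 / 480) * h3
    exact ⟨a1 - b2, by linear_combination (-(a1 + b2) - 1 / 2) * hS + 4 * hP⟩
  · have ea : a3 = -1 / 4 := by linear_combination (-1 / 16) * (c0 + c3 - c1 - c2)
    have eb : b3 = -1 / 4 := by linear_combination (-1 / 16) * (d0 + d3 - d1 - d2)
    rw [ea, eb] at h2 h3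
    have hS : a1 + b2 = -9 / 2 := by linear_combination (-61 / 600) * h2 + (1 / 120) * h3
    have hP : a1 * b2 = 81 / 16 - δ / 4 := by linear_combination (-121 / 2400) * h2 + (1 / 480) * h3
    exact ⟨a1 - b2, by linear_combination (-(a1 + b2) + 9 / 2) * hS + 4 * hP⟩

end Traces

section Main

variable [CharZero K] {V : Type} [AddCommGroup V] [Module K V] [FiniteDimensional K V]

lemma toMat (b : Module.Basis (Fin 4) K V) (g : Module.End K V) (M : Matrix (Fin 4) (Fin 4) K)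
    (h : ∀ j, g (b j) = ∑ i, M i j • b i) : LinearMap.toMatrix b b g = M := by
  ext i j
  rw [LinearMap.toMatrix_apply, h, map_sum, Finsupp.finset_sum_apply]
  simp [Finsupp.single_apply]

lemma module_form (hdim : Module.finrank K V = 4) (x y z : Module.End K V) (hE : IsEquitable x y z)
    (hI : IsIrreducible x y z) (a0 a1 a2 a3 b0 b1 b2 b3 : K) :
    ∃ b : Module.Basis (Fin 4) K V,
      LinearMap.toMatrix b b (a0 • 1 + a1 • x + a2 • y + a3 • (x * y)) =
        Lo (a0 + 3 * (a2 - a1) - 9 * a3) (a0 + (a2 - a1) - a3) (a0 - (a2 - a1) - a3)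
      (a0 - 3 * (a2 - a1) - 9 * a3) (-4 * (a1 + 3 * a3)) (-4 * (a1 + a3)) (-4 * (a1 - a3)) ∧
      LinearMap.toMatrix b b (b0 • 1 + b1 • y + b2 • z + b3 • (y * z)) =
       Up (b0 + 3 * (b1 - b2) - 9 * b3) (b0 + (b1 - b2) - b3) (b0 - (b1 - b2) - b3)
      (b0 - 3 * (b1 - b2) - 9 * b3) (3 * (b2 + 3 * b3)) (4 * (b2 + b3)) (3 * (b2 - b3)) := by
  obtain ⟨hxy, hyz, hzx⟩ := hE
  have e1 : (y + z) * ((-1 / 4 : K) • (x + y)) - ((-1 / 4 : K) • (x + y)) * (y + z) = y := by
    have : (y + z) * ((-1 / 4 : K) • (x + y)) - ((-1 / 4 : K) • (x + y)) * (y + z) =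
        (-1 / 4 : K) • (-(x * y - y * x) + (z * x - x * z) - (y * z - z * y)) := by
      rw [mul_smul_comm, smul_mul_assoc, ← smul_sub]
      congr 1
      noncomm_ring
    rw [this, hxy, hyz, hzx]
    module
  have e2 : y * (y + z) - (y + z) * y = (2 : K) • (y + z) := by
    have : y * (y + z) - (y + z) * y = y * z - z * y := by noncomm_ring
    rw [this, hyz]; module
  have e3 : y * ((-1 / 4 : K) • (x + y)) - ((-1 / 4 : K) • (x + y)) * y =
      -((2 : K) • ((-1 / 4 : K) • (x + y))) := by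
    have : y * ((-1 / 4 : K) • (x + y)) - ((-1 / 4 : K) • (x + y)) * y =
        (-1 / 4 : K) • (-(x * y - y * x)) := by
      rw [mul_smul_comm, smul_mul_assoc, ← smul_sub]
      congr 1
      noncomm_ring
    rw [this, hxy]; module
  obtain ⟨b, ⟨y0, y1, y2, y3⟩, ⟨f0, f1, f2, f3⟩, ⟨g0, g1, g2, g3⟩⟩ :=
    exists_basis hdim y (y + z) ((-1 / 4 : K) • (x + y)) e1 e2 e3 (by
      intro W w1 w2 w3
      apply hI
      intro w hw
      have k1 := w1 w hw
      have k2 := w2 w hw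
      have k3 := w3 w hw
      refine ⟨?_, k1, ?_⟩
      · have : x w = (-4 : K) • (((-1 / 4 : K) • (x + y)) w) - y w := by
          simp only [LinearMap.smul_apply, LinearMap.add_apply]
          module
        rw [this]
        exact sub_mem (Submodule.smul_mem _ _ k3) k1
      · have : z w = (y + z) w - y w := by simp
        rw [this]
        exact sub_mem k2 k1)
  have hx : ∀ v, x v = (-4 : K) • (((-1 / 4 : K) • (x + y)) v) - y v := fun v => by
    simp only [LinearMap.smul_apply, LinearMap.add_apply]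
    module
  have hz : ∀ v, z v = (y + z) v - y v := fun v => by simp
  have x0 := hx (b 0)
  have x1 := hx (b 1)
  have x2 := hx (b 2)
  have x3 := hx (b 3)
  rw [f0, y0] at x0
  rw [f1, y1] at x1
  rw [f2, y2] at x2
  rw [f3, y3] at x3
  have z0 := hz (b 0)
  have z1 := hz (b 1)
  have z2 := hz (b 2)
  have z3 := hz (b 3)
  rw [g0, y0] at z0
  rw [g1, y1] at z1
  rw [g2, y2] at z2
  rw [g3, y3] at z3
  refine ⟨b, toMat _ _ _ ?_, toMat _ _ _ ?_⟩
  · intro j
    fin_cases j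
    · simp only [Fin.zero_eta, LinearMap.add_apply, LinearMap.smul_apply, Module.End.one_apply,
        Module.End.mul_apply, y0, map_smul, x0, Fin.sum_univ_four]
      simp [Lo]
      module
    · simp only [Fin.mk_one, LinearMap.add_apply, LinearMap.smul_apply, Module.End.one_apply,
        Module.End.mul_apply, y1, map_smul, x1, Fin.sum_univ_four]
      simp [Lo]
      module
    · simp only [Fin.reduceFinMk, LinearMap.add_apply, LinearMap.smul_apply, Module.End.one_apply,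
        Module.End.mul_apply, y2, map_smul, x2, Fin.sum_univ_four]
      simp [Lo]
      module
    · simp only [Fin.reduceFinMk, LinearMap.add_apply, LinearMap.smul_apply, Module.End.one_apply,
        Module.End.mul_apply, y3, map_smul, x3, Fin.sum_univ_four]
      simp [Lo]
      module
  · intro j
    fin_cases j
    · simp only [Fin.zero_eta, LinearMap.add_apply, LinearMap.smul_apply, Module.End.one_apply,
        Module.End.mul_apply, z0, y0, map_smul, map_sub, map_zero, Fin.sum_univ_four]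
      simp [Up]
      module
    · simp only [Fin.mk_one, LinearMap.add_apply, LinearMap.smul_apply, Module.End.one_apply,
        Module.End.mul_apply, z1, y0, y1, map_smul, map_sub, Fin.sum_univ_four]
      simp [Up]
      module
    · simp only [Fin.reduceFinMk, LinearMap.add_apply, LinearMap.smul_apply, Module.End.one_apply,
        Module.End.mul_apply, z2, y1, y2, map_smul, map_sub, Fin.sum_univ_four]
      simp [Up]
      module
    · simp only [Fin.reduceFinMk, LinearMap.add_apply, LinearMap.smul_apply, Module.End.one_apply,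
        Module.End.mul_apply, z3, y2, y3, map_smul, map_sub, Fin.sum_univ_four]
      simp [Up]
      module

/-- conjugation of matrices as a change of basis -/
lemma exists_conj (P Q : Matrix (Fin 4) (Fin 4) K) (hPQ : P * Q = 1) (hQP : Q * P = 1) :
    ∃ b : Module.Basis (Fin 4) K (Fin 4 → K), ∀ N : Matrix (Fin 4) (Fin 4) K,
      LinearMap.toMatrix b b (Matrix.toLin' N) = Q * N * P := by
  let e : (Fin 4 → K) ≃ₗ[K] (Fin 4 → K) := Matrix.toLin'OfInv hQP hPQ
  refine ⟨(Pi.basisFun K (Fin 4)).map e, fun N => ?_⟩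
  ext i j
  rw [LinearMap.toMatrix_apply]
  have h1 : ((Pi.basisFun K (Fin 4)).map e) j = P *ᵥ (Pi.single j 1) := by
    rw [Module.Basis.map_apply, Pi.basisFun_apply]
    rfl
  rw [h1, Module.Basis.map_repr, LinearEquiv.trans_apply]
  have h2 : e.symm (Matrix.toLin' N (P *ᵥ Pi.single j 1)) = Q *ᵥ (N *ᵥ (P *ᵥ Pi.single j 1)) := rfl
  rw [h2, Matrix.mulVec_mulVec, Matrix.mulVec_mulVec, Pi.basisFun_repr, Matrix.mulVec_single_one]
  rfl

/-- `A` -/
def mA : Matrix (Fin 4) (Fin 4) K := Lo 0 3 8 15 1 1 1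
/-- `A'` -/
def mA' (δ : K) : Matrix (Fin 4) (Fin 4) K :=
  Up 0 3 8 15 (-3 * (16 - δ)) (-4 * (25 - δ)) (-3 * (36 - δ))

/-- eigenvectors of `A` -/
def mP : Matrix (Fin 4) (Fin 4) K :=
  !![1, 0, 0, 0; -1/3, 1, 0, 0; 1/24, -1/5, 1, 0; -1/360, 1/60, -1/7, 1]
/-- inverse of `mP` -/
def mQ : Matrix (Fin 4) (Fin 4) K :=
  !![1, 0, 0, 0; 1/3, 1, 0, 0; 1/40, 1/5, 1, 0; 1/1260, 1/84, 1/7, 1]

lemma PQ : (mP : Matrix (Fin 4) (Fin 4) K) * mQ = 1 := by
  ext i j
  fin_cases i <;> fin_cases j <;> simp [mP, mQ, Matrix.mul_apply, Fin.sum_univ_four] <;> norm_num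

lemma QP : (mQ : Matrix (Fin 4) (Fin 4) K) * mP = 1 := by
  ext i j
  fin_cases i <;> fin_cases j <;> simp [mP, mQ, Matrix.mul_apply, Fin.sum_univ_four] <;> norm_num

lemma conjA : (mQ : Matrix (Fin 4) (Fin 4) K) * mA * mP = !![0, 0, 0, 0; 0, 3, 0, 0; 0, 0, 8, 0; 0, 0, 0, 15] := by
  ext i j
  fin_cases i <;> fin_cases j <;>
    simp [mP, mQ, mA, Lo, Matrix.mul_apply, Fin.sum_univ_four] <;> norm_num

lemma conjA' (δ : K) : (mQ : Matrix (Fin 4) (Fin 4) K) * mA' δ * mP =
    !![16 - δ, 3 * (δ - 16), 0, 0; (1 - δ) / 6, 7 + δ / 5, 4 * (δ - 25), 0;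
      0, -7 * δ / 200, 24 / 7 + 13 * δ / 35, 3 * (δ - 36);
      0, 0, 2 * (1 - δ) / 147, 3 * (δ - 1) / 7] := by
  ext i j
  fin_cases i <;> fin_cases j <;>
    simp [mP, mQ, mA', Up, Matrix.mul_apply, Fin.sum_univ_four] <;> ring

/-- eigenvectors of `A'` -/
def mR (δ : K) : Matrix (Fin 4) (Fin 4) K :=
  !![1, (-3 * (16 - δ)) * (1/3), (-3 * (16 - δ)) * (-4 * (25 - δ)) * (1/40),
      (-3 * (16 - δ)) * (-4 * (25 - δ)) * (-3 * (36 - δ)) * (1/1260);
    0, 1, (-4 * (25 - δ)) * (1/5), (-4 * (25 - δ)) * (-3 * (36 - δ)) * (1/84);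
    0, 0, 1, (-3 * (36 - δ)) * (1/7);
    0, 0, 0, 1]
/-- inverse of `mR` -/
def mS (δ : K) : Matrix (Fin 4) (Fin 4) K :=
  !![1, (-3 * (16 - δ)) * (-1/3), (-3 * (16 - δ)) * (-4 * (25 - δ)) * (1/24),
      (-3 * (16 - δ)) * (-4 * (25 - δ)) * (-3 * (36 - δ)) * (-1/360);
    0, 1, (-4 * (25 - δ)) * (-1/5), (-4 * (25 - δ)) * (-3 * (36 - δ)) * (1/60);
    0, 0, 1, (-3 * (36 - δ)) * (-1/7);
    0, 0, 0, 1]

lemma RS (δ : K) : mR δ * mS δ = 1 := by
  ext i j
  fin_cases i <;> fin_cases j <;> simp [mR, mS, Matrix.mul_apply, Fin.sum_univ_four] <;> ring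

lemma SR (δ : K) : mS δ * mR δ = 1 := by
  ext i j
  fin_cases i <;> fin_cases j <;> simp [mR, mS, Matrix.mul_apply, Fin.sum_univ_four] <;> ring

lemma conjR' (δ : K) : mS δ * mA' δ * mR δ = !![0, 0, 0, 0; 0, 3, 0, 0; 0, 0, 8, 0; 0, 0, 0, 15] := by
  ext i j
  fin_cases i <;> fin_cases j <;>
    simp [mR, mS, mA', Up, Matrix.mul_apply, Fin.sum_univ_four] <;> ring

lemma conjR (δ : K) : mS δ * mA * mR δ =
    !![16 - δ, (1 - δ) / 6 * (-3 * (16 - δ)), 0, 0; 1, 7 + δ / 5, -7 * δ / 200 * (-4 * (25 - δ)), 0;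
      0, 1, 24 / 7 + 13 * δ / 35, 2 * (1 - δ) / 147 * (-3 * (36 - δ));
      0, 0, 1, 3 * (δ - 1) / 7] := by
  ext i j
  fin_cases i <;> fin_cases j <;>
    simp [mR, mS, mA, Lo, Matrix.mul_apply, Fin.sum_univ_four] <;> ring

omit [CharZero K] in
lemma irred4 (p0 p1 p2 p3 u0 u1 u2 l0 l1 l2 : K) (h0 : u0 ≠ 0) (h1 : u1 ≠ 0) (h2 : u2 ≠ 0)
    (g0 : l0 ≠ 0) (g1 : l1 ≠ 0) (g2 : l2 ≠ 0) :
    IsIrredTridiagonal (!![p0, u0, 0, 0; l0, p1, u1, 0; 0, l1, p2, u2; 0, 0, l2, p3] :
      Matrix (Fin 4) (Fin 4) K) := by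
  constructor
  · intro i j h
    fin_cases i <;> fin_cases j <;> simp at h ⊢
  · intro i j h
    fin_cases i <;> fin_cases j <;> simp at h ⊢ <;> exact ⟨by assumption, by assumption⟩

omit [CharZero K] in
lemma diag4 (p0 p1 p2 p3 : K) : (!![p0, 0, 0, 0; 0, p1, 0, 0; 0, 0, p2, 0; 0, 0, 0, p3] :
      Matrix (Fin 4) (Fin 4) K).IsDiag := by
  intro i j h
  fin_cases i <;> fin_cases j <;> simp at h ⊢

lemma nonsq (δ : K) (hδ : ¬ IsSquare δ) (n : K) : n * n - δ ≠ 0 := fun h =>
  hδ ⟨n, (sub_eq_zero.mp h).symm⟩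

lemma pair (δ : K) (hδ : ¬ IsSquare δ) :
    IsLeonardPair 3 (Matrix.toLin' (mA (K := K))) (Matrix.toLin' (mA' δ)) ∧
      HasBetaTwo 3 (Matrix.toLin' (mA (K := K))) (Matrix.toLin' (mA' δ)) := by
  have n0 : δ ≠ 0 := by
    have := nonsq δ hδ 0
    intro h; apply this; rw [h]; ring
  have n1 : (1 : K) - δ ≠ 0 := by
    have := nonsq δ hδ 1
    intro h; apply this; linear_combination h
  have n16 : (16 : K) - δ ≠ 0 := by
    have := nonsq δ hδ 4
    intro h; apply this; linear_combination h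
  have n25 : (25 : K) - δ ≠ 0 := by
    have := nonsq δ hδ 5
    intro h; apply this; linear_combination h
  have n36 : (36 : K) - δ ≠ 0 := by
    have := nonsq δ hδ 6
    intro h; apply this; linear_combination h
  have n16' : δ - 16 ≠ 0 := by intro h; apply n16; linear_combination -h
  have n25' : δ - 25 ≠ 0 := by intro h; apply n25; linear_combination -h
  have n36' : δ - 36 ≠ 0 := by intro h; apply n36; linear_combination -h
  obtain ⟨b, hb⟩ := exists_conj (mP (K := K)) mQ PQ QP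
  obtain ⟨c, hc⟩ := exists_conj (mR δ) (mS δ) (RS δ) (SR δ)
  have tri1 : IsIrredTridiagonal (LinearMap.toMatrix b b (Matrix.toLin' (mA' δ))) := by
    rw [hb, conjA']
    apply irred4
    · exact mul_ne_zero (by norm_num) n16'
    · exact mul_ne_zero (by norm_num) n25'
    · exact mul_ne_zero (by norm_num) n36'
    · exact div_ne_zero n1 (by norm_num)
    · exact div_ne_zero (mul_ne_zero (by norm_num) n0) (by norm_num)
    · exact div_ne_zero (mul_ne_zero (by norm_num) n1) (by norm_num)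
  have dia1 : (LinearMap.toMatrix b b (Matrix.toLin' (mA (K := K)))).IsDiag := by
    rw [hb, conjA]
    exact diag4 _ _ _ _
  refine ⟨⟨⟨c, ?_, ?_⟩, ⟨b, tri1, dia1⟩⟩, ⟨b, tri1, dia1, ?_⟩⟩
  · rw [hc, conjR]
    apply irred4
    · exact mul_ne_zero (div_ne_zero n1 (by norm_num)) (mul_ne_zero (by norm_num) n16)
    · exact mul_ne_zero (div_ne_zero (mul_ne_zero (by norm_num) n0) (by norm_num))
        (mul_ne_zero (by norm_num) n25)
    · exact mul_ne_zero (div_ne_zero (mul_ne_zero (by norm_num) n1) (by norm_num))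
        (mul_ne_zero (by norm_num) n36)
    · exact one_ne_zero
    · exact one_ne_zero
    · exact one_ne_zero
  · rw [hc, conjR']
    exact diag4 _ _ _ _
  · intro i j k l h1 h2 h3
    rw [hb, conjA]
    have hi : i = 0 := Fin.ext (by have := l.isLt; simp; omega)
    have hj : j = 1 := Fin.ext (by subst hi; simpa using h1)
    have hk : k = 2 := Fin.ext (by subst hi; simpa using h2)
    have hl : l = 3 := Fin.ext (by subst hi; simpa using h3)
    subst hi hj hk hl
    simp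
    norm_num

/-- main theorem -/
theorem main (δ : K) (hδ : ¬ IsSquare δ) : ∃ A A' : Module.End K (Fin 4 → K),
    IsLeonardPair 3 A A' ∧ HasBetaTwo 3 A A' ∧
      ∀ x y z : Module.End K (Fin 4 → K), IsEquitable x y z → IsIrreducible x y z →
        ¬ (A ∈ Submodule.span K {1, x, y, x * y} ∧ A' ∈ Submodule.span K {1, y, z, y * z}) := by
  refine ⟨Matrix.toLin' mA, Matrix.toLin' (mA' δ), (pair δ hδ).1, (pair δ hδ).2, ?_⟩
  rintro x y z hE hI ⟨h1, h2⟩
  obtain ⟨a0, a1, a2, a3, hA⟩ : ∃ a0 a1 a2 a3 : K,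
      Matrix.toLin' mA = a0 • 1 + a1 • x + a2 • y + a3 • (x * y) := by
    rw [Submodule.mem_span_insert] at h1
    obtain ⟨a0, w, hw, h1⟩ := h1
    rw [Submodule.mem_span_insert] at hw
    obtain ⟨a1, w', hw', rfl⟩ := hw
    obtain ⟨a2, a3, rfl⟩ := Submodule.mem_span_pair.mp hw'
    exact ⟨a0, a1, a2, a3, by rw [h1]; abel⟩
  obtain ⟨b0, b1, b2, b3, hB⟩ : ∃ a0 a1 a2 a3 : K,
      Matrix.toLin' (mA' δ) = a0 • 1 + a1 • y + a2 • z + a3 • (y * z) := by
    rw [Submodule.mem_span_insert] at h2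
    obtain ⟨a0, w, hw, h1⟩ := h2
    rw [Submodule.mem_span_insert] at hw
    obtain ⟨a1, w', hw', rfl⟩ := hw
    obtain ⟨a2, a3, rfl⟩ := Submodule.mem_span_pair.mp hw'
    exact ⟨a0, a1, a2, a3, by rw [h1]; abel⟩
  obtain ⟨b, hb1, hb2⟩ := module_form (by simp) x y z hE hI a0 a1 a2 a3 b0 b1 b2 b3
  rw [← hA] at hb1
  rw [← hB] at hb2
  have htr : ∀ N : Matrix (Fin 4) (Fin 4) K,
      (LinearMap.toMatrix b b (Matrix.toLin' N)).trace = N.trace := by
    intro N
    rw [← LinearMap.trace_eq_matrix_trace K b, LinearMap.trace_eq_matrix_trace K (Pi.basisFun K (Fin 4))]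
    congr 1
    exact LinearMap.toMatrix'_toLin' N
  have hmul : ∀ N N' : Matrix (Fin 4) (Fin 4) K,
      LinearMap.toMatrix b b (Matrix.toLin' (N * N')) =
        LinearMap.toMatrix b b (Matrix.toLin' N) * LinearMap.toMatrix b b (Matrix.toLin' N') := by
    intro N N'
    rw [Matrix.toLin'_mul, ← LinearMap.toMatrix_mul]
    rfl
  have hpol : ∀ N : Matrix (Fin 4) (Fin 4) K, pol N = 0 →
      pol (LinearMap.toMatrix b b (Matrix.toLin' N)) = 0 := by
    intro N hN
    let φ := (Matrix.toLinAlgEquiv' (R := K) (n := Fin 4)).trans (LinearMap.toMatrixAlgEquiv b)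
    have h3 : LinearMap.toMatrix b b (Matrix.toLin' N) = φ N := rfl
    have h4 : pol (φ N) = φ (pol N) := by
      have e3 : φ 3 = 3 := map_ofNat φ 3
      have e8 : φ 8 = 8 := map_ofNat φ 8
      have e15 : φ 15 = 15 := map_ofNat φ 15
      rw [pol, pol, map_mul, map_mul, map_mul, map_sub, map_sub, map_sub, e3, e8, e15]
    rw [h3, h4, hN, map_zero]
  apply hδ
  refine final δ a0 a1 a2 a3 b0 b1 b2 b3 _ _ hb1 hb2 (hpol _ ?_) (hpol _ ?_) ?_ ?_ ?_ ?_
  · have e3 : (3 : Matrix (Fin 4) (Fin 4) K) = Matrix.diagonal (fun _ => 3) := rfl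
    have e8 : (8 : Matrix (Fin 4) (Fin 4) K) = Matrix.diagonal (fun _ => 8) := rfl
    have e15 : (15 : Matrix (Fin 4) (Fin 4) K) = Matrix.diagonal (fun _ => 15) := rfl
    rw [pol, e3, e8, e15, mA, Lo_sub, Lo_sub, Lo_sub]
    ext i j
    fin_cases i <;> fin_cases j <;> simp [Lo, Matrix.mul_apply, Fin.sum_univ_four] <;> norm_num
  · have e3 : (3 : Matrix (Fin 4) (Fin 4) K) = Matrix.diagonal (fun _ => 3) := rfl
    have e8 : (8 : Matrix (Fin 4) (Fin 4) K) = Matrix.diagonal (fun _ => 8) := rfl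
    have e15 : (15 : Matrix (Fin 4) (Fin 4) K) = Matrix.diagonal (fun _ => 15) := rfl
    rw [pol, e3, e8, e15, mA', Up_sub, Up_sub, Up_sub]
    ext i j
    fin_cases i <;> fin_cases j <;> simp [Up, Matrix.mul_apply, Fin.sum_univ_four] <;> ring
  · rw [htr, mA, tr1]; norm_num
  · rw [htr, mA', tr1']; norm_num
  · rw [← hmul, htr, mA, mA', tr2]; ring
  · rw [← hmul, ← hmul, htr, mA, mA', tr3]; ring

end Main

end Pool.Agent.Q112.Leo
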