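import Mathlib
import Pool.Agent.Q112.Leonard

set_option maxHeartbeats 4000000

open Matrix

namespace Pool.Agent.Q112.Leo

variable {K : Type} [Field K]

/-- The triple `A, A', A''` is a Leonard triple on the `(d+1)`-dimensional space `V`: for each of
the three maps some basis of `V` makes that map diagonal and the other two irreducible
tridiagonal. -/
structure IsLeonardTriple (d : ℕ) {V : Type} [AddCommGroup V] [Module K V]
    (A A' A'' : Module.End K V) : Prop where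
  fst : ∃ b : Module.Basis (Fin (d + 1)) K V, (LinearMap.toMatrix b b A).IsDiag ∧
    IsIrredTridiagonal (LinearMap.toMatrix b b A') ∧ IsIrredTridiagonal (LinearMap.toMatrix b b A'')
  snd : ∃ b : Module.Basis (Fin (d + 1)) K V, (LinearMap.toMatrix b b A').IsDiag ∧
    IsIrredTridiagonal (LinearMap.toMatrix b b A'') ∧ IsIrredTridiagonal (LinearMap.toMatrix b b A)
  trd : ∃ b : Module.Basis (Fin (d + 1)) K V, (LinearMap.toMatrix b b A'').IsDiag ∧
    IsIrredTridiagonal (LinearMap.toMatrix b b A) ∧ IsIrredTridiagonal (LinearMap.toMatrix b b A')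

section Dim3

variable [CharZero K] {V : Type} [AddCommGroup V] [Module K V] [FiniteDimensional K V]

/-- the structure of an irreducible three-dimensional module -/
lemma exists_basis3 (hdim : Module.finrank K V = 3) (h e f : Module.End K V)
    (hef : e * f - f * e = h) (hhe : h * e - e * h = (2 : K) • e) (hhf : h * f - f * h = -((2 : K) • f))
    (irr : ∀ W : Submodule K V, (∀ w ∈ W, h w ∈ W) → (∀ w ∈ W, e w ∈ W) → (∀ w ∈ W, f w ∈ W) →
      W = ⊥ ∨ W = ⊤) :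
    ∃ b : Module.Basis (Fin 3) K V, (h (b 0) = (2 : K) • b 0 ∧ h (b 1) = 0 ∧
      h (b 2) = (-2 : K) • b 2) ∧
      (f (b 0) = b 1 ∧ f (b 1) = b 2 ∧ f (b 2) = 0) ∧
      (e (b 0) = 0 ∧ e (b 1) = (2 : K) • b 0 ∧ e (b 2) = (2 : K) • b 1) := by
  haveI : Nontrivial V := Module.nontrivial_of_finrank_pos (R := K) (by omega)
  obtain ⟨k, u, hu0, hue, huh⟩ := exists_prim h e f hef hhe
  have Hfh : h * f = f * h - (2 : K) • f := by
    have : h * f = (h * f - f * h) + f * h := by abel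
    rw [this, hhf]; abel
  have Hef : e * f = f * e + h := by rw [← hef]; abel
  set ψ : ℕ → V := fun n => (f ^ n) u with hψ
  have ψ0 : ψ 0 = u := by simp [hψ]
  have ψs : ∀ n, f (ψ n) = ψ (n + 1) := fun n => by
    simp only [hψ]; rw [pow_succ']; rfl
  have hh : ∀ n, h (ψ n) = ((k : K) - 2 * n) • ψ n := by
    intro n
    induction n with
    | zero => rw [ψ0, huh]; simp
    | succ n ih =>
      rw [← ψs n, ← Module.End.mul_apply, Hfh, LinearMap.sub_apply, Module.End.mul_apply, ih,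
        LinearMap.smul_apply, map_smul]
      push_cast
      module
  have he : ∀ n, e (ψ (n + 1)) = (((n : K) + 1) * ((k : K) - n)) • ψ n := by
    intro n
    induction n with
    | zero =>
      rw [← ψs 0, ← Module.End.mul_apply, Hef, LinearMap.add_apply, Module.End.mul_apply, ψ0, hue,
        map_zero, huh]
      simp
    | succ n ih =>
      rw [← ψs (n + 1), ← Module.End.mul_apply, Hef, LinearMap.add_apply, Module.End.mul_apply, ih,
        map_smul, ψs, hh]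
      push_cast
      module
  -- the weights are distinct
  have hinj : Function.Injective (fun n : ℕ => (k : K) - 2 * n) := by
    intro a b hab
    have : (2 : K) * a = 2 * b := by simpa using hab
    have : (a : K) = b := mul_left_cancel₀ (two_ne_zero) this
    exact_mod_cast this
  have hfin : ∀ m, ∃ n, m ≤ n ∧ ψ n = 0 := by
    intro m
    by_contra hc
    push Not at hc
    have h3 := h.finite_hasEigenvalue
    have h4 : Set.Finite (Set.range fun n : ℕ => (k : K) - 2 * ((m + n : ℕ) : K)) := by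
      refine h3.subset ?_
      rintro _ ⟨n, rfl⟩
      exact Module.End.hasEigenvalue_of_hasEigenvector (x := ψ (m + n))
        ⟨Module.End.mem_eigenspace_iff.mpr (hh _), hc _ (by omega)⟩
    have h5 : Function.Injective (fun n : ℕ => (k : K) - 2 * ((m + n : ℕ) : K)) := by
      intro a b hab
      have := hinj hab
      omega
    exact Set.infinite_range_of_injective h5 h4
  have hk1 : ψ (k + 1) = 0 := by
    obtain ⟨n, hn, hn0⟩ := hfin (k + 1)
    clear hfin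
    obtain ⟨j, rfl⟩ := Nat.exists_eq_add_of_le hn
    clear hn
    induction j with
    | zero => exact hn0
    | succ j ih =>
      apply ih
      have h1 := he (k + 1 + j)
      rw [show k + 1 + j + 1 = k + 1 + (j + 1) by omega, hn0, map_zero] at h1
      refine (smul_eq_zero.mp h1.symm).resolve_left ?_
      apply mul_ne_zero
      · exact_mod_cast Nat.succ_ne_zero (k + 1 + j)
      · push_cast
        intro h2
        have h3 : ((j : K) + 1) = 0 := by linear_combination -h2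
        exact_mod_cast h3
  have hne : ∀ i, i ≤ k → ψ i ≠ 0 := by
    intro i
    induction i with
    | zero => intro _; rw [ψ0]; exact hu0
    | succ i ih =>
      intro hi h0
      have h1 := he i
      rw [h0, map_zero] at h1
      rcases smul_eq_zero.mp h1.symm with h2 | h2
      · rcases mul_eq_zero.mp h2 with h3 | h3
        · exact absurd h3 (by exact_mod_cast Nat.succ_ne_zero i)
        · have : (k : K) = i := sub_eq_zero.mp h3
          have : k = i := by exact_mod_cast this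
          omega
      · exact ih (by omega) h2
  -- linear independence
  have hli : LinearIndependent K (fun i : Fin (k + 1) => ψ i) := by
    apply Module.End.eigenvectors_linearIndependent' h (fun i : Fin (k + 1) => (k : K) - 2 * (i : ℕ))
    · intro a b hab
      exact Fin.ext (hinj hab)
    · intro i
      exact ⟨Module.End.mem_eigenspace_iff.mpr (hh _), hne _ (by omega)⟩
  -- the span
  set W := Submodule.span K (Set.range (fun i : Fin (k + 1) => ψ i)) with hW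
  have hψW : ∀ i, ψ i ∈ W := by
    intro i
    by_cases hi : i ≤ k
    · exact Submodule.subset_span ⟨⟨i, by omega⟩, rfl⟩
    · have : ψ i = 0 := by
        obtain ⟨j, rfl⟩ := Nat.exists_eq_add_of_le (show k + 1 ≤ i by omega)
        clear hi
        induction j with
        | zero => exact hk1
        | succ j ih => rw [← add_assoc, ← ψs, ih, map_zero]
      rw [this]; exact zero_mem _
  have hclosed : ∀ g : Module.End K V, (∀ i, g (ψ i) ∈ W) → ∀ w ∈ W, g w ∈ W := by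
    intro g hg w hw
    induction hw using Submodule.span_induction with
    | zero => rw [map_zero]; exact zero_mem _
    | add x y _ _ hx hy => rw [map_add]; exact add_mem hx hy
    | smul c x _ hx => rw [map_smul]; exact Submodule.smul_mem _ _ hx
    | mem x hx => obtain ⟨i, rfl⟩ := hx; exact hg i
  have hWtop : W = ⊤ := by
    rcases irr W (hclosed h fun i => by rw [hh]; exact Submodule.smul_mem _ _ (hψW i))
      (hclosed e fun i => by
        cases i with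
        | zero => rw [ψ0, hue]; exact zero_mem _
        | succ i => rw [he]; exact Submodule.smul_mem _ _ (hψW i))
      (hclosed f fun i => by rw [ψs]; exact hψW _) with h1 | h1
    · exfalso
      have := hψW 0
      rw [h1, ψ0] at this
      exact hu0 (by simpa using this)
    · exact h1
  have hk : k + 1 = 3 := by
    have := finrank_span_eq_card hli
    rw [← hW, hWtop, finrank_top, hdim, Fintype.card_fin] at this
    exact this.symm
  obtain rfl : k = 2 := by omega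
  let b : Module.Basis (Fin 3) K V := Module.Basis.mk hli (by rw [← hW, hWtop])
  have hb : ∀ i, b i = ψ i := fun i => Module.Basis.mk_apply _ _ i
  have h30 : ψ 3 = 0 := hk1
  refine ⟨b, ⟨?_, ?_, ?_⟩, ⟨?_, ?_, ?_⟩, ?_, ?_, ?_⟩
  · rw [hb]; simpa using hh 0
  · rw [hb]
    have := hh 1
    norm_num at this
    simpa using this
  · rw [hb]
    have := hh 2
    norm_num at this
    simpa using this
  · rw [hb, hb]; exact ψs 0
  · rw [hb, hb]; exact ψs 1
  · rw [hb]; exact (ψs 2).trans h30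
  · rw [hb]; change e (ψ 0) = 0; rw [ψ0, hue]
  · rw [hb, hb]
    have := he 0
    norm_num at this
    simpa using this
  · rw [hb, hb]
    have := he 1
    norm_num at this
    simpa using this


lemma toMat3 (b : Module.Basis (Fin 3) K V) (g : Module.End K V) (M : Matrix (Fin 3) (Fin 3) K)
    (h : ∀ j, g (b j) = ∑ i, M i j • b i) : LinearMap.toMatrix b b g = M := by
  ext i j
  rw [LinearMap.toMatrix_apply, h, map_sum, Finsupp.finset_sum_apply]
  simp [Finsupp.single_apply]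

/-- explicit matrices of a three-dimensional irreducible module -/
lemma module_form3 (hdim : Module.finrank K V = 3) (x y z : Module.End K V) (hE : IsEquitable x y z)
    (hI : IsIrreducible x y z) :
    ∃ b : Module.Basis (Fin 3) K V,
      LinearMap.toMatrix b b x = !![-2, 0, 0; -4, 0, 0; 0, -4, 2] ∧
      LinearMap.toMatrix b b y = !![2, 0, 0; 0, 0, 0; 0, 0, -2] ∧
      LinearMap.toMatrix b b z = !![-2, 2, 0; 0, 0, 2; 0, 0, 2] := by
  obtain ⟨hxy, hyz, hzx⟩ := hE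
  have e1 : (y + z) * ((-1 / 4 : K) • (x + y)) - ((-1 / 4 : K) • (x + y)) * (y + z) = y := by
    have : (y + z) * ((-1 / 4 : K) • (x + y)) - ((-1 / 4 : K) • (x + y)) * (y + z) =
        (-1 / 4 : K) • (-(x * y - y * x) + (z * x - x * z) - (y * z - z * y)) := by
      rw [mul_smul_comm, smul_mul_assoc, ← smul_sub]
      congr 1
      noncomm_ring
    rw [this, hxy, hyz, hzx]
    module
  have e2 : y * (y + z) - (y + z) * y = (2 : K) • (y + z) := by
    have : y * (y + z) - (y + z) * y = y * z - z * y := by noncomm_ring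
    rw [this, hyz]; module
  have e3 : y * ((-1 / 4 : K) • (x + y)) - ((-1 / 4 : K) • (x + y)) * y =
      -((2 : K) • ((-1 / 4 : K) • (x + y))) := by
    have : y * ((-1 / 4 : K) • (x + y)) - ((-1 / 4 : K) • (x + y)) * y =
        (-1 / 4 : K) • (-(x * y - y * x)) := by
      rw [mul_smul_comm, smul_mul_assoc, ← smul_sub]
      congr 1
      noncomm_ring
    rw [this, hxy]; module
  obtain ⟨b, ⟨y0, y1, y2⟩, ⟨f0, f1, f2⟩, ⟨g0, g1, g2⟩⟩ :=
    exists_basis3 hdim y (y + z) ((-1 / 4 : K) • (x + y)) e1 e2 e3 (by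
      intro W w1 w2 w3
      apply hI
      intro w hw
      have k1 := w1 w hw
      have k2 := w2 w hw
      have k3 := w3 w hw
      refine ⟨?_, k1, ?_⟩
      · have : x w = (-4 : K) • (((-1 / 4 : K) • (x + y)) w) - y w := by
          simp only [LinearMap.smul_apply, LinearMap.add_apply]
          module
        rw [this]
        exact sub_mem (Submodule.smul_mem _ _ k3) k1
      · have : z w = (y + z) w - y w := by simp
        rw [this]
        exact sub_mem k2 k1)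
  have hx : ∀ v, x v = (-4 : K) • (((-1 / 4 : K) • (x + y)) v) - y v := fun v => by
    simp only [LinearMap.smul_apply, LinearMap.add_apply]
    module
  have hz : ∀ v, z v = (y + z) v - y v := fun v => by simp
  have x0 := hx (b 0)
  have x1 := hx (b 1)
  have x2 := hx (b 2)
  rw [f0, y0] at x0
  rw [f1, y1] at x1
  rw [f2, y2] at x2
  have z0 := hz (b 0)
  have z1 := hz (b 1)
  have z2 := hz (b 2)
  rw [g0, y0] at z0
  rw [g1, y1] at z1
  rw [g2, y2] at z2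
  refine ⟨b, toMat3 _ _ _ ?_, toMat3 _ _ _ ?_, toMat3 _ _ _ ?_⟩
  · intro j
    fin_cases j
    · simp only [Fin.zero_eta, x0, Fin.sum_univ_three]
      simp
      try module
    · simp only [Fin.mk_one, x1, Fin.sum_univ_three]
      simp
    · simp only [Fin.reduceFinMk, x2, Fin.sum_univ_three]
      simp
  · intro j
    fin_cases j
    · simp only [Fin.zero_eta, y0, Fin.sum_univ_three]
      simp
    · simp only [Fin.mk_one, y1, Fin.sum_univ_three]
      simp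
    · simp only [Fin.reduceFinMk, y2, Fin.sum_univ_three]
      simp
  · intro j
    fin_cases j
    · simp only [Fin.zero_eta, z0, Fin.sum_univ_three]
      simp
    · simp only [Fin.mk_one, z1, Fin.sum_univ_three]
      simp
    · simp only [Fin.reduceFinMk, z2, Fin.sum_univ_three]
      simp
      try module

end Dim3

section Mats

variable [CharZero K]

omit [CharZero K] in
lemma root1 (t0 t1 t2 s0 s1 : K)
    (h : !![t0, 0, 0; s0, t1, 0; 0, s1, t2] * (!![t0, 0, 0; s0, t1, 0; 0, s1, t2] *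
      !![t0, 0, 0; s0, t1, 0; 0, s1, t2] - 1) = (0 : Matrix (Fin 3) (Fin 3) K)) :
    (t0 = 0 ∨ t0 = 1 ∨ t0 = -1) ∧ (t1 = 0 ∨ t1 = 1 ∨ t1 = -1) ∧ (t2 = 0 ∨ t2 = 1 ∨ t2 = -1) := by
  have h0 := congrFun (congrFun h 0) 0
  have h1 := congrFun (congrFun h 1) 1
  have h2 := congrFun (congrFun h 2) 2
  simp [Matrix.mul_apply, Fin.sum_univ_three, Matrix.one_apply] at h0 h1 h2
  grind

omit [CharZero K] in
lemma root2 (t0 t1 t2 s0 s1 : K)
    (h : !![t0, s0, 0; 0, t1, s1; 0, 0, t2] * (!![t0, s0, 0; 0, t1, s1; 0, 0, t2] *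
      !![t0, s0, 0; 0, t1, s1; 0, 0, t2] - 9) = (0 : Matrix (Fin 3) (Fin 3) K)) :
    (t0 = 0 ∨ t0 = 3 ∨ t0 = -3) ∧ (t1 = 0 ∨ t1 = 3 ∨ t1 = -3) ∧ (t2 = 0 ∨ t2 = 3 ∨ t2 = -3) := by
  have e9 : (9 : Matrix (Fin 3) (Fin 3) K) = Matrix.diagonal (fun _ => 9) := rfl
  rw [e9] at h
  have h0 := congrFun (congrFun h 0) 0
  have h1 := congrFun (congrFun h 1) 1
  have h2 := congrFun (congrFun h 2) 2
  simp [Matrix.mul_apply, Fin.sum_univ_three] at h0 h1 h2
  grind

lemma perm1 (t0 t1 t2 : K)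
    (ht0 : t0 = 0 ∨ t0 = 1 ∨ t0 = -1) (ht1 : t1 = 0 ∨ t1 = 1 ∨ t1 = -1)
    (ht2 : t2 = 0 ∨ t2 = 1 ∨ t2 = -1)
    (hts : t0 + t1 + t2 = 0) (htq : t0 ^ 2 + t1 ^ 2 + t2 ^ 2 = 2) :
    (t0 = 0 ∧ t1 = 1 ∧ t2 = -1) ∨ (t0 = 0 ∧ t1 = -1 ∧ t2 = 1) ∨ (t0 = 1 ∧ t1 = 0 ∧ t2 = -1) ∨
    (t0 = -1 ∧ t1 = 0 ∧ t2 = 1) ∨ (t0 = 1 ∧ t1 = -1 ∧ t2 = 0) ∨ (t0 = -1 ∧ t1 = 1 ∧ t2 = 0) := by
  grind

lemma perm2 (t0 t1 t2 : K)
    (ht0 : t0 = 0 ∨ t0 = 3 ∨ t0 = -3) (ht1 : t1 = 0 ∨ t1 = 3 ∨ t1 = -3)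
    (ht2 : t2 = 0 ∨ t2 = 3 ∨ t2 = -3)
    (hts : t0 + t1 + t2 = 0) (htq : t0 ^ 2 + t1 ^ 2 + t2 ^ 2 = 18) :
    (t0 = 0 ∧ t1 = 3 ∧ t2 = -3) ∨ (t0 = 0 ∧ t1 = -3 ∧ t2 = 3) ∨ (t0 = 3 ∧ t1 = 0 ∧ t2 = -3) ∨
    (t0 = -3 ∧ t1 = 0 ∧ t2 = 3) ∨ (t0 = 3 ∧ t1 = -3 ∧ t2 = 0) ∨ (t0 = -3 ∧ t1 = 3 ∧ t2 = 0) := by
  grind

lemma std (t0 t1 t2 u0 u1 u2 p0 p1 : K)
    (ht0 : t0 = 0 ∨ t0 = 1 ∨ t0 = -1) (ht1 : t1 = 0 ∨ t1 = 1 ∨ t1 = -1)
    (ht2 : t2 = 0 ∨ t2 = 1 ∨ t2 = -1)
    (hu0 : u0 = 0 ∨ u0 = 3 ∨ u0 = -3) (hu1 : u1 = 0 ∨ u1 = 3 ∨ u1 = -3)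
    (hu2 : u2 = 0 ∨ u2 = 3 ∨ u2 = -3)
    (hts : t0 + t1 + t2 = 0) (htq : t0 ^ 2 + t1 ^ 2 + t2 ^ 2 = 2)
    (hus : u0 + u1 + u2 = 0) (huq : u0 ^ 2 + u1 ^ 2 + u2 ^ 2 = 18)
    (E1 : t0 * u0 + t1 * u1 + t2 * u2 + p0 + p1 = 2)
    (E2 : t0 ^ 2 * u0 + t1 ^ 2 * u1 + t2 ^ 2 * u2 + p0 * (t0 + t1) + p1 * (t1 + t2) = 0)
    (E3 : t0 * u0 ^ 2 + t1 * u1 ^ 2 + t2 * u2 ^ 2 + p0 * (u0 + u1) + p1 * (u1 + u2) = 0)
    (E4 : (t0 * u0) ^ 2 + 2 * (t0 * u0) * p0 + (p0 + t1 * u1) ^ 2 + 2 * (t1 * u1) * p1 +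
      (p1 + t2 * u2) ^ 2 = 2) : t1 = 0 ∧ u1 = 0 := by
  have h1 := perm1 t0 t1 t2 ht0 ht1 ht2 hts htq
  have h2 := perm2 u0 u1 u2 hu0 hu1 hu2 hus huq
  clear ht0 ht1 ht2 hu0 hu1 hu2 hts htq hus huq
  rcases h1 with ⟨rfl, rfl, rfl⟩ | ⟨rfl, rfl, rfl⟩ | ⟨rfl, rfl, rfl⟩ | ⟨rfl, rfl, rfl⟩ |
      ⟨rfl, rfl, rfl⟩ | ⟨rfl, rfl, rfl⟩ <;>
    rcases h2 with ⟨rfl, rfl, rfl⟩ | ⟨rfl, rfl, rfl⟩ | ⟨rfl, rfl, rfl⟩ | ⟨rfl, rfl, rfl⟩ |
      ⟨rfl, rfl, rfl⟩ | ⟨rfl, rfl, rfl⟩ <;> grind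

/-- matrix of `x` -/
def mx : Matrix (Fin 3) (Fin 3) K := !![-2, 0, 0; -4, 0, 0; 0, -4, 2]
/-- matrix of `y` -/
def my : Matrix (Fin 3) (Fin 3) K := !![2, 0, 0; 0, 0, 0; 0, 0, -2]
/-- matrix of `z` -/
def mz : Matrix (Fin 3) (Fin 3) K := !![-2, 2, 0; 0, 0, 2; 0, 0, 2]

omit [CharZero K] in
lemma formA (a0 a1 a2 a3 : K) : a0 • (1 : Matrix (Fin 3) (Fin 3) K) + a1 • mx + a2 • my + a3 • (mx * my) =
    !![a0 + 2 * (a2 - a1) - 4 * a3, 0, 0; -4 * (a1 + 2 * a3), a0, 0;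
      0, -4 * a1, a0 - 2 * (a2 - a1) - 4 * a3] := by
  ext i j
  fin_cases i <;> fin_cases j <;>
    simp [mx, my, Matrix.mul_apply, Fin.sum_univ_three] <;> ring

omit [CharZero K] in
lemma formB (b0 b1 b2 b3 : K) : b0 • (1 : Matrix (Fin 3) (Fin 3) K) + b1 • my + b2 • mz + b3 • (my * mz) =
    !![b0 + 2 * (b1 - b2) - 4 * b3, 2 * (b2 + 2 * b3), 0; 0, b0, 2 * b2;
      0, 0, b0 - 2 * (b1 - b2) - 4 * b3] := by
  ext i j
  fin_cases i <;> fin_cases j <;>
    simp [mz, my, Matrix.mul_apply, Fin.sum_univ_three] <;> ring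

omit [CharZero K] in
lemma formC (c0 c1 c2 c3 : K) : c0 • (1 : Matrix (Fin 3) (Fin 3) K) + c1 • mz + c2 • mx + c3 • (mz * mx) =
    !![c0 - 2 * c1 - 2 * c2 - 4 * c3, 2 * c1, 0; -4 * c2, c0 - 8 * c3, 2 * c1 + 4 * c3;
      0, -4 * c2 - 8 * c3, c0 + 2 * c1 + 2 * c2 + 4 * c3] := by
  ext i j
  fin_cases i <;> fin_cases j <;>
    simp [mz, mx, Matrix.mul_apply, Fin.sum_univ_three] <;> ring

lemma last_step (t0 t1 t2 s0 s1 u0 u1 u2 r0 r1 c0 c1 c2 c3 : K)
    (ht1 : t1 = 0) (hu1 : u1 = 0) (ht2 : t2 = -t0) (hu2 : u2 = -u0) (hs : s0 = s1) (hr : r0 = r1)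
    (ht : t0 ^ 2 = 1) (hu : u0 ^ 2 = 9)
    (E1 : t0 * u0 + t1 * u1 + t2 * u2 + s0 * r0 + s1 * r1 = 2)
    (C01 : r0 * (t0 + t1) = 2 * c1) (C12 : r1 * (t1 + t2) = 2 * c1 + 4 * c3)
    (C10 : s0 * (u0 + u1) = -4 * c2) (C21 : s1 * (u1 + u2) = -4 * c2 - 8 * c3)
    (C00 : 2 * (t0 * u0) + r0 * s0 = c0 - 2 * c1 - 2 * c2 - 4 * c3)
    (C11 : 2 * (t1 * u1) + s0 * r0 + s1 * r1 = c0 - 8 * c3)
    (C22 : 2 * (t2 * u2) + s1 * r1 = c0 + 2 * c1 + 2 * c2 + 4 * c3) : False := by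
  subst ht1 hu1 ht2 hu2 hs hr
  have h1 : r0 * t0 = -2 * c3 := by linear_combination (1 / 2) * C01 - (1 / 2) * C12
  have h2 : s0 * u0 = 4 * c3 := by linear_combination (1 / 2) * C10 - (1 / 2) * C21
  have h3 : 16 * c3 = 4 * (t0 * u0) - 2 * (r0 * s0) := by
    linear_combination -C00 + 2 * C11 - C22
  have h4 : r0 * s0 = 1 - t0 * u0 := by linear_combination (1 / 2) * E1
  have h5 : 8 * c3 = 3 * (t0 * u0) - 1 := by linear_combination (1 / 2) * h3 - h4
  have h6 : (r0 * s0) * (t0 * u0) = -8 * c3 ^ 2 := by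
    linear_combination (s0 * u0) * h1 - 2 * c3 * h2
  have h7 : (t0 * u0 + 1) ^ 2 = 0 := by
    rw [h4] at h6
    linear_combination 8 * h6 - (8 * c3 + 3 * (t0 * u0) - 1) * h5
  have h8 : t0 * u0 = -1 := by
    have := pow_eq_zero_iff (two_ne_zero) |>.mp h7
    linear_combination this
  have h9 : (t0 * u0) ^ 2 = 9 := by rw [mul_pow, ht, hu]; ring
  rw [h8] at h9
  norm_num at h9

lemma contra (a0 a1 a2 a3 b0 b1 b2 b3 c0 c1 c2 c3 : K) (M M' : Matrix (Fin 3) (Fin 3) K)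
    (hM : M = a0 • 1 + a1 • mx + a2 • my + a3 • (mx * my))
    (hM' : M' = b0 • 1 + b1 • my + b2 • mz + b3 • (my * mz))
    (hM'' : M * M' + M' * M = c0 • 1 + c1 • mz + c2 • mx + c3 • (mz * mx))
    (p1 : M * (M * M - 1) = 0) (p2 : M' * (M' * M' - 9) = 0)
    (q1 : M.trace = 0) (q2 : (M * M).trace = 2) (q3 : M'.trace = 0) (q4 : (M' * M').trace = 18)
    (r1 : (M * M').trace = 2) (r2 : (M * M * M').trace = 0) (r3 : (M * M' * M').trace = 0)
    (r4 : (M * M' * (M * M')).trace = 2) : False := by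
  rw [formA] at hM
  rw [formB] at hM'
  rw [formC] at hM''
  set t0 := a0 + 2 * (a2 - a1) - 4 * a3 with ht0
  set t1 := a0 with ht1
  set t2 := a0 - 2 * (a2 - a1) - 4 * a3 with ht2
  set u0 := b0 + 2 * (b1 - b2) - 4 * b3 with hu0
  set u1 := b0 with hu1
  set u2 := b0 - 2 * (b1 - b2) - 4 * b3 with hu2
  set s0 := -4 * (a1 + 2 * a3) with hs0
  set s1 := -4 * a1 with hs1
  set r0' := 2 * (b2 + 2 * b3) with hr0
  set r1' := 2 * b2 with hr1
  rw [hM] at p1
  rw [hM'] at p2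
  obtain ⟨g0, g1, g2⟩ := root1 _ _ _ _ _ p1
  obtain ⟨k0, k1, k2⟩ := root2 _ _ _ _ _ p2
  have hts : t0 + t1 + t2 = 0 := by
    rw [hM] at q1
    simpa [Matrix.trace, Fin.sum_univ_three] using q1
  have htq : t0 ^ 2 + t1 ^ 2 + t2 ^ 2 = 2 := by
    rw [hM] at q2
    simp [Matrix.trace, Fin.sum_univ_three, Matrix.mul_apply] at q2
    linear_combination q2
  have hus : u0 + u1 + u2 = 0 := by
    rw [hM'] at q3
    simpa [Matrix.trace, Fin.sum_univ_three] using q3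
  have huq : u0 ^ 2 + u1 ^ 2 + u2 ^ 2 = 18 := by
    rw [hM'] at q4
    simp [Matrix.trace, Fin.sum_univ_three, Matrix.mul_apply] at q4
    linear_combination q4
  have E1 : t0 * u0 + t1 * u1 + t2 * u2 + s0 * r0' + s1 * r1' = 2 := by
    rw [hM, hM'] at r1
    simp [Matrix.trace, Fin.sum_univ_three, Matrix.mul_apply] at r1
    linear_combination r1
  have E2 : t0 ^ 2 * u0 + t1 ^ 2 * u1 + t2 ^ 2 * u2 + s0 * r0' * (t0 + t1) +
      s1 * r1' * (t1 + t2) = 0 := by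
    rw [hM, hM'] at r2
    simp [Matrix.trace, Fin.sum_univ_three, Matrix.mul_apply] at r2
    linear_combination r2
  have E3 : t0 * u0 ^ 2 + t1 * u1 ^ 2 + t2 * u2 ^ 2 + s0 * r0' * (u0 + u1) +
      s1 * r1' * (u1 + u2) = 0 := by
    rw [hM, hM'] at r3
    simp [Matrix.trace, Fin.sum_univ_three, Matrix.mul_apply] at r3
    linear_combination r3
  have E4 : (t0 * u0) ^ 2 + 2 * (t0 * u0) * (s0 * r0') + (s0 * r0' + t1 * u1) ^ 2 +
      2 * (t1 * u1) * (s1 * r1') + (s1 * r1' + t2 * u2) ^ 2 = 2 := by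
    rw [hM, hM'] at r4
    simp [Matrix.trace, Fin.sum_univ_three, Matrix.mul_apply] at r4
    linear_combination r4
  obtain ⟨z1, z2⟩ := std t0 t1 t2 u0 u1 u2 _ _ g0 g1 g2 k0 k1 k2 hts htq hus huq E1 E2 E3 E4
  have ea3 : a3 = 0 := by
    have : t0 + t2 = 2 * t1 - 8 * a3 := by rw [ht0, ht2]; ring
    have h2 : t0 + t2 = -t1 := by linear_combination hts
    rw [h2, z1] at this
    linear_combination (1 / 8) * this
  have eb3 : b3 = 0 := by
    have : u0 + u2 = 2 * u1 - 8 * b3 := by rw [hu0, hu2]; ring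
    have h2 : u0 + u2 = -u1 := by linear_combination hus
    rw [h2, z2] at this
    linear_combination (1 / 8) * this
  have t2' : t2 = -t0 := by linear_combination hts - z1
  have u2' : u2 = -u0 := by linear_combination hus - z2
  rw [hM, hM'] at hM''
  have k00 := congrFun (congrFun hM'' 0) 0
  have k01 := congrFun (congrFun hM'' 0) 1
  have k12 := congrFun (congrFun hM'' 1) 2
  have k10 := congrFun (congrFun hM'' 1) 0
  have k21 := congrFun (congrFun hM'' 2) 1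
  have k11 := congrFun (congrFun hM'' 1) 1
  have k22 := congrFun (congrFun hM'' 2) 2
  simp [Fin.sum_univ_three, Matrix.mul_apply] at k00 k01 k12 k10 k21 k11 k22
  refine last_step t0 t1 t2 s0 s1 u0 u1 u2 r0' r1' c0 c1 c2 c3 z1 z2 t2' u2' ?_ ?_ ?_ ?_ E1
    ?_ ?_ ?_ ?_ ?_ ?_ ?_
  · rw [hs0, hs1, ea3]; ring
  · rw [hr0, hr1, eb3]; ring
  · rw [t2', z1] at htq; linear_combination (1 / 2) * htq
  · rw [u2', z2] at huq; linear_combination (1 / 2) * huq
  · linear_combination k01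
  · linear_combination k12
  · linear_combination k10
  · linear_combination k21
  · linear_combination k00
  · linear_combination k11
  · linear_combination k22

omit [CharZero K] in
/-- conjugation of matrices as a change of basis -/
lemma exists_conj3 (P Q : Matrix (Fin 3) (Fin 3) K) (hPQ : P * Q = 1) (hQP : Q * P = 1) :
    ∃ b : Module.Basis (Fin 3) K (Fin 3 → K), ∀ N : Matrix (Fin 3) (Fin 3) K,
      LinearMap.toMatrix b b (Matrix.toLin' N) = Q * N * P := by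
  let e : (Fin 3 → K) ≃ₗ[K] (Fin 3 → K) := Matrix.toLin'OfInv hQP hPQ
  refine ⟨(Pi.basisFun K (Fin 3)).map e, fun N => ?_⟩
  ext i j
  rw [LinearMap.toMatrix_apply]
  have h1 : ((Pi.basisFun K (Fin 3)).map e) j = P *ᵥ (Pi.single j 1) := by
    rw [Module.Basis.map_apply, Pi.basisFun_apply]
    rfl
  rw [h1, Module.Basis.map_repr, LinearEquiv.trans_apply]
  have h2 : e.symm (Matrix.toLin' N (P *ᵥ Pi.single j 1)) = Q *ᵥ (N *ᵥ (P *ᵥ Pi.single j 1)) := rfl
  rw [h2, Matrix.mulVec_mulVec, Matrix.mulVec_mulVec, Pi.basisFun_repr, Matrix.mulVec_single_one]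
  rfl

/-- `A` -/
def tA : Matrix (Fin 3) (Fin 3) K := !![1, 0, 0; 0, 0, 0; 0, 0, -1]
/-- `A'` -/
def tB : Matrix (Fin 3) (Fin 3) K := !![1, 2, 0; 2, 0, 2; 0, 2, -1]
/-- `A'' = A A' + A' A` -/
def tC : Matrix (Fin 3) (Fin 3) K := !![2, 2, 0; 2, 0, -2; 0, -2, 2]

omit [CharZero K] in
lemma irred3 (p0 p1 p2 u0 u1 l0 l1 : K) (h0 : u0 ≠ 0) (h1 : u1 ≠ 0)
    (g0 : l0 ≠ 0) (g1 : l1 ≠ 0) :
    IsIrredTridiagonal (!![p0, u0, 0; l0, p1, u1; 0, l1, p2] : Matrix (Fin 3) (Fin 3) K) := by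
  constructor
  · intro i j h
    fin_cases i <;> fin_cases j <;> simp at h ⊢
  · intro i j h
    fin_cases i <;> fin_cases j <;> simp at h ⊢ <;> exact ⟨by assumption, by assumption⟩

omit [CharZero K] in
lemma diag3 (p0 p1 p2 : K) : (!![p0, 0, 0; 0, p1, 0; 0, 0, p2] :
      Matrix (Fin 3) (Fin 3) K).IsDiag := by
  intro i j h
  fin_cases i <;> fin_cases j <;> simp at h ⊢

lemma triple : IsLeonardTriple 2 (Matrix.toLin' (tA (K := K))) (Matrix.toLin' tB)
    (Matrix.toLin' tC) := by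
  obtain ⟨b, hb⟩ := exists_conj3 (1 : Matrix (Fin 3) (Fin 3) K) 1 (by simp) (by simp)
  obtain ⟨c, hc⟩ := exists_conj3 (!![2/3, 2/3, 1/3; 2/3, -1/3, -2/3; 1/3, -2/3, 2/3] :
    Matrix (Fin 3) (Fin 3) K) !![2/3, 2/3, 1/3; 2/3, -1/3, -2/3; 1/3, -2/3, 2/3]
    (by ext i j; fin_cases i <;> fin_cases j <;>
      simp [Matrix.mul_apply, Fin.sum_univ_three] <;> norm_num)
    (by ext i j; fin_cases i <;> fin_cases j <;>
      simp [Matrix.mul_apply, Fin.sum_univ_three] <;> norm_num)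
  obtain ⟨d, hd⟩ := exists_conj3 (!![1, 1, 1; 1, 0, -2; -1, 1, -1] : Matrix (Fin 3) (Fin 3) K)
    !![1/3, 1/3, -1/3; 1/2, 0, 1/2; 1/6, -1/3, -1/6]
    (by ext i j; fin_cases i <;> fin_cases j <;>
      simp [Matrix.mul_apply, Fin.sum_univ_three] <;> norm_num)
    (by ext i j; fin_cases i <;> fin_cases j <;>
      simp [Matrix.mul_apply, Fin.sum_univ_three] <;> norm_num)
  have n2 : (2 : K) ≠ 0 := two_ne_zero
  refine ⟨⟨b, ?_, ?_, ?_⟩, ⟨c, ?_, ?_, ?_⟩, ⟨d, ?_, ?_, ?_⟩⟩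
  · rw [hb, one_mul, mul_one]; exact diag3 _ _ _
  · rw [hb, one_mul, mul_one]
    exact irred3 _ _ _ _ _ _ _ n2 n2 n2 n2
  · rw [hb, one_mul, mul_one]
    exact irred3 _ _ _ _ _ _ _ n2 (neg_ne_zero.mpr n2) n2 (neg_ne_zero.mpr n2)
  · rw [hc]
    have : (!![2/3, 2/3, 1/3; 2/3, -1/3, -2/3; 1/3, -2/3, 2/3] * tB *
      !![2/3, 2/3, 1/3; 2/3, -1/3, -2/3; 1/3, -2/3, 2/3] : Matrix (Fin 3) (Fin 3) K) =
        !![3, 0, 0; 0, 0, 0; 0, 0, -3] := by
      ext i j; fin_cases i <;> fin_cases j <;>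
      simp [Matrix.mul_apply, Fin.sum_univ_three, tB] <;> norm_num
    rw [this]; exact diag3 _ _ _
  · rw [hc]
    have : (!![2/3, 2/3, 1/3; 2/3, -1/3, -2/3; 1/3, -2/3, 2/3] * tC *
      !![2/3, 2/3, 1/3; 2/3, -1/3, -2/3; 1/3, -2/3, 2/3] : Matrix (Fin 3) (Fin 3) K) =
        !![2, 2, 0; 2, 0, -2; 0, -2, 2] := by
      ext i j; fin_cases i <;> fin_cases j <;>
      simp [Matrix.mul_apply, Fin.sum_univ_three, tC] <;> norm_num
    rw [this]
    exact irred3 _ _ _ _ _ _ _ n2 (neg_ne_zero.mpr n2) n2 (neg_ne_zero.mpr n2)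
  · rw [hc]
    have : (!![2/3, 2/3, 1/3; 2/3, -1/3, -2/3; 1/3, -2/3, 2/3] * tA *
      !![2/3, 2/3, 1/3; 2/3, -1/3, -2/3; 1/3, -2/3, 2/3] : Matrix (Fin 3) (Fin 3) K) =
        !![1/3, 2/3, 0; 2/3, 0, 2/3; 0, 2/3, -1/3] := by
      ext i j; fin_cases i <;> fin_cases j <;>
      simp [Matrix.mul_apply, Fin.sum_univ_three, tA] <;> norm_num
    rw [this]
    apply irred3 <;> norm_num
  · rw [hd]
    have : (!![1/3, 1/3, -1/3; 1/2, 0, 1/2; 1/6, -1/3, -1/6] * tC *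
      !![1, 1, 1; 1, 0, -2; -1, 1, -1] : Matrix (Fin 3) (Fin 3) K) =
        !![4, 0, 0; 0, 2, 0; 0, 0, -2] := by
      ext i j; fin_cases i <;> fin_cases j <;>
      simp [Matrix.mul_apply, Fin.sum_univ_three, tC] <;> norm_num
    rw [this]; exact diag3 _ _ _
  · rw [hd]
    have : (!![1/3, 1/3, -1/3; 1/2, 0, 1/2; 1/6, -1/3, -1/6] * tA *
      !![1, 1, 1; 1, 0, -2; -1, 1, -1] : Matrix (Fin 3) (Fin 3) K) =
        !![0, 2/3, 0; 1, 0, 1; 0, 1/3, 0] := by
      ext i j; fin_cases i <;> fin_cases j <;>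
      simp [Matrix.mul_apply, Fin.sum_univ_three, tA] <;> norm_num
    rw [this]
    apply irred3 <;> norm_num
  · rw [hd]
    have : (!![1/3, 1/3, -1/3; 1/2, 0, 1/2; 1/6, -1/3, -1/6] * tB *
      !![1, 1, 1; 1, 0, -2; -1, 1, -1] : Matrix (Fin 3) (Fin 3) K) =
        !![0, 2, 0; 3, 0, -3; 0, -1, 0] := by
      ext i j; fin_cases i <;> fin_cases j <;>
      simp [Matrix.mul_apply, Fin.sum_univ_three, tB] <;> norm_num
    rw [this]
    apply irred3 <;> norm_num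

omit [CharZero K] in
lemma span4 {R : Type} [Ring R] [Algebra K R] {a x y w : R}
    (h : a ∈ Submodule.span K ({1, x, y, w} : Set R)) :
    ∃ a0 a1 a2 a3 : K, a = a0 • 1 + a1 • x + a2 • y + a3 • w := by
  rw [Submodule.mem_span_insert] at h
  obtain ⟨a0, w, hw, h1⟩ := h
  rw [Submodule.mem_span_insert] at hw
  obtain ⟨a1, w', hw', rfl⟩ := hw
  obtain ⟨a2, a3, rfl⟩ := Submodule.mem_span_pair.mp hw'
  exact ⟨a0, a1, a2, a3, by rw [h1]; abel⟩

variable (K) in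
/-- main theorem -/
theorem main3 : ∃ A A' A'' : Module.End K (Fin 3 → K),
    IsLeonardTriple 2 A A' A'' ∧ IsLeonardPair 2 A A' ∧ HasBetaTwo 2 A A' ∧
      ∀ x y z : Module.End K (Fin 3 → K), IsEquitable x y z → IsIrreducible x y z →
        ¬ (A ∈ Submodule.span K {1, x, y, x * y} ∧ A' ∈ Submodule.span K {1, y, z, y * z} ∧
          A'' ∈ Submodule.span K {1, z, x, z * x}) := by
  refine ⟨Matrix.toLin' tA, Matrix.toLin' tB, Matrix.toLin' tC, triple, ?_, ?_, ?_⟩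
  · obtain ⟨⟨b, h1, h2, -⟩, ⟨c, h3, -, h4⟩, -⟩ := triple (K := K)
    exact ⟨⟨c, h4, h3⟩, ⟨b, h2, h1⟩⟩
  · obtain ⟨⟨b, h1, h2, -⟩, -, -⟩ := triple (K := K)
    refine ⟨b, h2, h1, ?_⟩
    intro i j k l _ _ h3
    have := l.isLt
    omega
  rintro x y z hE hI ⟨h1, h2, h3⟩
  obtain ⟨a0, a1, a2, a3, hA⟩ := span4 h1
  obtain ⟨b0, b1, b2, b3, hB⟩ := span4 h2
  obtain ⟨c0, c1, c2, c3, hC⟩ := span4 h3
  obtain ⟨b, hx, hy, hz⟩ := module_form3 (by simp) x y z hE hI
  set φ : Module.End K (Fin 3 → K) ≃ₐ[K] Matrix (Fin 3) (Fin 3) K :=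
    LinearMap.toMatrixAlgEquiv b with hφ
  have hx' : φ x = mx := hx
  have hy' : φ y = my := hy
  have hz' : φ z = mz := hz
  let ψ := (Matrix.toLinAlgEquiv' (R := K) (n := Fin 3)).trans φ
  have hψ : ∀ N, φ (Matrix.toLin' N) = ψ N := fun N => rfl
  have htr : ∀ N : Matrix (Fin 3) (Fin 3) K, (ψ N).trace = N.trace := by
    intro N
    have h4 : ψ N = LinearMap.toMatrix b b (Matrix.toLin' N) := rfl
    rw [h4, ← LinearMap.trace_eq_matrix_trace K b,
      LinearMap.trace_eq_matrix_trace K (Pi.basisFun K (Fin 3))]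
    congr 1
    exact LinearMap.toMatrix'_toLin' N
  have hA' := congrArg φ hA
  have hB' := congrArg φ hB
  have hC' := congrArg φ hC
  simp only [map_add, map_smul, map_mul, map_one, hx', hy', hz', hψ] at hA' hB' hC'
  have hCe : (tC : Matrix (Fin 3) (Fin 3) K) = tA * tB + tB * tA := by
    ext i j; fin_cases i <;> fin_cases j <;>
      simp [Matrix.mul_apply, Fin.sum_univ_three, tA, tB, tC] <;> norm_num
  rw [hCe, map_add, map_mul, map_mul] at hC'
  have e9 : ψ 9 = 9 := map_ofNat ψ 9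
  have e9' : (9 : Matrix (Fin 3) (Fin 3) K) = Matrix.diagonal (fun _ => 9) := rfl
  have e1 : ψ 1 = 1 := map_one ψ
  refine contra a0 a1 a2 a3 b0 b1 b2 b3 c0 c1 c2 c3 (ψ tA) (ψ tB) hA' hB' hC' ?_ ?_ ?_ ?_ ?_ ?_
    ?_ ?_ ?_ ?_
  · rw [← e1, ← map_mul, ← map_sub, ← map_mul]
    have : (tA * (tA * tA - 1) : Matrix (Fin 3) (Fin 3) K) = 0 := by
      ext i j; fin_cases i <;> fin_cases j <;>
        simp [Matrix.mul_apply, Fin.sum_univ_three, tA, Matrix.one_apply]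
    rw [this, map_zero]
  · rw [← e9, ← map_mul, ← map_sub, ← map_mul]
    have : (tB * (tB * tB - 9) : Matrix (Fin 3) (Fin 3) K) = 0 := by
      rw [e9']
      ext i j; fin_cases i <;> fin_cases j <;>
        simp [Matrix.mul_apply, Fin.sum_univ_three, tB] <;> norm_num
    rw [this, map_zero]
  · rw [htr]; simp [Matrix.trace, Fin.sum_univ_three, tA]
  · rw [← map_mul, htr]; simp [Matrix.trace, Fin.sum_univ_three, tA, Matrix.mul_apply]; norm_num
  · rw [htr]; simp [Matrix.trace, Fin.sum_univ_three, tB]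
  · rw [← map_mul, htr]; simp [Matrix.trace, Fin.sum_univ_three, tB, Matrix.mul_apply]; norm_num
  · rw [← map_mul, htr]; simp [Matrix.trace, Fin.sum_univ_three, tA, tB, Matrix.mul_apply]; norm_num
  · rw [← map_mul, ← map_mul, htr]
    simp [Matrix.trace, Fin.sum_univ_three, tA, tB, Matrix.mul_apply]
  · rw [← map_mul, ← map_mul, htr]
    simp [Matrix.trace, Fin.sum_univ_three, tA, tB, Matrix.mul_apply]
  · rw [← map_mul, ← map_mul, htr]
    simp [Matrix.trace, Fin.sum_univ_three, tA, tB, Matrix.mul_apply]; norm_num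

end Mats

end Pool.Agent.Q112.Leo
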