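import Mathlib
import Pool.Agent.Q112.LeonardTriple

set_option maxHeartbeats 4000000

open Matrix

namespace Pool.Agent.Q112.Leo

variable {K : Type} [Field K]

/-- The pair `B, C` satisfies the Askey-Wilson relations. -/
def SatisfiesAW {V : Type} [AddCommGroup V] [Module K V] (B C : Module.End K V) : Prop :=
  ∃ β γ γ' ρ ρ' ω η η' : K,
    B * B * C - β • (B * C * B) + C * B * B - γ • (B * C + C * B) - ρ • C =
      γ' • (B * B) + ω • B + η • 1 ∧
    C * C * B - β • (C * B * C) + B * C * C - γ' • (C * B + B * C) - ρ' • B =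
      γ • (C * C) + ω • C + η' • 1

/-- `A` is diagonalizable. -/
def IsDiagonalizable (d : ℕ) {V : Type} [AddCommGroup V] [Module K V] (A : Module.End K V) : Prop :=
  ∃ b : Module.Basis (Fin (d + 1)) K V, (LinearMap.toMatrix b b A).IsDiag

section AW

lemma aw_mat (B C : Matrix (Fin 3) (Fin 3) K) : ∃ β γ γ' ρ ρ' ω η η' : K,
    B * B * C - β • (B * C * B) + C * B * B - γ • (B * C + C * B) - ρ • C =
      γ' • (B * B) + ω • B + η • 1 ∧
    C * C * B - β • (C * B * C) + B * C * C - γ' • (C * B + B * C) - ρ' • B =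
      γ • (C * C) + ω • C + η' • 1 := by
  refine ⟨-1, B 0 0 + B 1 1 + B 2 2, C 0 0 + C 1 1 + C 2 2,
    -(B 0 0 * B 1 1 - B 0 1 * B 1 0 + (B 0 0 * B 2 2 - B 0 2 * B 2 0) +
      (B 1 1 * B 2 2 - B 1 2 * B 2 1)),
    -(C 0 0 * C 1 1 - C 0 1 * C 1 0 + (C 0 0 * C 2 2 - C 0 2 * C 2 0) +
      (C 1 1 * C 2 2 - C 1 2 * C 2 1)),
    -((B 0 0 + B 1 1 + B 2 2) * (C 0 0 + C 1 1 + C 2 2) -
      (B 0 0 * C 0 0 + B 0 1 * C 1 0 + B 0 2 * C 2 0 + B 1 0 * C 0 1 + B 1 1 * C 1 1 +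
        B 1 2 * C 2 1 + B 2 0 * C 0 2 + B 2 1 * C 1 2 + B 2 2 * C 2 2)),
    (B 1 1 * B 2 2 - B 1 2 * B 2 1) * C 0 0 + (B 0 2 * B 2 1 - B 0 1 * B 2 2) * C 1 0 +
      (B 0 1 * B 1 2 - B 0 2 * B 1 1) * C 2 0 + (B 1 2 * B 2 0 - B 1 0 * B 2 2) * C 0 1 +
      (B 0 0 * B 2 2 - B 0 2 * B 2 0) * C 1 1 + (B 0 2 * B 1 0 - B 0 0 * B 1 2) * C 2 1 +
      (B 1 0 * B 2 1 - B 1 1 * B 2 0) * C 0 2 + (B 0 1 * B 2 0 - B 0 0 * B 2 1) * C 1 2 +
      (B 0 0 * B 1 1 - B 0 1 * B 1 0) * C 2 2,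
    (C 1 1 * C 2 2 - C 1 2 * C 2 1) * B 0 0 + (C 0 2 * C 2 1 - C 0 1 * C 2 2) * B 1 0 +
      (C 0 1 * C 1 2 - C 0 2 * C 1 1) * B 2 0 + (C 1 2 * C 2 0 - C 1 0 * C 2 2) * B 0 1 +
      (C 0 0 * C 2 2 - C 0 2 * C 2 0) * B 1 1 + (C 0 2 * C 1 0 - C 0 0 * C 1 2) * B 2 1 +
      (C 1 0 * C 2 1 - C 1 1 * C 2 0) * B 0 2 + (C 0 1 * C 2 0 - C 0 0 * C 2 1) * B 1 2 +
      (C 0 0 * C 1 1 - C 0 1 * C 1 0) * B 2 2, ?_, ?_⟩
  · ext i j
    fin_cases i <;> fin_cases j <;>
      simp [Matrix.mul_apply, Fin.sum_univ_three, Matrix.one_apply] <;> ring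
  · ext i j
    fin_cases i <;> fin_cases j <;>
      simp [Matrix.mul_apply, Fin.sum_univ_three, Matrix.one_apply] <;> ring

/-- any two linear maps of a three-dimensional space satisfy the Askey-Wilson relations -/
lemma aw_all (B C : Matrix (Fin 3) (Fin 3) K) :
    SatisfiesAW (Matrix.toLin' B) (Matrix.toLin' C) := by
  obtain ⟨β, γ, γ', ρ, ρ', ω, η, η', h1, h2⟩ := aw_mat B C
  refine ⟨β, γ, γ', ρ, ρ', ω, η, η', ?_, ?_⟩
  · have := congrArg (Matrix.toLinAlgEquiv' (R := K) (n := Fin 3)) h1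
    simp only [map_sub, map_add, map_smul, map_mul, map_one] at this
    exact this
  · have := congrArg (Matrix.toLinAlgEquiv' (R := K) (n := Fin 3)) h2
    simp only [map_sub, map_add, map_smul, map_mul, map_one] at this
    exact this

variable [CharZero K]

/-- `A` -/
def wA : Matrix (Fin 3) (Fin 3) K := !![0, 0, 0; 0, 1, 0; 0, 0, 2]
/-- `A'` -/
def wB : Matrix (Fin 3) (Fin 3) K := !![6, -30, 0; 1, -8, -6; 0, 1, 2]
/-- `A'' = 2 A - A'` -/
def wC : Matrix (Fin 3) (Fin 3) K := !![-6, 30, 0; -1, 10, 6; 0, -1, 2]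
/-- eigenvectors of `A'` -/
def wP : Matrix (Fin 3) (Fin 3) K := !![-10, 30, -18; -2, 2, -6; 1, 1, 1]
/-- inverse -/
def wQ : Matrix (Fin 3) (Fin 3) K :=
  !![-1/16, 3/8, 9/8; 1/32, -1/16, 3/16; 1/32, -5/16, -5/16]
/-- eigenvectors of `A''` -/
def wR : Matrix (Fin 3) (Fin 3) K := !![90, -6, -10; 6, -2, -4; 1, 1, 1]
/-- inverse -/
def wS : Matrix (Fin 3) (Fin 3) K :=
  !![1/80, -1/40, 1/40; -1/16, 5/8, 15/8; 1/20, -3/5, -9/10]

lemma wPQ : (wP : Matrix (Fin 3) (Fin 3) K) * wQ = 1 := by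
  ext i j
  fin_cases i <;> fin_cases j <;> simp [wP, wQ, Matrix.mul_apply, Fin.sum_univ_three] <;> norm_num

lemma wQP : (wQ : Matrix (Fin 3) (Fin 3) K) * wP = 1 := by
  ext i j
  fin_cases i <;> fin_cases j <;> simp [wP, wQ, Matrix.mul_apply, Fin.sum_univ_three] <;> norm_num

lemma wRS : (wR : Matrix (Fin 3) (Fin 3) K) * wS = 1 := by
  ext i j
  fin_cases i <;> fin_cases j <;> simp [wR, wS, Matrix.mul_apply, Fin.sum_univ_three] <;> norm_num

lemma wSR : (wS : Matrix (Fin 3) (Fin 3) K) * wR = 1 := by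
  ext i j
  fin_cases i <;> fin_cases j <;> simp [wR, wS, Matrix.mul_apply, Fin.sum_univ_three] <;> norm_num

lemma wconjA : (wQ : Matrix (Fin 3) (Fin 3) K) * wA * wP =
    !![3/2, 3, 0; 1/2, 1/4, 3/4; 0, -5/4, 5/4] := by
  ext i j
  fin_cases i <;> fin_cases j <;>
    simp [wP, wQ, wA, Matrix.mul_apply, Fin.sum_univ_three] <;> norm_num

lemma wconjB : (wQ : Matrix (Fin 3) (Fin 3) K) * wB * wP = !![0, 0, 0; 0, 4, 0; 0, 0, -4] := by
  ext i j
  fin_cases i <;> fin_cases j <;>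
    simp [wP, wQ, wB, Matrix.mul_apply, Fin.sum_univ_three] <;> norm_num

lemma wconjC : (wS : Matrix (Fin 3) (Fin 3) K) * wC * wR = !![-4, 0, 0; 0, 4, 0; 0, 0, 6] := by
  ext i j
  fin_cases i <;> fin_cases j <;>
    simp [wR, wS, wC, Matrix.mul_apply, Fin.sum_univ_three] <;> norm_num

omit [CharZero K] in
lemma wC_eq : (wC : Matrix (Fin 3) (Fin 3) K) = (2 : K) • wA - wB := by
  ext i j
  fin_cases i <;> fin_cases j <;> simp [wA, wB, wC] <;> norm_num

omit [CharZero K] in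
lemma apply_col (b : Module.Basis (Fin 3) K (Fin 3 → K)) (f : Module.End K (Fin 3 → K))
    (j : Fin 3) : f (b j) = ∑ i, LinearMap.toMatrix b b f i j • b i := by
  simp only [LinearMap.toMatrix_apply]
  exact (b.sum_repr (f (b j))).symm

/-- the shape of eigenvectors of `A''` -/
lemma eigC (x : Fin 3 → K) (hx : x ≠ 0) (l : K) (h : Matrix.toLin' wC x = l • x) :
    x 2 ≠ 0 ∧ x 1 = (2 - l) * x 2 ∧ x 0 = ((10 - l) * (2 - l) + 6) * x 2 ∧
      (l = -4 ∨ l = 4 ∨ l = 6) := by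
  have h0 := congrFun h 0
  have h1 := congrFun h 1
  have h2 := congrFun h 2
  simp [wC, Matrix.mulVec, dotProduct, Fin.sum_univ_three] at h0 h1 h2
  have e1 : x 1 = (2 - l) * x 2 := by linear_combination -h2
  have e0 : x 0 = ((10 - l) * (2 - l) + 6) * x 2 := by
    rw [e1] at h1
    linear_combination -h1
  have hx2 : x 2 ≠ 0 := by
    intro h3
    apply hx
    funext i
    fin_cases i
    · simpa [h3] using e0
    · simpa [h3] using e1
    · simpa using h3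
  refine ⟨hx2, e1, e0, ?_⟩
  rw [e0, e1] at h0
  have h4 : (l + 4) * ((l - 4) * (l - 6)) * x 2 = 0 := by linear_combination -h0
  rcases mul_eq_zero.mp h4 with h5 | h5
  · rcases mul_eq_zero.mp h5 with h6 | h6
    · left; linear_combination h6
    · rcases mul_eq_zero.mp h6 with h7 | h7
      · right; left; linear_combination h7
      · right; right; linear_combination h7
  · exact absurd h5 hx2

lemma noTriple : ¬ IsLeonardTriple 2 (Matrix.toLin' (wA (K := K))) (Matrix.toLin' wB)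
    (Matrix.toLin' wC) := by
  intro hT
  obtain ⟨b, hd, ht, -⟩ := hT.trd
  set l := fun i => LinearMap.toMatrix b b (Matrix.toLin' (wC (K := K))) i i with hl
  have hb : ∀ i, Matrix.toLin' wC (b i) = l i • b i := by
    intro i
    rw [apply_col b]
    rw [Finset.sum_eq_single i]
    · intro j _ hj
      rw [hd hj, zero_smul]
    · simp
  have hne : ∀ i, b i ≠ 0 := fun i => b.ne_zero i
  have H := fun i => eigC (b i) (hne i) (l i) (hb i)
  have hdist : ∀ i j, i ≠ j → l i ≠ l j := by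
    intro i j hij hlij
    obtain ⟨p2, p1, p0, -⟩ := H i
    obtain ⟨q2, q1, q0, -⟩ := H j
    have h1 : (b j 2) • b i - (b i 2) • b j = 0 := by
      funext k
      fin_cases k
      · simp [p0, q0, hlij]; ring
      · simp [p1, q1, hlij]; ring
      · simp; ring
    have hli := b.linearIndependent
    have h2 := (linearIndependent_iff'.mp hli) {i, j} (fun k => if k = i then b j 2 else -(b i 2)) (by
      rw [Finset.sum_pair hij]
      simp only [if_true, if_neg hij.symm]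
      rw [neg_smul, ← sub_eq_add_neg]
      exact h1) i (by simp)
    simp at h2
    exact q2 h2
  have hA2 := apply_col b (Matrix.toLin' (wA (K := K))) 2
  rw [Fin.sum_univ_three, ht.1 0 2 (Or.inl (by decide)), zero_smul, zero_add] at hA2
  set α := LinearMap.toMatrix b b (Matrix.toLin' (wA (K := K))) 1 2
  set δ := LinearMap.toMatrix b b (Matrix.toLin' (wA (K := K))) 2 2
  have g0 := congrFun hA2 0
  have g1 := congrFun hA2 1
  have g2 := congrFun hA2 2
  simp [wA, Matrix.mulVec, dotProduct, Fin.sum_univ_three] at g0 g1 g2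
  obtain ⟨u2, u1, u0, hu⟩ := H 0
  obtain ⟨v2, v1, v0, hv⟩ := H 1
  obtain ⟨w2, w1, w0, hw⟩ := H 2
  have d01 := hdist 0 1 (by decide)
  have d02 := hdist 0 2 (by decide)
  have d12 := hdist 1 2 (by decide)
  have key : ∀ (a c e y z p q : K), a = -4 ∨ a = 4 ∨ a = 6 → c = -4 ∨ c = 4 ∨ c = 6 →
      e = -4 ∨ e = 4 ∨ e = 6 → a ≠ c → a ≠ e → c ≠ e → z ≠ 0 →
      0 = p * (((10 - c) * (2 - c) + 6) * y) + q * (((10 - e) * (2 - e) + 6) * z) →
      (2 - e) * z = p * ((2 - c) * y) + q * ((2 - e) * z) → 2 * z = p * y + q * z → False := by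
    intro a c e y z p q ha hc he hac hae hce hz e0 e1 e2
    rcases ha with rfl | rfl | rfl <;> rcases hc with rfl | rfl | rfl <;>
      rcases he with rfl | rfl | rfl <;> grind
  refine key (l 0) (l 1) (l 2) (b 1 2) (b 2 2) α δ hu hv hw d01 d02 d12 w2 ?_ ?_ ?_
  · rw [v0, w0] at g0; exact g0
  · rw [v1, w1] at g1; exact g1
  · exact g2

theorem awmain : ∃ A A' A'' : Module.End K (Fin 3 → K), IsLeonardPair 2 A A' ∧
    A'' ∈ Submodule.span K {1, A, A', A * A', A' * A} ∧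
    A ∈ Submodule.span K {1, A', A'', A' * A'', A'' * A'} ∧
    A' ∈ Submodule.span K {1, A'', A, A'' * A, A * A''} ∧
    SatisfiesAW A A' ∧ SatisfiesAW A A'' ∧ SatisfiesAW A' A'' ∧
    IsDiagonalizable 2 A'' ∧ ¬ IsLeonardTriple 2 A A' A'' := by
  obtain ⟨b0, hb0⟩ := exists_conj3 (1 : Matrix (Fin 3) (Fin 3) K) 1 (by simp) (by simp)
  obtain ⟨b1, hb1⟩ := exists_conj3 (wP (K := K)) wQ wPQ wQP
  obtain ⟨b2, hb2⟩ := exists_conj3 (wR (K := K)) wS wRS wSR
  have hC : Matrix.toLin' (wC (K := K)) = (2 : K) • Matrix.toLin' wA - Matrix.toLin' wB := by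
    rw [wC_eq, map_sub, map_smul]
  refine ⟨Matrix.toLin' wA, Matrix.toLin' wB, Matrix.toLin' wC, ⟨⟨b1, ?_, ?_⟩, ⟨b0, ?_, ?_⟩⟩, ?_, ?_,
    ?_, aw_all _ _, aw_all _ _, aw_all _ _, ⟨b2, ?_⟩, noTriple⟩
  · rw [hb1, wconjA]; apply irred3 <;> norm_num
  · rw [hb1, wconjB]; exact diag3 _ _ _
  · rw [hb0, wB]; simp only [one_mul, mul_one]; apply irred3 <;> norm_num
  · rw [hb0, wA]; simp only [one_mul, mul_one]; exact diag3 _ _ _
  · rw [hC]
    exact Submodule.sub_mem _ (Submodule.smul_mem _ _ (Submodule.subset_span (by simp)))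
      (Submodule.subset_span (by simp))
  · have : Matrix.toLin' (wA (K := K)) = (2⁻¹ : K) • (Matrix.toLin' wC + Matrix.toLin' wB) := by
      rw [hC, sub_add_cancel, smul_smul]
      norm_num
    rw [this]
    exact Submodule.smul_mem _ _ (Submodule.add_mem _ (Submodule.subset_span (by simp))
      (Submodule.subset_span (by simp)))
  · have : Matrix.toLin' (wB (K := K)) = (2 : K) • Matrix.toLin' wA - Matrix.toLin' wC := by
      rw [hC]; abel
    rw [this]
    exact Submodule.sub_mem _ (Submodule.smul_mem _ _ (Submodule.subset_span (by simp)))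
      (Submodule.subset_span (by simp))
  · rw [hb2, wconjC]; exact diag3 _ _ _

end AW

end Pool.Agent.Q112.Leo
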