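import Mathlib

open scoped TensorProduct

namespace Pool.Agent.Q112.HopfPres

section Gen

variable {k : Type} [CommRing k] {A : Type} [Ring A] [Bialgebra k A]

/-- antipode axioms only need to be checked on generators -/
lemma left_axiom (S : A →ₗ[k] A) (h1 : S 1 = 1) (hmul : ∀ a b, S (a * b) = S b * S a)
    (X : Set A) (hX : Algebra.adjoin k X = ⊤)
    (hS : ∀ x ∈ X, LinearMap.mul' k A (S.rTensor A (Coalgebra.comul x)) =
      algebraMap k A (Coalgebra.counit x)) (a : A) :
    LinearMap.mul' k A (S.rTensor A (Coalgebra.comul (R := k) a)) =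
      algebraMap k A (Coalgebra.counit a) := by
  have key : ∀ (t u : A ⊗[k] A) (c : k), LinearMap.mul' k A (S.rTensor A t) = algebraMap k A c →
      LinearMap.mul' k A (S.rTensor A (t * u)) =
        algebraMap k A c * LinearMap.mul' k A (S.rTensor A u) := by
    intro t u c h
    have h2 : ∀ b₁ b₂ : A, LinearMap.mul' k A (S.rTensor A (t * (b₁ ⊗ₜ b₂))) =
        S b₁ * LinearMap.mul' k A (S.rTensor A t) * b₂ := by
      intro b₁ b₂
      clear h
      induction t using TensorProduct.induction_on with
      | zero => simp
      | tmul x y => simp [hmul, mul_assoc]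
      | add x y hx hy => rw [add_mul, map_add, map_add, hx, hy, map_add, map_add]; noncomm_ring
    induction u using TensorProduct.induction_on with
    | zero => simp
    | tmul b₁ b₂ =>
      rw [h2, h]
      simp only [LinearMap.rTensor_tmul, LinearMap.mul'_apply]
      rw [← Algebra.commutes c, mul_assoc]
    | add x y hx hy => rw [mul_add, map_add, map_add, hx, hy, map_add, map_add, mul_add]
  have ha : a ∈ Algebra.adjoin k X := by rw [hX]; trivial
  induction ha using Algebra.adjoin_induction with
  | mem x hx => exact hS x hx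
  | algebraMap r =>
    rw [Bialgebra.comul_algebraMap, Bialgebra.counit_algebraMap,
      Algebra.TensorProduct.algebraMap_apply, LinearMap.rTensor_tmul, LinearMap.mul'_apply, mul_one,
      Algebra.algebraMap_eq_smul_one, map_smul, h1]
  | add x y _ _ hx hy => rw [map_add, map_add, map_add, hx, hy, map_add, map_add]
  | mul x y _ _ hx hy =>
    rw [Bialgebra.comul_mul, key _ _ _ hx, hy, Bialgebra.counit_mul, map_mul]

lemma right_axiom (S : A →ₗ[k] A) (h1 : S 1 = 1) (hmul : ∀ a b, S (a * b) = S b * S a)
    (X : Set A) (hX : Algebra.adjoin k X = ⊤)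
    (hS : ∀ x ∈ X, LinearMap.mul' k A (S.lTensor A (Coalgebra.comul x)) =
      algebraMap k A (Coalgebra.counit x)) (a : A) :
    LinearMap.mul' k A (S.lTensor A (Coalgebra.comul (R := k) a)) =
      algebraMap k A (Coalgebra.counit a) := by
  have key : ∀ (t u : A ⊗[k] A) (c : k), LinearMap.mul' k A (S.lTensor A u) = algebraMap k A c →
      LinearMap.mul' k A (S.lTensor A (t * u)) =
        LinearMap.mul' k A (S.lTensor A t) * algebraMap k A c := by
    intro t u c h
    have h2 : ∀ b₁ b₂ : A, LinearMap.mul' k A (S.lTensor A ((b₁ ⊗ₜ b₂) * u)) =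
        b₁ * LinearMap.mul' k A (S.lTensor A u) * S b₂ := by
      intro b₁ b₂
      clear h
      induction u using TensorProduct.induction_on with
      | zero => simp
      | tmul x y => simp [hmul, mul_assoc]
      | add x y hx hy => rw [mul_add, map_add, map_add, hx, hy, map_add, map_add]; noncomm_ring
    induction t using TensorProduct.induction_on with
    | zero => simp
    | tmul b₁ b₂ =>
      rw [h2, h]
      simp only [LinearMap.lTensor_tmul, LinearMap.mul'_apply]
      rw [mul_assoc, Algebra.commutes c, mul_assoc]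
    | add x y hx hy => rw [add_mul, map_add, map_add, hx, hy, map_add, map_add, add_mul]
  have ha : a ∈ Algebra.adjoin k X := by rw [hX]; trivial
  induction ha using Algebra.adjoin_induction with
  | mem x hx => exact hS x hx
  | algebraMap r =>
    rw [Bialgebra.comul_algebraMap, Bialgebra.counit_algebraMap,
      Algebra.TensorProduct.algebraMap_apply, LinearMap.lTensor_tmul, LinearMap.mul'_apply,
      h1, mul_one]
  | add x y _ _ hx hy => rw [map_add, map_add, map_add, hx, hy, map_add, map_add]
  | mul x y _ _ hx hy =>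
    rw [Bialgebra.comul_mul, key _ _ _ hy, hx, Bialgebra.counit_mul, map_mul]

/-- A Hopf algebra structure on a bialgebra from an anti-homomorphism `S` satisfying the antipode
axioms on a set of generators. -/
noncomputable abbrev hopfOfGen (S : A →ₐ[k] Aᵐᵒᵖ) (X : Set A) (hX : Algebra.adjoin k X = ⊤)
    (hl : ∀ x ∈ X, LinearMap.mul' k A ((((MulOpposite.opLinearEquiv k).symm.toLinearMap ∘ₗ
        S.toLinearMap).rTensor A (Coalgebra.comul x))) = algebraMap k A (Coalgebra.counit x))
    (hr : ∀ x ∈ X, LinearMap.mul' k A ((((MulOpposite.opLinearEquiv k).symm.toLinearMap ∘ₗ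
        S.toLinearMap).lTensor A (Coalgebra.comul x))) = algebraMap k A (Coalgebra.counit x)) :
    HopfAlgebra k A where
  antipode := (MulOpposite.opLinearEquiv k).symm.toLinearMap ∘ₗ S.toLinearMap
  mul_antipode_rTensor_comul := by
    ext a
    exact left_axiom _ (by simp) (by intro a b; simp) X hX hl a
  mul_antipode_lTensor_comul := by
    ext a
    exact right_axiom _ (by simp) (by intro a b; simp) X hX hr a

end Gen

section Quot

variable {k : Type} [CommRing k] {I : Type} (r : FreeAlgebra k I → FreeAlgebra k I → Prop)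

/-- The algebra presented by generators `I` and relations `r`. -/
def Pres : Type := RingQuot r

noncomputable instance : Ring (Pres r) := inferInstanceAs (Ring (RingQuot r))
noncomputable instance : Algebra k (Pres r) := inferInstanceAs (Algebra k (RingQuot r))

/-- the quotient map -/
noncomputable def mkP : FreeAlgebra k I →ₐ[k] Pres r := RingQuot.mkAlgHom k r

lemma mkP_rel {a b : FreeAlgebra k I} (h : r a b) : mkP r a = mkP r b :=
  RingQuot.mkAlgHom_rel k h

lemma mkP_surjective : Function.Surjective (mkP r) := RingQuot.mkAlgHom_surjective k r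

/-- the image of a generator -/
noncomputable def gen (i : I) : Pres r := mkP r (FreeAlgebra.ι k i)

lemma mkP_ι (i : I) : mkP r (FreeAlgebra.ι k i) = gen r i := rfl

lemma adjoin_gen : Algebra.adjoin k (Set.range (gen r)) = ⊤ := by
  have h1 : Set.range (gen r) = (mkP r) '' (Set.range (FreeAlgebra.ι k)) := by
    rw [← Set.range_comp]; rfl
  rw [h1, ← AlgHom.map_adjoin, FreeAlgebra.adjoin_range_ι, Algebra.map_top,
    AlgHom.range_eq_top]
  exact mkP_surjective r

variable {B : Type} [Ring B] [Algebra k B]

/-- algebra maps from a presented algebra -/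
noncomputable def liftP (f : I → B)
    (h : ∀ ⦃a b⦄, r a b → FreeAlgebra.lift k f a = FreeAlgebra.lift k f b) : Pres r →ₐ[k] B :=
  RingQuot.liftAlgHom k ⟨FreeAlgebra.lift k f, h⟩

lemma liftP_gen (f : I → B)
    (h : ∀ ⦃a b⦄, r a b → FreeAlgebra.lift k f a = FreeAlgebra.lift k f b) (i : I) :
    liftP r f h (gen r i) = f i := by
  have : liftP r f h (mkP r (FreeAlgebra.ι k i)) = FreeAlgebra.lift k f (FreeAlgebra.ι k i) :=
    RingQuot.liftAlgHom_mkAlgHom_apply ..
  rw [← mkP_ι, this, FreeAlgebra.lift_ι_apply]

lemma homExt {f g : Pres r →ₐ[k] B} (h : ∀ i, f (gen r i) = g (gen r i)) : f = g := by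
  apply RingQuot.ringQuot_ext'
  apply FreeAlgebra.hom_ext
  funext i
  exact h i

/-- a subspace containing 1 and closed under left multiplication by generators is everything -/
lemma eq_top_of_closed (V : Submodule k (Pres r)) (h1 : 1 ∈ V)
    (h : ∀ i, ∀ v ∈ V, gen r i * v ∈ V) : V = ⊤ := by
  rw [eq_top_iff]
  rintro a -
  have : ∀ a : Pres r, ∀ v ∈ V, a * v ∈ V := by
    intro a
    have ha : a ∈ Algebra.adjoin k (Set.range (gen r)) := by rw [adjoin_gen]; trivial
    induction ha using Algebra.adjoin_induction with
    | mem x hx => obtain ⟨i, rfl⟩ := hx; exact h i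
    | algebraMap c => intro v hv; rw [← Algebra.smul_def]; exact V.smul_mem _ hv
    | add x y _ _ hx hy => intro v hv; rw [add_mul]; exact V.add_mem (hx v hv) (hy v hv)
    | mul x y _ _ hx hy => intro v hv; rw [mul_assoc]; exact hx _ (hy _ hv)
  simpa using this a 1 h1

end Quot

end Pool.Agent.Q112.HopfPres
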