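import Mathlib
import Pool.Agent.Q112.HopfPres

open scoped TensorProduct
open Pool.Agent.Q112.HopfPres
open WithConv

universe u

namespace Pool.Agent.Q112.Doi

section Defs

variable (k : Type) [Field k]

/-- A normalized Sweedler cocycle `σ : H ⊗ H → k`, with its convolution inverse. -/
structure SweedlerCocycle (H : Type) [Ring H] [HopfAlgebra k H] where
  σ : H ⊗[k] H →ₗ[k] k
  inv : H ⊗[k] H →ₗ[k] k
  mul_inv : toConv σ * toConv inv = 1
  inv_mul : toConv inv * toConv σ = 1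
  /-- `σ(h₁, g₁) σ(h₂ g₂, l) = σ(g₁, l₁) σ(h, g₂ l₂)` -/
  cocycle : ∀ h g l : H,
    (toConv σ * toConv (σ ∘ₗ (TensorProduct.mk k H H).flip l ∘ₗ LinearMap.mul' k H)) (h ⊗ₜ g) =
    (toConv σ * toConv (σ ∘ₗ TensorProduct.mk k H H h ∘ₗ LinearMap.mul' k H)) (g ⊗ₜ l)
  left_one : ∀ h : H, σ (1 ⊗ₜ h) = Coalgebra.counit h
  right_one : ∀ h : H, σ (h ⊗ₜ 1) = Coalgebra.counit h

variable {k}

/-- The multiplication of the Doi deformation `H_σ`:
`h ⊗ g ↦ σ(h₁, g₁) h₂ g₂ σ⁻¹(h₃, g₃)`. -/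
noncomputable def SweedlerCocycle.mul {H : Type} [Ring H] [HopfAlgebra k H]
    (s : SweedlerCocycle k H) : H ⊗[k] H →ₗ[k] H :=
  (toConv (Algebra.linearMap k H ∘ₗ s.σ) * toConv (LinearMap.mul' k H) *
    toConv (Algebra.linearMap k H ∘ₗ s.inv)).ofConv

variable (k)

/-- A matched pair `(A, H, ◁, ▷)` of Hopf algebras. -/
structure MatchedPair (A : Type u) [Ring A] [HopfAlgebra k A] (H : Type) [Ring H]
    [HopfAlgebra k H] where
  /-- the coalgebra map `◁ : H ⊗ A → H` -/
  rt : H ⊗[k] A →ₗc[k] H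
  /-- the coalgebra map `▷ : H ⊗ A → A` -/
  lt : H ⊗[k] A →ₗc[k] A
  lt_one : ∀ h : H, lt (h ⊗ₜ 1) = algebraMap k A (Coalgebra.counit h)
  one_lt : ∀ a : A, lt (1 ⊗ₜ a) = a
  one_rt : ∀ a : A, rt (1 ⊗ₜ a) = algebraMap k H (Coalgebra.counit a)
  rt_one : ∀ h : H, rt (h ⊗ₜ 1) = h
  /-- `A ⊗ H` with the tensor product coalgebra structure, the unit `1 ⊗ 1` and the
  multiplication `(a ⊗ h) (c ⊗ g) = a (h₁ ▷ c₁) ⊗ (h₂ ◁ c₂) g` is a Hopf algebra. -/
  bicrossed : ∃ (B : Type u) (_ : Ring B) (_ : HopfAlgebra k B) (e : (A ⊗[k] H) ≃ₗc[k] B),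
    e (1 ⊗ₜ 1) = 1 ∧ ∀ (a c : A) (h g : H), e (a ⊗ₜ h) * e (c ⊗ₜ g) =
      e (TensorProduct.map (LinearMap.mulLeft k a ∘ₗ (lt : H ⊗[k] A →ₗ[k] A))
        (LinearMap.mulRight k g ∘ₗ (rt : H ⊗[k] A →ₗ[k] H)) (Coalgebra.comul (R := k) (h ⊗ₜ c)))

variable {k}

/-- The multiplication `h • g = (h ◁ r(g₁)) g₂` attached to a linear map `r : H → A`. -/
noncomputable def MatchedPair.rmul {A : Type u} [Ring A] [HopfAlgebra k A] {H : Type} [Ring H]
    [HopfAlgebra k H] (P : MatchedPair k A H) (r : H →ₗ[k] A) (h g : H) : H :=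
  LinearMap.mul' k H (TensorProduct.map
    ((P.rt : H ⊗[k] A →ₗ[k] H) ∘ₗ TensorProduct.mk k H A h ∘ₗ r) LinearMap.id
    (Coalgebra.comul (R := k) g))

/-- A deformation map `r : H → A` of a matched pair. -/
structure DeformationMap {A : Type u} [Ring A] [HopfAlgebra k A] {H : Type} [Ring H]
    [HopfAlgebra k H] (P : MatchedPair k A H) where
  r : H →ₗc[k] A
  map_one : r 1 = 1
  /-- `r(h₁) ⊗ h₂ = r(h₂) ⊗ h₁` -/
  cocentral : ∀ h : H, TensorProduct.map (r : H →ₗ[k] A) LinearMap.id (Coalgebra.comul (R := k) h) =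
    TensorProduct.map (r : H →ₗ[k] A) LinearMap.id
      (TensorProduct.comm k H H (Coalgebra.comul (R := k) h))
  /-- `r((h ◁ r(g₁)) g₂) = r(h₁) (h₂ ▷ r(g))` -/
  compat : ∀ h g : H, r (P.rmul r h g) =
    LinearMap.mul' k A (TensorProduct.map (r : H →ₗ[k] A)
      ((P.lt : H ⊗[k] A →ₗ[k] A) ∘ₗ (TensorProduct.mk k H A).flip (r g))
      (Coalgebra.comul (R := k) h))

end Defs

section Alg

variable (k : Type) [Field k]

/-- Relations `g⁴ = 1`, `x² = 0`, `x g = - g x`. -/
inductive Rel : FreeAlgebra k (Fin 2) → FreeAlgebra k (Fin 2) → Prop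
  | g4 : Rel (FreeAlgebra.ι k 0 ^ 4) 1
  | x2 : Rel (FreeAlgebra.ι k 1 * FreeAlgebra.ι k 1) 0
  | xg : Rel (FreeAlgebra.ι k 1 * FreeAlgebra.ι k 0) (- (FreeAlgebra.ι k 0 * FreeAlgebra.ι k 1))

/-- The eight-dimensional algebra `k⟨g, x | g⁴ = 1, x² = 0, x g = -g x⟩`. -/
abbrev H : Type := Pres (Rel k)

variable {k} in
lemma lift_rel {B : Type} [Ring B] [Algebra k B] (f : Fin 2 → B) (h1 : f 0 ^ 4 = 1)
    (h2 : f 1 * f 1 = 0) (h3 : f 1 * f 0 = - (f 0 * f 1)) :
    ∀ ⦃a b⦄, Rel k a b → FreeAlgebra.lift k f a = FreeAlgebra.lift k f b := by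
  intro a b h
  cases h <;> simp [h1, h2, h3]

/-- The generator `g`. -/
noncomputable abbrev G : H k := gen (Rel k) 0
/-- The generator `x`. -/
noncomputable abbrev X : H k := gen (Rel k) 1

lemma G_pow : G k ^ 4 = 1 := by
  have := mkP_rel _ (Rel.g4 (k := k))
  rwa [map_pow, map_one] at this

lemma X_mul_X : X k * X k = 0 := by
  have := mkP_rel _ (Rel.x2 (k := k))
  rwa [map_mul, map_zero] at this

lemma XG : X k * G k = - (G k * X k) := by
  have := mkP_rel _ (Rel.xg (k := k))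
  rwa [map_mul, map_neg, map_mul] at this

/-- comultiplication -/
noncomputable def comulHom : H k →ₐ[k] H k ⊗[k] H k :=
  liftP (Rel k) (B := H k ⊗[k] H k)
    ![G k ⊗ₜ G k, X k ⊗ₜ 1 + G k ⊗ₜ X k] (by
    apply lift_rel
    · simp only [Matrix.cons_val_zero, Algebra.TensorProduct.tmul_pow, G_pow]; rfl
    · simp only [Matrix.cons_val_one, Matrix.cons_val_zero, mul_add, add_mul,
        Algebra.TensorProduct.tmul_mul_tmul, one_mul, mul_one, X_mul_X, XG,
        TensorProduct.zero_tmul, TensorProduct.tmul_zero, TensorProduct.neg_tmul]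
      abel
    · simp only [Matrix.cons_val_one, Matrix.cons_val_zero, mul_add, add_mul,
        Algebra.TensorProduct.tmul_mul_tmul, one_mul, mul_one, XG,
        TensorProduct.neg_tmul, TensorProduct.tmul_neg]
      abel)

/-- counit -/
noncomputable def counitHom : H k →ₐ[k] k :=
  liftP (Rel k) ![1, 0] (by
    apply lift_rel <;> simp)

/-- antipode -/
noncomputable def antiHom : H k →ₐ[k] (H k)ᵐᵒᵖ :=
  liftP (Rel k) ![MulOpposite.op (G k ^ 3), MulOpposite.op (- (G k ^ 3 * X k))] (by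
    have hX3 : X k * G k ^ 3 = - (G k ^ 3 * X k) := by
      have e : ∀ a : H k, X k * (G k * a) = - (G k * (X k * a)) := fun a => by
        rw [← mul_assoc, XG, neg_mul, mul_assoc]
      rw [show G k ^ 3 = G k * (G k * G k) by rw [pow_succ', pow_two], e, e, XG, mul_assoc,
        mul_assoc]
      simp
    apply lift_rel
    · simp only [Matrix.cons_val_zero]
      rw [← MulOpposite.op_pow, ← pow_mul, show 3 * 4 = 4 * 3 by norm_num, pow_mul, G_pow, one_pow]
      rfl
    · simp only [Matrix.cons_val_one, Matrix.cons_val_zero]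
      rw [← MulOpposite.op_mul, neg_mul_neg,
        show G k ^ 3 * X k * (G k ^ 3 * X k) = G k ^ 3 * (X k * G k ^ 3) * X k by noncomm_ring,
        hX3, mul_neg, neg_mul, mul_assoc, mul_assoc, X_mul_X]
      simp
    · simp only [Matrix.cons_val_one, Matrix.cons_val_zero]
      rw [← MulOpposite.op_mul, ← MulOpposite.op_mul, ← MulOpposite.op_neg]
      congr 1
      rw [neg_mul, mul_assoc, hX3]
      noncomm_ring)

lemma comulHom_G : comulHom k (G k) = G k ⊗ₜ G k := liftP_gen _ _ _ _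
lemma comulHom_X : comulHom k (X k) = X k ⊗ₜ 1 + G k ⊗ₜ X k := liftP_gen _ _ _ _
lemma counitHom_G : counitHom k (G k) = 1 := liftP_gen _ _ _ _
lemma counitHom_X : counitHom k (X k) = 0 := liftP_gen _ _ _ _
lemma antiHom_G : antiHom k (G k) = MulOpposite.op (G k ^ 3) := liftP_gen _ _ _ _
lemma antiHom_X : antiHom k (X k) = MulOpposite.op (- (G k ^ 3 * X k)) := liftP_gen _ _ _ _

lemma forall_fin2 {P : Fin 2 → Prop} (h0 : P 0) (h1 : P 1) : ∀ i, P i := by
  intro i; fin_cases i <;> assumption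

noncomputable instance : Bialgebra k (H k) :=
  Bialgebra.ofAlgHom (comulHom k) (counitHom k)
    (homExt _ <| forall_fin2 (by simp [comulHom_G]) (by
      simp [comulHom_X, comulHom_G, TensorProduct.add_tmul, TensorProduct.tmul_add,
        Algebra.TensorProduct.one_def, add_assoc]))
    (homExt _ <| forall_fin2 (by simp [comulHom_G, counitHom_G])
      (by simp [comulHom_X, counitHom_X, counitHom_G]))
    (homExt _ <| forall_fin2 (by simp [comulHom_G, counitHom_G])
      (by simp [comulHom_X, counitHom_X, counitHom_G]))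

lemma comul_G : Coalgebra.comul (R := k) (G k) = G k ⊗ₜ G k := comulHom_G k
lemma comul_X : Coalgebra.comul (R := k) (X k) = X k ⊗ₜ 1 + G k ⊗ₜ X k := comulHom_X k
lemma counit_G : Coalgebra.counit (R := k) (G k) = 1 := counitHom_G k
lemma counit_X : Coalgebra.counit (R := k) (X k) = 0 := counitHom_X k

noncomputable instance : HopfAlgebra k (H k) :=
  hopfOfGen (antiHom k) (Set.range (gen (Rel k))) (adjoin_gen _)
    (by
      rintro _ ⟨i, rfl⟩
      revert i
      apply forall_fin2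
      · rw [comul_G, counit_G]
        simp [antiHom_G, ← pow_succ, G_pow]
      · rw [comul_X, counit_X]
        simp [antiHom_G, antiHom_X])
    (by
      rintro _ ⟨i, rfl⟩
      revert i
      apply forall_fin2
      · rw [comul_G, counit_G]
        simp [antiHom_G, ← pow_succ', G_pow]
      · rw [comul_X, counit_X]
        simp [antiHom_X, ← mul_assoc, ← pow_succ', G_pow])

/-- The elements `gⁱ`. -/
noncomputable def U (i : ℕ) : H k := G k ^ i
/-- The elements `gⁱ x`. -/
noncomputable def V (i : ℕ) : H k := G k ^ i * X k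

lemma comul_U (i : ℕ) : Coalgebra.comul (R := k) (U k i) = U k i ⊗ₜ U k i := by
  rw [U, Bialgebra.comul_pow, comul_G, Algebra.TensorProduct.tmul_pow]

lemma comul_V (i : ℕ) : Coalgebra.comul (R := k) (V k i) = V k i ⊗ₜ U k i + U k (i + 1) ⊗ₜ V k i := by
  rw [V, Bialgebra.comul_mul, comul_X, Bialgebra.comul_pow, comul_G,
    Algebra.TensorProduct.tmul_pow, mul_add, Algebra.TensorProduct.tmul_mul_tmul,
    Algebra.TensorProduct.tmul_mul_tmul, mul_one, U, U, pow_succ]

lemma counit_U (i : ℕ) : Coalgebra.counit (R := k) (U k i) = 1 := by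
  rw [U, Bialgebra.counit_pow, counit_G, one_pow]

lemma counit_V (i : ℕ) : Coalgebra.counit (R := k) (V k i) = 0 := by
  rw [V, Bialgebra.counit_mul, counit_X, mul_zero]

lemma span_UV : Submodule.span k (Set.range (U k) ∪ Set.range (V k)) = ⊤ := by
  apply eq_top_of_closed
  · exact Submodule.subset_span (Or.inl ⟨0, pow_zero _⟩)
  · have hXU : ∀ i, ∃ c : k, X k * U k i = c • V k i := by
      intro i
      induction i with
      | zero => exact ⟨1, by simp [U, V]⟩
      | succ i ih =>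
        obtain ⟨c, hc⟩ := ih
        refine ⟨-c, ?_⟩
        rw [U, pow_succ, ← mul_assoc]
        rw [U] at hc
        rw [hc, V, V, smul_mul_assoc, mul_assoc, XG, pow_succ, mul_neg, neg_smul, smul_neg,
          mul_assoc]
    refine forall_fin2 ?_ ?_
    · intro v hv
      induction hv using Submodule.span_induction with
      | zero => rw [mul_zero]; exact zero_mem _
      | add x y _ _ hx hy => rw [mul_add]; exact add_mem hx hy
      | smul c x _ hx => rw [mul_smul_comm]; exact Submodule.smul_mem _ _ hx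
      | mem x hx =>
        rcases hx with ⟨i, rfl⟩ | ⟨i, rfl⟩
        · exact Submodule.subset_span (Or.inl ⟨i + 1, by rw [U, pow_succ']; rfl⟩)
        · exact Submodule.subset_span (Or.inr ⟨i + 1, by rw [V, pow_succ', mul_assoc]; rfl⟩)
    · intro v hv
      induction hv using Submodule.span_induction with
      | zero => rw [mul_zero]; exact zero_mem _
      | add x y _ _ hx hy => rw [mul_add]; exact add_mem hx hy
      | smul c x _ hx => rw [mul_smul_comm]; exact Submodule.smul_mem _ _ hx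
      | mem x hx =>
        rcases hx with ⟨i, rfl⟩ | ⟨i, rfl⟩
        · obtain ⟨c, hc⟩ := hXU i
          rw [hc]
          exact Submodule.smul_mem _ _ (Submodule.subset_span (Or.inr ⟨i, rfl⟩))
        · obtain ⟨c, hc⟩ := hXU i
          have : X k * V k i = 0 := by
            rw [V, ← mul_assoc]
            rw [U] at hc
            rw [hc, V, smul_mul_assoc, mul_assoc, X_mul_X, mul_zero, smul_zero]
          rw [this]; exact zero_mem _

lemma ext_UV {M : Type u} [AddCommGroup M] [Module k M] {f g : H k →ₗ[k] M}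
    (h1 : ∀ i, f (U k i) = g (U k i)) (h2 : ∀ i, f (V k i) = g (V k i)) : f = g := by
  apply LinearMap.ext_on (span_UV k)
  rintro _ (⟨i, rfl⟩ | ⟨i, rfl⟩)
  · exact h1 i
  · exact h2 i

/-- the representation `h ↦ (ε(h), ξ(h); 0, χ(h))` -/
noncomputable def repA : H k →ₐ[k] Matrix (Fin 2) (Fin 2) k :=
  liftP (Rel k) ![!![1, 0; 0, -1], !![0, 1; 0, 0]] (by
    apply lift_rel
    · ext i j
      fin_cases i <;> fin_cases j <;>
        simp [pow_succ, Matrix.mul_apply, Fin.sum_univ_two]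
    · ext i j
      fin_cases i <;> fin_cases j <;> simp [Matrix.mul_apply, Fin.sum_univ_two]
    · ext i j
      fin_cases i <;> fin_cases j <;> simp [Matrix.mul_apply, Fin.sum_univ_two])

/-- the representation `h ↦ (χ(h), ζ(h); 0, ε(h))` -/
noncomputable def repB : H k →ₐ[k] Matrix (Fin 2) (Fin 2) k :=
  liftP (Rel k) ![!![-1, 0; 0, 1], !![0, 1; 0, 0]] (by
    apply lift_rel
    · ext i j
      fin_cases i <;> fin_cases j <;>
        simp [pow_succ, Matrix.mul_apply, Fin.sum_univ_two]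
    · ext i j
      fin_cases i <;> fin_cases j <;> simp [Matrix.mul_apply, Fin.sum_univ_two]
    · ext i j
      fin_cases i <;> fin_cases j <;> simp [Matrix.mul_apply, Fin.sum_univ_two])

/-- entry functional -/
def ent (i j : Fin 2) : Matrix (Fin 2) (Fin 2) k →ₗ[k] k where
  toFun M := M i j
  map_add' _ _ := rfl
  map_smul' _ _ := rfl

/-- the functionals -/
noncomputable def ξ : H k →ₗ[k] k := (ent k 0 1).comp (repA k).toLinearMap
noncomputable def χ : H k →ₗ[k] k := (ent k 1 1).comp (repA k).toLinearMap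
noncomputable def ζ : H k →ₗ[k] k := (ent k 0 1).comp (repB k).toLinearMap
noncomputable def ε : H k →ₗ[k] k := Coalgebra.counit

lemma repA_U (i : ℕ) : repA k (U k i) = !![1, 0; 0, (-1) ^ i] := by
  rw [U, map_pow, repA, liftP_gen]
  induction i with
  | zero => ext i j; fin_cases i <;> fin_cases j <;> simp
  | succ n ih =>
    rw [pow_succ, ih]
    ext i j; fin_cases i <;> fin_cases j <;> simp [Matrix.mul_apply, Fin.sum_univ_two, pow_succ]

lemma repB_U (i : ℕ) : repB k (U k i) = !![(-1) ^ i, 0; 0, 1] := by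
  rw [U, map_pow, repB, liftP_gen]
  induction i with
  | zero => ext i j; fin_cases i <;> fin_cases j <;> simp
  | succ n ih =>
    rw [pow_succ, ih]
    ext i j; fin_cases i <;> fin_cases j <;> simp [Matrix.mul_apply, Fin.sum_univ_two, pow_succ]

lemma repA_V (i : ℕ) : repA k (V k i) = !![0, 1; 0, 0] := by
  rw [V, map_mul, ← U, repA_U, repA, liftP_gen]
  ext i j; fin_cases i <;> fin_cases j <;> simp [Matrix.mul_apply, Fin.sum_univ_two]

lemma repB_V (i : ℕ) : repB k (V k i) = !![0, (-1) ^ i; 0, 0] := by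
  rw [V, map_mul, ← U, repB_U, repB, liftP_gen]
  ext i j; fin_cases i <;> fin_cases j <;> simp [Matrix.mul_apply, Fin.sum_univ_two]

lemma ξ_U (i : ℕ) : ξ k (U k i) = 0 := by
  change (repA k (U k i)) 0 1 = 0; rw [repA_U]; simp
lemma ξ_V (i : ℕ) : ξ k (V k i) = 1 := by
  change (repA k (V k i)) 0 1 = 1; rw [repA_V]; simp
lemma χ_U (i : ℕ) : χ k (U k i) = (-1) ^ i := by
  change (repA k (U k i)) 1 1 = _; rw [repA_U]; simp
lemma χ_V (i : ℕ) : χ k (V k i) = 0 := by
  change (repA k (V k i)) 1 1 = 0; rw [repA_V]; simp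
lemma ζ_U (i : ℕ) : ζ k (U k i) = 0 := by
  change (repB k (U k i)) 0 1 = 0; rw [repB_U]; simp
lemma ζ_V (i : ℕ) : ζ k (V k i) = (-1) ^ i := by
  change (repB k (V k i)) 0 1 = _; rw [repB_V]; simp
lemma ε_U (i : ℕ) : ε k (U k i) = 1 := counit_U k i
lemma ε_V (i : ℕ) : ε k (V k i) = 0 := counit_V k i

lemma repA_00 (h : H k) : (repA k h) 0 0 = ε k h := by
  have : (ent k 0 0).comp (repA k).toLinearMap = ε k := by
    apply ext_UV
    · intro i
      change (repA k (U k i)) 0 0 = _; rw [repA_U, ε_U]; simp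
    · intro i
      change (repA k (V k i)) 0 0 = _; rw [repA_V, ε_V]; simp
  exact LinearMap.congr_fun this h

lemma repB_11 (h : H k) : (repB k h) 1 1 = ε k h := by
  have : (ent k 1 1).comp (repB k).toLinearMap = ε k := by
    apply ext_UV
    · intro i
      change (repB k (U k i)) 1 1 = _; rw [repB_U, ε_U]; simp
    · intro i
      change (repB k (V k i)) 1 1 = _; rw [repB_V, ε_V]; simp
  exact LinearMap.congr_fun this h

lemma repB_00 (h : H k) : (repB k h) 0 0 = χ k h := by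
  have : (ent k 0 0).comp (repB k).toLinearMap = χ k := by
    apply ext_UV
    · intro i
      change (repB k (U k i)) 0 0 = _; rw [repB_U, χ_U]; simp
    · intro i
      change (repB k (V k i)) 0 0 = _; rw [repB_V, χ_V]; simp
  exact LinearMap.congr_fun this h

lemma ξ_mul (a b : H k) : ξ k (a * b) = ε k a * ξ k b + ξ k a * χ k b := by
  change (repA k (a * b)) 0 1 = _
  rw [map_mul, Matrix.mul_apply, Fin.sum_univ_two, repA_00]
  rfl

lemma ζ_mul (a b : H k) : ζ k (a * b) = χ k a * ζ k b + ζ k a * ε k b := by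
  change (repB k (a * b)) 0 1 = _
  rw [map_mul, Matrix.mul_apply, Fin.sum_univ_two, repB_00, repB_11]
  rfl

lemma ε_mul (a b : H k) : ε k (a * b) = ε k a * ε k b := Bialgebra.counit_mul a b

end Alg

section Conv

variable {k : Type} [Field k] {H : Type} [Ring H] [HopfAlgebra k H]

lemma convMul_tmul_add {A : Type u} [Ring A] [Algebra k A] (F G : WithConv (H ⊗[k] H →ₗ[k] A))
    (a b : H) {ι κ : Type} (ra : Coalgebra.Repr k a ι) (rb : Coalgebra.Repr k b κ) :
    (F * G) (a ⊗ₜ b) = ∑ i ∈ ra.index, ∑ j ∈ rb.index,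
      F (ra.left i ⊗ₜ rb.left j) * G (ra.right i ⊗ₜ rb.right j) := by
  rw [LinearMap.convMul_apply, TensorProduct.comul_tmul, ← ra.eq, ← rb.eq]
  simp only [TensorProduct.sum_tmul, TensorProduct.tmul_sum, map_sum,
    TensorProduct.AlgebraTensorModule.tensorTensorTensorComm_tmul, TensorProduct.map_tmul,
    LinearMap.mul'_apply]
  rw [Finset.sum_comm]

/-- the functional `a ⊗ b ↦ α(a) β(b)` -/
noncomputable def tp (α β : H →ₗ[k] k) : H ⊗[k] H →ₗ[k] k :=
  LinearMap.mul' k k ∘ₗ TensorProduct.map α β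

lemma tp_tmul (α β : H →ₗ[k] k) (a b : H) : tp α β (a ⊗ₜ b) = α a * β b := by simp [tp]

lemma conv_tp (α β α' β' : H →ₗ[k] k) : toConv (tp α β) * toConv (tp α' β') =
    toConv (tp (toConv α * toConv α').ofConv (toConv β * toConv β').ofConv) := by
  have h1 := TensorProduct.map_convMul_map (R := k) (f := toConv α) (g := toConv β)
    (h := toConv α') (k := toConv β')
  have h2 := LinearMap.algHom_comp_convMul_distrib (Algebra.TensorProduct.lmul' k (S := k))
    (toConv (TensorProduct.map α β)) (toConv (TensorProduct.map α' β'))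
  have h3 : ∀ f g : H →ₗ[k] k, (Algebra.TensorProduct.lmul' k (S := k)).toLinearMap ∘ₗ
      TensorProduct.map f g = tp f g := by
    intro f g
    ext a b
    simp [tp]
  rw [h1] at h2
  simp only [h3] at h2
  have h4 := congrArg toConv h2
  exact h4.symm

end Conv

section Cocycle

variable (k : Type) [Field k]

lemma conv_U {A : Type u} [Ring A] [Algebra k A] (f g : WithConv (H k →ₗ[k] A)) (i : ℕ) :
    (f * g) (U k i) = f (U k i) * g (U k i) := by
  rw [LinearMap.convMul_apply, comul_U]; rfl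

lemma conv_V {A : Type u} [Ring A] [Algebra k A] (f g : WithConv (H k →ₗ[k] A)) (i : ℕ) :
    (f * g) (V k i) = f (V k i) * g (U k i) + f (U k (i + 1)) * g (V k i) := by
  rw [LinearMap.convMul_apply, comul_V, map_add, map_add]; rfl

lemma conv_eq_zero (f g : H k →ₗ[k] k) (h1 : ∀ i, f (U k i) = 0) (h2 : ∀ i, g (U k i) = 0) :
    toConv f * toConv g = 0 := by
  have : (toConv f * toConv g).ofConv = 0 := by
    apply ext_UV
    · intro i
      refine (conv_U k (toConv f) (toConv g) i).trans ?_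
      change f (U k i) * g (U k i) = 0
      rw [h1, zero_mul]
    · intro i
      refine (conv_V k (toConv f) (toConv g) i).trans ?_
      change f (V k i) * g (U k i) + f (U k (i + 1)) * g (V k i) = 0
      rw [h1, h2, zero_mul, mul_zero, add_zero]
  exact congrArg toConv this

lemma tp_zero_left (β : H k →ₗ[k] k) : tp (0 : H k →ₗ[k] k) β = 0 := by
  ext a b; simp [tp_tmul]
lemma tp_zero_right (α : H k →ₗ[k] k) : tp α (0 : H k →ₗ[k] k) = 0 := by
  ext a b; simp [tp_tmul]

lemma toConv_ε : toConv (ε k) = 1 := by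
  ext a; rfl

lemma toConv_tp_ε : toConv (tp (ε k) (ε k)) = 1 := by
  ext a b
  change tp (ε k) (ε k) (a ⊗ₜ b) = algebraMap k k (Coalgebra.counit (a ⊗ₜ[k] b))
  rw [tp_tmul, TensorProduct.counit_tmul, smul_eq_mul, mul_comm]
  rfl

/-- the cocycle -/
noncomputable def sig : H k ⊗[k] H k →ₗ[k] k := tp (ε k) (ε k) + tp (ξ k) (ζ k)
/-- its inverse -/
noncomputable def sigInv : H k ⊗[k] H k →ₗ[k] k := tp (ε k) (ε k) - tp (ξ k) (ζ k)

lemma toConv_sig : toConv (sig k) = 1 + toConv (tp (ξ k) (ζ k)) := by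
  rw [sig, toConv_add, toConv_tp_ε]
lemma toConv_sigInv : toConv (sigInv k) = 1 - toConv (tp (ξ k) (ζ k)) := by
  rw [sigInv, toConv_sub, toConv_tp_ε]

lemma sq_zero : toConv (tp (ξ k) (ζ k)) * toConv (tp (ξ k) (ζ k)) = 0 := by
  rw [conv_tp, conv_eq_zero k (ξ k) (ξ k) (ξ_U k) (ξ_U k)]
  change toConv (tp (0 : H k →ₗ[k] k) _) = 0
  rw [tp_zero_left]; rfl

lemma tp_mul_zero_right (α β α' β' : H k →ₗ[k] k) (h : toConv β * toConv β' = 0) :
    toConv (tp α β) * toConv (tp α' β') = 0 := by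
  rw [conv_tp, h]
  change toConv (tp _ (0 : H k →ₗ[k] k)) = 0
  rw [tp_zero_right]; rfl

lemma tp_mul_zero_left (α β α' β' : H k →ₗ[k] k) (h : toConv α * toConv α' = 0) :
    toConv (tp α β) * toConv (tp α' β') = 0 := by
  rw [conv_tp, h]
  change toConv (tp (0 : H k →ₗ[k] k) _) = 0
  rw [tp_zero_left]; rfl

/-- The Sweedler cocycle. -/
noncomputable def coc : SweedlerCocycle k (H k) where
  σ := sig k
  inv := sigInv k
  mul_inv := by
    rw [toConv_sig, toConv_sigInv, mul_sub, mul_one, add_mul, one_mul, sq_zero]; abel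
  inv_mul := by
    rw [toConv_sig, toConv_sigInv, mul_add, mul_one, sub_mul, one_mul, sq_zero]; abel
  cocycle := by
    intro h g l
    have hF : sig k ∘ₗ (TensorProduct.mk k (H k) (H k)).flip l ∘ₗ LinearMap.mul' k (H k) =
        ε k l • tp (ε k) (ε k) + ζ k l • (tp (ε k) (ξ k) + tp (ξ k) (χ k)) := by
      ext a b
      change sig k ((a * b) ⊗ₜ l) = ε k l • tp (ε k) (ε k) (a ⊗ₜ b) +
        ζ k l • (tp (ε k) (ξ k) (a ⊗ₜ b) + tp (ξ k) (χ k) (a ⊗ₜ b))
      rw [sig, LinearMap.add_apply]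
      simp only [tp_tmul, ε_mul, ξ_mul, smul_eq_mul]
      ring
    have hG : sig k ∘ₗ TensorProduct.mk k (H k) (H k) h ∘ₗ LinearMap.mul' k (H k) =
        ε k h • tp (ε k) (ε k) + ξ k h • (tp (χ k) (ζ k) + tp (ζ k) (ε k)) := by
      ext a b
      change sig k (h ⊗ₜ (a * b)) = ε k h • tp (ε k) (ε k) (a ⊗ₜ b) +
        ξ k h • (tp (χ k) (ζ k) (a ⊗ₜ b) + tp (ζ k) (ε k) (a ⊗ₜ b))
      rw [sig, LinearMap.add_apply]
      simp only [tp_tmul, ε_mul, ζ_mul, smul_eq_mul]
      try ring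
    have e1 : toConv (sig k) * toConv (ε k l • tp (ε k) (ε k) +
        ζ k l • (tp (ε k) (ξ k) + tp (ξ k) (χ k))) =
        toConv (ε k l • (tp (ε k) (ε k) + tp (ξ k) (ζ k)) +
          ζ k l • (tp (ε k) (ξ k) + tp (ξ k) (χ k))) := by
      simp only [toConv_add, toConv_smul, toConv_sig, toConv_tp_ε]
      rw [add_mul, one_mul, mul_add, mul_smul_comm, mul_smul_comm, mul_add, mul_one,
        tp_mul_zero_right k _ _ _ _ (conv_eq_zero k (ζ k) (ξ k) (ζ_U k) (ξ_U k)),
        tp_mul_zero_left k _ _ _ _ (conv_eq_zero k (ξ k) (ξ k) (ξ_U k) (ξ_U k)),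
        add_zero, smul_zero, add_zero]
      simp only [smul_add]
      abel
    have e2 : toConv (sig k) * toConv (ε k h • tp (ε k) (ε k) +
        ξ k h • (tp (χ k) (ζ k) + tp (ζ k) (ε k))) =
        toConv (ε k h • (tp (ε k) (ε k) + tp (ξ k) (ζ k)) +
          ξ k h • (tp (χ k) (ζ k) + tp (ζ k) (ε k))) := by
      simp only [toConv_add, toConv_smul, toConv_sig, toConv_tp_ε]
      rw [add_mul, one_mul, mul_add, mul_smul_comm, mul_smul_comm, mul_add, mul_one,
        tp_mul_zero_right k _ _ _ _ (conv_eq_zero k (ζ k) (ζ k) (ζ_U k) (ζ_U k)),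
        tp_mul_zero_left k _ _ _ _ (conv_eq_zero k (ξ k) (ζ k) (ξ_U k) (ζ_U k)),
        add_zero, smul_zero, add_zero]
      simp only [smul_add]
      abel
    rw [hF, hG, e1, e2]
    change ε k l • (tp (ε k) (ε k) (h ⊗ₜ g) + tp (ξ k) (ζ k) (h ⊗ₜ g)) +
        ζ k l • (tp (ε k) (ξ k) (h ⊗ₜ g) + tp (ξ k) (χ k) (h ⊗ₜ g)) =
      ε k h • (tp (ε k) (ε k) (g ⊗ₜ l) + tp (ξ k) (ζ k) (g ⊗ₜ l)) +
        ξ k h • (tp (χ k) (ζ k) (g ⊗ₜ l) + tp (ζ k) (ε k) (g ⊗ₜ l))
    simp only [tp_tmul, smul_eq_mul]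
    ring
  left_one := by
    intro h
    have h0 : (1 : H k) = U k 0 := (pow_zero _).symm
    rw [sig, LinearMap.add_apply, tp_tmul, tp_tmul, h0, ε_U, ξ_U, one_mul, zero_mul, add_zero]
    rfl
  right_one := by
    intro h
    have h0 : (1 : H k) = U k 0 := (pow_zero _).symm
    rw [sig, LinearMap.add_apply, tp_tmul, tp_tmul, h0, ε_U, ζ_U, mul_one, mul_zero, add_zero]
    rfl

lemma sig_UU (i j : ℕ) : sig k (U k i ⊗ₜ U k j) = 1 := by
  rw [sig, LinearMap.add_apply, tp_tmul, tp_tmul, ε_U, ε_U, ξ_U]; simp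
lemma sig_UV (i j : ℕ) : sig k (U k i ⊗ₜ V k j) = 0 := by
  rw [sig, LinearMap.add_apply, tp_tmul, tp_tmul, ε_U, ε_V, ξ_U]; simp
lemma sig_VU (i j : ℕ) : sig k (V k i ⊗ₜ U k j) = 0 := by
  rw [sig, LinearMap.add_apply, tp_tmul, tp_tmul, ε_U, ε_V, ζ_U]; simp
lemma sig_VV (i j : ℕ) : sig k (V k i ⊗ₜ V k j) = (-1) ^ j := by
  rw [sig, LinearMap.add_apply, tp_tmul, tp_tmul, ε_V, ε_V, ξ_V, ζ_V]; simp
lemma inv_UU (i j : ℕ) : sigInv k (U k i ⊗ₜ U k j) = 1 := by
  rw [sigInv, LinearMap.sub_apply, tp_tmul, tp_tmul, ε_U, ε_U, ξ_U]; simp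
lemma inv_UV (i j : ℕ) : sigInv k (U k i ⊗ₜ V k j) = 0 := by
  rw [sigInv, LinearMap.sub_apply, tp_tmul, tp_tmul, ε_U, ε_V, ξ_U]; simp
lemma inv_VU (i j : ℕ) : sigInv k (V k i ⊗ₜ U k j) = 0 := by
  rw [sigInv, LinearMap.sub_apply, tp_tmul, tp_tmul, ε_U, ε_V, ζ_U]; simp
lemma inv_VV (i j : ℕ) : sigInv k (V k i ⊗ₜ V k j) = - (-1) ^ j := by
  rw [sigInv, LinearMap.sub_apply, tp_tmul, tp_tmul, ε_V, ε_V, ξ_V, ζ_V]; simp

section ConvVals

variable {A : Type u} [Ring A] [Algebra k A] (F G : WithConv (H k ⊗[k] H k →ₗ[k] A))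

lemma conv_UU (i j : ℕ) : (F * G) (U k i ⊗ₜ U k j) =
    F (U k i ⊗ₜ U k j) * G (U k i ⊗ₜ U k j) := by
  rw [LinearMap.convMul_apply, TensorProduct.comul_tmul, comul_U, comul_U]; rfl

lemma conv_UV (i j : ℕ) : (F * G) (U k i ⊗ₜ V k j) =
    F (U k i ⊗ₜ V k j) * G (U k i ⊗ₜ U k j) +
    F (U k i ⊗ₜ U k (j + 1)) * G (U k i ⊗ₜ V k j) := by
  rw [LinearMap.convMul_apply, TensorProduct.comul_tmul, comul_U, comul_V,
    TensorProduct.tmul_add, map_add, map_add, map_add]; rfl

lemma conv_VU (i j : ℕ) : (F * G) (V k i ⊗ₜ U k j) =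
    F (V k i ⊗ₜ U k j) * G (U k i ⊗ₜ U k j) +
    F (U k (i + 1) ⊗ₜ U k j) * G (V k i ⊗ₜ U k j) := by
  rw [LinearMap.convMul_apply, TensorProduct.comul_tmul, comul_U, comul_V,
    TensorProduct.add_tmul, map_add, map_add, map_add]; rfl

lemma conv_VV (i j : ℕ) : (F * G) (V k i ⊗ₜ V k j) =
    F (V k i ⊗ₜ V k j) * G (U k i ⊗ₜ U k j) +
    F (V k i ⊗ₜ U k (j + 1)) * G (U k i ⊗ₜ V k j) +
    (F (U k (i + 1) ⊗ₜ V k j) * G (V k i ⊗ₜ U k j) +
    F (U k (i + 1) ⊗ₜ U k (j + 1)) * G (V k i ⊗ₜ V k j)) := by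
  rw [LinearMap.convMul_apply, TensorProduct.comul_tmul, comul_V, comul_V,
    TensorProduct.add_tmul, TensorProduct.tmul_add, TensorProduct.tmul_add]
  simp only [map_add]; rfl

end ConvVals

/-- first partial product -/
noncomputable def F1 : WithConv (H k ⊗[k] H k →ₗ[k] H k) :=
  toConv (Algebra.linearMap k (H k) ∘ₗ sig k) * toConv (LinearMap.mul' k (H k))

lemma lin_apply (f : H k ⊗[k] H k →ₗ[k] k) (a : H k ⊗[k] H k) :
    (toConv (Algebra.linearMap k (H k) ∘ₗ f) : WithConv (H k ⊗[k] H k →ₗ[k] H k)) a =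
      algebraMap k (H k) (f a) := rfl
lemma mul_apply' (a b : H k) :
    (toConv (LinearMap.mul' k (H k)) : WithConv (H k ⊗[k] H k →ₗ[k] H k)) (a ⊗ₜ b) = a * b := rfl

lemma F1_UU (i j : ℕ) : F1 k (U k i ⊗ₜ U k j) = U k i * U k j := by
  rw [F1, conv_UU, lin_apply, mul_apply', sig_UU, map_one, one_mul]
lemma F1_UV (i j : ℕ) : F1 k (U k i ⊗ₜ V k j) = U k i * V k j := by
  rw [F1, conv_UV]
  simp only [ofConv_toConv, LinearMap.comp_apply, Algebra.linearMap_apply, LinearMap.mul'_apply, sig_UU, sig_UV, map_one, one_mul, map_zero, zero_mul, zero_add]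
lemma F1_VU (i j : ℕ) : F1 k (V k i ⊗ₜ U k j) = V k i * U k j := by
  rw [F1, conv_VU]
  simp only [ofConv_toConv, LinearMap.comp_apply, Algebra.linearMap_apply, LinearMap.mul'_apply, sig_UU, sig_VU, map_one, one_mul, map_zero, zero_mul, zero_add]
lemma F1_VV (i j : ℕ) : F1 k (V k i ⊗ₜ V k j) =
    algebraMap k (H k) ((-1) ^ j) * (U k i * U k j) + V k i * V k j := by
  rw [F1, conv_VV]
  simp only [ofConv_toConv, LinearMap.comp_apply, Algebra.linearMap_apply, LinearMap.mul'_apply, sig_UU, sig_VU, sig_UV, sig_VV, map_one, one_mul, map_zero,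
    zero_mul, zero_add, add_zero]

lemma coc_mul (a : H k ⊗[k] H k) : (coc k).mul a =
    (F1 k * toConv (Algebra.linearMap k (H k) ∘ₗ sigInv k)) a := rfl

lemma mul_UU (i j : ℕ) : (coc k).mul (U k i ⊗ₜ U k j) = U k (i + j) := by
  rw [coc_mul, conv_UU, F1_UU, lin_apply, inv_UU, map_one, mul_one, U, U, U, pow_add]
lemma mul_UV (i j : ℕ) : (coc k).mul (U k i ⊗ₜ V k j) = V k (i + j) := by
  rw [coc_mul, conv_UV]
  simp only [F1_UV, LinearMap.comp_apply, Algebra.linearMap_apply, inv_UU, inv_UV, map_one,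
    mul_one, map_zero, mul_zero, add_zero]
  rw [U, V, V, pow_add, mul_assoc]
lemma mul_VU (i j : ℕ) : (coc k).mul (V k i ⊗ₜ U k j) = V k i * U k j := by
  rw [coc_mul, conv_VU]
  simp only [F1_VU, LinearMap.comp_apply, Algebra.linearMap_apply, inv_UU, inv_VU, map_one, mul_one, map_zero, mul_zero, add_zero]
lemma mul_VV (i j : ℕ) : (coc k).mul (V k i ⊗ₜ V k j) =
    algebraMap k (H k) ((-1) ^ j) * (U k i * U k j) + V k i * V k j +
      U k (i + 1) * U k (j + 1) * algebraMap k (H k) (- (-1) ^ j) := by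
  rw [coc_mul, conv_VV]
  simp only [F1_VV, F1_UU, LinearMap.comp_apply, Algebra.linearMap_apply, inv_UU, inv_VU, inv_UV, inv_VV, map_one, mul_one, map_zero,
    mul_zero, add_zero, zero_add]

/-- `x ·_σ x = 1 - g²` -/
lemma mul_XX : (coc k).mul (V k 0 ⊗ₜ V k 0) = 1 - U k 2 := by
  rw [mul_VV]
  have h1 : V k 0 * V k 0 = 0 := by
    rw [V, pow_zero, one_mul, X_mul_X]
  rw [h1, U, U, U]
  simp [pow_two]
  abel

/-- `x ·_σ g = - g x` -/
lemma mul_XG : (coc k).mul (V k 0 ⊗ₜ U k 1) = - V k 1 := by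
  rw [mul_VU, U, V, V, pow_zero, one_mul, pow_one, XG]

end Cocycle

section Trivial

variable (k : Type) [Field k]

/-- Every deformation map on `H` is trivial. -/
lemma r_trivial (h2 : (2 : k) ≠ 0) {A : Type u} [Ring A] [HopfAlgebra k A]
    (P : MatchedPair k A (H k)) (r : DeformationMap P) (h : H k) :
    r.r h = algebraMap k A (ε k h) := by
  have happ : ∀ (f : H k →ₗ[k] k) (h : H k),
      TensorProduct.rid k A (TensorProduct.map LinearMap.id f
        (TensorProduct.map (r.r : H k →ₗ[k] A) LinearMap.id (Coalgebra.comul (R := k) h))) =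
      TensorProduct.rid k A (TensorProduct.map LinearMap.id f
        (TensorProduct.map (r.r : H k →ₗ[k] A) LinearMap.id
          (TensorProduct.comm k (H k) (H k) (Coalgebra.comul (R := k) h)))) := by
    intro f h
    rw [r.cocentral]
  have hV : ∀ i, r.r (V k i) = 0 := by
    intro i
    have := happ (χ k) (V k i)
    rw [comul_V] at this
    simp only [map_add, TensorProduct.map_tmul, TensorProduct.comm_tmul, TensorProduct.rid_tmul,
      LinearMap.id_apply, χ_U, χ_V, zero_smul, add_zero, zero_add] at this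
    have h3 : ((-1 : k) ^ i) • r.r (V k i) = ((-1 : k) ^ (i + 1)) • r.r (V k i) := by
      simpa using this
    rw [pow_succ, mul_neg_one, neg_smul] at h3
    have h4 : ((2 : k) * (-1) ^ i) • r.r (V k i) = 0 := by
      rw [mul_smul, two_smul]
      nth_rewrite 1 [h3]
      exact neg_add_cancel _
    exact (smul_eq_zero.1 h4).resolve_left (mul_ne_zero h2 (pow_ne_zero _ (by simp)))
  have hU : ∀ i, r.r (U k i) = 1 := by
    intro i
    induction i with
    | zero =>
      have h0 : U k 0 = 1 := pow_zero _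
      rw [h0]; exact r.map_one
    | succ i ih =>
      have := happ (ξ k) (V k i)
      rw [comul_V] at this
      simp only [map_add, TensorProduct.map_tmul, TensorProduct.comm_tmul, TensorProduct.rid_tmul,
        LinearMap.id_apply, ξ_U, ξ_V, zero_smul, add_zero, zero_add, one_smul] at this
      rw [← ih]
      simpa using this
  have : (r.r : H k →ₗ[k] A) = Algebra.linearMap k A ∘ₗ ε k := by
    apply ext_UV
    · intro i
      change r.r (U k i) = algebraMap k A (ε k (U k i))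
      rw [hU, ε_U, map_one]
    · intro i
      change r.r (V k i) = algebraMap k A (ε k (V k i))
      rw [hV, ε_V, map_zero]
  exact LinearMap.congr_fun this h

lemma rmul_eq (h2 : (2 : k) ≠ 0) {A : Type u} [Ring A] [HopfAlgebra k A]
    (P : MatchedPair k A (H k)) (r : DeformationMap P) (h g : H k) :
    P.rmul r.r h g = h * g := by
  have h1 : (P.rt : H k ⊗[k] A →ₗ[k] H k) ∘ₗ TensorProduct.mk k (H k) A h ∘ₗ (r.r : H k →ₗ[k] A) =
      (ε k).smulRight h := by
    ext a
    change P.rt (h ⊗ₜ (r.r a)) = ε k a • h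
    rw [r_trivial k h2 P r, Algebra.algebraMap_eq_smul_one, TensorProduct.tmul_smul, map_smul,
      P.rt_one]
  rw [MatchedPair.rmul, h1]
  have h3 : LinearMap.mul' k (H k) ∘ₗ TensorProduct.map ((ε k).smulRight h) LinearMap.id ∘ₗ
      (Coalgebra.comul (R := k) : H k →ₗ[k] H k ⊗[k] H k) = LinearMap.mulLeft k h := by
    apply ext_UV
    · intro i
      simp [comul_U, ε_U]
    · intro i
      simp [comul_V, ε_U, ε_V]
  exact LinearMap.congr_fun h3 g

/-- The commutative quotient `k[ℤ/4]`. -/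
abbrev C : Type := MonoidAlgebra k (Multiplicative (ZMod 4))

/-- The generator of `k[ℤ/4]`. -/
noncomputable def cc : C k := MonoidAlgebra.single (Multiplicative.ofAdd 1) 1

lemma cc_pow (n : ℕ) : cc k ^ n = MonoidAlgebra.single (Multiplicative.ofAdd (n : ZMod 4)) 1 := by
  rw [cc, MonoidAlgebra.single_pow, one_pow, ← ofAdd_nsmul, nsmul_one]

/-- The quotient map `H → k[ℤ/4]`, `g ↦ c`, `x ↦ 0`. -/
noncomputable def θ : H k →ₐ[k] C k :=
  liftP (Rel k) ![cc k, 0] (by
    apply lift_rel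
    · change cc k ^ 4 = 1
      rw [cc_pow]; rfl
    · simp
    · simp)

lemma θ_surjective : Function.Surjective (θ k) := by
  intro y
  induction y using MonoidAlgebra.induction_linear with
  | zero => exact ⟨0, map_zero _⟩
  | add f g hf hg =>
    obtain ⟨a, ha⟩ := hf
    obtain ⟨b, hb⟩ := hg
    exact ⟨a + b, by rw [map_add, ha, hb]⟩
  | single m c =>
    refine ⟨c • U k (m.toAdd.val), ?_⟩
    rw [map_smul, U, map_pow, θ, liftP_gen]
    change c • cc k ^ _ = _
    rw [cc_pow, ZMod.natCast_zmod_val, MonoidAlgebra.smul_single]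
    simp

lemma finrank_C : Module.finrank k (C k) = 4 := by
  rw [(MonoidAlgebra.coeffLinearEquiv k).finrank_eq]
  simp

theorem not_iso (h2 : (2 : k) ≠ 0) : ¬ ∃ f : H k ≃ₗ[k] H k, ∀ a b, f (a * b) =
    (coc k).mul (f a ⊗ₜ f b) := by
  rintro ⟨f, hf⟩
  let ψ : H k →ₗ[k] C k := (θ k).toLinearMap ∘ₗ (f.symm : H k →ₗ[k] H k)
  have hψ : ∀ a b : H k, ψ ((coc k).mul (a ⊗ₜ b)) = ψ a * ψ b := by
    intro a b
    change θ k (f.symm _) = θ k (f.symm a) * θ k (f.symm b)
    rw [← map_mul]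
    congr 1
    rw [LinearEquiv.symm_apply_eq, hf, LinearEquiv.apply_symm_apply, LinearEquiv.apply_symm_apply]
  have hs : Function.Surjective ψ := (θ_surjective k).comp f.symm.surjective
  have e1 : ψ (U k 1) * ψ (V k 0) = ψ (V k 1) := by rw [← hψ, mul_UV]
  have e2 : ψ (V k 0) * ψ (U k 1) = - ψ (V k 1) := by rw [← hψ, mul_XG, map_neg]
  have e3 : (2 : k) • ψ (V k 1) = 0 := by
    rw [two_smul]
    nth_rewrite 1 [← e1]
    rw [mul_comm, e2, neg_add_cancel]
  have e4 : ψ (V k 1) = 0 := (smul_eq_zero.1 e3).resolve_left h2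
  have e5 : ψ (V k 0) = 0 := by
    have h3 : ψ (U k 3) * ψ (V k 1) = ψ (V k 0) := by
      rw [← hψ, mul_UV]
      congr 1
      rw [V, V, show 3 + 1 = 4 from rfl, G_pow, pow_zero]
    rw [← h3, e4, mul_zero]
  have e6 : ψ (U k 2) = ψ 1 := by
    have h3 := hψ (V k 0) (V k 0)
    rw [mul_XX, map_sub, e5, mul_zero] at h3
    exact (sub_eq_zero.1 h3).symm
  have hU : ∀ i, ψ (U k (i + 2)) = ψ (U k i) := by
    intro i
    have h3 := hψ (U k i) (U k 2)
    have h4 := hψ (U k i) (U k 0)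
    rw [mul_UU] at h3 h4
    have h0 : U k 0 = 1 := pow_zero _
    rw [h3, e6, ← h0, ← h4, add_zero]
  have hVz : ∀ i, ψ (V k i) = 0 := by
    intro i
    have h3 := hψ (U k i) (V k 0)
    rw [mul_UV, e5, mul_zero, add_zero] at h3
    exact h3
  have hU2 : ∀ i, ψ (U k i) ∈ Submodule.span k (Set.range ![ψ (U k 0), ψ (U k 1)]) := by
    intro i
    induction i using Nat.strong_induction_on with
    | _ i ih =>
      rcases i with _ | _ | i
      · exact Submodule.subset_span ⟨0, rfl⟩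
      · exact Submodule.subset_span ⟨1, rfl⟩
      · rw [hU]; exact ih i (by omega)
  have htop : Submodule.span k (Set.range ![ψ (U k 0), ψ (U k 1)]) = ⊤ := by
    rw [eq_top_iff]
    rintro y -
    obtain ⟨a, rfl⟩ := hs y
    have ha : a ∈ Submodule.span k (Set.range (U k) ∪ Set.range (V k)) := by
      rw [span_UV]; trivial
    induction ha using Submodule.span_induction with
    | zero => rw [map_zero]; exact zero_mem _
    | add x y _ _ hx hy => rw [map_add]; exact add_mem hx hy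
    | smul c x _ hx => rw [map_smul]; exact Submodule.smul_mem _ _ hx
    | mem x hx =>
      rcases hx with ⟨i, rfl⟩ | ⟨i, rfl⟩
      · exact hU2 i
      · rw [hVz]; exact zero_mem _
  have h4 := finrank_range_le_card (R := k) ![ψ (U k 0), ψ (U k 1)]
  rw [Set.finrank, htop, finrank_top, finrank_C] at h4
  simp at h4

/-- main theorem -/
theorem main (k : Type) [Field k] (h2 : (2 : k) ≠ 0) :
    ∃ (H : Type) (_ : Ring H) (_ : HopfAlgebra k H) (s : SweedlerCocycle k H),
      FiniteDimensional k H ∧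
      ∀ (A : Type u) [Ring A] [HopfAlgebra k A] (P : MatchedPair k A H) (r : DeformationMap P),
        ¬ ∃ f : H ≃ₗ[k] H, ∀ a b, f (P.rmul r.r a b) = s.mul (f a ⊗ₜ f b) := by
  refine ⟨H k, inferInstance, inferInstance, coc k, ?_, ?_⟩
  · have hfin : (Set.range (U k) ∪ Set.range (V k)).Finite := by
      have h1 : Set.range (U k) ⊆ Set.range (fun i : Fin 4 => U k i) := by
        rintro _ ⟨i, rfl⟩
        refine ⟨⟨i % 4, Nat.mod_lt _ (by norm_num)⟩, ?_⟩
        change U k (i % 4) = U k i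
        rw [U, U]
        conv_rhs => rw [← Nat.div_add_mod i 4, pow_add, pow_mul, G_pow, one_pow, one_mul]
      have h3 : Set.range (V k) ⊆ Set.range (fun i : Fin 4 => V k i) := by
        rintro _ ⟨i, rfl⟩
        refine ⟨⟨i % 4, Nat.mod_lt _ (by norm_num)⟩, ?_⟩
        change V k (i % 4) = V k i
        rw [V, V]
        conv_rhs => rw [← Nat.div_add_mod i 4, pow_add, pow_mul, G_pow, one_pow, one_mul]
      exact ((Set.finite_range _).subset h1).union ((Set.finite_range _).subset h3)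
    have h : (Submodule.span k (Set.range (U k) ∪ Set.range (V k))).FG :=
      Submodule.fg_span hfin
    rw [span_UV] at h
    exact ⟨h⟩
  · intro A _ _ P r
    have := not_iso k h2
    rintro ⟨f, hf⟩
    exact this ⟨f, fun a b => by rw [← hf, rmul_eq k h2 P r]⟩

end Trivial

end Pool.Agent.Q112.Doi
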