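import Mathlib
import Pool.Agent.Q112.HopfPres

set_option maxHeartbeats 4000000

open scoped TensorProduct
open Pool.Agent.Q112.HopfPres

namespace Pool.Agent.Q112.FI

/-- `i : H → E` exhibits the Hopf algebra `H` as (isomorphic to) a complement of the Hopf subalgebra
`j : A → E`: it is injective and multiplication `A ⊗ H → E`, `a ⊗ h ↦ j(a) i(h)`, is bijective. -/
structure IsComplement {k : Type} [Field k] {A E H : Type} [Ring A] [HopfAlgebra k A] [Ring E]
    [HopfAlgebra k E] [Ring H] [HopfAlgebra k H] (j : A →ₐc[k] E) (i : H →ₐc[k] E) : Prop where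
  injective : Function.Injective i
  bijective : Function.Bijective
    (LinearMap.mul' k E ∘ₗ TensorProduct.map (j : A →ₗ[k] E) (i : H →ₗ[k] E))

/-- structure constants -/
structure Dat (k : Type) (I : Type) where
  sq : I → I → k
  br : I → I → I → k

section General

variable {k : Type} [Field k] [CharP k 2] {I : Type} [Fintype I]

/-- relations of a restricted enveloping algebra in characteristic two -/
inductive Rel (D : Dat k I) : FreeAlgebra k I → FreeAlgebra k I → Prop
  | sq (i : I) : Rel D (FreeAlgebra.ι k i * FreeAlgebra.ι k i) (∑ l, D.sq i l • FreeAlgebra.ι k l)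
  | br (i j : I) (h : i ≠ j) : Rel D (FreeAlgebra.ι k i * FreeAlgebra.ι k j +
      FreeAlgebra.ι k j * FreeAlgebra.ι k i) (∑ l, D.br i j l • FreeAlgebra.ι k l)

/-- the algebra -/
abbrev U (D : Dat k I) : Type := Pres (Rel D)

/-- generators -/
noncomputable abbrev X (D : Dat k I) (i : I) : U D := gen (Rel D) i

omit [CharP k 2] in
lemma lift_rel (D : Dat k I) {B : Type} [Ring B] [Algebra k B] (f : I → B)
    (hs : ∀ i, f i * f i = ∑ l, D.sq i l • f l)
    (hb : ∀ i j, i ≠ j → f i * f j + f j * f i = ∑ l, D.br i j l • f l) :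
    ∀ ⦃a b⦄, Rel D a b → FreeAlgebra.lift k f a = FreeAlgebra.lift k f b := by
  intro a b h
  cases h with
  | sq i => simp [hs]
  | br i j h => simp [hb i j h]

omit [CharP k 2] in
lemma X_sq (D : Dat k I) (i : I) : X D i * X D i = ∑ l, D.sq i l • X D l := by
  have := mkP_rel _ (Rel.sq (D := D) i)
  simpa [map_mul, map_sum, map_smul, mkP_ι] using this

omit [CharP k 2] in
lemma X_br (D : Dat k I) (i j : I) (h : i ≠ j) :
    X D i * X D j + X D j * X D i = ∑ l, D.br i j l • X D l := by
  have := mkP_rel _ (Rel.br (D := D) i j h)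
  simpa [map_mul, map_sum, map_smul, map_add, mkP_ι] using this

lemma two_eq_zero' (B : Type) [Ring B] [Algebra k B] (b : B) : b + b = 0 := by
  have : (2 : k) = 0 := CharTwo.two_eq_zero
  rw [← two_smul k b, this, zero_smul]

/-- comultiplication -/
noncomputable def comulHom (D : Dat k I) : U D →ₐ[k] U D ⊗[k] U D :=
  liftP (Rel D) (B := U D ⊗[k] U D) (fun i => X D i ⊗ₜ 1 + 1 ⊗ₜ X D i) (by
    apply lift_rel
    · intro i
      have : (X D i ⊗ₜ[k] (1 : U D) + (1 : U D) ⊗ₜ X D i) * (X D i ⊗ₜ 1 + 1 ⊗ₜ X D i) =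
          (X D i * X D i) ⊗ₜ 1 + 1 ⊗ₜ (X D i * X D i) + (X D i ⊗ₜ X D i + X D i ⊗ₜ X D i) := by
        simp only [mul_add, add_mul, Algebra.TensorProduct.tmul_mul_tmul, one_mul, mul_one]
        abel
      rw [this, two_eq_zero' (k := k), add_zero, X_sq, TensorProduct.sum_tmul,
        TensorProduct.tmul_sum, ← Finset.sum_add_distrib]
      apply Finset.sum_congr rfl
      intro l _
      rw [smul_add, TensorProduct.smul_tmul', TensorProduct.tmul_smul]
    · intro i j h
      have : (X D i ⊗ₜ[k] (1 : U D) + (1 : U D) ⊗ₜ X D i) * (X D j ⊗ₜ 1 + 1 ⊗ₜ X D j) +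
          (X D j ⊗ₜ[k] (1 : U D) + (1 : U D) ⊗ₜ X D j) * (X D i ⊗ₜ 1 + 1 ⊗ₜ X D i) =
          (X D i * X D j + X D j * X D i) ⊗ₜ 1 + 1 ⊗ₜ (X D i * X D j + X D j * X D i) +
          (X D i ⊗ₜ X D j + X D i ⊗ₜ X D j) + (X D j ⊗ₜ X D i + X D j ⊗ₜ X D i) := by
        simp only [mul_add, add_mul, Algebra.TensorProduct.tmul_mul_tmul, one_mul, mul_one,
          TensorProduct.add_tmul, TensorProduct.tmul_add]
        abel
      rw [this, two_eq_zero' (k := k), two_eq_zero' (k := k), add_zero, add_zero, X_br D i j h,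
        TensorProduct.sum_tmul,
        TensorProduct.tmul_sum, ← Finset.sum_add_distrib]
      apply Finset.sum_congr rfl
      intro l _
      rw [smul_add, TensorProduct.smul_tmul', TensorProduct.tmul_smul])

/-- counit -/
noncomputable def counitHom (D : Dat k I) : U D →ₐ[k] k :=
  liftP (Rel D) (fun _ => 0) (by apply lift_rel <;> simp)

omit [CharP k 2] in
lemma op_sum_smul {B : Type} [Ring B] [Algebra k B] (c : I → k) (f : I → B) :
    MulOpposite.op (∑ l, c l • f l) = ∑ l, c l • MulOpposite.op (f l) := by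
  have := map_sum (MulOpposite.opLinearEquiv k : B ≃ₗ[k] Bᵐᵒᵖ) (fun l => c l • f l) Finset.univ
  simpa using this

/-- antipode -/
noncomputable def antiHom (D : Dat k I) : U D →ₐ[k] (U D)ᵐᵒᵖ :=
  liftP (Rel D) (fun i => MulOpposite.op (X D i)) (by
    apply lift_rel
    · intro i
      rw [← MulOpposite.op_mul, X_sq, op_sum_smul]
    · intro i j h
      rw [← MulOpposite.op_mul, ← MulOpposite.op_mul, ← MulOpposite.op_add, add_comm (X D j * X D i),
        X_br D i j h, op_sum_smul])

lemma comulHom_X (D : Dat k I) (i : I) : comulHom D (X D i) = X D i ⊗ₜ 1 + 1 ⊗ₜ X D i :=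
  liftP_gen _ _ _ _
omit [CharP k 2] in
lemma counitHom_X (D : Dat k I) (i : I) : counitHom D (X D i) = 0 := liftP_gen _ _ _ _
lemma antiHom_X (D : Dat k I) (i : I) : antiHom D (X D i) = MulOpposite.op (X D i) :=
  liftP_gen _ _ _ _

noncomputable instance (D : Dat k I) : Bialgebra k (U D) :=
  Bialgebra.ofAlgHom (comulHom D) (counitHom D)
    (homExt _ <| fun i => by
      simp [comulHom_X, TensorProduct.add_tmul, TensorProduct.tmul_add,
        Algebra.TensorProduct.one_def, add_assoc])
    (homExt _ <| fun i => by simp [comulHom_X, counitHom_X])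
    (homExt _ <| fun i => by simp [comulHom_X, counitHom_X])

lemma comul_X (D : Dat k I) (i : I) : Coalgebra.comul (R := k) (X D i) = X D i ⊗ₜ 1 + 1 ⊗ₜ X D i :=
  comulHom_X D i
lemma counit_X (D : Dat k I) (i : I) : Coalgebra.counit (R := k) (X D i) = 0 := counitHom_X D i

noncomputable instance (D : Dat k I) : HopfAlgebra k (U D) :=
  hopfOfGen (antiHom D) (Set.range (gen (Rel D))) (adjoin_gen _)
    (by
      rintro _ ⟨i, rfl⟩
      rw [comul_X, counit_X]
      simp [antiHom_X, two_eq_zero' (k := k)])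
    (by
      rintro _ ⟨i, rfl⟩
      rw [comul_X, counit_X]
      simp [antiHom_X, two_eq_zero' (k := k)])

omit [CharP k 2] [Fintype I] in
lemma dummy : True := trivial

section PBW

variable (D : Dat k I)

/-- product of a word -/
noncomputable def wd (w : List I) : U D := (w.map (X D)).prod

omit [CharP k 2] in
lemma wd_cons (i : I) (w : List I) : wd D (i :: w) = X D i * wd D w := by simp [wd]

/-- words of bounded length -/
noncomputable def N (n : ℕ) : Submodule k (U D) := Submodule.span k {u | ∃ w : List I, w.length ≤ n ∧ wd D w = u}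

omit [CharP k 2] in
lemma N_mono {m n : ℕ} (h : m ≤ n) : N D m ≤ N D n :=
  Submodule.span_mono (by rintro _ ⟨w, hw, rfl⟩; exact ⟨w, hw.trans h, rfl⟩)

omit [CharP k 2] in
lemma wd_mem (w : List I) {n : ℕ} (h : w.length ≤ n) : wd D w ∈ N D n :=
  Submodule.subset_span ⟨w, h, rfl⟩

omit [CharP k 2] in
lemma X_mul_N (i : I) {n : ℕ} {u : U D} (hu : u ∈ N D n) : X D i * u ∈ N D (n + 1) := by
  induction hu using Submodule.span_induction with
  | zero => rw [mul_zero]; exact zero_mem _
  | add x y _ _ hx hy => rw [mul_add]; exact add_mem hx hy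
  | smul c x _ hx => rw [mul_smul_comm]; exact Submodule.smul_mem _ _ hx
  | mem x hx =>
    obtain ⟨w, hw, rfl⟩ := hx
    rw [← wd_cons]
    exact wd_mem D _ (by simpa using hw)

lemma perm_mem {w w' : List I} (h : w.Perm w') : ∀ n, w.length = n + 1 → wd D w - wd D w' ∈ N D n := by
  induction h with
  | nil => intro n hn; simp at hn
  | cons x h ih =>
    rename_i l₁ l₂
    intro n hn
    rw [wd_cons, wd_cons, ← mul_sub]
    cases n with
    | zero =>
      have : l₁ = [] := by simpa using hn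
      subst this
      have h2 : l₂ = [] := by simpa using h.length_eq.symm
      subst h2
      simp
    | succ n =>
      exact X_mul_N D x (ih n (by simpa using hn))
  | swap x y l =>
    intro n hn
    rw [wd_cons, wd_cons, wd_cons, wd_cons, ← mul_assoc, ← mul_assoc, ← sub_mul]
    have hn' : l.length + 1 = n := by simpa using hn
    by_cases hxy : x = y
    · subst hxy; simp
    · have h1 : X D y * X D x - X D x * X D y = ∑ l, D.br y x l • X D l := by
        rw [← X_br D y x (Ne.symm hxy), sub_eq_add_neg]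
        congr 1
        exact neg_eq_of_add_eq_zero_left (two_eq_zero' (k := k) _ _)
      rw [h1, Finset.sum_mul]
      apply Submodule.sum_mem
      intro i _
      rw [smul_mul_assoc, ← wd_cons]
      exact Submodule.smul_mem _ _ (wd_mem D _ (by simp [hn']))
  | trans h1 h2 ih1 ih2 =>
    intro n hn
    have := add_mem (ih1 n hn) (ih2 n (h1.length_eq ▸ hn))
    simpa using this

variable [LinearOrder I]

/-- ordered monomials -/
noncomputable def mono (S : Finset I) : U D := wd D (S.sort (· ≤ ·))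

lemma wd_mem_span : ∀ (n : ℕ) (w : List I), w.length ≤ n →
    wd D w ∈ Submodule.span k (Set.range (mono D)) := by
  intro n
  induction n with
  | zero =>
    intro w hw
    have : w = [] := by simpa using hw
    subst this
    exact Submodule.subset_span ⟨∅, by simp [mono]⟩
  | succ n ih =>
    intro w hw
    rcases Nat.lt_or_ge w.length (n + 1) with h | h
    · exact ih w (by omega)
    · have hlen : w.length = n + 1 := le_antisymm hw h
      have hN : N D n ≤ Submodule.span k (Set.range (mono D)) := by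
        apply Submodule.span_le.mpr
        rintro _ ⟨w, hw, rfl⟩
        exact ih w hw
      by_cases hnd : w.Nodup
      · have hp : w.Perm (w.toFinset.sort (· ≤ ·)) := by
          rw [List.perm_ext_iff_of_nodup hnd (Finset.sort_nodup _ _)]
          intro a; simp
        have h1 := hN (perm_mem D hp n hlen)
        have h2 : wd D (w.toFinset.sort (· ≤ ·)) ∈ Submodule.span k (Set.range (mono D)) :=
          Submodule.subset_span ⟨_, rfl⟩
        simpa using add_mem h1 h2
      · obtain ⟨a, l, hp⟩ : ∃ a l, w.Perm (a :: a :: l) := by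
          rw [← List.exists_duplicate_iff_not_nodup] at hnd
          obtain ⟨a, ha⟩ := hnd
          refine ⟨a, (w.erase a).erase a, ?_⟩
          have h1 : a ∈ w := ha.mem
          have h2 : a ∈ w.erase a := by
            have : 2 ≤ w.count a := List.duplicate_iff_two_le_count.mp ha
            rw [← List.count_pos_iff, List.count_erase_self]
            omega
          exact (List.perm_cons_erase h1).trans ((List.perm_cons_erase h2).cons a)
        have h1 := hN (perm_mem D hp n hlen)
        have hl : l.length + 1 = n := by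
          have := hp.length_eq
          simp only [List.length_cons] at this
          omega
        have h2 : wd D (a :: a :: l) ∈ N D n := by
          rw [wd_cons, wd_cons, ← mul_assoc, X_sq, Finset.sum_mul]
          apply Submodule.sum_mem
          intro i _
          rw [smul_mul_assoc, ← wd_cons]
          exact Submodule.smul_mem _ _ (wd_mem D _ (by simp [hl]))
        simpa using add_mem h1 (hN h2)

lemma span_mono : Submodule.span k (Set.range (mono D)) = ⊤ := by
  rw [eq_top_iff]
  have : (⊤ : Submodule k (U D)) ≤ ⨆ n, N D n := by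
    have h := eq_top_of_closed (Rel D) (⨆ n, N D n) (Submodule.mem_iSup_of_mem 0
      (wd_mem D [] (by simp))) (by
        intro i v hv
        have hdir : Directed (· ≤ ·) (fun n => N D n) := directed_of_isDirected_le (fun _ _ h => N_mono D h)
        rw [Submodule.mem_iSup_of_directed _ hdir] at hv ⊢
        obtain ⟨n, hn⟩ := hv
        exact ⟨n + 1, X_mul_N D i hn⟩)
    rw [h]
  refine this.trans (iSup_le fun n => Submodule.span_le.mpr ?_)
  rintro _ ⟨w, hw, rfl⟩
  exact wd_mem_span D n w hw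

lemma fd : FiniteDimensional k (U D) :=
  Module.finite_def.mpr (by rw [← span_mono D]; exact Submodule.fg_span (Set.finite_range _))

lemma finrank_le : Module.finrank k (U D) ≤ 2 ^ Fintype.card I := by
  have h := finrank_range_le_card (R := k) (mono D)
  rw [Set.finrank, span_mono, finrank_top, Fintype.card_finset] at h
  exact h

lemma mono_empty : mono D ∅ = 1 := by simp [mono, wd]

lemma mono_insert (a : I) (S : Finset I) (h : ∀ x ∈ S, a < x) :
    mono D (insert a S) = X D a * mono D S := by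
  have ha : a ∉ S := fun h' => lt_irrefl _ (h a h')
  rw [mono, mono, ← wd_cons]
  congr 1
  exact Finset.sort_insert _ (fun b hb => (h b hb).le) ha

lemma mono_singleton (a : I) : mono D {a} = X D a := by
  simp [mono, wd]

lemma comul_mono (S : Finset I) : Coalgebra.comul (R := k) (mono D S) =
    ∑ T ∈ S.powerset, mono D T ⊗ₜ[k] mono D (S \ T) := by
  induction S using Finset.induction_on_min with
  | empty => simp [mono_empty, Algebra.TensorProduct.one_def]
  | insert a S h ih =>
    have ha : a ∉ S := fun h' => lt_irrefl _ (h a h')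
    rw [mono_insert D a S h, Bialgebra.comul_mul, ih, comul_X, Finset.sum_powerset_insert ha,
      add_mul, add_comm, Finset.mul_sum, Finset.mul_sum]
    congr 1
    · apply Finset.sum_congr rfl
      intro T hT
      have hT' : T ⊆ S := Finset.mem_powerset.mp hT
      have haT : a ∉ T := fun h' => ha (hT' h')
      rw [Finset.insert_sdiff_of_notMem _ haT, mono_insert D a (S \ T)
        (fun x hx => h x (Finset.mem_sdiff.mp hx).1), Algebra.TensorProduct.tmul_mul_tmul, one_mul]
    · apply Finset.sum_congr rfl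
      intro T hT
      have hT' : T ⊆ S := Finset.mem_powerset.mp hT
      have haT : a ∉ T := fun h' => ha (hT' h')
      have h1 : insert a S \ insert a T = S \ T := by
        ext x
        simp only [Finset.mem_sdiff, Finset.mem_insert, not_or]
        constructor
        · rintro ⟨h1 | h1, h2, h3⟩
          · exact absurd h1 h2
          · exact ⟨h1, h3⟩
        · rintro ⟨h1, h2⟩
          exact ⟨Or.inr h1, fun h3 => ha (h3 ▸ h1), h2⟩
      rw [h1, mono_insert D a T (fun x hx => h x (hT' hx)), Algebra.TensorProduct.tmul_mul_tmul,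
        one_mul]

/-- the monomial basis -/
noncomputable def bas (h : Module.finrank k (U D) = 2 ^ Fintype.card I) :
    Module.Basis (Finset I) k (U D) :=
  basisOfTopLeSpanOfCardEqFinrank (mono D) (span_mono D).ge (by rw [Fintype.card_finset, h])

lemma bas_apply (h : Module.finrank k (U D) = 2 ^ Fintype.card I) (S : Finset I) :
    bas D h S = mono D S := by
  simp [bas]

lemma coord_comul (h : Module.finrank k (U D) = 2 ^ Fintype.card I) (a : I) (T : Finset I)
    (haT : a ∉ T) (v : U D) :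
    TensorProduct.lid k k (TensorProduct.map ((bas D h).coord {a}) ((bas D h).coord T)
      (Coalgebra.comul (R := k) v)) = (bas D h).coord (insert a T) v := by
  have : (TensorProduct.lid k k).toLinearMap ∘ₗ (TensorProduct.map ((bas D h).coord {a})
      ((bas D h).coord T)) ∘ₗ (Coalgebra.comul (R := k)) = (bas D h).coord (insert a T) := by
    apply (bas D h).ext
    intro S
    rw [LinearMap.comp_apply, LinearMap.comp_apply, bas_apply, comul_mono, map_sum, map_sum]
    have hc : ∀ P Q : Finset I, (bas D h).coord P (mono D Q) = if Q = P then 1 else 0 := by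
      intro P Q
      rw [← bas_apply D h, Module.Basis.coord_apply, Module.Basis.repr_self, Finsupp.single_apply]
    simp only [TensorProduct.map_tmul, hc, LinearEquiv.coe_coe, TensorProduct.lid_tmul, smul_eq_mul]
    by_cases hS : S = insert a T
    · subst hS
      rw [if_pos rfl, Finset.sum_eq_single {a}]
      · rw [if_pos rfl, if_pos, one_mul]
        ext x
        simp only [Finset.mem_sdiff, Finset.mem_insert, Finset.mem_singleton]
        constructor
        · rintro ⟨h1 | h1, h2⟩
          · exact absurd h1 h2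
          · exact h1
        · intro h1
          exact ⟨Or.inr h1, fun h3 => haT (h3 ▸ h1)⟩
      · intro b _ hb
        rw [if_neg hb, zero_mul]
      · intro h1
        exact absurd (Finset.mem_powerset.mpr (by simp)) h1
    · rw [if_neg hS]
      apply Finset.sum_eq_zero
      intro P hP
      by_cases h1 : P = {a}
      · subst h1
        rw [if_pos rfl, one_mul, if_neg]
        intro h2
        apply hS
        rw [← h2]
        ext x
        have ha : a ∈ S := by simpa using Finset.mem_powerset.mp hP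
        simp only [Finset.mem_sdiff, Finset.mem_insert, Finset.mem_singleton]
        by_cases hx : x = a
        · simp [hx, ha]
        · simp [hx]
      · rw [if_neg h1, zero_mul]
  exact LinearMap.congr_fun this v

/-- primitive elements are linear combinations of the generators -/
lemma prim (h : Module.finrank k (U D) = 2 ^ Fintype.card I) (v : U D)
    (hv : Coalgebra.comul (R := k) v = v ⊗ₜ 1 + 1 ⊗ₜ v) : ∃ c : I → k, v = ∑ i, c i • X D i := by
  have hc : ∀ P Q : Finset I, (bas D h).coord P (mono D Q) = if Q = P then 1 else 0 := by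
    intro P Q
    rw [← bas_apply D h, Module.Basis.coord_apply, Module.Basis.repr_self, Finsupp.single_apply]
  have h2 : ∀ S : Finset I, 2 ≤ S.card → (bas D h).coord S v = 0 := by
    intro S hS
    obtain ⟨a, ha⟩ : S.Nonempty := Finset.card_pos.mp (by omega)
    have h3 := coord_comul D h a (S.erase a) (Finset.notMem_erase a S) v
    rw [Finset.insert_erase ha] at h3
    rw [← h3, hv, map_add, map_add, TensorProduct.map_tmul, TensorProduct.map_tmul,
      ← mono_empty D, hc, hc, if_neg, if_neg]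
    · simp
    · exact (Finset.singleton_ne_empty a).symm
    · intro h4
      have := Finset.card_erase_of_mem ha
      rw [← h4, Finset.card_empty] at this
      omega
  have hcu : (Coalgebra.counit (R := k) (A := U D)) = (bas D h).coord ∅ := by
    apply (bas D h).ext
    intro S
    rw [bas_apply, hc]
    by_cases hS : S = ∅
    · rw [if_pos hS, hS, mono_empty, Bialgebra.counit_one]
    · rw [if_neg hS, mono]
      rcases hl : S.sort (· ≤ ·) with _ | ⟨a, l⟩
      · exact absurd (by
          have := congrArg List.length hl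
          rw [Finset.length_sort] at this
          exact Finset.card_eq_zero.mp (by simpa using this)) hS
      · rw [wd_cons, Bialgebra.counit_mul, counit_X, zero_mul]
  have h0 : (bas D h).coord ∅ v = 0 := by
    have h3 := Coalgebra.rTensor_counit_comul (R := k) v
    rw [hv, map_add, LinearMap.rTensor_tmul, LinearMap.rTensor_tmul, Bialgebra.counit_one] at h3
    have h4 := congrArg (TensorProduct.lid k (U D)) h3
    rw [map_add, TensorProduct.lid_tmul, TensorProduct.lid_tmul, one_smul,
      add_eq_right] at h4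
    have h5 := congrArg (Coalgebra.counit (R := k)) h4
    rw [map_smul, Bialgebra.counit_one, map_zero, smul_eq_mul, mul_one, hcu] at h5
    exact h5
  refine ⟨fun i => (bas D h).coord {i} v, ?_⟩
  have h6 := (bas D h).sum_repr v
  conv_lhs => rw [← h6]
  have h7 : ∀ S : Finset I, S ∉ Finset.univ.image (fun i : I => ({i} : Finset I)) →
      (bas D h).repr v S • bas D h S = 0 := by
    intro S hS
    have : (bas D h).repr v S = 0 := by
      rcases Nat.lt_or_ge S.card 2 with h8 | h8
      · interval_cases h9 : S.card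
        · rw [Finset.card_eq_zero] at h9
          subst h9
          exact h0
        · obtain ⟨a, rfl⟩ := Finset.card_eq_one.mp h9
          exact absurd (by simp) hS
      · exact h2 S h8
    rw [this, zero_smul]
  rw [← Finset.sum_subset (Finset.subset_univ _) (fun S _ hS => h7 S hS), Finset.sum_image
    (fun a _ b _ hab => Finset.singleton_injective hab)]
  apply Finset.sum_congr rfl
  intro i _
  rw [bas_apply, mono_singleton]
  rfl

lemma linInd (h : Module.finrank k (U D) = 2 ^ Fintype.card I) : LinearIndependent k (X D) := by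
  have h1 := (bas D h).linearIndependent.comp (fun i : I => ({i} : Finset I))
    Finset.singleton_injective
  have h2 : (bas D h) ∘ (fun i : I => ({i} : Finset I)) = X D := by
    funext i
    rw [Function.comp_apply, bas_apply, mono_singleton]
  rwa [h2] at h1

end PBW

end General

section Ex

variable (k : Type) [Field k] [CharP k 2]

/-- data of `E`: generators `h₁, h₂, x, z, y` -/
def DE : Dat k (Fin 5) where
  sq i l := if i = 0 ∧ l = 0 then 1 else if i = 1 ∧ l = 1 then 1 else 0
  br i j l := if ((i = 2 ∧ j = 4) ∨ (i = 4 ∧ j = 2)) ∧ l = 0 then 1 else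
    if ((i = 3 ∧ j = 4) ∨ (i = 4 ∧ j = 3)) ∧ l = 1 then 1 else 0

/-- data of `H_λ`: generators `h₁, h₂, x, y` -/
def DH (t : k) : Dat k (Fin 4) where
  sq i l := if i = 0 ∧ l = 0 then 1 else if i = 1 ∧ l = 1 then 1 else 0
  br i j l := if ((i = 2 ∧ j = 3) ∨ (i = 3 ∧ j = 2)) then
    (if l = 0 then 1 else if l = 1 then t else 0) else 0

/-- data of `A`: generator `z` -/
def DA : Dat k (Fin 1) where
  sq _ _ := 0
  br _ _ _ := 0

variable {k}

/-- homomorphism-like data into any algebra for `E` -/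
lemma lift_relE {B : Type} [Ring B] [Algebra k B] (f : Fin 5 → B)
    (q0 : f 0 * f 0 = f 0) (q1 : f 1 * f 1 = f 1) (q2 : f 2 * f 2 = 0) (q3 : f 3 * f 3 = 0)
    (q4 : f 4 * f 4 = 0)
    (c01 : f 0 * f 1 + f 1 * f 0 = 0) (c02 : f 0 * f 2 + f 2 * f 0 = 0)
    (c03 : f 0 * f 3 + f 3 * f 0 = 0) (c04 : f 0 * f 4 + f 4 * f 0 = 0)
    (c12 : f 1 * f 2 + f 2 * f 1 = 0) (c13 : f 1 * f 3 + f 3 * f 1 = 0)
    (c14 : f 1 * f 4 + f 4 * f 1 = 0) (c23 : f 2 * f 3 + f 3 * f 2 = 0)
    (c24 : f 2 * f 4 + f 4 * f 2 = f 0) (c34 : f 3 * f 4 + f 4 * f 3 = f 1) :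
    ∀ ⦃a b⦄, Rel (DE k) a b → FreeAlgebra.lift k f a = FreeAlgebra.lift k f b := by
  apply lift_rel
  · intro i
    fin_cases i <;> simp [DE, Fin.sum_univ_five, q0, q1, q2, q3, q4]
  · intro i j h
    fin_cases i <;> fin_cases j <;> first | exact absurd rfl h | skip
    all_goals simp [DE, Fin.sum_univ_five]
    all_goals first | assumption | (rw [add_comm]; assumption)

lemma lift_relH (t : k) {B : Type} [Ring B] [Algebra k B] (f : Fin 4 → B)
    (q0 : f 0 * f 0 = f 0) (q1 : f 1 * f 1 = f 1) (q2 : f 2 * f 2 = 0) (q3 : f 3 * f 3 = 0)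
    (c01 : f 0 * f 1 + f 1 * f 0 = 0) (c02 : f 0 * f 2 + f 2 * f 0 = 0)
    (c03 : f 0 * f 3 + f 3 * f 0 = 0)
    (c12 : f 1 * f 2 + f 2 * f 1 = 0) (c13 : f 1 * f 3 + f 3 * f 1 = 0)
    (c23 : f 2 * f 3 + f 3 * f 2 = f 0 + t • f 1) :
    ∀ ⦃a b⦄, Rel (DH k t) a b → FreeAlgebra.lift k f a = FreeAlgebra.lift k f b := by
  apply lift_rel
  · intro i
    fin_cases i <;> simp [DH, Fin.sum_univ_four, q0, q1, q2, q3]
  · intro i j h
    fin_cases i <;> fin_cases j <;> first | exact absurd rfl h | skip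
    all_goals simp [DH, Fin.sum_univ_four]
    all_goals first | assumption | (rw [add_comm]; assumption)

variable (k) in
/-- functions on `{0,1}^5` -/
abbrev F : Type := (Fin 5 → Fin 2) → k

omit [CharP k 2] in
/-- a matrix acting on the `i`-th coordinate -/
def act (i : Fin 5) : Matrix (Fin 2) (Fin 2) k →ₐ[k] Module.End k (F k) where
  toFun M :=
    { toFun := fun f s => ∑ b, M (s i) b * f (Function.update s i b)
      map_add' := fun f g => by
        ext s; simp [mul_add, Finset.sum_add_distrib]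
      map_smul' := fun r f => by
        ext s
        simp only [Pi.smul_apply, smul_eq_mul, RingHom.id_apply, Finset.mul_sum]
        exact Finset.sum_congr rfl fun b _ => by ring }
  map_one' := by
    refine LinearMap.ext fun f => funext fun s => ?_
    simp [Matrix.one_apply]
  map_mul' M N := by
    refine LinearMap.ext fun f => funext fun s => ?_
    simp only [LinearMap.coe_mk, AddHom.coe_mk, Module.End.mul_apply, Function.update_self,
      Function.update_idem, Matrix.mul_apply, Finset.sum_mul, Finset.mul_sum]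
    rw [Finset.sum_comm]
    exact Finset.sum_congr rfl fun b _ => Finset.sum_congr rfl fun c _ => by ring
  map_zero' := by
    refine LinearMap.ext fun f => funext fun s => ?_
    simp
  map_add' M N := by
    refine LinearMap.ext fun f => funext fun s => ?_
    simp [add_mul, Finset.sum_add_distrib]
  commutes' r := by
    refine LinearMap.ext fun f => funext fun s => ?_
    simp [Matrix.algebraMap_eq_diagonal, Matrix.diagonal_apply]

omit [CharP k 2] in
lemma act_apply (i : Fin 5) (M : Matrix (Fin 2) (Fin 2) k) (f : F k) (s : Fin 5 → Fin 2) :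
    act i M f s = ∑ b, M (s i) b * f (Function.update s i b) := rfl

omit [CharP k 2] in
lemma act_comm {i j : Fin 5} (h : i ≠ j) (M N : Matrix (Fin 2) (Fin 2) k) :
    act i M * act j N = act j N * act i M := by
  refine LinearMap.ext fun f => funext fun s => ?_
  simp only [Module.End.mul_apply, act_apply, Finset.mul_sum, Function.update_of_ne h,
    Function.update_of_ne h.symm]
  rw [Finset.sum_comm]
  refine Finset.sum_congr rfl fun b _ => Finset.sum_congr rfl fun c _ => ?_
  rw [Function.update_comm h.symm]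
  ring

variable (k) in
/-- idempotent -/
def mP : Matrix (Fin 2) (Fin 2) k := !![0, 0; 1, 1]
variable (k) in
/-- nilpotent -/
def mN : Matrix (Fin 2) (Fin 2) k := !![0, 0; 1, 0]
variable (k) in
/-- derivative -/
def mD : Matrix (Fin 2) (Fin 2) k := !![0, 1; 0, 0]

omit [CharP k 2] in
lemma hP : mP k * mP k = mP k := by
  ext i j; fin_cases i <;> fin_cases j <;> simp [mP, Matrix.mul_apply, Fin.sum_univ_two]
omit [CharP k 2] in
lemma hN : mN k * mN k = 0 := by
  ext i j; fin_cases i <;> fin_cases j <;> simp [mN, Matrix.mul_apply, Fin.sum_univ_two]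
omit [CharP k 2] in
lemma hD : mD k * mD k = 0 := by
  ext i j; fin_cases i <;> fin_cases j <;> simp [mD, Matrix.mul_apply, Fin.sum_univ_two]
omit [CharP k 2] in
lemma hND : mN k * mD k + mD k * mN k = 1 := by
  ext i j; fin_cases i <;> fin_cases j <;> simp [mD, mN, Matrix.mul_apply, Fin.sum_univ_two]

lemma add_self_End (a : Module.End k (F k)) : a + a = 0 := two_eq_zero' (k := k) _ a

lemma comm_add {a b : Module.End k (F k)} (h : a * b = b * a) : a * b + b * a = 0 := by
  rw [h, add_self_End]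

lemma sq_add {a b : Module.End k (F k)} (h : a * b = b * a) :
    (a + b) * (a + b) = a * a + b * b := by
  have : (a + b) * (a + b) = a * a + b * b + (a * b + b * a) := by noncomm_ring
  rw [this, comm_add h, add_zero]

variable (k) in
/-- the operator of `y` -/
def oy : Module.End k (F k) := act 4 (mN k) + act 0 (mP k) * act 2 (mD k) +
  act 1 (mP k) * act 3 (mD k)

/-- a computation in an algebra of characteristic two -/
lemma alg {R : Type} [Ring R] (two : ∀ a : R, a + a = 0) (p0 p1 n2 n3 n4 d2 d3 : R)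
    (hp0 : p0 * p0 = p0) (hp1 : p1 * p1 = p1) (hn2 : n2 * n2 = 0) (hn3 : n3 * n3 = 0)
    (hn4 : n4 * n4 = 0) (hd2 : d2 * d2 = 0) (hd3 : d3 * d3 = 0) (h2 : n2 * d2 + d2 * n2 = 1)
    (h3 : n3 * d3 + d3 * n3 = 1)
    (c01 : p0 * p1 = p1 * p0) (c02 : p0 * n2 = n2 * p0) (c02' : p0 * d2 = d2 * p0)
    (c03 : p0 * n3 = n3 * p0) (c03' : p0 * d3 = d3 * p0) (c04 : p0 * n4 = n4 * p0)
    (c12 : p1 * n2 = n2 * p1) (c12' : p1 * d2 = d2 * p1)
    (c13 : p1 * n3 = n3 * p1) (c13' : p1 * d3 = d3 * p1) (c14 : p1 * n4 = n4 * p1)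
    (c23 : n2 * n3 = n3 * n2) (c23' : n2 * d3 = d3 * n2) (c2'3 : d2 * n3 = n3 * d2)
    (c2'3' : d2 * d3 = d3 * d2) (c24 : n2 * n4 = n4 * n2) (c24' : d2 * n4 = n4 * d2)
    (c34 : n3 * n4 = n4 * n3) (c34' : d3 * n4 = n4 * d3) (y : R)
    (hy : y = n4 + p0 * d2 + p1 * d3) :
    y * y = 0 ∧ p0 * y + y * p0 = 0 ∧ p1 * y + y * p1 = 0 ∧ n2 * y + y * n2 = p0 ∧
      n3 * y + y * n3 = p1 := by
  refine ⟨?_, ?_, ?_, ?_, ?_⟩
  · have e1 : (p0 * d2) * (p0 * d2) = 0 := by
      rw [c02', mul_assoc, ← mul_assoc p0, c02', mul_assoc, ← mul_assoc, hd2, zero_mul]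
    have e2 : (p1 * d3) * (p1 * d3) = 0 := by
      rw [c13', mul_assoc, ← mul_assoc p1, c13', mul_assoc, ← mul_assoc, hd3, zero_mul]
    have e3 : n4 * (p0 * d2) = (p0 * d2) * n4 := by
      rw [mul_assoc, c24', ← mul_assoc, ← mul_assoc, c04]
    have e4 : n4 * (p1 * d3) = (p1 * d3) * n4 := by
      rw [mul_assoc, c34', ← mul_assoc, ← mul_assoc, c14]
    have e5 : (p0 * d2) * (p1 * d3) = (p1 * d3) * (p0 * d2) := by
      rw [mul_assoc, ← mul_assoc d2, ← c12', mul_assoc p1, c2'3', ← mul_assoc, ← mul_assoc, c01,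
        mul_assoc p1, c03', mul_assoc, mul_assoc, mul_assoc]
    have : y * y = n4 * n4 + (p0 * d2) * (p0 * d2) + (p1 * d3) * (p1 * d3) +
        (n4 * (p0 * d2) + (p0 * d2) * n4) + (n4 * (p1 * d3) + (p1 * d3) * n4) +
        ((p0 * d2) * (p1 * d3) + (p1 * d3) * (p0 * d2)) := by rw [hy]; noncomm_ring
    rw [this, e1, e2, e3, e4, e5, hn4]
    simp [two]
  · have e1 : p0 * (p0 * d2) = (p0 * d2) * p0 := by
      rw [mul_assoc, ← c02']
    have e2 : p0 * (p1 * d3) = (p1 * d3) * p0 := by
      rw [← mul_assoc, c01, mul_assoc, mul_assoc, c03']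
    have : p0 * y + y * p0 = (p0 * n4 + n4 * p0) + (p0 * (p0 * d2) + (p0 * d2) * p0) +
        (p0 * (p1 * d3) + (p1 * d3) * p0) := by rw [hy]; noncomm_ring
    rw [this, e1, e2, c04]
    simp [two]
  · have e1 : p1 * (p0 * d2) = (p0 * d2) * p1 := by
      rw [← mul_assoc, ← c01, mul_assoc, mul_assoc, c12']
    have e2 : p1 * (p1 * d3) = (p1 * d3) * p1 := by
      rw [mul_assoc, ← c13']
    have : p1 * y + y * p1 = (p1 * n4 + n4 * p1) + (p1 * (p0 * d2) + (p0 * d2) * p1) +
        (p1 * (p1 * d3) + (p1 * d3) * p1) := by rw [hy]; noncomm_ring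
    rw [this, e1, e2, c14]
    simp [two]
  · have e2 : n2 * (p1 * d3) = (p1 * d3) * n2 := by
      rw [← mul_assoc, ← c12, mul_assoc, mul_assoc, c23']
    have e1 : n2 * (p0 * d2) + (p0 * d2) * n2 = p0 := by
      rw [← mul_assoc, ← c02, mul_assoc, mul_assoc, ← mul_add, h2, mul_one]
    have : n2 * y + y * n2 = (n2 * n4 + n4 * n2) + (n2 * (p0 * d2) + (p0 * d2) * n2) +
        (n2 * (p1 * d3) + (p1 * d3) * n2) := by rw [hy]; noncomm_ring
    rw [this, e1, e2, c24]
    simp [two]
  · have e2 : n3 * (p0 * d2) = (p0 * d2) * n3 := by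
      rw [← mul_assoc, ← c03, mul_assoc, mul_assoc, c2'3]
    have e1 : n3 * (p1 * d3) + (p1 * d3) * n3 = p1 := by
      rw [← mul_assoc, ← c13, mul_assoc, mul_assoc, ← mul_add, h3, mul_one]
    have : n3 * y + y * n3 = (n3 * n4 + n4 * n3) + (n3 * (p0 * d2) + (p0 * d2) * n3) +
        (n3 * (p1 * d3) + (p1 * d3) * n3) := by rw [hy]; noncomm_ring
    rw [this, e1, e2, c34]
    simp [two]

lemma algE : oy k * oy k = 0 ∧ act 0 (mP k) * oy k + oy k * act 0 (mP k) = 0 ∧
    act 1 (mP k) * oy k + oy k * act 1 (mP k) = 0 ∧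
    act 2 (mN k) * oy k + oy k * act 2 (mN k) = act 0 (mP k) ∧
    act 3 (mN k) * oy k + oy k * act 3 (mN k) = act 1 (mP k) := by
  apply alg add_self_End (act 0 (mP k)) (act 1 (mP k)) (act 2 (mN k)) (act 3 (mN k))
    (act 4 (mN k)) (act 2 (mD k)) (act 3 (mD k))
  case hy => rfl
  case hp0 => rw [← map_mul, hP]
  case hp1 => rw [← map_mul, hP]
  case hn2 => rw [← map_mul, hN, map_zero]
  case hn3 => rw [← map_mul, hN, map_zero]
  case hn4 => rw [← map_mul, hN, map_zero]
  case hd2 => rw [← map_mul, hD, map_zero]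
  case hd3 => rw [← map_mul, hD, map_zero]
  case h2 => rw [← map_mul, ← map_mul, ← map_add, hND, map_one]
  case h3 => rw [← map_mul, ← map_mul, ← map_add, hND, map_one]
  all_goals exact act_comm (by decide) _ _

/-- the representation -/
noncomputable def repE : U (DE k) →ₐ[k] Module.End k (F k) :=
  liftP (Rel (DE k)) ![act 0 (mP k), act 1 (mP k), act 2 (mN k), act 3 (mN k), oy k] (by
    have a0 : act 0 (mP k) * act 0 (mP k) = act 0 (mP k) := by rw [← map_mul, hP]
    have a1 : act 1 (mP k) * act 1 (mP k) = act 1 (mP k) := by rw [← map_mul, hP]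
    have a2 : act 2 (mN k) * act 2 (mN k) = 0 := by rw [← map_mul, hN, map_zero]
    have a3 : act 3 (mN k) * act 3 (mN k) = 0 := by rw [← map_mul, hN, map_zero]
    have cc : ∀ {i j : Fin 5} (_ : i ≠ j) (M N : Matrix (Fin 2) (Fin 2) k),
      act i M * act j N + act j N * act i M = 0 := fun h M N => comm_add (act_comm h M N)
    exact lift_relE _ a0 a1 a2 a3 algE.1 (cc (by decide) _ _) (cc (by decide) _ _)
      (cc (by decide) _ _) algE.2.1 (cc (by decide) _ _) (cc (by decide) _ _) algE.2.2.1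
      (cc (by decide) _ _) algE.2.2.2.1 algE.2.2.2.2)

lemma repE_X (i : Fin 5) : repE (X (DE k) i) =
    (![act 0 (mP k), act 1 (mP k), act 2 (mN k), act 3 (mN k), oy k] : Fin 5 → _) i :=
  liftP_gen _ _ _ _

/-- delta function -/
def δ (s : Fin 5 → Fin 2) : F k := fun t => if t = s then 1 else 0

/-- orbit map -/
noncomputable def orb : U (DE k) →ₗ[k] F k where
  toFun e := repE e (δ 0)
  map_add' a b := by rw [map_add]; rfl
  map_smul' r a := by rw [map_smul]; rfl

lemma orb_apply (e : U (DE k)) : orb e = repE e (δ 0) := rfl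

lemma mem_step (i : Fin 5) {f : F k} (hf : f ∈ LinearMap.range (orb (k := k))) :
    repE (X (DE k) i) f ∈ LinearMap.range (orb (k := k)) := by
  obtain ⟨e, rfl⟩ := hf
  refine ⟨X (DE k) i * e, ?_⟩
  rw [orb_apply, orb_apply, map_mul]
  rfl

omit [CharP k 2] in
lemma act_δ (i : Fin 5) (M : Matrix (Fin 2) (Fin 2) k) (s : Fin 5 → Fin 2) :
    act i M (δ s) = ∑ b, M b (s i) • δ (Function.update s i b) := by
  funext t
  rw [act_apply, Finset.sum_apply]
  simp only [Pi.smul_apply, δ, smul_eq_mul]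
  by_cases h : Function.update t i (s i) = s
  · rw [Finset.sum_eq_single (s i), Finset.sum_eq_single (t i)]
    · rw [if_pos h, if_pos]
      rw [← h]; simp
    · intro b _ hb
      rw [if_neg, mul_zero]
      intro h2
      apply hb
      rw [h2]; simp
    · simp
    · intro b _ hb
      rw [if_neg, mul_zero]
      intro h2
      apply hb
      rw [← h2]; simp
    · simp
  · rw [Finset.sum_eq_zero, Finset.sum_eq_zero]
    · intro b _
      rw [if_neg, mul_zero]
      intro h2
      apply h
      rw [h2]; simp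
    · intro b _
      rw [if_neg, mul_zero]
      intro h2
      apply h
      rw [← h2]; simp

lemma step0 (s : Fin 5 → Fin 2) (hs : s 0 = 0) (h : δ s ∈ LinearMap.range (orb (k := k)))
    (b : Fin 2) : δ (Function.update s 0 b) ∈ LinearMap.range (orb (k := k)) := by
  fin_cases b
  · simp only [Fin.zero_eta, ← hs, Function.update_eq_self]; exact h
  · have := mem_step 0 h
    rw [repE_X] at this
    simpa [act_δ, mP, Fin.sum_univ_two, hs] using this

lemma step1 (s : Fin 5 → Fin 2) (hs : s 1 = 0) (h : δ s ∈ LinearMap.range (orb (k := k)))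
    (b : Fin 2) : δ (Function.update s 1 b) ∈ LinearMap.range (orb (k := k)) := by
  fin_cases b
  · simp only [Fin.zero_eta, ← hs, Function.update_eq_self]; exact h
  · have := mem_step 1 h
    rw [repE_X] at this
    simpa [act_δ, mP, Fin.sum_univ_two, hs] using this

lemma step2 (s : Fin 5 → Fin 2) (hs : s 2 = 0) (h : δ s ∈ LinearMap.range (orb (k := k)))
    (b : Fin 2) : δ (Function.update s 2 b) ∈ LinearMap.range (orb (k := k)) := by
  fin_cases b
  · simp only [Fin.zero_eta, ← hs, Function.update_eq_self]; exact h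
  · have := mem_step 2 h
    rw [repE_X] at this
    simpa [act_δ, mN, Fin.sum_univ_two, hs] using this

lemma step3 (s : Fin 5 → Fin 2) (hs : s 3 = 0) (h : δ s ∈ LinearMap.range (orb (k := k)))
    (b : Fin 2) : δ (Function.update s 3 b) ∈ LinearMap.range (orb (k := k)) := by
  fin_cases b
  · simp only [Fin.zero_eta, ← hs, Function.update_eq_self]; exact h
  · have := mem_step 3 h
    rw [repE_X] at this
    simpa [act_δ, mN, Fin.sum_univ_two, hs] using this

lemma step4 (s : Fin 5 → Fin 2) (hs : s 4 = 0) (hs2 : s 2 = 0) (hs3 : s 3 = 0)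
    (h : δ s ∈ LinearMap.range (orb (k := k)))
    (b : Fin 2) : δ (Function.update s 4 b) ∈ LinearMap.range (orb (k := k)) := by
  fin_cases b
  · simp only [Fin.zero_eta, ← hs, Function.update_eq_self]; exact h
  · have := mem_step 4 h
    rw [repE_X] at this
    simpa [oy, act_δ, mN, mP, mD, Fin.sum_univ_two, hs, hs2, hs3] using this

lemma δ_mem (s : Fin 5 → Fin 2) : δ s ∈ LinearMap.range (orb (k := k)) := by
  have h : s = Function.update (Function.update (Function.update (Function.update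
      (Function.update (0 : Fin 5 → Fin 2) 4 (s 4)) 3 (s 3)) 2 (s 2)) 1 (s 1)) 0 (s 0) := by
    funext i
    fin_cases i <;> simp [Function.update]
  rw [h]
  apply step0 _ (by simp [Function.update])
  apply step1 _ (by simp [Function.update])
  apply step2 _ (by simp [Function.update])
  apply step3 _ (by simp [Function.update])
  apply step4 _ (by simp) (by simp) (by simp)
  exact ⟨1, by rw [orb_apply, map_one]; rfl⟩

lemma orb_surj : Function.Surjective (orb (k := k)) := by
  rw [← LinearMap.range_eq_top, eq_top_iff]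
  rintro f -
  have : f = ∑ s, f s • δ s := by
    funext t
    simp [δ, Finset.sum_apply]
  rw [this]
  exact Submodule.sum_mem _ fun s _ => Submodule.smul_mem _ _ (δ_mem s)

lemma finrank_ge : 32 ≤ Module.finrank k (U (DE k)) := by
  haveI := fd (DE k)
  have h := LinearMap.finrank_le_finrank_of_surjective (orb_surj (k := k))
  simpa [F] using h

section rels

omit [CharP k 2] in
lemma sqE (i l : Fin 5) : (DE k).sq i l = if i = 0 ∧ l = 0 then 1 else if i = 1 ∧ l = 1 then 1 else 0 := rfl
omit [CharP k 2] in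
lemma brE (i j l : Fin 5) : (DE k).br i j l =
  if ((i = 2 ∧ j = 4) ∨ (i = 4 ∧ j = 2)) ∧ l = 0 then 1 else
    if ((i = 3 ∧ j = 4) ∨ (i = 4 ∧ j = 3)) ∧ l = 1 then 1 else 0 := rfl
omit [CharP k 2] in
lemma sqA (i l : Fin 1) : (DA k).sq i l = 0 := rfl

lemma E0 : X (DE k) 0 * X (DE k) 0 = X (DE k) 0 := by
  rw [X_sq]; simp [sqE, Fin.sum_univ_five]
lemma E1 : X (DE k) 1 * X (DE k) 1 = X (DE k) 1 := by
  rw [X_sq]; simp [sqE, Fin.sum_univ_five]
lemma E2 : X (DE k) 2 * X (DE k) 2 = 0 := by
  rw [X_sq]; simp [sqE]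
lemma E3 : X (DE k) 3 * X (DE k) 3 = 0 := by
  rw [X_sq]; simp [sqE]
lemma E4 : X (DE k) 4 * X (DE k) 4 = 0 := by
  rw [X_sq]; simp [sqE]
lemma E01 : X (DE k) 0 * X (DE k) 1 + X (DE k) 1 * X (DE k) 0 = 0 := by
  rw [X_br _ _ _ (by decide)]; simp [brE]
lemma E02 : X (DE k) 0 * X (DE k) 2 + X (DE k) 2 * X (DE k) 0 = 0 := by
  rw [X_br _ _ _ (by decide)]; simp [brE]
lemma E03 : X (DE k) 0 * X (DE k) 3 + X (DE k) 3 * X (DE k) 0 = 0 := by
  rw [X_br _ _ _ (by decide)]; simp [brE]
lemma E04 : X (DE k) 0 * X (DE k) 4 + X (DE k) 4 * X (DE k) 0 = 0 := by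
  rw [X_br _ _ _ (by decide)]; simp [brE]
lemma E12 : X (DE k) 1 * X (DE k) 2 + X (DE k) 2 * X (DE k) 1 = 0 := by
  rw [X_br _ _ _ (by decide)]; simp [brE]
lemma E13 : X (DE k) 1 * X (DE k) 3 + X (DE k) 3 * X (DE k) 1 = 0 := by
  rw [X_br _ _ _ (by decide)]; simp [brE]
lemma E14 : X (DE k) 1 * X (DE k) 4 + X (DE k) 4 * X (DE k) 1 = 0 := by
  rw [X_br _ _ _ (by decide)]; simp [brE]
lemma E23 : X (DE k) 2 * X (DE k) 3 + X (DE k) 3 * X (DE k) 2 = 0 := by
  rw [X_br _ _ _ (by decide)]; simp [brE]
lemma E24 : X (DE k) 2 * X (DE k) 4 + X (DE k) 4 * X (DE k) 2 = X (DE k) 0 := by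
  rw [X_br _ _ _ (by decide)]; simp [brE, Fin.sum_univ_five]
lemma E34 : X (DE k) 3 * X (DE k) 4 + X (DE k) 4 * X (DE k) 3 = X (DE k) 1 := by
  rw [X_br _ _ _ (by decide)]; simp [brE, Fin.sum_univ_five]

end rels

/-- the generators of `H_t` inside `E` -/
noncomputable def gE (t : k) : Fin 4 → U (DE k) :=
  ![X (DE k) 0, X (DE k) 1, X (DE k) 2 + t • X (DE k) 3, X (DE k) 4]

lemma gE_prim (t : k) (i : Fin 4) : comulHom (DE k) (gE t i) = gE t i ⊗ₜ 1 + 1 ⊗ₜ gE t i := by
  fin_cases i
  · exact comulHom_X _ _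
  · exact comulHom_X _ _
  · change comulHom (DE k) (X (DE k) 2 + t • X (DE k) 3) = (X (DE k) 2 + t • X (DE k) 3) ⊗ₜ 1 +
      1 ⊗ₜ (X (DE k) 2 + t • X (DE k) 3)
    rw [map_add, map_smul, comulHom_X, comulHom_X, TensorProduct.add_tmul, TensorProduct.tmul_add,
      smul_add, TensorProduct.smul_tmul', TensorProduct.tmul_smul]
    abel
  · exact comulHom_X _ _

lemma gE_counit (t : k) (i : Fin 4) : counitHom (DE k) (gE t i) = 0 := by
  fin_cases i
  · exact counitHom_X _ _
  · exact counitHom_X _ _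
  · change counitHom (DE k) (X (DE k) 2 + t • X (DE k) 3) = 0
    rw [map_add, map_smul, counitHom_X, counitHom_X, smul_zero, add_zero]
  · exact counitHom_X _ _

/-- the algebra map `H_t → E` -/
noncomputable def embAlg (t : k) : U (DH k t) →ₐ[k] U (DE k) :=
  liftP (Rel (DH k t)) (gE t) (by
    apply lift_relH
    · exact E0
    · exact E1
    · simp only [gE, Matrix.cons_val]
      have : (X (DE k) 2 + t • X (DE k) 3) * (X (DE k) 2 + t • X (DE k) 3) =
          X (DE k) 2 * X (DE k) 2 + t • (X (DE k) 2 * X (DE k) 3 + X (DE k) 3 * X (DE k) 2) +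
          (t * t) • (X (DE k) 3 * X (DE k) 3) := by
        simp only [mul_add, add_mul, mul_smul_comm, smul_mul_assoc, smul_add, smul_smul]
        abel
      rw [this, E2, E23, E3]; simp
    · exact E4
    · exact E01
    · simp only [gE, Matrix.cons_val]
      have : X (DE k) 0 * (X (DE k) 2 + t • X (DE k) 3) + (X (DE k) 2 + t • X (DE k) 3) * X (DE k) 0
          = (X (DE k) 0 * X (DE k) 2 + X (DE k) 2 * X (DE k) 0) +
          t • (X (DE k) 0 * X (DE k) 3 + X (DE k) 3 * X (DE k) 0) := by
        simp only [mul_add, add_mul, mul_smul_comm, smul_mul_assoc, smul_add]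
        abel
      rw [this, E02, E03]; simp
    · exact E04
    · simp only [gE, Matrix.cons_val]
      have : X (DE k) 1 * (X (DE k) 2 + t • X (DE k) 3) + (X (DE k) 2 + t • X (DE k) 3) * X (DE k) 1
          = (X (DE k) 1 * X (DE k) 2 + X (DE k) 2 * X (DE k) 1) +
          t • (X (DE k) 1 * X (DE k) 3 + X (DE k) 3 * X (DE k) 1) := by
        simp only [mul_add, add_mul, mul_smul_comm, smul_mul_assoc, smul_add]
        abel
      rw [this, E12, E13]; simp
    · exact E14
    · simp only [gE, Matrix.cons_val]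
      have : (X (DE k) 2 + t • X (DE k) 3) * X (DE k) 4 + X (DE k) 4 * (X (DE k) 2 + t • X (DE k) 3)
          = (X (DE k) 2 * X (DE k) 4 + X (DE k) 4 * X (DE k) 2) +
          t • (X (DE k) 3 * X (DE k) 4 + X (DE k) 4 * X (DE k) 3) := by
        simp only [mul_add, add_mul, mul_smul_comm, smul_mul_assoc, smul_add]
        abel
      rw [this, E24, E34])

lemma embAlg_X (t : k) (i : Fin 4) : embAlg t (X (DH k t) i) = gE t i := liftP_gen _ _ _ _

/-- the bialgebra map `H_t → E` -/
noncomputable def emb (t : k) : U (DH k t) →ₐc[k] U (DE k) :=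
  BialgHom.ofAlgHom (embAlg t)
    (homExt _ fun i => by
      change counitHom (DE k) (embAlg t (X (DH k t) i)) = counitHom (DH k t) (X (DH k t) i)
      rw [embAlg_X, gE_counit, counitHom_X])
    (homExt _ fun i => by
      change Algebra.TensorProduct.map (embAlg t) (embAlg t) (comulHom (DH k t) (X (DH k t) i)) =
        comulHom (DE k) (embAlg t (X (DH k t) i))
      rw [embAlg_X, gE_prim, comulHom_X, map_add, Algebra.TensorProduct.map_tmul,
        Algebra.TensorProduct.map_tmul, map_one, embAlg_X])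

lemma emb_X (t : k) (i : Fin 4) : emb t (X (DH k t) i) = gE t i := embAlg_X t i

/-- the algebra map `A → E` -/
noncomputable def embAlgA : U (DA k) →ₐ[k] U (DE k) :=
  liftP (Rel (DA k)) (fun _ => X (DE k) 3) (by
    apply lift_rel
    · intro i
      simp [DA, E3]
    · intro i j h
      exact absurd (Subsingleton.elim i j) h)

lemma embAlgA_X (i : Fin 1) : embAlgA (X (DA k) i) = X (DE k) 3 := liftP_gen _ _ _ _

/-- the bialgebra map `A → E` -/
noncomputable def embA : U (DA k) →ₐc[k] U (DE k) :=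
  BialgHom.ofAlgHom embAlgA
    (homExt _ fun i => by
      change counitHom (DE k) (embAlgA (X (DA k) i)) = counitHom (DA k) (X (DA k) i)
      rw [embAlgA_X, counitHom_X, counitHom_X])
    (homExt _ fun i => by
      change Algebra.TensorProduct.map embAlgA embAlgA (comulHom (DA k) (X (DA k) i)) =
        comulHom (DE k) (embAlgA (X (DA k) i))
      rw [embAlgA_X, comulHom_X, comulHom_X, map_add, Algebra.TensorProduct.map_tmul,
        Algebra.TensorProduct.map_tmul, map_one, embAlgA_X])

lemma embA_X (i : Fin 1) : embA (X (DA k) i) = X (DE k) 3 := embAlgA_X i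

/-- the multiplication map -/
noncomputable def mulMap (t : k) : U (DA k) ⊗[k] U (DH k t) →ₗ[k] U (DE k) :=
  LinearMap.mul' k (U (DE k)) ∘ₗ TensorProduct.map (embA (k := k) : U (DA k) →ₗ[k] U (DE k))
    (emb t : U (DH k t) →ₗ[k] U (DE k))

lemma mulMap_tmul (t : k) (a : U (DA k)) (h : U (DH k t)) :
    mulMap t (a ⊗ₜ h) = embA a * emb t h := rfl

lemma spanA (a : U (DA k)) : ∃ r s : k, a = r • 1 + s • X (DA k) 0 := by
  have h : a ∈ Submodule.span k ({1, X (DA k) 0} : Set (U (DA k))) := by
    have := eq_top_of_closed (Rel (DA k)) (Submodule.span k ({1, X (DA k) 0} : Set (U (DA k))))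
      (Submodule.subset_span (by simp)) (by
        intro i v hv
        have hi : i = 0 := Subsingleton.elim _ _
        subst hi
        obtain ⟨r, s, rfl⟩ := Submodule.mem_span_pair.mp hv
        rw [mul_add, mul_smul_comm, mul_smul_comm, mul_one]
        have : X (DA k) 0 * X (DA k) 0 = 0 := by rw [X_sq]; simp [sqA]
        change r • X (DA k) 0 + s • (X (DA k) 0 * X (DA k) 0) ∈ _
        rw [this, smul_zero, add_zero]
        exact Submodule.smul_mem _ _ (Submodule.subset_span (by simp)))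
    rw [this]; trivial
  obtain ⟨r, s, h⟩ := Submodule.mem_span_pair.mp h
  exact ⟨r, s, h.symm⟩

lemma mulMap_surj (t : k) : Function.Surjective (mulMap t) := by
  rw [← LinearMap.range_eq_top]
  have hz : ∀ v ∈ LinearMap.range (mulMap t), X (DE k) 3 * v ∈ LinearMap.range (mulMap t) := by
    rintro _ ⟨u, rfl⟩
    induction u using TensorProduct.induction_on with
    | zero => simp
    | add x y hx hy => rw [map_add, mul_add]; exact add_mem hx hy
    | tmul a h =>
      refine ⟨(X (DA k) 0 * a) ⊗ₜ h, ?_⟩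
      rw [mulMap_tmul, mulMap_tmul, map_mul, embA_X, mul_assoc]
  have hh : ∀ h : U (DH k t), emb t h ∈ LinearMap.range (mulMap t) := fun h =>
    ⟨1 ⊗ₜ h, by rw [mulMap_tmul, map_one, one_mul]⟩
  have key : ∀ g : U (DE k), (∀ h, g * emb t h ∈ LinearMap.range (mulMap t)) →
      (∀ h, g * (X (DE k) 3 * emb t h) ∈ LinearMap.range (mulMap t)) →
      ∀ v ∈ LinearMap.range (mulMap t), g * v ∈ LinearMap.range (mulMap t) := by
    rintro g h1 h2 _ ⟨u, rfl⟩
    induction u using TensorProduct.induction_on with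
    | zero => simp
    | add x y hx hy => rw [map_add, mul_add]; exact add_mem hx hy
    | tmul a h =>
      obtain ⟨r, s, rfl⟩ := spanA a
      rw [mulMap_tmul, map_add, map_smul, map_smul, map_one, embA_X, add_mul, smul_one_mul,
        smul_mul_assoc, mul_add, mul_smul_comm, mul_smul_comm]
      exact add_mem (Submodule.smul_mem _ _ (h1 h)) (Submodule.smul_mem _ _ (h2 h))
  have sw : ∀ a b c : U (DE k), a * b + b * a = c → a * b = b * a + c := by
    intro a b c h
    rw [← h, add_comm (a * b), ← add_assoc, two_eq_zero' (k := k), zero_add]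
  apply eq_top_of_closed
  · exact ⟨1 ⊗ₜ 1, by rw [mulMap_tmul, map_one, map_one, one_mul]⟩
  · have g0 : ∀ h, X (DE k) 0 * emb t h ∈ LinearMap.range (mulMap t) := fun h => by
      have := hh (X (DH k t) 0 * h)
      rwa [map_mul, emb_X] at this
    have g1 : ∀ h, X (DE k) 1 * emb t h ∈ LinearMap.range (mulMap t) := fun h => by
      have := hh (X (DH k t) 1 * h)
      rwa [map_mul, emb_X] at this
    have g4 : ∀ h, X (DE k) 4 * emb t h ∈ LinearMap.range (mulMap t) := fun h => by
      have := hh (X (DH k t) 3 * h)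
      rwa [map_mul, emb_X] at this
    have g2 : ∀ h, X (DE k) 2 * emb t h ∈ LinearMap.range (mulMap t) := fun h => by
      have h1 := hh (X (DH k t) 2 * h)
      rw [map_mul, emb_X] at h1
      have h2 := Submodule.smul_mem _ t (hz _ (hh h))
      have : X (DE k) 2 * emb t h = gE t 2 * emb t h - t • (X (DE k) 3 * emb t h) := by
        simp only [gE, Matrix.cons_val]
        rw [add_mul, smul_mul_assoc, add_sub_cancel_right]
      rw [this]
      exact sub_mem h1 h2
    intro i
    fin_cases i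
    · refine key _ g0 (fun h => ?_)
      change X (DE k) 0 * (X (DE k) 3 * emb t h) ∈ _
      rw [← mul_assoc, sw _ _ _ E03, add_zero, mul_assoc]
      exact hz _ (g0 h)
    · refine key _ g1 (fun h => ?_)
      change X (DE k) 1 * (X (DE k) 3 * emb t h) ∈ _
      rw [← mul_assoc, sw _ _ _ E13, add_zero, mul_assoc]
      exact hz _ (g1 h)
    · refine key _ g2 (fun h => ?_)
      change X (DE k) 2 * (X (DE k) 3 * emb t h) ∈ _
      rw [← mul_assoc, sw _ _ _ E23, add_zero, mul_assoc]
      exact hz _ (g2 h)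
    · exact hz
    · refine key _ g4 (fun h => ?_)
      change X (DE k) 4 * (X (DE k) 3 * emb t h) ∈ _
      have hE : X (DE k) 4 * X (DE k) 3 = X (DE k) 3 * X (DE k) 4 + X (DE k) 1 :=
        sw _ _ _ (by rw [add_comm (X (DE k) 4 * X (DE k) 3)]; exact E34)
      rw [← mul_assoc, hE, add_mul, mul_assoc]
      exact add_mem (hz _ (g4 h)) (g1 h)

lemma finrank_all (t : k) : Module.finrank k (U (DE k)) = 32 ∧
    Module.finrank k (U (DH k t)) = 2 ^ Fintype.card (Fin 4) ∧
    Module.finrank k (U (DA k)) = 2 := by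
  haveI := fd (DE k)
  haveI := fd (DH k t)
  haveI := fd (DA k)
  have h1 := finrank_ge (k := k)
  have h2 := LinearMap.finrank_le_finrank_of_surjective (mulMap_surj t)
  rw [Module.finrank_tensorProduct] at h2
  have h3 := finrank_le (DH k t)
  have h4 := finrank_le (DA k)
  have h5 := finrank_le (DE k)
  simp only [Fintype.card_fin] at h3 h4 h5 ⊢
  norm_num at h3 h4 h5 ⊢
  have h6 : 32 ≤ Module.finrank k (U (DA k)) * Module.finrank k (U (DH k t)) := h1.trans h2
  refine ⟨le_antisymm h5 h1, ?_, ?_⟩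
  · nlinarith
  · nlinarith

lemma mulMap_bij (t : k) : Function.Bijective (mulMap t) := by
  haveI := fd (DE k)
  haveI := fd (DH k t)
  haveI := fd (DA k)
  obtain ⟨h1, h2, h3⟩ := finrank_all t
  refine ⟨?_, mulMap_surj t⟩
  rw [LinearMap.injective_iff_surjective_of_finrank_eq_finrank]
  · exact mulMap_surj t
  · rw [Module.finrank_tensorProduct, h1, h2, h3]
    simp

omit [CharP k 2] in
lemma sqH (t : k) (i l : Fin 4) : (DH k t).sq i l =
  if i = 0 ∧ l = 0 then 1 else if i = 1 ∧ l = 1 then 1 else 0 := rfl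
omit [CharP k 2] in
lemma brH (t : k) (i j l : Fin 4) : (DH k t).br i j l =
  if ((i = 2 ∧ j = 3) ∨ (i = 3 ∧ j = 2)) then
    (if l = 0 then 1 else if l = 1 then t else 0) else 0 := rfl

lemma H0 (t : k) : X (DH k t) 0 * X (DH k t) 0 = X (DH k t) 0 := by
  rw [X_sq]; simp [sqH]
lemma H1 (t : k) : X (DH k t) 1 * X (DH k t) 1 = X (DH k t) 1 := by
  rw [X_sq]; simp [sqH]
lemma H2 (t : k) : X (DH k t) 2 * X (DH k t) 2 = 0 := by
  rw [X_sq]; simp [sqH]
lemma H3 (t : k) : X (DH k t) 3 * X (DH k t) 3 = 0 := by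
  rw [X_sq]; simp [sqH]
lemma H01 (t : k) : X (DH k t) 0 * X (DH k t) 1 + X (DH k t) 1 * X (DH k t) 0 = 0 := by
  rw [X_br _ _ _ (by decide)]; simp [brH]
lemma H02 (t : k) : X (DH k t) 0 * X (DH k t) 2 + X (DH k t) 2 * X (DH k t) 0 = 0 := by
  rw [X_br _ _ _ (by decide)]; simp [brH]
lemma H03 (t : k) : X (DH k t) 0 * X (DH k t) 3 + X (DH k t) 3 * X (DH k t) 0 = 0 := by
  rw [X_br _ _ _ (by decide)]; simp [brH]
lemma H12 (t : k) : X (DH k t) 1 * X (DH k t) 2 + X (DH k t) 2 * X (DH k t) 1 = 0 := by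
  rw [X_br _ _ _ (by decide)]; simp [brH]
lemma H13 (t : k) : X (DH k t) 1 * X (DH k t) 3 + X (DH k t) 3 * X (DH k t) 1 = 0 := by
  rw [X_br _ _ _ (by decide)]; simp [brH]
lemma H23 (t : k) : X (DH k t) 2 * X (DH k t) 3 + X (DH k t) 3 * X (DH k t) 2 =
    X (DH k t) 0 + t • X (DH k t) 1 := by
  rw [X_br _ _ _ (by decide)]; simp [brH, Fin.sum_univ_four]

lemma brack (t : k) (v w : Fin 4 → k) :
    (∑ i, v i • X (DH k t) i) * (∑ i, w i • X (DH k t) i) +
    (∑ i, w i • X (DH k t) i) * (∑ i, v i • X (DH k t) i) =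
      (v 2 * w 3 + v 3 * w 2) • (X (DH k t) 0 + t • X (DH k t) 1) := by
  have t2 := fun a : U (DH k t) => two_eq_zero' (k := k) _ a
  have e : (∑ i, v i • X (DH k t) i) * (∑ i, w i • X (DH k t) i) +
    (∑ i, w i • X (DH k t) i) * (∑ i, v i • X (DH k t) i) =
    (v 0 * w 0) • (X (DH k t) 0 * X (DH k t) 0 + X (DH k t) 0 * X (DH k t) 0) +
    (v 1 * w 1) • (X (DH k t) 1 * X (DH k t) 1 + X (DH k t) 1 * X (DH k t) 1) +
    (v 2 * w 2) • (X (DH k t) 2 * X (DH k t) 2 + X (DH k t) 2 * X (DH k t) 2) +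
    (v 3 * w 3) • (X (DH k t) 3 * X (DH k t) 3 + X (DH k t) 3 * X (DH k t) 3) +
    (v 0 * w 1 + v 1 * w 0) • (X (DH k t) 0 * X (DH k t) 1 + X (DH k t) 1 * X (DH k t) 0) +
    (v 0 * w 2 + v 2 * w 0) • (X (DH k t) 0 * X (DH k t) 2 + X (DH k t) 2 * X (DH k t) 0) +
    (v 0 * w 3 + v 3 * w 0) • (X (DH k t) 0 * X (DH k t) 3 + X (DH k t) 3 * X (DH k t) 0) +
    (v 1 * w 2 + v 2 * w 1) • (X (DH k t) 1 * X (DH k t) 2 + X (DH k t) 2 * X (DH k t) 1) +
    (v 1 * w 3 + v 3 * w 1) • (X (DH k t) 1 * X (DH k t) 3 + X (DH k t) 3 * X (DH k t) 1) +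
    (v 2 * w 3 + v 3 * w 2) • (X (DH k t) 2 * X (DH k t) 3 + X (DH k t) 3 * X (DH k t) 2) := by
    simp only [Fin.sum_univ_four, add_mul, mul_add, smul_mul_smul_comm]
    module
  rw [e, t2, t2, t2, t2, H01, H02, H03, H12, H13, H23]
  simp

lemma square (t : k) (v : Fin 4 → k) :
    (∑ i, v i • X (DH k t) i) * (∑ i, v i • X (DH k t) i) =
      (v 0 * v 0 + v 2 * v 3) • X (DH k t) 0 + (v 1 * v 1 + v 2 * v 3 * t) • X (DH k t) 1 := by
  have e : (∑ i, v i • X (DH k t) i) * (∑ i, v i • X (DH k t) i) =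
    (v 0 * v 0) • (X (DH k t) 0 * X (DH k t) 0) +
    (v 1 * v 1) • (X (DH k t) 1 * X (DH k t) 1) +
    (v 2 * v 2) • (X (DH k t) 2 * X (DH k t) 2) +
    (v 3 * v 3) • (X (DH k t) 3 * X (DH k t) 3) +
    (v 0 * v 1) • (X (DH k t) 0 * X (DH k t) 1 + X (DH k t) 1 * X (DH k t) 0) +
    (v 0 * v 2) • (X (DH k t) 0 * X (DH k t) 2 + X (DH k t) 2 * X (DH k t) 0) +
    (v 0 * v 3) • (X (DH k t) 0 * X (DH k t) 3 + X (DH k t) 3 * X (DH k t) 0) +
    (v 1 * v 2) • (X (DH k t) 1 * X (DH k t) 2 + X (DH k t) 2 * X (DH k t) 1) +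
    (v 1 * v 3) • (X (DH k t) 1 * X (DH k t) 3 + X (DH k t) 3 * X (DH k t) 1) +
    (v 2 * v 3) • (X (DH k t) 2 * X (DH k t) 3 + X (DH k t) 3 * X (DH k t) 2) := by
    simp only [Fin.sum_univ_four, add_mul, mul_add, smul_mul_smul_comm]
    module
  rw [e, H0, H1, H2, H3, H01, H02, H03, H12, H13, H23]
  simp
  module

lemma indep (t : k) (c : Fin 4 → k) (h : ∑ i, c i • X (DH k t) i = 0) : ∀ i, c i = 0 :=
  Fintype.linearIndependent_iff.mp (linInd (DH k t) (finrank_all t).2.1) c h

lemma indep4 (t : k) (a b c d : k) (h : a • X (DH k t) 0 + b • X (DH k t) 1 + c • X (DH k t) 2 +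
    d • X (DH k t) 3 = 0) : a = 0 ∧ b = 0 ∧ c = 0 ∧ d = 0 := by
  have h1 := indep t ![a, b, c, d] (by simpa [Fin.sum_univ_four] using h)
  exact ⟨h1 0, h1 1, h1 2, h1 3⟩

/-- idempotent primitive elements -/
lemma idem_prim (t : k) (v : Fin 4 → k)
    (h : (∑ i, v i • X (DH k t) i) * (∑ i, v i • X (DH k t) i) = ∑ i, v i • X (DH k t) i) :
    (v 0 = 0 ∨ v 0 = 1) ∧ (v 1 = 0 ∨ v 1 = 1) ∧ v 2 = 0 ∧ v 3 = 0 := by
  rw [square, Fin.sum_univ_four, ← sub_eq_zero] at h
  have h' : (v 0 * v 0 + v 2 * v 3 - v 0) • X (DH k t) 0 +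
      (v 1 * v 1 + v 2 * v 3 * t - v 1) • X (DH k t) 1 + (- v 2) • X (DH k t) 2 +
      (- v 3) • X (DH k t) 3 = 0 := by
    rw [← h]; module
  obtain ⟨h0, h1, h2, h3⟩ := indep4 t _ _ _ _ h'
  have h2' : v 2 = 0 := neg_eq_zero.mp h2
  have h3' : v 3 = 0 := neg_eq_zero.mp h3
  rw [h2'] at h0 h1
  have e0 : v 0 * (v 0 - 1) = 0 := by linear_combination h0
  have e1 : v 1 * (v 1 - 1) = 0 := by linear_combination h1
  refine ⟨?_, ?_, h2', h3'⟩
  · rcases mul_eq_zero.mp e0 with h | h
    · exact Or.inl h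
    · exact Or.inr (sub_eq_zero.mp h)
  · rcases mul_eq_zero.mp e1 with h | h
    · exact Or.inl h
    · exact Or.inr (sub_eq_zero.mp h)

lemma iso_cond (s t : k) (e : U (DH k s) ≃ₐc[k] U (DH k t)) :
    ∃ a b c d : k, (a = 0 ∨ a = 1) ∧ (b = 0 ∨ b = 1) ∧ (c = 0 ∨ c = 1) ∧ (d = 0 ∨ d = 1) ∧
      t = (b + s * d) / (a + s * c) := by
  have hprim : ∀ i, ∃ c : Fin 4 → k, e (X (DH k s) i) = ∑ j, c j • X (DH k t) j := by
    intro i
    apply prim (DH k t) (finrank_all t).2.1
    have h1 := (CoalgHomClass.map_comp_comul_apply e (X (DH k s) i))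
    rw [comul_X, map_add, TensorProduct.map_tmul, TensorProduct.map_tmul] at h1
    rw [← h1]
    simp
  choose v hv using hprim
  have hm : ∀ x y, e (x * y) = e x * e y := fun x y => map_mul e x y
  have i0 := idem_prim t (v 0) (by rw [← hv 0, ← hm, H0])
  have i1 := idem_prim t (v 1) (by rw [← hv 1, ← hm, H1])
  have h23 := brack t (v 2) (v 3)
  rw [← hv 2, ← hv 3, ← hm, ← hm, ← map_add, H23, map_add, map_smul, hv 0, hv 1,
    Fin.sum_univ_four, Fin.sum_univ_four, i0.2.2.1, i0.2.2.2, i1.2.2.1, i1.2.2.2, ← sub_eq_zero] at h23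
  set D := v 2 2 * v 3 3 + v 2 3 * v 3 2 with hD
  have h' : (v 0 0 + s * v 1 0 - D) • X (DH k t) 0 + (v 0 1 + s * v 1 1 - D * t) • X (DH k t) 1 +
      (0 : k) • X (DH k t) 2 + (0 : k) • X (DH k t) 3 = 0 := by
    rw [← h23]; module
  obtain ⟨h0, h1, -, -⟩ := indep4 t _ _ _ _ h'
  refine ⟨v 0 0, v 0 1, v 1 0, v 1 1, i0.1, i0.2.1, i1.1, i1.2.1, ?_⟩
  have hD0 : v 0 0 + s * v 1 0 ≠ 0 := by
    intro h2
    have h3 : D = 0 := by linear_combination h2 - h0
    have h4 : v 0 1 + s * v 1 1 = 0 := by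
      rw [h3] at h1
      linear_combination h1
    have h5 : e (X (DH k s) 0 + s • X (DH k s) 1) = 0 := by
      rw [map_add, map_smul, hv 0, hv 1, Fin.sum_univ_four, Fin.sum_univ_four, i0.2.2.1, i0.2.2.2,
        i1.2.2.1, i1.2.2.2]
      have : v 0 0 • X (DH k t) 0 + v 0 1 • X (DH k t) 1 + (0 : k) • X (DH k t) 2 +
          (0 : k) • X (DH k t) 3 + s • (v 1 0 • X (DH k t) 0 + v 1 1 • X (DH k t) 1 +
          (0 : k) • X (DH k t) 2 + (0 : k) • X (DH k t) 3) =
          (v 0 0 + s * v 1 0) • X (DH k t) 0 + (v 0 1 + s * v 1 1) • X (DH k t) 1 := by module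
      rw [this, h2, h4]; simp
    have h6 : X (DH k s) 0 + s • X (DH k s) 1 = 0 := EquivLike.injective e (h5.trans (map_zero e).symm)
    have h7 := (indep4 s 1 s 0 0 (by rw [one_smul, h6]; simp)).1
    exact one_ne_zero h7
  rw [eq_div_iff hD0]
  linear_combination t * h0 - h1

/-- the finite set of parameters with isomorphic Hopf algebra -/
lemma finite_iso (s : k) : ∃ S : Finset k, ∀ t, Nonempty (U (DH k s) ≃ₐc[k] U (DH k t)) → t ∈ S := by
  classical
  refine ⟨((({0, 1} : Finset k) ×ˢ ({0, 1} : Finset k)) ×ˢ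
    (({0, 1} : Finset k) ×ˢ ({0, 1} : Finset k))).image
    (fun p => (p.1.2 + s * p.2.2) / (p.1.1 + s * p.2.1)), ?_⟩
  rintro t ⟨e⟩
  obtain ⟨a, b, c, d, ha, hb, hc, hd, h⟩ := iso_cond s t e
  rw [Finset.mem_image]
  exact ⟨((a, b), (c, d)), by simp [ha, hb, hc, hd], h.symm⟩

variable (k) in
lemma exists_seq [Infinite k] : ∃ f : ℕ → k, ∀ m n, m ≠ n →
    IsEmpty (U (DH k (f m)) ≃ₐc[k] U (DH k (f n))) := by
  classical
  choose S hS using finite_iso (k := k)
  obtain ⟨f, -, hf⟩ := exists_seq_of_forall_finset_exists (fun _ : k => True)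
    (fun x y => IsEmpty (U (DH k x) ≃ₐc[k] U (DH k y))) (by
      intro s _
      obtain ⟨y, hy⟩ := Infinite.exists_notMem_finset (s.biUnion S)
      refine ⟨y, trivial, fun x hx => ?_⟩
      rw [← not_nonempty_iff]
      intro h
      exact hy (Finset.mem_biUnion.mpr ⟨x, hx, hS x y h⟩))
  refine ⟨f, fun m n hmn => ?_⟩
  rcases lt_or_gt_of_ne hmn with h | h
  · exact hf m n h
  · have := hf n m h
    exact ⟨fun e => this.false e.symm⟩

lemma inj_of_bij (t : k) : Function.Injective (emb t) ∧ Function.Injective (embA (k := k)) := by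
  haveI := fd (DE k)
  haveI := fd (DH k t)
  haveI := fd (DA k)
  have hb := (mulMap_bij t).1
  constructor
  · intro x y hxy
    have h1 : mulMap t (1 ⊗ₜ x) = mulMap t (1 ⊗ₜ y) := by
      rw [mulMap_tmul, mulMap_tmul, hxy]
    have h2 := congrArg (TensorProduct.lid k (U (DH k t)) ∘
      ((Coalgebra.counit (R := k) (A := U (DA k))).rTensor (U (DH k t)))) (hb h1)
    simpa using h2
  · intro x y hxy
    have h1 : mulMap t (x ⊗ₜ 1) = mulMap t (y ⊗ₜ 1) := by
      rw [mulMap_tmul, mulMap_tmul, hxy]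
    have h2 := congrArg (TensorProduct.rid k (U (DA k)) ∘
      ((Coalgebra.counit (R := k) (A := U (DH k t))).lTensor (U (DA k)))) (hb h1)
    simpa using h2

variable (k) in
theorem main [Infinite k] : ∃ (A E : Type) (_ : Ring A) (_ : HopfAlgebra k A) (_ : Ring E)
    (_ : HopfAlgebra k E) (j : A →ₐc[k] E) (H : ℕ → Type) (_ : ∀ n, Ring (H n))
    (_ : ∀ n, HopfAlgebra k (H n)) (i : ∀ n, H n →ₐc[k] E),
    FiniteDimensional k E ∧ Function.Injective j ∧ (∀ n, IsComplement j (i n)) ∧
      ∀ m n, m ≠ n → IsEmpty (H m ≃ₐc[k] H n) := by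
  obtain ⟨f, hf⟩ := exists_seq k
  exact ⟨U (DA k), U (DE k), inferInstance, inferInstance, inferInstance, inferInstance, embA,
    fun n => U (DH k (f n)), fun n => inferInstance, fun n => inferInstance, fun n => emb (f n),
    fd (DE k), (inj_of_bij 0).2, fun n => ⟨(inj_of_bij (f n)).1, mulMap_bij (f n)⟩, hf⟩

end Ex

end Pool.Agent.Q112.FI
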