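import Mathlib
import Pool.Agent.Q112.HopfPres

open scoped TensorProduct
open Pool.Agent.Q112.HopfPres

namespace Pool.Agent.Q112.GroupLike

/-- A right group-like projection: a nonzero idempotent `P` with
`Δ(P)(1 ⊗ P) = P ⊗ P = (1 ⊗ P)Δ(P)`. -/
structure IsRightGLP (k : Type) [Field k] {A : Type} [Ring A] [HopfAlgebra k A] (P : A) : Prop where
  ne_zero : P ≠ 0
  idem : P * P = P
  left_eq : Coalgebra.comul (R := k) P * (1 ⊗ₜ[k] P) = P ⊗ₜ[k] P
  right_eq : (1 ⊗ₜ[k] P) * Coalgebra.comul (R := k) P = P ⊗ₜ[k] P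

/-- A left group-like projection: a nonzero idempotent `P` with
`Δ(P)(P ⊗ 1) = P ⊗ P = (P ⊗ 1)Δ(P)`. -/
structure IsLeftGLP (k : Type) [Field k] {A : Type} [Ring A] [HopfAlgebra k A] (P : A) : Prop where
  ne_zero : P ≠ 0
  idem : P * P = P
  left_eq : Coalgebra.comul (R := k) P * (P ⊗ₜ[k] 1) = P ⊗ₜ[k] P
  right_eq : (P ⊗ₜ[k] 1) * Coalgebra.comul (R := k) P = P ⊗ₜ[k] P

/-- A two-sided group-like projection: both a left and a right one. -/
def IsTwoSidedGLP (k : Type) [Field k] {A : Type} [Ring A] [HopfAlgebra k A] (P : A) : Prop :=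
  IsLeftGLP k P ∧ IsRightGLP k P

section Alg

variable (k : Type) [Field k] (p : ℕ) [hp : Fact p.Prime] [CharP k p]

/-- Relations `x^p = x`, `y^p = 0`, `x y = y x + y`. -/
inductive Rel : FreeAlgebra k (Fin 2) → FreeAlgebra k (Fin 2) → Prop
  | xp : Rel (FreeAlgebra.ι k 0 ^ p) (FreeAlgebra.ι k 0)
  | yp : Rel (FreeAlgebra.ι k 1 ^ p) 0
  | xy : Rel (FreeAlgebra.ι k 0 * FreeAlgebra.ι k 1)
      (FreeAlgebra.ι k 1 * FreeAlgebra.ι k 0 + FreeAlgebra.ι k 1)

/-- The algebra with generators `x, y` and relations `x^p = x`, `y^p = 0`, `x y = y x + y` (the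
restricted enveloping algebra of the two-dimensional nonabelian restricted Lie algebra). -/
abbrev U : Type := Pres (Rel k p)

variable {k p} in
lemma lift_rel {B : Type} [Ring B] [Algebra k B] (f : Fin 2 → B) (h1 : f 0 ^ p = f 0)
    (h2 : f 1 ^ p = 0) (h3 : f 0 * f 1 = f 1 * f 0 + f 1) :
    ∀ ⦃a b⦄, Rel k p a b → FreeAlgebra.lift k f a = FreeAlgebra.lift k f b := by
  intro a b h
  cases h <;> simp [h1, h2, h3]

/-- The generator `x`. -/
noncomputable abbrev X : U k p := gen (Rel k p) 0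
/-- The generator `y`. -/
noncomputable abbrev Y : U k p := gen (Rel k p) 1

lemma X_pow : X k p ^ p = X k p := by
  have := mkP_rel _ (Rel.xp (k := k) (p := p))
  rwa [map_pow] at this

lemma Y_pow : Y k p ^ p = 0 := by
  have := mkP_rel _ (Rel.yp (k := k) (p := p))
  rwa [map_pow, map_zero] at this

lemma XY : X k p * Y k p = Y k p * X k p + Y k p := by
  have := mkP_rel _ (Rel.xy (k := k) (p := p))
  rwa [map_mul, map_add, map_mul] at this

lemma add_pow_p {B : Type} [Ring B] [Algebra k B] (a b : B) (h : Commute a b) :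
    (a + b) ^ p = a ^ p + b ^ p := by
  rw [h.add_pow_prime_eq hp.out]
  have : (p : B) = 0 := by
    rw [← map_natCast (algebraMap k B), CharP.cast_eq_zero, map_zero]
  rw [this, zero_mul, zero_mul, zero_mul, add_zero]

/-- comultiplication -/
noncomputable def comulHom : U k p →ₐ[k] U k p ⊗[k] U k p :=
  liftP (Rel k p) (B := U k p ⊗[k] U k p)
    (fun i => gen (Rel k p) i ⊗ₜ 1 + 1 ⊗ₜ gen (Rel k p) i) (by
    apply lift_rel
    · rw [add_pow_p k p]
      · simp only [Algebra.TensorProduct.tmul_pow, one_pow]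
        rw [X_pow]
      · simp [Commute, SemiconjBy, Algebra.TensorProduct.tmul_mul_tmul]
    · rw [add_pow_p k p]
      · simp only [Algebra.TensorProduct.tmul_pow, one_pow]
        rw [Y_pow]; simp
      · simp [Commute, SemiconjBy, Algebra.TensorProduct.tmul_mul_tmul]
    · simp only [mul_add, add_mul, Algebra.TensorProduct.tmul_mul_tmul, one_mul, mul_one]
      rw [XY, TensorProduct.tmul_add, TensorProduct.add_tmul]
      abel)

/-- counit -/
noncomputable def counitHom : U k p →ₐ[k] k :=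
  liftP (Rel k p) (fun _ => 0) (by
    apply lift_rel
    · exact zero_pow hp.out.ne_zero
    · exact zero_pow hp.out.ne_zero
    · simp)

/-- antipode -/
noncomputable def antiHom : U k p →ₐ[k] (U k p)ᵐᵒᵖ :=
  liftP (Rel k p) (fun i => MulOpposite.op (- gen (Rel k p) i)) (by
    have hneg : ∀ a : U k p, (-a) ^ p = - a ^ p := by
      intro a
      have h1 := add_pow_p k p a (-a) (Commute.neg_right (Commute.refl a))
      rw [add_neg_cancel, zero_pow hp.out.ne_zero] at h1
      exact (neg_eq_of_add_eq_zero_right h1.symm).symm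
    apply lift_rel
    · rw [← MulOpposite.op_pow, hneg, X_pow]
    · rw [← MulOpposite.op_pow, hneg, Y_pow, neg_zero, MulOpposite.op_zero]
    · rw [← MulOpposite.op_mul, ← MulOpposite.op_mul, ← MulOpposite.op_add]
      congr 1
      rw [neg_mul_neg, neg_mul_neg, XY]; abel)

lemma comulHom_gen (i : Fin 2) : comulHom k p (gen (Rel k p) i) =
    gen (Rel k p) i ⊗ₜ 1 + 1 ⊗ₜ gen (Rel k p) i := liftP_gen _ _ _ _
lemma counitHom_gen (i : Fin 2) : counitHom k p (gen (Rel k p) i) = 0 := liftP_gen _ _ _ _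
lemma antiHom_gen (i : Fin 2) : antiHom k p (gen (Rel k p) i) =
  MulOpposite.op (- gen (Rel k p) i) := liftP_gen _ _ _ _

noncomputable instance : Bialgebra k (U k p) :=
  Bialgebra.ofAlgHom (comulHom k p) (counitHom k p)
    (homExt _ fun i => by
      simp [comulHom_gen, TensorProduct.add_tmul, TensorProduct.tmul_add,
        Algebra.TensorProduct.one_def, add_assoc])
    (homExt _ fun i => by
      simp [comulHom_gen, counitHom_gen])
    (homExt _ fun i => by
      simp [comulHom_gen, counitHom_gen])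

lemma comul_gen (i : Fin 2) : Coalgebra.comul (R := k) (gen (Rel k p) i) =
    gen (Rel k p) i ⊗ₜ 1 + 1 ⊗ₜ gen (Rel k p) i := comulHom_gen k p i

lemma counit_gen (i : Fin 2) : Coalgebra.counit (R := k) (gen (Rel k p) i) = 0 :=
  counitHom_gen k p i

noncomputable instance : HopfAlgebra k (U k p) :=
  hopfOfGen (antiHom k p) (Set.range (gen (Rel k p))) (adjoin_gen _)
    (by
      rintro _ ⟨i, rfl⟩
      rw [comul_gen, counit_gen]
      simp [antiHom_gen])
    (by
      rintro _ ⟨i, rfl⟩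
      rw [comul_gen, counit_gen]
      simp [antiHom_gen])

lemma X_Ypow (i : ℕ) : X k p * Y k p ^ i = Y k p ^ i * X k p + (i : k) • Y k p ^ i := by
  induction i with
  | zero => simp
  | succ i ih =>
    rw [pow_succ, ← mul_assoc, ih, add_mul, mul_assoc, XY, mul_add, Nat.cast_succ, add_smul,
      one_smul, smul_mul_assoc, ← mul_assoc]
    abel

/-- The span of the monomials. -/
noncomputable def V : Submodule k (U k p) :=
  Submodule.span k (Set.range fun ij : Fin p × Fin p => Y k p ^ (ij.1 : ℕ) * X k p ^ (ij.2 : ℕ))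

lemma mem_V (i j : ℕ) (hj : j < p) : Y k p ^ i * X k p ^ j ∈ V k p := by
  by_cases hi : i < p
  · exact Submodule.subset_span ⟨(⟨i, hi⟩, ⟨j, hj⟩), rfl⟩
  · have : Y k p ^ i = 0 := by
      rw [← Nat.sub_add_cancel (not_lt.1 hi), pow_add, Y_pow, mul_zero]
    rw [this, zero_mul]; exact zero_mem _

lemma mem_V' (i j : ℕ) (hj : j ≤ p) : Y k p ^ i * X k p ^ j ∈ V k p := by
  rcases hj.lt_or_eq with h | rfl
  · exact mem_V k p i j h
  · rw [X_pow]
    have := mem_V k j i 1 hp.out.one_lt
    rwa [pow_one] at this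

lemma V_eq_top : V k p = ⊤ := by
  apply eq_top_of_closed
  · have := mem_V k p 0 0 hp.out.pos
    simpa using this
  · intro g v hv
    induction hv using Submodule.span_induction with
    | zero => rw [mul_zero]; exact zero_mem _
    | add x y _ _ hx hy => rw [mul_add]; exact add_mem hx hy
    | smul c x _ hx => rw [mul_smul_comm]; exact Submodule.smul_mem _ _ hx
    | mem x hx =>
      obtain ⟨⟨i, j⟩, rfl⟩ := hx
      dsimp only
      fin_cases g
      · change X k p * (Y k p ^ (i : ℕ) * X k p ^ (j : ℕ)) ∈ V k p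
        rw [← mul_assoc, X_Ypow, add_mul, mul_assoc, ← pow_succ', smul_mul_assoc]
        exact add_mem (mem_V' k p _ _ j.2) (Submodule.smul_mem _ _ (mem_V k p _ _ j.2))
      · change Y k p * (Y k p ^ (i : ℕ) * X k p ^ (j : ℕ)) ∈ V k p
        rw [← mul_assoc, ← pow_succ']
        exact mem_V k p _ _ j.2

instance : FiniteDimensional k (U k p) := by
  have h : (V k p).FG := Submodule.fg_span (Set.finite_range _)
  rw [V_eq_top] at h
  exact ⟨h⟩

/-- The primitive element `x + c y`. -/
noncomputable def u (c : k) : U k p := X k p + c • Y k p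

lemma u_comul (c : k) : Coalgebra.comul (R := k) (u k p c) = u k p c ⊗ₜ 1 + 1 ⊗ₜ u k p c := by
  rw [u, map_add, map_smul, comul_gen, comul_gen, TensorProduct.add_tmul, TensorProduct.tmul_add,
    TensorProduct.tmul_smul, ← TensorProduct.smul_tmul', smul_add]
  abel

/-- truncated exponential -/
noncomputable def E (c : k) : U k p := ∑ i ∈ Finset.range p, ((-c) ^ i / (i.factorial : k)) • Y k p ^ i

lemma sum_aux (c : k) : ∑ i ∈ Finset.range p, ((-c) ^ i / (i.factorial : k) * i) • Y k p ^ i =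
    -(c • (Y k p * E k p c)) := by
  rw [E, Finset.mul_sum, Finset.smul_sum, ← Finset.sum_neg_distrib]
  obtain ⟨n, rfl⟩ : ∃ n, p = n + 1 := ⟨p - 1, (Nat.succ_pred_prime hp.out).symm⟩
  rw [Finset.sum_range_succ', Finset.sum_range_succ]
  simp only [Nat.cast_zero, mul_zero, zero_smul, add_zero]
  rw [mul_smul_comm, ← pow_succ', Y_pow, smul_zero, smul_zero, neg_zero, add_zero]
  apply Finset.sum_congr rfl
  intro i hi
  rw [mul_smul_comm, ← pow_succ', smul_smul, ← neg_smul]
  congr 1
  have hi' : i + 1 < n + 1 := by have := Finset.mem_range.1 hi; omega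
  have h1 : ((i + 1 : ℕ) : k) ≠ 0 := by
    rw [Ne, CharP.cast_eq_zero_iff k (n + 1)]
    exact fun h => absurd (Nat.le_of_dvd (Nat.succ_pos i) h) (by omega)
  have h2 : (i.factorial : k) ≠ 0 := by
    rw [Ne, CharP.cast_eq_zero_iff k (n + 1), hp.out.dvd_factorial]
    omega
  rw [Nat.factorial_succ, Nat.cast_mul, pow_succ]
  field_simp

lemma E_X (c : k) : E k p c * X k p = u k p c * E k p c := by
  have h1 : X k p * E k p c = E k p c * X k p +
      ∑ i ∈ Finset.range p, ((-c) ^ i / (i.factorial : k) * i) • Y k p ^ i := by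
    rw [E, Finset.mul_sum, Finset.sum_mul, ← Finset.sum_add_distrib]
    apply Finset.sum_congr rfl
    intro i _
    rw [mul_smul_comm, X_Ypow, smul_add, smul_smul, smul_mul_assoc]
  rw [u, add_mul, h1, sum_aux, smul_mul_assoc]
  abel

lemma E_isUnit (c : k) : IsUnit (E k p c) := by
  obtain ⟨n, hn⟩ : ∃ n, p = n + 1 := ⟨p - 1, (Nat.succ_pred_prime hp.out).symm⟩
  have h1 : E k p c = 1 + Y k p * ∑ i ∈ Finset.range n,
      ((-c) ^ (i + 1) / ((i + 1).factorial : k)) • Y k p ^ i := by
    have : E k p c = ∑ i ∈ Finset.range (n + 1), ((-c) ^ i / (i.factorial : k)) • Y k p ^ i := by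
      rw [E, ← hn]
    rw [this, Finset.sum_range_succ', add_comm, Finset.mul_sum]
    congr 1
    · simp
    · apply Finset.sum_congr rfl
      intro i _
      rw [mul_smul_comm, ← pow_succ']
  rw [h1]
  apply IsNilpotent.isUnit_one_add
  apply Commute.isNilpotent_mul_right
  · apply Commute.sum_right
    intro i _
    exact ((Commute.refl _).pow_right i).smul_right _
  · exact ⟨p, Y_pow k p⟩

lemma u_pow (c : k) : u k p c ^ p = u k p c := by
  have h : ∀ n, E k p c * X k p ^ n = u k p c ^ n * E k p c := by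
    intro n
    induction n with
    | zero => simp
    | succ n ih => rw [pow_succ, ← mul_assoc, ih, mul_assoc, E_X, pow_succ, mul_assoc]
  have h2 := h p
  rw [X_pow, E_X] at h2
  exact ((E_isUnit k p c).mul_right_cancel h2).symm

/-- The projection `1 - (x + c y)^(p-1)`. -/
noncomputable def P (c : k) : U k p := 1 - u k p c ^ (p - 1)

lemma u_mul_P (c : k) : u k p c * P k p c = 0 := by
  rw [P, mul_sub, mul_one, ← pow_succ', Nat.sub_add_cancel hp.out.one_lt.le, u_pow, sub_self]

lemma P_mul_u (c : k) : P k p c * u k p c = 0 := by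
  rw [P, sub_mul, one_mul, ← pow_succ, Nat.sub_add_cancel hp.out.one_lt.le, u_pow, sub_self]

lemma P_idem (c : k) : P k p c * P k p c = P k p c := by
  conv_lhs => lhs; rw [P]
  obtain ⟨n, hn⟩ : ∃ n, p - 1 = n + 1 := ⟨p - 2, by have := hp.out.two_le; omega⟩
  rw [hn, sub_mul, one_mul, pow_succ, mul_assoc, u_mul_P, mul_zero, sub_zero]

lemma pow_mul_of {B : Type} [Ring B] {a b e : B} (h : Commute a b) (he : b * e = 0) (n : ℕ) :
    (a + b) ^ n * e = a ^ n * e := by
  induction n with
  | zero => simp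
  | succ n ih =>
    rw [pow_succ', mul_assoc, ih, add_mul, ← mul_assoc, ← mul_assoc b, ← (h.pow_left n).eq,
      mul_assoc _ b, he, mul_zero, add_zero, pow_succ']

lemma mul_pow_of {B : Type} [Ring B] {a b e : B} (h : Commute a b) (he : e * b = 0) (n : ℕ) :
    e * (a + b) ^ n = e * a ^ n := by
  induction n with
  | zero => simp
  | succ n ih =>
    rw [pow_succ, ← mul_assoc, ih, mul_add, mul_assoc e _ b, (h.pow_left n).eq, ← mul_assoc e b,
      he, zero_mul, add_zero, pow_succ, mul_assoc]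

lemma P_comul (c : k) : Coalgebra.comul (R := k) (P k p c) =
    1 - (u k p c ⊗ₜ 1 + 1 ⊗ₜ u k p c) ^ (p - 1) := by
  rw [P, map_sub, Bialgebra.comul_one, Bialgebra.comul_pow, u_comul]

lemma comm_ab (a : U k p) : Commute (a ⊗ₜ[k] (1 : U k p)) ((1 : U k p) ⊗ₜ[k] a) := by
  simp [Commute, SemiconjBy, Algebra.TensorProduct.tmul_mul_tmul]

/-- matrix representation -/
noncomputable def rep : U k p →ₐ[k] Matrix (Fin 2) (Fin 2) k :=
  liftP (Rel k p) ![!![1, 0; 0, 0], !![0, 1; 0, 0]] (by
    apply lift_rel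
    · obtain ⟨n, hn⟩ : ∃ n, p = n + 1 := ⟨p - 1, (Nat.succ_pred_prime hp.out).symm⟩
      rw [hn]
      apply IsIdempotentElem.pow_succ_eq
      ext i j
      fin_cases i <;> fin_cases j <;> simp [Matrix.mul_apply, Fin.sum_univ_two]
    · obtain ⟨n, hn⟩ : ∃ n, p = n + 2 := ⟨p - 2, by have := hp.out.two_le; omega⟩
      rw [hn, pow_add]
      have : (![!![1, 0; 0, 0], !![0, 1; 0, 0]] : Fin 2 → Matrix (Fin 2) (Fin 2) k) 1 ^ 2 = 0 := by
        rw [pow_two]
        ext i j
        fin_cases i <;> fin_cases j <;> simp [Matrix.mul_apply, Fin.sum_univ_two]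
      rw [this, mul_zero]
    · ext i j
      fin_cases i <;> fin_cases j <;> simp [Matrix.mul_apply, Fin.sum_univ_two])

lemma rep_P (c : k) : rep k p (P k p c) = !![0, -c; 0, 1] := by
  have h1 : rep k p (u k p c) = !![1, c; 0, 0] := by
    rw [u, map_add, map_smul, rep, liftP_gen, liftP_gen]
    ext i j
    fin_cases i <;> fin_cases j <;> simp
  obtain ⟨n, hn⟩ : ∃ n, p - 1 = n + 1 := ⟨p - 2, by have := hp.out.two_le; omega⟩
  have h2 : (!![1, c; 0, 0] : Matrix (Fin 2) (Fin 2) k) ^ (n + 1) = !![1, c; 0, 0] := by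
    apply IsIdempotentElem.pow_succ_eq
    ext i j
    fin_cases i <;> fin_cases j <;> simp [Matrix.mul_apply, Fin.sum_univ_two]
  rw [P, map_sub, map_one, map_pow, h1, hn, h2]
  ext i j
  fin_cases i <;> fin_cases j <;> simp

lemma P_ne_zero (c : k) : P k p c ≠ 0 := by
  intro h
  have h1 := rep_P k p c
  rw [h, map_zero] at h1
  have := congrFun (congrFun h1 1) 1
  simp at this

lemma P_injective : Function.Injective (P k p) := by
  intro c d h
  have h1 := rep_P k p c
  rw [h, rep_P] at h1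
  have := congrFun (congrFun h1 0) 1
  simpa using this.symm

lemma P_twoSided (c : k) : IsTwoSidedGLP k (P k p c) := by
  have hc := comm_ab k p (u k p c)
  have e1 : (1 : U k p ⊗[k] U k p) - (u k p c ⊗ₜ 1) ^ (p - 1) = P k p c ⊗ₜ 1 := by
    rw [Algebra.TensorProduct.tmul_pow, one_pow, P, TensorProduct.sub_tmul]; rfl
  have e2 : (1 : U k p ⊗[k] U k p) - (1 ⊗ₜ u k p c) ^ (p - 1) = 1 ⊗ₜ P k p c := by
    rw [Algebra.TensorProduct.tmul_pow, one_pow, P, TensorProduct.tmul_sub]; rfl
  refine ⟨⟨P_ne_zero k p c, P_idem k p c, ?_, ?_⟩, ⟨P_ne_zero k p c, P_idem k p c, ?_, ?_⟩⟩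
  · rw [P_comul, sub_mul, add_comm, pow_mul_of hc.symm, one_mul]
    · nth_rewrite 1 [← one_mul (P k p c ⊗ₜ[k] (1 : U k p))]
      rw [← sub_mul, e2]
      simp
    · simp [u_mul_P]
  · rw [P_comul, mul_sub, add_comm, mul_pow_of hc.symm, mul_one]
    · nth_rewrite 1 [← mul_one (P k p c ⊗ₜ[k] (1 : U k p))]
      rw [← mul_sub, e2]
      simp
    · simp [P_mul_u]
  · rw [P_comul, sub_mul, pow_mul_of hc, one_mul]
    · nth_rewrite 1 [← one_mul ((1 : U k p) ⊗ₜ[k] P k p c)]
      rw [← sub_mul, e1]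
      simp
    · simp [u_mul_P]
  · rw [P_comul, mul_sub, mul_pow_of hc, mul_one]
    · nth_rewrite 1 [← mul_one ((1 : U k p) ⊗ₜ[k] P k p c)]
      rw [← mul_sub, e1]
      simp
    · simp [P_mul_u]

end Alg

theorem exists_infinite (k : Type) [Field k] [Infinite k] (p : ℕ) [Fact p.Prime] [CharP k p] :
    ∃ (A : Type) (_ : Ring A) (_ : HopfAlgebra k A), FiniteDimensional k A ∧
      {P : A | IsTwoSidedGLP k P}.Infinite :=
  ⟨U k p, inferInstance, inferInstance, inferInstance,
    Set.infinite_of_injective_forall_mem (P_injective k p) (P_twoSided k p)⟩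

end Pool.Agent.Q112.GroupLike
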