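import Mathlib
import Pool.Agent.Q112.Leonard

set_option maxHeartbeats 4000000

open Matrix

namespace Pool.Agent.Q112.Leo

variable {K : Type} [Field K]

/-- The pair `A, A'` is a Leonard pair on the `(d+1)`-dimensional space `V` with `a_i = 0` and
`a*_i = 0` for all `i`: some basis makes `A'` diagonal and `A` irreducible tridiagonal with zero
diagonal, and some basis makes `A` diagonal and `A'` irreducible tridiagonal with zero diagonal. -/
structure IsBipartitePair (d : ℕ) {V : Type} [AddCommGroup V] [Module K V]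
    (A A' : Module.End K V) : Prop where
  fst : ∃ b : Module.Basis (Fin (d + 1)) K V, IsIrredTridiagonal (LinearMap.toMatrix b b A) ∧
    (∀ i, LinearMap.toMatrix b b A i i = 0) ∧ (LinearMap.toMatrix b b A').IsDiag
  snd : ∃ b : Module.Basis (Fin (d + 1)) K V, IsIrredTridiagonal (LinearMap.toMatrix b b A') ∧
    (∀ i, LinearMap.toMatrix b b A' i i = 0) ∧ (LinearMap.toMatrix b b A).IsDiag

/-- The ordered eigenvalues `θ_i` of `A` satisfy
`θ_{i-2} - θ_{i+1} = (q² + q⁻² + 1) (θ_{i-1} - θ_i)` for `2 ≤ i ≤ d - 1`. -/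
def HasBase (d : ℕ) {V : Type} [AddCommGroup V] [Module K V] (q : K) (A A' : Module.End K V) : Prop :=
  ∃ b : Module.Basis (Fin (d + 1)) K V,
    IsIrredTridiagonal (LinearMap.toMatrix b b A') ∧ (LinearMap.toMatrix b b A).IsDiag ∧
    ∀ i j k l : Fin (d + 1), (j : ℕ) = i + 1 → (k : ℕ) = i + 2 → (l : ℕ) = i + 3 →
      LinearMap.toMatrix b b A i i - LinearMap.toMatrix b b A l l =
        (q ^ 2 + (q⁻¹) ^ 2 + 1) * (LinearMap.toMatrix b b A j j - LinearMap.toMatrix b b A k k)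

/-- A square matrix is tridiagonal with zero diagonal. -/
def IsTridiagonalZeroDiag {n : ℕ} (M : Matrix (Fin n) (Fin n) K) : Prop :=
  (∀ i j : Fin n, (i : ℕ) + 1 < j ∨ (j : ℕ) + 1 < i → M i j = 0) ∧ ∀ i, M i i = 0

/-- An admissible basis: both `A` and `A'` are represented by tridiagonal matrices with zero
diagonal. -/
def IsAdmissible {d : ℕ} {V : Type} [AddCommGroup V] [Module K V] (A A' : Module.End K V)
    (b : Module.Basis (Fin (d + 1)) K V) : Prop :=
  IsTridiagonalZeroDiag (LinearMap.toMatrix b b A) ∧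
    IsTridiagonalZeroDiag (LinearMap.toMatrix b b A')

/-- The basis `b` consists of eigenvectors of `W`. -/
def IsEigenbasis {d : ℕ} {V : Type} [AddCommGroup V] [Module K V] (W : Module.End K V)
    (b : Module.Basis (Fin (d + 1)) K V) : Prop :=
  ∀ i, ∃ μ : K, W (b i) = μ • b i

section Bip

variable [CharZero K]

/-- `A` -/
def bA : Matrix (Fin 4) (Fin 4) K := !![-21, 0, 0, 0; 0, -4, 0, 0; 0, 0, 4, 0; 0, 0, 0, 21]
/-- `A'` -/
def bB : Matrix (Fin 4) (Fin 4) K := !![0, 84, 0, 0; 1, 0, 17, 0; 0, 17, 0, 1; 0, 0, 84, 0]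
/-- eigenvectors of `A'` -/
def bP : Matrix (Fin 4) (Fin 4) K :=
  !![84, 84, 84, 84; -21, -4, 4, 21; 21, -4, -4, 21; -84, 84, -84, 84]
/-- inverse -/
def bQ : Matrix (Fin 4) (Fin 4) K :=
  !![1/1050, -1/50, 1/50, -1/1050; 1/200, -1/50, -1/50, 1/200; 1/200, 1/50, -1/50, -1/200;
    1/1050, 1/50, 1/50, 1/1050]
/-- admissible basis -/
def bR (ι : K) : Matrix (Fin 4) (Fin 4) K :=
  !![-1, 21, 84, -16; (-1)*ι, (4)*ι, (-1)*ι, ι; 1, 4, 1, 1; ι, (21)*ι, (-84)*ι, (-16)*ι]
/-- inverse -/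
def bS (ι : K) : Matrix (Fin 4) (Fin 4) K :=
  !![-1/170, (42/85)*ι, 42/85, (-1/170)*ι; 1/170, (-8/85)*ι, 8/85, (-1/170)*ι;
    1/170, (1/170)*ι, 1/170, (1/170)*ι; -2/85, (-21/170)*ι, 21/170, (2/85)*ι]

lemma bPQ : (bP : Matrix (Fin 4) (Fin 4) K) * bQ = 1 := by
  ext i j
  fin_cases i <;> fin_cases j <;> simp [bP, bQ, Matrix.mul_apply, Fin.sum_univ_four] <;> norm_num

lemma bQP : (bQ : Matrix (Fin 4) (Fin 4) K) * bP = 1 := by
  ext i j
  fin_cases i <;> fin_cases j <;> simp [bP, bQ, Matrix.mul_apply, Fin.sum_univ_four] <;> norm_num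

lemma bconjA : (bQ : Matrix (Fin 4) (Fin 4) K) * bA * bP =
    !![0, -4, 0, 0; -21, 0, -17, 0; 0, -17, 0, -21; 0, 0, -4, 0] := by
  ext i j
  fin_cases i <;> fin_cases j <;>
    simp [bP, bQ, bA, Matrix.mul_apply, Fin.sum_univ_four] <;> norm_num

lemma bconjB : (bQ : Matrix (Fin 4) (Fin 4) K) * bB * bP =
    !![-21, 0, 0, 0; 0, -4, 0, 0; 0, 0, 4, 0; 0, 0, 0, 21] := by
  ext i j
  fin_cases i <;> fin_cases j <;>
    simp [bP, bQ, bB, Matrix.mul_apply, Fin.sum_univ_four] <;> norm_num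

lemma bRS (ι : K) (h : ι * ι = -1) : bR ι * bS ι = 1 := by
  ext i j
  fin_cases i <;> fin_cases j <;> simp [bR, bS, Matrix.mul_apply, Fin.sum_univ_four] <;> grind

lemma bSR (ι : K) (h : ι * ι = -1) : bS ι * bR ι = 1 := by
  ext i j
  fin_cases i <;> fin_cases j <;> simp [bR, bS, Matrix.mul_apply, Fin.sum_univ_four] <;> grind

lemma bconjA' (ι : K) (h : ι * ι = -1) : bS ι * bA * bR ι =
    !![0, 21, 0, 0; 1, 0, -20, 0; 0, -5, 0, 4; 0, 0, 84, 0] := by
  ext i j
  fin_cases i <;> fin_cases j <;>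
    simp [bR, bS, bA, Matrix.mul_apply, Fin.sum_univ_four] <;> grind

lemma bconjB' (ι : K) (h : ι * ι = -1) : bS ι * bB * bR ι =
    !![0, (84)*ι, 0, 0; (-4)*ι, 0, (-20)*ι, 0; 0, (5)*ι, 0, ι; 0, 0, (-21)*ι, 0] := by
  ext i j
  fin_cases i <;> fin_cases j <;>
    simp [bR, bS, bB, Matrix.mul_apply, Fin.sum_univ_four] <;> grind

omit [CharZero K] in
lemma tz4 (u0 u1 u2 l0 l1 l2 : K) :
    IsTridiagonalZeroDiag (!![0, u0, 0, 0; l0, 0, u1, 0; 0, l1, 0, u2; 0, 0, l2, 0] :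
      Matrix (Fin 4) (Fin 4) K) := by
  constructor
  · intro i j h
    fin_cases i <;> fin_cases j <;> simp at h ⊢
  · intro i
    fin_cases i <;> simp

omit [CharZero K] in
lemma eigen_entry (b : Module.Basis (Fin 4) K (Fin 4 → K)) (W : Module.End K (Fin 4 → K))
    (hW : IsEigenbasis (d := 3) W b) (i j : Fin 4) (hij : i ≠ j) : LinearMap.toMatrix b b W i j = 0 := by
  obtain ⟨μ, hμ⟩ := hW j
  rw [LinearMap.toMatrix_apply, hμ]
  simp [Finsupp.single_apply, hij.symm]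

theorem bmain (ι : K) (h : ι * ι = -1) : ∃ (A A' : Module.End K (Fin 4 → K)) (q : K),
    IsBipartitePair 3 A A' ∧ q ≠ 0 ∧ HasBase 3 q A A' ∧ HasBase 3 q A' A ∧
      ∃ b : Module.Basis (Fin 4) K (Fin 4 → K), IsAdmissible (d := 3) A A' b ∧
        ¬ IsEigenbasis (d := 3) (q • (A * A') - q⁻¹ • (A' * A)) b ∧
        ¬ IsEigenbasis (d := 3) (q⁻¹ • (A * A') - q • (A' * A)) b := by
  have hι : ι ≠ 0 := by rintro rfl; simp at h
  obtain ⟨b0, hb0⟩ := exists_conj (1 : Matrix (Fin 4) (Fin 4) K) 1 (by simp) (by simp)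
  obtain ⟨b1, hb1⟩ := exists_conj (bP (K := K)) bQ bPQ bQP
  obtain ⟨b, hb⟩ := exists_conj (bR ι) (bS ι) (bRS ι h) (bSR ι h)
  have e0A : LinearMap.toMatrix b0 b0 (Matrix.toLin' (bA (K := K))) = bA := by rw [hb0]; simp
  have e0B : LinearMap.toMatrix b0 b0 (Matrix.toLin' (bB (K := K))) = bB := by rw [hb0]; simp
  have e1A := hb1 (bA (K := K))
  have e1B := hb1 (bB (K := K))
  rw [bconjA] at e1A
  rw [bconjB] at e1B
  have eA := hb (bA (K := K))
  have eB := hb (bB (K := K))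
  rw [bconjA' ι h] at eA
  rw [bconjB' ι h] at eB
  have irA : IsIrredTridiagonal (LinearMap.toMatrix b1 b1 (Matrix.toLin' (bA (K := K)))) := by
    rw [e1A]; apply irred4 <;> norm_num
  have irB : IsIrredTridiagonal (LinearMap.toMatrix b0 b0 (Matrix.toLin' (bB (K := K)))) := by
    rw [e0B, bB]; apply irred4 <;> norm_num
  have dgA : (LinearMap.toMatrix b0 b0 (Matrix.toLin' (bA (K := K)))).IsDiag := by
    rw [e0A]; exact diag4 _ _ _ _
  have dgB : (LinearMap.toMatrix b1 b1 (Matrix.toLin' (bB (K := K)))).IsDiag := by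
    rw [e1B]; exact diag4 _ _ _ _
  have mulm : ∀ X Y : Module.End K (Fin 4 → K), LinearMap.toMatrix b b (X * Y) =
      LinearMap.toMatrix b b X * LinearMap.toMatrix b b Y := fun X Y =>
    LinearMap.toMatrix_mul b X Y
  refine ⟨Matrix.toLin' bA, Matrix.toLin' bB, 2, ⟨⟨b1, irA, ?_, dgB⟩, ⟨b0, irB, ?_, dgA⟩⟩, by norm_num,
    ⟨b0, irB, dgA, ?_⟩, ⟨b1, irA, dgB, ?_⟩, b, ⟨?_, ?_⟩, ?_, ?_⟩
  · intro i
    rw [e1A]
    fin_cases i <;> simp
  · intro i
    rw [e0B]
    fin_cases i <;> simp [bB]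
  · intro i j k l h1 h2 h3
    rw [e0A]
    have hi : i = 0 := Fin.ext (by have := l.isLt; simp; omega)
    have hj : j = 1 := Fin.ext (by subst hi; simpa using h1)
    have hk : k = 2 := Fin.ext (by subst hi; simpa using h2)
    have hl : l = 3 := Fin.ext (by subst hi; simpa using h3)
    subst hi hj hk hl
    simp [bA]
    norm_num
  · intro i j k l h1 h2 h3
    rw [e1B]
    have hi : i = 0 := Fin.ext (by have := l.isLt; simp; omega)
    have hj : j = 1 := Fin.ext (by subst hi; simpa using h1)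
    have hk : k = 2 := Fin.ext (by subst hi; simpa using h2)
    have hl : l = 3 := Fin.ext (by subst hi; simpa using h3)
    subst hi hj hk hl
    simp
    norm_num
  · rw [eA]; exact tz4 _ _ _ _ _ _
  · rw [eB]; exact tz4 _ _ _ _ _ _
  · intro hW
    have h1 := eigen_entry b _ hW 2 0 (by decide)
    rw [map_sub, map_smul, map_smul, mulm, mulm, eA, eB] at h1
    simp [Matrix.mul_apply, Fin.sum_univ_four] at h1
    have h2 : ι * 75 = 0 := by linear_combination 2 * h1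
    exact hι (by simpa using h2)
  · intro hW
    have h1 := eigen_entry b _ hW 1 3 (by decide)
    rw [map_sub, map_smul, map_smul, mulm, mulm, eA, eB] at h1
    simp [Matrix.mul_apply, Fin.sum_univ_four] at h1
    have h2 : ι * 75 = 0 := by linear_combination (1/2) * h1
    exact hι (by simpa using h2)

end Bip

end Pool.Agent.Q112.Leo
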