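import Mathlib

open scoped TensorProduct
open MvPolynomial

namespace Pool.Agent.Q112.LogOzone

/-- A Poisson bracket on a commutative `k`-algebra `P`: a `k`-bilinear Lie bracket that is a
derivation in the second (hence, by skew-symmetry, in each) argument. -/
structure PoissonBracket (k P : Type) [Field k] [CommRing P] [Algebra k P] where
  br : P →ₗ[k] P →ₗ[k] P
  self : ∀ a, br a a = 0
  jacobi : ∀ a b c, br a (br b c) + br b (br c a) + br c (br a b) = 0
  leibniz : ∀ a b c, br a (b * c) = b * br a c + br a b * c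

section Defs

variable {k P : Type} [Field k] [CommRing P] [Algebra k P] (B : PoissonBracket k P)

lemma PoissonBracket.skew (a b : P) : B.br a b = - B.br b a := by
  have h := B.self (a + b)
  simp only [map_add, LinearMap.add_apply, B.self, zero_add, add_zero] at h
  first
    | exact eq_neg_of_add_eq_zero_left h
    | exact eq_neg_of_add_eq_zero_right h

/-- The Poisson center. -/
def PoissonBracket.center : Subalgebra k P where
  carrier := {z | ∀ a, B.br z a = 0}
  mul_mem' := by
    intro x y hx hy a
    rw [B.skew, B.leibniz, ← neg_eq_zero, neg_neg, B.skew a y, B.skew a x, hx, hy]; simp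
  add_mem' := by
    intro x y hx hy a
    rw [map_add, LinearMap.add_apply, hx, hy, add_zero]
  algebraMap_mem' := by
    intro r a
    have h1 : B.br a 1 = 0 := by
      have := B.leibniz a 1 1
      simpa using this
    rw [B.skew, Algebra.algebraMap_eq_smul_one, map_smul, h1, smul_zero, neg_zero]

/-- The rank of `P` over its Poisson center `Z`: the dimension over `Frac Z` of
`Frac Z ⊗_Z P`. -/
noncomputable def PoissonBracket.centerRank : Cardinal :=
  Module.rank (FractionRing B.center) (FractionRing B.center ⊗[B.center] P)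

/-- The log-ozone group: the additive group of derivations generated by the log-ozone derivations
`δ_f = f⁻¹ {-, f}`, i.e. the derivations `δ` with `f δ(a) = {a, f}` for all `a`, of the nonzero
Poisson normal elements `f`. -/
def PoissonBracket.loz : AddSubgroup (Derivation k P P) :=
  AddSubgroup.closure {δ | ∃ f : P, f ≠ 0 ∧ ∀ a, f * δ a = B.br a f}

end Defs

/-- A Poisson bracket on a polynomial ring (generators in degree one) is graded if it has
degree `0`. -/
def IsGraded {k : Type} [Field k] {n : ℕ} (B : PoissonBracket k (MvPolynomial (Fin n) k)) : Prop :=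
  ∀ (i j : ℕ) (f g : MvPolynomial (Fin n) k), f.IsHomogeneous i → g.IsHomogeneous j →
    (B.br f g).IsHomogeneous (i + j)

section Example

variable (k : Type) [Field k] (n : ℕ)

/-- The polynomial ring. -/
abbrev Pol : Type := MvPolynomial (Fin (n + 1)) k

/-- The derivation `∑ y_i² ∂/∂y_i`. -/
noncomputable def D : Derivation k (Pol k n) (Pol k n) :=
  ∑ i : Fin n, (X i.succ ^ 2 : Pol k n) • pderiv i.succ

lemma D_apply (f : Pol k n) : D k n f = ∑ i : Fin n, X i.succ ^ 2 * pderiv i.succ f := by
  have h : ∀ (s : Finset (Fin n)) (d : Fin n → Derivation k (Pol k n) (Pol k n)),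
      (∑ i ∈ s, d i) f = ∑ i ∈ s, d i f := by
    intro s d
    have := map_sum (Derivation.coeFnAddMonoidHom (R := k) (A := Pol k n) (M := Pol k n)) d s
    have h2 := congrFun this f
    rw [Finset.sum_apply] at h2
    exact h2
  rw [D, h]
  rfl

lemma D_y (i : Fin n) : D k n (X i.succ) = X i.succ ^ 2 := by
  rw [D_apply, Finset.sum_eq_single i]
  · simp
  · intro b _ hb
    rw [pderiv_X_of_ne]
    · simp
    · intro h; exact hb (Fin.succ_injective _ h).symm
  · simp

lemma D_x : D k n (X 0) = 0 := by
  rw [D_apply]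
  apply Finset.sum_eq_zero
  intro i _
  rw [pderiv_X_of_ne (Fin.succ_ne_zero i).symm, mul_zero]

/-- The derivation `∂/∂x`. -/
noncomputable def E : Derivation k (Pol k n) (Pol k n) := pderiv 0

lemma E_x : E k n (X 0) = 1 := by rw [E, pderiv_X_self]
lemma E_y (i : Fin n) : E k n (X i.succ) = 0 := by
  rw [E, pderiv_X_of_ne (Fin.succ_ne_zero i)]

lemma DE_comm (f : Pol k n) : D k n (E k n f) = E k n (D k n f) := by
  have h : ⁅D k n, E k n⁆ = 0 := by
    apply MvPolynomial.derivation_ext
    intro i
    rw [Derivation.commutator_apply]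
    refine Fin.cases ?_ (fun i => ?_) i
    · rw [E_x, D_x]; simp
    · rw [E_y, D_y, Derivation.leibniz_pow, E_y]; simp
  have h2 := congrArg (fun d : Derivation k (Pol k n) (Pol k n) => d f) h
  simp only [Derivation.commutator_apply, Derivation.coe_zero, Pi.zero_apply] at h2
  exact sub_eq_zero.1 h2

/-- The bracket `{f, g} = ∂f · D g - ∂g · D f`. -/
noncomputable def B : PoissonBracket k (Pol k n) where
  br := LinearMap.mk₂ k (fun f g => E k n f * D k n g - E k n g * D k n f)
    (by intro a b c; simp only [map_add]; ring)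
    (by intro c a b; simp only [Derivation.map_smul, smul_mul_assoc, mul_smul_comm, smul_sub])
    (by intro a b c; simp only [map_add]; ring)
    (by intro c a b; simp only [Derivation.map_smul, smul_mul_assoc, mul_smul_comm, smul_sub])
  self a := by simp
  jacobi a b c := by
    simp only [LinearMap.mk₂_apply, map_sub, Derivation.leibniz, smul_eq_mul, DE_comm]
    ring
  leibniz a b c := by
    simp only [LinearMap.mk₂_apply, Derivation.leibniz, smul_eq_mul]
    ring

lemma B_br (f g : Pol k n) : (B k n).br f g = E k n f * D k n g - E k n g * D k n f := rfl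

lemma B_graded : IsGraded (B k n) := by
  intro i j f g hf hg
  have hD : ∀ (i : ℕ) (f : Pol k n), f.IsHomogeneous (i + 1) → (D k n f).IsHomogeneous (i + 2) := by
    intro i f hf
    rw [D_apply]
    apply IsHomogeneous.sum
    intro l _
    rw [add_comm i 2]
    exact (isHomogeneous_X_pow _ 2).mul (by simpa using hf.pderiv)
  have hE : ∀ (i : ℕ) (f : Pol k n), f.IsHomogeneous (i + 1) → (E k n f).IsHomogeneous i := by
    intro i f hf
    rw [E]
    have := hf.pderiv (i := (0 : Fin (n + 1)))
    simpa only [Nat.add_sub_cancel] using this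
  have h0 : ∀ f : Pol k n, f.IsHomogeneous 0 → E k n f = 0 ∧ D k n f = 0 := by
    intro f hf
    have h1 : f.totalDegree = 0 := by
      by_cases hf0 : f = 0
      · rw [hf0, totalDegree_zero]
      · exact hf.totalDegree hf0
    obtain h2 := totalDegree_eq_zero_iff_eq_C.1 h1
    rw [h2]
    have hc : ∀ (c : k) (d : Derivation k (Pol k n) (Pol k n)), d (C c) = 0 := by
      intro c d
      exact d.map_algebraMap c
    exact ⟨hc _ _, hc _ _⟩
  rw [B_br]
  rcases i with _ | i
  · rw [(h0 f hf).1, (h0 f hf).2]; simp [isHomogeneous_zero]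
  · rcases j with _ | j
    · rw [(h0 g hg).1, (h0 g hg).2]; simp [isHomogeneous_zero]
    · apply IsHomogeneous.sub
      · have := (hE i f hf).mul (hD j g hg)
        rwa [show i + (j + 2) = i + 1 + (j + 1) by ring] at this
      · have := (hE j g hg).mul (hD i f hf)
        rwa [show j + (i + 2) = i + 1 + (j + 1) by ring] at this

section Rank

lemma rank_le_of {Z P : Type} [CommRing Z] [IsDomain Z] [CommRing P] [Algebra Z P]
    (s : Finset P) (h : ∀ f : P, ∃ w : Z, w ≠ 0 ∧ w • f ∈ Submodule.span Z (s : Set P)) :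
    Module.rank (FractionRing Z) (FractionRing Z ⊗[Z] P) ≤ s.card := by
  classical
  let g : P → FractionRing Z ⊗[Z] P := fun f => 1 ⊗ₜ f
  have hspan : Submodule.span (FractionRing Z) (g '' (s : Set P)) = ⊤ := by
    rw [eq_top_iff]
    rintro x -
    have h1 : ∀ f ∈ Submodule.span Z (s : Set P),
        g f ∈ Submodule.span (FractionRing Z) (g '' (s : Set P)) := by
      intro f hf
      induction hf using Submodule.span_induction with
      | mem x hx => exact Submodule.subset_span ⟨x, hx, rfl⟩
      | zero => simp only [g, TensorProduct.tmul_zero]; exact zero_mem _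
      | add x y _ _ hx hy => simp only [g, TensorProduct.tmul_add]; exact add_mem hx hy
      | smul c x _ hx =>
        have : g (c • x) = algebraMap Z (FractionRing Z) c • g x := by
          simp only [g, TensorProduct.tmul_smul, algebraMap_smul]
        rw [this]; exact Submodule.smul_mem _ _ hx
    induction x using TensorProduct.induction_on with
    | zero => exact zero_mem _
    | add x y hx hy => exact add_mem hx hy
    | tmul q f =>
      obtain ⟨w, hw, hf⟩ := h f
      have h2 := h1 _ hf
      have hw' : algebraMap Z (FractionRing Z) w ≠ 0 := by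
        rwa [Ne, FaithfulSMul.algebraMap_eq_zero_iff]
      have h3 : g (w • f) = algebraMap Z (FractionRing Z) w • g f := by
        simp only [g, TensorProduct.tmul_smul, algebraMap_smul]
      have h4 : q ⊗ₜ f = (q * (algebraMap Z (FractionRing Z) w)⁻¹) • g (w • f) := by
        rw [h3, smul_smul, mul_assoc, inv_mul_cancel₀ hw', mul_one]
        simp only [g, TensorProduct.smul_tmul', smul_eq_mul, mul_one]
      rw [h4]
      exact Submodule.smul_mem _ _ h2
  have h5 : Module.rank (FractionRing Z) (FractionRing Z ⊗[Z] P) =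
      Module.rank (FractionRing Z) (Submodule.span (FractionRing Z)
        ((s.image g : Finset _) : Set (FractionRing Z ⊗[Z] P))) := by
    rw [Finset.coe_image, hspan, rank_top]
  rw [h5]
  exact (rank_span_finset_le _).trans (by exact_mod_cast Finset.card_image_le)

end Rank

section CharPart

variable (p : ℕ) [hp : Fact p.Prime] [CharP k p]

/-- The center. -/
noncomputable abbrev Z : Subalgebra k (Pol k n) := (B k n).center

variable {k n} in
lemma mem_Z {f : Pol k n} (h1 : E k n f = 0) (h2 : D k n f = 0) : f ∈ Z k n := by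
  intro a
  rw [B_br, h1, h2]; simp

include hp in
lemma der_pow_p (d : Derivation k (Pol k n) (Pol k n)) (f : Pol k n) : d (f ^ p) = 0 := by
  rw [Derivation.leibniz_pow]
  have : (p : Pol k n) = 0 := CharP.cast_eq_zero _ _
  rw [← Nat.cast_smul_eq_nsmul (Pol k n), this, zero_smul]

lemma pow_mem_Z (f : Pol k n) : f ^ p ∈ Z k n :=
  mem_Z (der_pow_p k n p _ f) (der_pow_p k n p _ f)

/-- the central element `(t - s) t^(p-1) s^(p-1)` -/
lemma z_mem (i j : Fin n) : ((X i.succ - X j.succ) * X i.succ ^ (p - 1) * X j.succ ^ (p - 1) :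
    Pol k n) ∈ Z k n := by
  obtain ⟨q, hq⟩ : ∃ q, p = q + 2 := ⟨p - 2, by have := hp.out.two_le; omega⟩
  have hc : ((q : ℕ) : Pol k n) = - 2 := by
    have : ((q + 2 : ℕ) : Pol k n) = 0 := by rw [← hq]; exact CharP.cast_eq_zero _ _
    push_cast at this
    linear_combination this
  have e1 : p - 1 = q + 1 := by omega
  apply mem_Z
  · simp only [Derivation.leibniz, Derivation.leibniz_pow, map_sub, E_y]
    simp
  · rw [e1]
    simp only [Derivation.leibniz, Derivation.leibniz_pow, map_sub, D_y, smul_eq_mul,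
      nsmul_eq_mul, Nat.add_sub_cancel]
    push_cast
    rw [hc]
    ring

variable (hn : 0 < n)

/-- the variable `t = y_1` -/
noncomputable def tt : Pol k n := X (Fin.succ ⟨0, hn⟩)

/-- the finite set of monomials `x^a t^b`, `a, b < p` -/
noncomputable def mons : Finset (Pol k n) := by
  classical
  exact (Finset.univ : Finset (Fin p × Fin p)).image
    (fun ab => X 0 ^ (ab.1 : ℕ) * tt k n hn ^ (ab.2 : ℕ))

lemma mons_card : (mons k n p hn).card ≤ p ^ 2 := by
  classical
  refine Finset.card_image_le.trans ?_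
  simp [pow_two]

/-- the span of the monomials over the center -/
noncomputable def T : Submodule (Z k n) (Pol k n) :=
  Submodule.span (Z k n) (mons k n p hn : Set (Pol k n))

lemma mon_mem_T (a b : ℕ) : X 0 ^ a * tt k n hn ^ b ∈ T k n p hn := by
  classical
  have h1 : X 0 ^ a * tt k n hn ^ b =
      (⟨(X 0 ^ p) ^ (a / p) * (tt k n hn ^ p) ^ (b / p),
        mul_mem (pow_mem (pow_mem_Z k n p _) _) (pow_mem (pow_mem_Z k n p _) _)⟩ : Z k n) •
      (X 0 ^ (a % p) * tt k n hn ^ (b % p)) := by
    rw [Subalgebra.smul_def, smul_eq_mul]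
    conv_lhs => rw [← Nat.div_add_mod a p, ← Nat.div_add_mod b p, pow_add, pow_add, pow_mul,
      pow_mul]
    ring
  rw [h1]
  apply Submodule.smul_mem
  apply Submodule.subset_span
  simp only [mons, Finset.coe_image, Finset.coe_univ, Set.image_univ]
  exact ⟨(⟨a % p, Nat.mod_lt _ hp.out.pos⟩, ⟨b % p, Nat.mod_lt _ hp.out.pos⟩), rfl⟩

lemma mul_mem_T {f g : Pol k n} (hf : f ∈ T k n p hn) (hg : g ∈ T k n p hn) :
    f * g ∈ T k n p hn := by
  classical
  have h := Submodule.mul_mem_mul hf hg
  rw [T, Submodule.span_mul_span] at h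
  refine Submodule.span_le.2 ?_ h
  rintro _ ⟨x, hx, y, hy, rfl⟩
  simp only [mons, Finset.coe_image, Finset.coe_univ, Set.image_univ] at hx hy
  obtain ⟨⟨a, b⟩, rfl⟩ := hx
  obtain ⟨⟨c, d⟩, rfl⟩ := hy
  have := mon_mem_T k n p hn (a + c) (b + d)
  simp only [SetLike.mem_coe]
  convert this using 1
  ring

lemma center_mem_T {f : Pol k n} (hf : f ∈ Z k n) : f ∈ T k n p hn := by
  have h := mon_mem_T k n p hn 0 0
  rw [pow_zero, pow_zero, mul_one] at h
  have := Submodule.smul_mem (T k n p hn) (⟨f, hf⟩ : Z k n) h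
  rwa [Subalgebra.smul_def, smul_eq_mul, mul_one] at this

/-- elements with a nonzero central multiple in `T` -/
noncomputable def S : Subalgebra k (Pol k n) where
  carrier := {f | ∃ w : Z k n, w ≠ 0 ∧ w • f ∈ T k n p hn}
  mul_mem' := by
    rintro f g ⟨w, hw, hf⟩ ⟨v, hv, hg⟩
    refine ⟨w * v, mul_ne_zero hw hv, ?_⟩
    have := mul_mem_T k n p hn hf hg
    rwa [smul_mul_smul_comm] at this
  add_mem' := by
    rintro f g ⟨w, hw, hf⟩ ⟨v, hv, hg⟩
    refine ⟨w * v, mul_ne_zero hw hv, ?_⟩
    rw [smul_add]
    refine add_mem ?_ ?_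
    · rw [mul_comm, mul_smul]; exact Submodule.smul_mem _ _ hf
    · rw [mul_smul]; exact Submodule.smul_mem _ _ hg
  algebraMap_mem' := by
    intro r
    refine ⟨1, one_ne_zero, ?_⟩
    rw [one_smul]
    exact center_mem_T k n p hn (Subalgebra.algebraMap_mem _ r)

lemma S_eq_top : S k n p hn = ⊤ := by
  rw [eq_top_iff, ← MvPolynomial.adjoin_range_X, Algebra.adjoin_le_iff]
  rintro _ ⟨i, rfl⟩
  have ht : tt k n hn ∈ T k n p hn := by
    have := mon_mem_T k n p hn 0 1
    rwa [pow_zero, one_mul, pow_one] at this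
  refine Fin.cases ?_ (fun i => ?_) i
  · refine ⟨1, one_ne_zero, ?_⟩
    have := mon_mem_T k n p hn 1 0
    rwa [pow_zero, mul_one, pow_one, ← one_smul (Z k n) (X 0 : Pol k n)] at this
  · -- the central multiple of `y_i`
    let t := tt k n hn
    let s : Pol k n := X i.succ
    have hA : t ^ p ∈ Z k n := pow_mem_Z k n p _
    have hB : s ^ p ∈ Z k n := pow_mem_Z k n p _
    have hz : (t - s) * t ^ (p - 1) * s ^ (p - 1) ∈ Z k n := z_mem k n p ⟨0, hn⟩ i
    have hw : (t ^ p) ^ (p + 1) * (s ^ p) ^ (p - 1) ∈ Z k n :=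
      mul_mem (pow_mem hA _) (pow_mem hB _)
    refine ⟨⟨_, hw⟩, ?_, ?_⟩
    · intro h
      have h2 : (t ^ p) ^ (p + 1) * (s ^ p) ^ (p - 1) = 0 := congrArg Subtype.val h
      have ht0 : t ≠ 0 := X_ne_zero _
      have hs0 : s ≠ 0 := X_ne_zero _
      exact mul_ne_zero (pow_ne_zero _ (pow_ne_zero _ ht0)) (pow_ne_zero _ (pow_ne_zero _ hs0)) h2
    · rw [Subalgebra.smul_def, smul_eq_mul]
      have key : (t ^ p) ^ (p + 1) * (s ^ p) ^ (p - 1) * s =
          t * (t ^ p * s ^ p) * (t ^ p * s ^ p + (t - s) * t ^ (p - 1) * s ^ (p - 1) * t) ^ (p - 1)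
          := by
        obtain ⟨q, hq⟩ : ∃ q, p = q + 1 := ⟨p - 1, (Nat.succ_pred_prime hp.out).symm⟩
        rw [hq, Nat.add_sub_cancel]
        have : t ^ (q + 1) * s ^ (q + 1) + (t - s) * t ^ q * s ^ q * t = t ^ (q + 2) * s ^ q := by
          ring
        rw [this]
        ring
      change (t ^ p) ^ (p + 1) * (s ^ p) ^ (p - 1) * s ∈ T k n p hn
      rw [key]
      have hAB : t ^ p * s ^ p ∈ T k n p hn := center_mem_T k n p hn (mul_mem hA hB)
      have hsum : t ^ p * s ^ p + (t - s) * t ^ (p - 1) * s ^ (p - 1) * t ∈ T k n p hn :=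
        add_mem hAB (mul_mem_T k n p hn (center_mem_T k n p hn hz) ht)
      have hpow : ∀ m : ℕ, (t ^ p * s ^ p + (t - s) * t ^ (p - 1) * s ^ (p - 1) * t) ^ m ∈
          T k n p hn := by
        intro m
        induction m with
        | zero => rw [pow_zero]; exact center_mem_T k n p hn (one_mem _)
        | succ m ih => rw [pow_succ]; exact mul_mem_T k n p hn ih hsum
      exact mul_mem_T k n p hn (mul_mem_T k n p hn ht hAB) (hpow _)

include hn in
lemma rank_le : (B k n).centerRank ≤ (p : Cardinal) ^ 2 := by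
  have h1 := rank_le_of (Z := Z k n) (P := Pol k n) (mons k n p hn) (by
    intro f
    have : f ∈ S k n p hn := by rw [S_eq_top]; trivial
    exact this)
  refine (show (B k n).centerRank ≤ _ from h1).trans ?_
  have := mons_card k n p hn
  exact_mod_cast this

/-- the log-ozone derivation of `y_i` -/
noncomputable def δ (i : Fin n) : Derivation k (Pol k n) (Pol k n) := (X i.succ : Pol k n) • E k n

omit hp [CharP k p] in
lemma δ_mem (i : Fin n) : δ k n i ∈ (B k n).loz := by
  apply AddSubgroup.subset_closure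
  refine ⟨X i.succ, X_ne_zero _, fun a => ?_⟩
  rw [B_br, E_y, D_y, δ, Derivation.smul_apply, smul_eq_mul]
  ring

lemma loz_ge : (p : Cardinal) ^ n ≤ Cardinal.mk (B k n).loz := by
  let F : (Fin n → Fin p) → (B k n).loz := fun e =>
    ⟨∑ i, (e i : ℕ) • δ k n i, AddSubgroup.sum_mem _ fun i _ =>
      AddSubgroup.nsmul_mem _ (δ_mem k n i) _⟩
  have hF : Function.Injective F := by
    intro e e' h
    have h1 : ∑ i, (e i : ℕ) • δ k n i = ∑ i, (e' i : ℕ) • δ k n i := congrArg Subtype.val h
    have h2 : ∀ e : Fin n → Fin p, (∑ i, (e i : ℕ) • δ k n i) (X 0) =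
        ∑ i, C ((e i : ℕ) : k) * X i.succ := by
      intro e
      have := map_sum (Derivation.coeFnAddMonoidHom (R := k) (A := Pol k n) (M := Pol k n))
        (fun i => (e i : ℕ) • δ k n i) Finset.univ
      have h3 := congrFun this (X 0)
      rw [Finset.sum_apply] at h3
      refine h3.trans ?_
      apply Finset.sum_congr rfl
      intro i _
      change ((e i : ℕ) • δ k n i) (X 0) = _
      rw [Derivation.coe_smul, Pi.smul_apply, δ, Derivation.smul_apply, E_x, smul_eq_mul, mul_one,
        nsmul_eq_mul, map_natCast]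
    have h3 : ∑ i, C ((e i : ℕ) : k) * X i.succ = (∑ i, C ((e' i : ℕ) : k) * X i.succ : Pol k n) := by
      rw [← h2 e, ← h2 e', h1]
    funext j
    have h4 := congrArg (coeff (Finsupp.single j.succ 1)) h3
    simp only [coeff_sum, coeff_C_mul, coeff_X', Finsupp.single_left_inj (one_ne_zero : (1:ℕ) ≠ 0),
      Fin.succ_inj, mul_ite, mul_one, mul_zero, Finset.sum_ite_eq', Finset.mem_univ, if_true] at h4
    have h5 := (CharP.natCast_eq_natCast k p).1 h4
    apply Fin.ext
    have h6 := Nat.ModEq.eq_of_lt_of_lt h5 (e j).2 (e' j).2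
    exact h6
  have h := Cardinal.mk_le_of_injective hF
  simpa using h

end CharPart

end Example

/-- main theorem -/
theorem main (p : ℕ) [Fact p.Prime] (k : Type) [Field k] [CharP k p] (n : ℕ) (hn : 3 ≤ n) :
    ∃ B : PoissonBracket k (MvPolynomial (Fin (n + 1)) k), IsGraded B ∧
      B.centerRank ≤ (p : Cardinal) ^ 2 ∧
      (p : Cardinal) ^ n ≤ Cardinal.mk B.loz :=
  ⟨B k n, B_graded k n, rank_le k n p (by omega), loz_ge k n p⟩

end Pool.Agent.Q112.LogOzone
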