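import Mathlib

set_option maxHeartbeats 4000000

open Finset

namespace Pool.Agent.Q112.UU

/-- upper unitriangular matrices -/
def IsUnitriangular {n : ℕ} {F : Type} [Field F] (M : Matrix (Fin n) (Fin n) F) : Prop :=
  (∀ i, M i i = 1) ∧ ∀ i j, j < i → M i j = 0

/-- `ω(UU_n(F))`: the largest size of a set of pairwise non-commuting unitriangular matrices. -/
noncomputable def omega (n : ℕ) (F : Type) [Field F] : ℕ :=
  sSup {k : ℕ | ∃ X : Finset (Matrix (Fin n) (Fin n) F), (∀ M ∈ X, IsUnitriangular M) ∧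
    (∀ M ∈ X, ∀ N ∈ X, M ≠ N → M * N ≠ N * M) ∧ X.card = k}

section Basic

variable {F : Type} [Field F]

/-- the matrix with given entries -/
def mk (a b c d e f : F) : Matrix (Fin 4) (Fin 4) F :=
  !![1, a, d, f; 0, 1, b, e; 0, 0, 1, c; 0, 0, 0, 1]

lemma mk_unitri (a b c d e f : F) : IsUnitriangular (mk a b c d e f) := by
  constructor
  · intro i; fin_cases i <;> rfl
  · intro i j h
    fin_cases i <;> fin_cases j <;> first | rfl | (exfalso; revert h; decide)

lemma eq_mk {M : Matrix (Fin 4) (Fin 4) F} (h : IsUnitriangular M) :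
    M = mk (M 0 1) (M 1 2) (M 2 3) (M 0 2) (M 1 3) (M 0 3) := by
  ext i j
  fin_cases i <;> fin_cases j <;> first | rfl | exact h.1 _ | exact h.2 _ _ (by decide)

lemma comm_iff (a b c d e f a' b' c' d' e' f' : F) :
    mk a b c d e f * mk a' b' c' d' e' f' = mk a' b' c' d' e' f' * mk a b c d e f ↔
      a * b' = a' * b ∧ b * c' = b' * c ∧ a * e' + d * c' = a' * e + d' * c := by
  constructor
  · intro h
    have h02 := congrFun (congrFun h 0) 2
    have h13 := congrFun (congrFun h 1) 3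
    have h03 := congrFun (congrFun h 0) 3
    simp [mk, Matrix.mul_apply, Fin.sum_univ_four] at h02 h13 h03
    refine ⟨?_, ?_, ?_⟩
    · linear_combination h02
    · linear_combination h13
    · linear_combination h03
  · rintro ⟨h1, h2, h3⟩
    ext i j
    fin_cases i <;> fin_cases j <;> simp [mk, Matrix.mul_apply, Fin.sum_univ_four]
    · ring
    · linear_combination h1
    · linear_combination h3
    · ring
    · linear_combination h2
    · ring

lemma comm_iff' {M N : Matrix (Fin 4) (Fin 4) F} (hM : IsUnitriangular M) (hN : IsUnitriangular N) :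
    M * N = N * M ↔ M 0 1 * N 1 2 = N 0 1 * M 1 2 ∧ M 1 2 * N 2 3 = N 1 2 * M 2 3 ∧
      M 0 1 * N 1 3 + M 0 2 * N 2 3 = N 0 1 * M 1 3 + N 0 2 * M 2 3 := by
  conv_lhs => rw [eq_mk hM, eq_mk hN]
  exact comm_iff _ _ _ _ _ _ _ _ _ _ _ _

end Basic

section Lower

variable (F : Type) [Field F] [Fintype F] [DecidableEq F]

/-- index set of commuting classes with `b ≠ 0` -/
def T : Finset (F × F × F) := univ.filter fun p => p.1 = 0 ∧ p.2.1 = 0 → p.2.2 = 0

lemma card_T : (T F).card + Fintype.card F = Fintype.card F ^ 3 + 1 := by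
  have h1 : (univ.filter fun p : F × F × F => ¬ (p.1 = 0 ∧ p.2.1 = 0 → p.2.2 = 0)).card =
      Fintype.card F - 1 := by
    have h2 : (univ.filter fun p : F × F × F => ¬ (p.1 = 0 ∧ p.2.1 = 0 → p.2.2 = 0)) =
        (univ.erase (0 : F)).image (fun t => ((0 : F), (0 : F), t)) := by
      ext ⟨a, b, c⟩
      simp only [mem_filter, mem_univ, true_and, mem_image, mem_erase, Prod.mk.injEq]
      constructor
      · intro h
        push Not at h
        exact ⟨c, by simpa using h.2, h.1.1.symm, h.1.2.symm, rfl⟩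
      · rintro ⟨t, ⟨ht, -⟩, rfl, rfl, rfl⟩
        push Not
        exact ⟨⟨rfl, rfl⟩, ht⟩
    rw [h2, card_image_of_injective, card_erase_of_mem (mem_univ _), card_univ]
    intro x y h
    simpa using h
  have h3 := card_filter_add_card_filter_not (s := (univ : Finset (F × F × F)))
    (fun p => p.1 = 0 ∧ p.2.1 = 0 → p.2.2 = 0)
  rw [h1, card_univ] at h3
  simp only [Fintype.card_prod] at h3
  have h4 : 1 ≤ Fintype.card F := Fintype.card_pos
  have h5 : Fintype.card F * (Fintype.card F * Fintype.card F) = Fintype.card F ^ 3 := by ring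
  rw [T]
  omega

variable {F}

/-- the representatives with `b = 1` -/
noncomputable def rep1 (p : F × F × F) : Matrix (Fin 4) (Fin 4) F :=
  if p.1 = 0 then mk p.1 1 p.2.1 (-(p.2.2 / p.2.1)) 0 0 else mk p.1 1 p.2.1 0 (p.2.2 / p.1) 0

/-- the ovoid points -/
def rep0 (μ : F) (p : F × F) : Matrix (Fin 4) (Fin 4) F :=
  mk 1 0 p.1 p.2 (p.1 ^ 2 + p.1 * p.2 + μ * p.2 ^ 2) 0

lemma rep1_entries (p : F × F × F) (hp : p ∈ T F) : ∃ d e : F, rep1 p = mk p.1 1 p.2.1 d e 0 ∧
    p.1 * e - p.2.1 * d = p.2.2 := by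
  obtain ⟨a, c, t⟩ := p
  simp only [T, mem_filter, mem_univ, true_and] at hp
  by_cases ha : a = 0
  · refine ⟨-(t / c), 0, by simp [rep1, ha], ?_⟩
    by_cases hc : c = 0
    · rw [hp ⟨ha, hc⟩, ha, hc]; simp
    · simp only; field_simp; ring
  · refine ⟨0, t / a, by simp [rep1, ha], ?_⟩
    simp only
    field_simp
    ring

lemma rep1_inj {p p' : F × F × F} (hp : p ∈ T F) (hp' : p' ∈ T F) (h : rep1 p * rep1 p' = rep1 p' * rep1 p) :
    p = p' := by
  obtain ⟨d, e, h1, h2⟩ := rep1_entries p hp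
  obtain ⟨d', e', h1', h2'⟩ := rep1_entries p' hp'
  rw [h1, h1', comm_iff] at h
  obtain ⟨g1, g2, g3⟩ := h
  obtain ⟨a, c, t⟩ := p
  obtain ⟨a', c', t'⟩ := p'
  simp only at *
  have e1 : a = a' := by linear_combination g1
  have e2 : c = c' := by linear_combination -g2
  subst e1 e2
  have e3 : t = t' := by rw [← h2, ← h2']; linear_combination -g3
  rw [e3]

lemma rep0_inj (h2 : (2 : F) = 0) {μ : F} (hμ : ∀ x : F, x ^ 2 + x + μ ≠ 0) {p p' : F × F}
    (h : rep0 μ p * rep0 μ p' = rep0 μ p' * rep0 μ p) : p = p' := by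
  obtain ⟨c, d⟩ := p
  obtain ⟨c', d'⟩ := p'
  rw [rep0, rep0, comm_iff] at h
  obtain ⟨-, -, g3⟩ := h
  simp only at g3
  have h3 : (c - c') ^ 2 + (c - c') * (d - d') + μ * (d - d') ^ 2 = 0 := by
    linear_combination -g3 + (c' ^ 2 + c' * d' + μ * d' ^ 2 - c * c' - c * d' - μ * d * d') * h2
  by_cases hd : d = d'
  · subst hd
    have : (c - c') ^ 2 = 0 := by linear_combination h3
    have := pow_eq_zero_iff (two_ne_zero) |>.mp this
    rw [sub_eq_zero.mp this]
  · exfalso
    have hd' : d - d' ≠ 0 := sub_ne_zero.mpr hd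
    apply hμ ((c - c') / (d - d'))
    field_simp
    linear_combination h3

lemma rep01 (μ : F) (p : F × F) {p' : F × F × F} (hp' : p' ∈ T F) :
    rep0 μ p * rep1 p' ≠ rep1 p' * rep0 μ p := by
  intro h
  obtain ⟨d', e', h1', -⟩ := rep1_entries p' hp'
  rw [rep0, h1', comm_iff] at h
  have := h.1
  simp at this

lemma lower (h2 : (2 : F) = 0) : Fintype.card F ^ 3 + Fintype.card F ^ 2 + 1 ≤
    omega 4 F + Fintype.card F := by
  obtain ⟨μ, hμ⟩ : ∃ μ : F, ∀ x : F, x ^ 2 + x + μ ≠ 0 := by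
    by_contra hc
    push Not at hc
    have hsurj : Function.Surjective (fun x : F => x ^ 2 + x) := by
      intro y
      obtain ⟨x, hx⟩ := hc y
      refine ⟨x, ?_⟩
      simp only
      linear_combination hx - y * h2
    have hinj := Finite.injective_iff_surjective.mpr hsurj
    have : (0 : F) = 1 := hinj (by simp only; linear_combination -h2)
    exact zero_ne_one this
  let X : Finset (Matrix (Fin 4) (Fin 4) F) := (T F).image rep1 ∪ univ.image (rep0 μ)
  have hcard : X.card = (T F).card + Fintype.card F ^ 2 := by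
    rw [card_union_of_disjoint, card_image_of_injOn, card_image_of_injOn, card_univ,
      Fintype.card_prod, sq]
    · intro p _ p' _ h
      exact rep0_inj h2 hμ (by rw [h])
    · intro p hp p' hp' h
      exact rep1_inj hp hp' (by rw [h])
    · rw [disjoint_left]
      intro M h1 h3
      rw [mem_image] at h1 h3
      obtain ⟨p, hp, rfl⟩ := h1
      obtain ⟨p', -, h4⟩ := h3
      exact rep01 μ p' hp (by rw [h4])
  have hX : X.card ∈ {k : ℕ | ∃ X : Finset (Matrix (Fin 4) (Fin 4) F), (∀ M ∈ X, IsUnitriangular M) ∧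
    (∀ M ∈ X, ∀ N ∈ X, M ≠ N → M * N ≠ N * M) ∧ X.card = k} := by
    refine ⟨X, ?_, ?_, rfl⟩
    · intro M hM
      rw [mem_union, mem_image, mem_image] at hM
      rcases hM with ⟨p, hp, rfl⟩ | ⟨p, -, rfl⟩
      · obtain ⟨d, e, h, -⟩ := rep1_entries p hp
        rw [h]; exact mk_unitri _ _ _ _ _ _
      · exact mk_unitri _ _ _ _ _ _
    · intro M hM N hN hne hcomm
      rw [mem_union, mem_image, mem_image] at hM hN
      rcases hM with ⟨p, hp, rfl⟩ | ⟨p, -, rfl⟩ <;> rcases hN with ⟨p', hp', rfl⟩ | ⟨p', -, rfl⟩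
      · exact hne (by rw [rep1_inj hp hp' hcomm])
      · exact rep01 μ p' hp hcomm.symm
      · exact rep01 μ p hp' hcomm
      · exact hne (by rw [rep0_inj h2 hμ hcomm])
  have hb : BddAbove {k : ℕ | ∃ X : Finset (Matrix (Fin 4) (Fin 4) F), (∀ M ∈ X, IsUnitriangular M) ∧
    (∀ M ∈ X, ∀ N ∈ X, M ≠ N → M * N ≠ N * M) ∧ X.card = k} := by
    refine ⟨Fintype.card (Matrix (Fin 4) (Fin 4) F), ?_⟩
    rintro _ ⟨X, -, -, rfl⟩
    exact card_le_univ X
  have := le_csSup hb hX
  rw [hcard] at this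
  change _ ≤ omega 4 F at this
  have h3 := card_T F
  omega

end Lower

section Coll

variable {α β : Type} [DecidableEq α] [DecidableEq β]

lemma card_coll (S : Finset α) (f : α → β) :
    (S.offDiag.filter fun p => f p.1 = f p.2).card =
      ∑ y ∈ S.image f, ((S.filter fun x => f x = y).card * (S.filter fun x => f x = y).card -
        (S.filter fun x => f x = y).card) := by
  rw [card_eq_sum_card_fiberwise (f := fun p : α × α => f p.1) (t := S.image f)]
  · apply sum_congr rfl
    intro y _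
    rw [← offDiag_card]
    congr 1
    ext ⟨x, x'⟩
    simp only [mem_filter, mem_offDiag]
    constructor
    · rintro ⟨⟨⟨h1, h2, h3⟩, h4⟩, h5⟩
      exact ⟨⟨h1, h5⟩, ⟨h2, h4 ▸ h5⟩, h3⟩
    · rintro ⟨⟨h1, h5⟩, ⟨h2, h4⟩, h3⟩
      exact ⟨⟨⟨h1, h2, h3⟩, h5.trans h4.symm⟩, h5⟩
  · intro p hp
    have hp' := mem_filter.mp hp
    exact mem_image_of_mem f (mem_offDiag.mp hp'.1).1

lemma coll1 (S : Finset α) (f : α → β) :
    2 * S.card ≤ 2 * (S.image f).card + (S.offDiag.filter fun p => f p.1 = f p.2).card ∧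
    3 * S.card ≤ 4 * (S.image f).card + (S.offDiag.filter fun p => f p.1 = f p.2).card := by
  rw [card_coll, card_eq_sum_card_image f S, card_eq_sum_ones (S.image f), mul_sum, mul_sum,
    mul_sum, mul_sum, ← sum_add_distrib, ← sum_add_distrib]
  constructor
  · apply sum_le_sum
    intro y _
    generalize (S.filter fun x => f x = y).card = n
    rcases n with _ | n
    · simp
    · have : (n + 1) * (n + 1) - (n + 1) = (n + 1) * n := by
        rw [show (n + 1) * (n + 1) = (n + 1) * n + (n + 1) by ring, Nat.add_sub_cancel]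
      rw [this]
      nlinarith [Nat.zero_le n, sq_nonneg ((n : ℤ) - 1)]
  · apply sum_le_sum
    intro y _
    generalize (S.filter fun x => f x = y).card = n
    rcases n with _ | n
    · simp
    · have : (n + 1) * (n + 1) - (n + 1) = (n + 1) * n := by
        rw [show (n + 1) * (n + 1) = (n + 1) * n + (n + 1) by ring, Nat.add_sub_cancel]
      rw [this]
      zify
      nlinarith [sq_nonneg ((n : ℤ) - 1)]

end Coll

section Ovoid

variable {F : Type} [Field F]

/-- direction vectors -/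
def uv : Option F → F × F
  | none => (0, 1)
  | some s => (1, s)

/-- pairing with a direction -/
def pr (i : Option F) (φ : F × F) : F := (uv i).1 * φ.1 + (uv i).2 * φ.2

lemma pr_none (φ : F × F) : pr none φ = φ.2 := by simp [pr, uv]
lemma pr_some (s : F) (φ : F × F) : pr (some s) φ = φ.1 + s * φ.2 := by simp [pr, uv]

lemma exists_unique_dir {φ φ' : F × F} (h : φ ≠ φ') : ∃! j : Option F, pr j φ = pr j φ' := by
  by_cases h2 : φ.2 = φ'.2
  · refine ⟨none, by change pr none φ = pr none φ'; rw [pr_none, pr_none, h2], ?_⟩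
    rintro (_ | s) hs
    · rfl
    · rw [pr_some, pr_some, h2] at hs
      exact absurd (Prod.ext (add_right_cancel hs) h2) h
  · have h3 : φ.2 - φ'.2 ≠ 0 := sub_ne_zero.mpr h2
    refine ⟨some (-(φ.1 - φ'.1) / (φ.2 - φ'.2)), ?_, ?_⟩
    · simp only
      rw [pr_some, pr_some]
      field_simp
      ring
    · rintro (_ | s) hs
      · rw [pr_none, pr_none] at hs
        exact absurd hs h2
      · rw [pr_some, pr_some] at hs
        congr 1
        field_simp
        linear_combination hs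

variable [Fintype F] [DecidableEq F]

/-- the partial ovoid bound -/
lemma ovoid (O : Finset (Option F × F × F))
    (hO : ∀ P ∈ O, ∀ P' ∈ O, P ≠ P' → pr P.1 P'.2 ≠ pr P'.1 P.2) :
    O.card ≤ Fintype.card F ^ 2 ∧ (O.card = Fintype.card F ^ 2 → Even (Fintype.card F)) := by
  set q := Fintype.card F with hq
  have hq1 : 2 ≤ q := Fintype.one_lt_card
  let S : Option F → Finset (F × F) := fun i => univ.filter fun φ => (i, φ) ∈ O
  have memS : ∀ i φ, φ ∈ S i ↔ (i, φ) ∈ O := fun i φ => by simp [S]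
  let m : Option F → ℕ := fun i => (S i).card
  let a : Option F → Option F → ℕ := fun i j => ((S i).image (pr j)).card
  let C : Option F → Option F → ℕ := fun i j => ((S i).offDiag.filter fun p => pr j p.1 = pr j p.2).card
  have hm : O.card = ∑ i, m i := by
    rw [card_eq_sum_card_fiberwise (f := Prod.fst) (t := univ) (by simp)]
    apply sum_congr rfl
    intro i _
    apply card_bij (fun p _ => p.2)
    · rintro ⟨i', φ⟩ hp
      obtain ⟨h1, rfl⟩ := mem_filter.mp hp
      exact (memS _ _).mpr h1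
    · rintro ⟨i1, φ1⟩ h1 ⟨i2, φ2⟩ h2 h
      have e1 := (mem_filter.mp h1).2
      have e2 := (mem_filter.mp h2).2
      simp only at e1 e2 h
      rw [e1, e2, h]
    · intro φ hφ
      exact ⟨(i, φ), mem_filter.mpr ⟨(memS _ _).mp hφ, rfl⟩, rfl⟩
  have hinj : ∀ i, Set.InjOn (pr i) (S i) := by
    intro i φ hφ φ' hφ' h
    by_contra hne
    exact hO (i, φ) ((memS _ _).mp hφ) (i, φ') ((memS _ _).mp hφ') (by simp [hne]) h.symm
  have h4 : ∀ i, m i ≤ q := by
    intro i
    have h1 : ((S i).image (pr i)).card = m i := card_image_of_injOn (hinj i)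
    rw [← h1]
    exact card_le_univ _
  have h2 : ∀ i j, i ≠ j → a i j + a j i ≤ q := by
    intro i j hij
    have hd : Disjoint ((S i).image (pr j)) ((S j).image (pr i)) := by
      rw [disjoint_left]
      intro t ht ht'
      obtain ⟨φ, hφ, rfl⟩ := mem_image.mp ht
      obtain ⟨φ', hφ', h⟩ := mem_image.mp ht'
      exact hO (i, φ) ((memS _ _).mp hφ) (j, φ') ((memS _ _).mp hφ') (by simp [hij]) h
    change ((S i).image (pr j)).card + ((S j).image (pr i)).card ≤ q
    rw [← card_union_of_disjoint hd]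
    exact card_le_univ _
  have h3 : ∀ i, ∑ j ∈ univ.erase i, C i j = m i * m i - m i := by
    intro i
    have e0 : C i i = 0 := by
      apply card_eq_zero.mpr
      apply filter_eq_empty_iff.mpr
      intro p hp h
      obtain ⟨h1, h2, h3⟩ := mem_offDiag.mp hp
      exact h3 (hinj i h1 h2 h)
    have e1 : ∑ j ∈ univ.erase i, C i j = ∑ j, C i j := by
      rw [← sum_erase_add _ _ (mem_univ i), e0, add_zero]
    rw [e1]
    change ∑ j, ((S i).offDiag.filter fun p => pr j p.1 = pr j p.2).card = _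
    simp only [card_filter]
    rw [sum_comm]
    have e2 : ∀ p ∈ (S i).offDiag, (∑ j, if pr j p.1 = pr j p.2 then 1 else 0) = 1 := by
      intro p hp
      obtain ⟨-, -, h3⟩ := mem_offDiag.mp hp
      obtain ⟨j, hj, hu⟩ := exists_unique_dir h3
      rw [sum_eq_single j, if_pos hj]
      · intro k _ hk
        rw [if_neg]
        intro h
        exact hk (hu k h)
      · intro h; exact absurd (mem_univ j) h
    rw [sum_congr rfl e2, sum_const, smul_eq_mul, mul_one, offDiag_card]
  have h1 : ∀ i j, 2 * m i ≤ 2 * a i j + C i j ∧ 3 * m i ≤ 4 * a i j + C i j := fun i j =>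
    coll1 (S i) (pr j)
  -- the identity
  let X : ℤ := ∑ i, ∑ j ∈ univ.erase i, (2 * (a i j : ℤ) + C i j - 2 * m i)
  let Y : ℤ := ∑ i, ∑ j ∈ univ.erase i, ((q : ℤ) - a i j - a j i)
  let Z : ℤ := ∑ i, (m i : ℤ) * (q - m i)
  have hXt : ∀ i, ∀ j ∈ univ.erase i, (0 : ℤ) ≤ 2 * (a i j : ℤ) + C i j - 2 * m i := by
    intro i j _
    have := (h1 i j).1
    zify at this
    linarith
  have hYt : ∀ i, ∀ j ∈ univ.erase i, (0 : ℤ) ≤ (q : ℤ) - a i j - a j i := by
    intro i j hj
    have := h2 i j (ne_of_mem_erase hj).symm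
    zify at this
    linarith
  have hZt : ∀ i ∈ univ, (0 : ℤ) ≤ (m i : ℤ) * (q - m i) := by
    intro i _
    have := h4 i
    zify at this
    exact mul_nonneg (by positivity) (by linarith)
  have hX : 0 ≤ X := sum_nonneg fun i _ => sum_nonneg (hXt i)
  have hY : 0 ≤ Y := sum_nonneg fun i _ => sum_nonneg (hYt i)
  have hZ : 0 ≤ Z := sum_nonneg hZt
  have hswap : ∑ i, ∑ j ∈ univ.erase i, (a j i : ℤ) = ∑ i, ∑ j ∈ univ.erase i, (a i j : ℤ) := by
    have e : ∀ g : Option F → Option F → ℤ, ∑ i, ∑ j ∈ univ.erase i, g i j =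
        ∑ i, ∑ j, if i ≠ j then g i j else 0 := by
      intro g
      apply sum_congr rfl
      intro i _
      rw [← sum_filter]
      apply sum_congr _ (fun _ _ => rfl)
      ext j
      simp [eq_comm]
    rw [e, e, sum_comm]
    apply sum_congr rfl; intro i _
    apply sum_congr rfl; intro j _
    by_cases h : i = j
    · simp [h]
    · rw [if_pos (Ne.symm h), if_pos h]
  have hcard : ∀ i : Option F, ((univ.erase i).card : ℤ) = q := by
    intro i
    rw [card_erase_of_mem (mem_univ i), card_univ, Fintype.card_option]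
    simp [hq]
  have hCs : ∀ i, (∑ j ∈ univ.erase i, (C i j : ℤ)) = (m i : ℤ) * m i - m i := by
    intro i
    have h5 := h3 i
    have h6 : m i ≤ m i * m i := Nat.le_mul_self _
    have h7 : (((∑ j ∈ univ.erase i, C i j : ℕ)) : ℤ) = ((m i * m i - m i : ℕ) : ℤ) := by rw [h5]
    rw [Nat.cast_sub h6] at h7
    push_cast at h7
    exact h7
  have hid : X + Y + Z = ((q : ℤ) + 1) * ((q : ℤ) ^ 2 - O.card) := by
    have eX : X = 2 * (∑ i, ∑ j ∈ univ.erase i, (a i j : ℤ)) + (∑ i, ((m i : ℤ) * m i - m i)) -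
        2 * q * ∑ i, (m i : ℤ) := by
      simp only [X, sum_sub_distrib, sum_add_distrib, ← mul_sum, hCs, sum_const, nsmul_eq_mul, hcard]
      ring
    have eY : Y = (q + 1) * q * q - 2 * (∑ i, ∑ j ∈ univ.erase i, (a i j : ℤ)) := by
      simp only [Y, sum_sub_distrib, sum_const, nsmul_eq_mul, hcard]
      rw [hswap, card_univ, Fintype.card_option]
      push_cast
      ring
    have eZ : Z = q * (∑ i, (m i : ℤ)) - ∑ i, (m i : ℤ) * m i := by
      simp only [Z, mul_sum]
      rw [← sum_sub_distrib]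
      apply sum_congr rfl; intro i _; ring
    rw [eX, eY, eZ, hm, sum_sub_distrib]
    push_cast
    ring
  have hle : (O.card : ℤ) ≤ (q : ℤ) ^ 2 := by
    have : 0 ≤ ((q : ℤ) + 1) * ((q : ℤ) ^ 2 - O.card) := by rw [← hid]; linarith
    have hq0 : (0 : ℤ) < q + 1 := by positivity
    nlinarith [(mul_nonneg_iff_of_pos_left hq0).mp this]
  refine ⟨by exact_mod_cast hle, fun heq => ?_⟩
  have hsum0 : X + Y + Z = 0 := by
    rw [hid, heq]; push_cast; ring
  have hX0 : X = 0 := by linarith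
  have hY0 : Y = 0 := by linarith
  have hZ0 : Z = 0 := by linarith
  have hZ' : ∀ i, m i = 0 ∨ m i = q := by
    intro i
    have := (sum_eq_zero_iff_of_nonneg hZt).mp hZ0 i (mem_univ i)
    rcases mul_eq_zero.mp this with h | h
    · left; exact_mod_cast h
    · right
      have : (q : ℤ) = m i := by linarith
      exact_mod_cast this.symm
  have hY' : ∀ i j, i ≠ j → a i j + a j i = q := by
    intro i j hij
    have h5 := (sum_eq_zero_iff_of_nonneg (fun i _ => sum_nonneg (hYt i))).mp hY0 i (mem_univ i)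
    have h6 := (sum_eq_zero_iff_of_nonneg (hYt i)).mp h5 j (mem_erase.mpr ⟨hij.symm, mem_univ j⟩)
    have h7 : (a i j : ℤ) + a j i = q := by linarith
    exact_mod_cast h7
  have hX' : ∀ i j, i ≠ j → m i ≤ 2 * a i j := by
    intro i j hij
    have h5 := (sum_eq_zero_iff_of_nonneg (fun i _ => sum_nonneg (hXt i))).mp hX0 i (mem_univ i)
    have h6 := (sum_eq_zero_iff_of_nonneg (hXt i)).mp h5 j (mem_erase.mpr ⟨hij.symm, mem_univ j⟩)
    have h7 := (h1 i j).2
    zify at h7 ⊢
    linarith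
  obtain ⟨i, hi⟩ : ∃ i, m i = q := by
    by_contra hc
    push Not at hc
    have : O.card = 0 := by
      rw [hm]
      exact sum_eq_zero fun i _ => (hZ' i).resolve_right (hc i)
    rw [this] at heq
    have : 0 < q ^ 2 := by positivity
    omega
  obtain ⟨j, hij, hj⟩ : ∃ j, i ≠ j ∧ m j = q := by
    by_contra hc
    push Not at hc
    have : O.card = q := by
      rw [hm, sum_eq_single i, hi]
      · intro j _ hj
        exact (hZ' j).resolve_right (hc j hj.symm)
      · intro h; exact absurd (mem_univ i) h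
    rw [this] at heq
    nlinarith
  have e1 := hX' i j hij
  have e2 := hX' j i hij.symm
  have e3 := hY' i j hij
  rw [hi] at e1
  rw [hj] at e2
  exact ⟨a i j, by omega⟩

end Ovoid

section Upper

variable {F : Type} [Field F]

open Classical in
/-- normalised point of `PG(3,q)` -/
noncomputable def rho (M : Matrix (Fin 4) (Fin 4) F) : Option F × F × F :=
  if M 0 1 = 0 then (none, (M 1 3 / M 2 3, -(M 0 2) / M 2 3))
  else (some (M 2 3 / M 0 1), (M 1 3 / M 0 1, -(M 0 2) / M 0 1))

lemma rho_spec (M : Matrix (Fin 4) (Fin 4) F) (h : ¬ (M 0 1 = 0 ∧ M 2 3 = 0)) :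
    ∃ l : F, l ≠ 0 ∧ M 0 1 = l * (uv (rho M).1).1 ∧ M 2 3 = l * (uv (rho M).1).2 ∧
      M 1 3 = l * (rho M).2.1 ∧ -(M 0 2) = l * (rho M).2.2 := by
  by_cases h0 : M 0 1 = 0
  · have h1 : M 2 3 ≠ 0 := fun h1 => h ⟨h0, h1⟩
    refine ⟨M 2 3, h1, ?_⟩
    simp only [rho, if_pos h0, uv]
    refine ⟨by rw [h0]; simp, by simp, by field_simp, by field_simp⟩
  · refine ⟨M 0 1, h0, ?_⟩
    simp only [rho, if_neg h0, uv]
    refine ⟨by simp, by field_simp, by field_simp, by field_simp⟩

lemma rho_comm {M N : Matrix (Fin 4) (Fin 4) F} (hM : ¬ (M 0 1 = 0 ∧ M 2 3 = 0))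
    (hN : ¬ (N 0 1 = 0 ∧ N 2 3 = 0)) (hMu : IsUnitriangular M) (hNu : IsUnitriangular N)
    (hMb : M 1 2 = 0) (hNb : N 1 2 = 0)
    (h : pr (rho M).1 (rho N).2 = pr (rho N).1 (rho M).2) : M * N = N * M := by
  rw [comm_iff' hMu hNu, hMb, hNb]
  refine ⟨by ring, by ring, ?_⟩
  obtain ⟨l, hl, h1, h2, h3, h4⟩ := rho_spec M hM
  obtain ⟨l', hl', h1', h2', h3', h4'⟩ := rho_spec N hN
  rw [pr, pr] at h
  have h5 : M 0 2 = -(l * (rho M).2.2) := by rw [← h4]; ring
  have h5' : N 0 2 = -(l' * (rho N).2.2) := by rw [← h4']; ring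
  rw [h1, h2, h3, h5, h1', h2', h3', h5']
  linear_combination l * l' * h

variable [Fintype F] [DecidableEq F]

/-- invariants of a commuting class with `b ≠ 0` -/
noncomputable def kap (M : Matrix (Fin 4) (Fin 4) F) : F × F × F :=
  (M 0 1 / M 1 2, M 2 3 / M 1 2, (M 0 1 / M 1 2) * (M 1 3 / M 1 2) -
    (M 2 3 / M 1 2) * (M 0 2 / M 1 2))

omit [Fintype F] [DecidableEq F] in
lemma kap_comm {M N : Matrix (Fin 4) (Fin 4) F} (hMu : IsUnitriangular M) (hNu : IsUnitriangular N)
    (hMb : M 1 2 ≠ 0) (hNb : N 1 2 ≠ 0) (h : kap M = kap N) : M * N = N * M := by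
  rw [comm_iff' hMu hNu]
  simp only [kap, Prod.mk.injEq] at h
  obtain ⟨h1, h2, h3⟩ := h
  have e1 : M 0 1 * N 1 2 = N 0 1 * M 1 2 := by field_simp at h1; linear_combination h1
  have e2 : M 2 3 * N 1 2 = N 2 3 * M 1 2 := by field_simp at h2; linear_combination h2
  refine ⟨e1, by linear_combination -e2, ?_⟩
  rw [← h1, ← h2] at h3
  have h4 : M 0 1 * (M 1 3 / M 1 2) - M 2 3 * (M 0 2 / M 1 2) =
      M 0 1 * (N 1 3 / N 1 2) - M 2 3 * (N 0 2 / N 1 2) := by
    field_simp at h3 ⊢
    linear_combination h3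
  have h5 : M 0 1 * M 1 3 * N 1 2 - M 2 3 * M 0 2 * N 1 2 =
      M 0 1 * N 1 3 * M 1 2 - M 2 3 * N 0 2 * M 1 2 := by
    field_simp at h4
    linear_combination h4
  have h6 : M 1 2 * (M 0 1 * N 1 3 + M 0 2 * N 2 3) = M 1 2 * (N 0 1 * M 1 3 + N 0 2 * M 2 3) := by
    linear_combination -h5 + M 1 3 * e1 - M 0 2 * e2
  exact mul_left_cancel₀ hMb h6

omit [Fintype F] in
lemma kap_mem [Fintype F] {M : Matrix (Fin 4) (Fin 4) F} (hMb : M 1 2 ≠ 0) : kap M ∈ T F := by
  simp only [T, kap, mem_filter, mem_univ, true_and]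
  rintro ⟨h1, h2⟩
  rw [h1, h2]; ring

lemma upper (hodd : ¬ Even (Fintype.card F)) (X : Finset (Matrix (Fin 4) (Fin 4) F))
    (hX : ∀ M ∈ X, IsUnitriangular M) (hc : ∀ M ∈ X, ∀ N ∈ X, M ≠ N → M * N ≠ N * M) :
    X.card + Fintype.card F ≤ Fintype.card F ^ 3 + Fintype.card F ^ 2 := by
  set q := Fintype.card F with hq
  have hq1 : 2 ≤ q := Fintype.one_lt_card
  have hq2 : 3 ≤ q := by
    rcases Nat.lt_or_ge q 3 with h | h
    · exfalso; apply hodd; have : q = 2 := by omega
      rw [this]; exact even_two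
    · exact h
  have hsplit := card_filter_add_card_filter_not (s := X) (fun M => M 1 2 = 0)
  set X0 := X.filter (fun M => M 1 2 = 0) with hX0
  set X1 := X.filter (fun M => ¬ M 1 2 = 0) with hX1
  have kinj : Set.InjOn kap (X1 : Set (Matrix (Fin 4) (Fin 4) F)) := by
    intro M hM N hN h
    obtain ⟨hM1, hM2⟩ := mem_filter.mp hM
    obtain ⟨hN1, hN2⟩ := mem_filter.mp hN
    by_contra hne
    exact hc M hM1 N hN1 hne (kap_comm (hX M hM1) (hX N hN1) hM2 hN2 h)
  -- bound for sets of points off the line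
  have hov : ∀ Y : Finset (Matrix (Fin 4) (Fin 4) F), Y ⊆ X0 →
      (∀ M ∈ Y, ¬ (M 0 1 = 0 ∧ M 2 3 = 0)) → Y.card ≤ q ^ 2 ∧ Y.card ≠ q ^ 2 := by
    intro Y hY hYn
    have hinj : Set.InjOn rho (Y : Set (Matrix (Fin 4) (Fin 4) F)) := by
      intro M hM N hN h
      by_contra hne
      obtain ⟨hM1, hM2⟩ := mem_filter.mp (hY hM)
      obtain ⟨hN1, hN2⟩ := mem_filter.mp (hY hN)
      exact hc M hM1 N hN1 hne (rho_comm (hYn M hM) (hYn N hN) (hX M hM1) (hX N hN1) hM2 hN2
        (by rw [h]))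
    have h1 := ovoid (Y.image rho) (by
      intro P hP P' hP' hne h
      obtain ⟨M, hM, rfl⟩ := mem_image.mp hP
      obtain ⟨N, hN, rfl⟩ := mem_image.mp hP'
      obtain ⟨hM1, hM2⟩ := mem_filter.mp (hY hM)
      obtain ⟨hN1, hN2⟩ := mem_filter.mp (hY hN)
      exact hc M hM1 N hN1 (fun h => hne (by rw [h])) (rho_comm (hYn M hM) (hYn N hN) (hX M hM1)
        (hX N hN1) hM2 hN2 h))
    rw [card_image_of_injOn hinj] at h1
    exact ⟨h1.1, fun h => hodd (h1.2 h)⟩
  by_cases hcase : ∃ M0 ∈ X, M0 1 2 = 0 ∧ M0 0 1 = 0 ∧ M0 2 3 = 0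
  · obtain ⟨M0, hM0, hb0, ha0, hc0⟩ := hcase
    -- noncommutation with M0
    have hn : ∀ N ∈ X, N ≠ M0 → M0 0 2 * N 2 3 ≠ N 0 1 * M0 1 3 := by
      intro N hN hne h
      apply hc N hN M0 hM0 hne
      rw [comm_iff' (hX N hN) (hX M0 hM0), hb0, ha0, hc0]
      refine ⟨by ring, by ring, by linear_combination -h⟩
    have hY := hov (X0.erase M0) (erase_subset _ _) (by
      rintro N hN ⟨h1, h2⟩
      obtain ⟨hne, hN0⟩ := mem_erase.mp hN
      apply hn N (mem_filter.mp hN0).1 hne
      rw [h1, h2]; ring)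
    have hM00 : M0 ∈ X0 := mem_filter.mpr ⟨hM0, hb0⟩
    rw [card_erase_of_mem hM00] at hY
    by_cases hde : M0 0 2 = 0 ∧ M0 1 3 = 0
    · have : X.card ≤ 1 := by
        rw [card_le_one]
        have h5 : ∀ N ∈ X, N = M0 := by
          intro N hN
          by_contra hne
          apply hn N hN hne
          rw [hde.1, hde.2]; ring
        intro N hN N' hN'
        rw [h5 N hN, h5 N' hN']
      have : q ≤ q ^ 2 := by nlinarith
      have : 1 ≤ q ^ 3 := Nat.one_le_pow _ _ (by omega)
      omega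
    · -- classes
      let T' : Finset (F × F × F) := univ.filter fun p => M0 0 2 * p.2.1 ≠ p.1 * M0 1 3
      have h6 : X1.card ≤ T'.card := by
        rw [← card_image_of_injOn kinj]
        apply card_le_card
        intro p hp
        obtain ⟨N, hN, rfl⟩ := mem_image.mp hp
        obtain ⟨hN1, hN2⟩ := mem_filter.mp hN
        have hne : N ≠ M0 := fun h => hN2 (h ▸ hb0)
        have h7 := hn N hN1 hne
        simp only [T', mem_filter, mem_univ, true_and, kap]
        intro h8
        apply h7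
        field_simp at h8
        linear_combination h8
      have h7 : T'.card + q ^ 2 ≤ q ^ 3 := by
        have h8 := card_filter_add_card_filter_not (s := (univ : Finset (F × F × F)))
          (fun p => M0 0 2 * p.2.1 ≠ p.1 * M0 1 3)
        have h9 : q ^ 2 ≤ (univ.filter fun p : F × F × F => ¬ (M0 0 2 * p.2.1 ≠ p.1 * M0 1 3)).card := by
          have h10 : (univ.image (fun t : F × F => (t.1 * M0 0 2, t.1 * M0 1 3, t.2))).card = q ^ 2 := by
            rw [card_image_of_injective, card_univ, Fintype.card_prod, sq]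
            rintro ⟨t, s⟩ ⟨t', s'⟩ h
            simp only [Prod.mk.injEq] at h
            obtain ⟨g1, g2, g3⟩ := h
            have : t = t' := by
              by_cases h0 : M0 0 2 = 0
              · have h0' : M0 1 3 ≠ 0 := fun h' => hde ⟨h0, h'⟩
                exact mul_right_cancel₀ h0' g2
              · exact mul_right_cancel₀ h0 g1
            rw [this, g3]
          rw [← h10]
          apply card_le_card
          intro p hp
          obtain ⟨t, -, rfl⟩ := mem_image.mp hp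
          simp only [mem_filter, mem_univ, true_and, not_not]
          ring
        rw [card_univ] at h8
        simp only [Fintype.card_prod] at h8
        have h11 : q * (q * q) = q ^ 3 := by ring
        change T'.card + _ = q * (q * q) at h8
        omega
      have : q ^ 2 ≥ q + 1 := by nlinarith
      omega
  · have h0 : ∀ M ∈ X0, ¬ (M 0 1 = 0 ∧ M 2 3 = 0) := by
      rintro M hM ⟨h1, h2⟩
      exact hcase ⟨M, (mem_filter.mp hM).1, (mem_filter.mp hM).2, h1, h2⟩
    have hY := hov X0 (Subset.refl _) h0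
    have h6 : X1.card ≤ (T F).card := by
      rw [← card_image_of_injOn kinj]
      apply card_le_card
      intro p hp
      obtain ⟨N, hN, rfl⟩ := mem_image.mp hp
      exact kap_mem (mem_filter.mp hN).2
    have h7 := card_T F
    rw [← hq] at h7
    omega

lemma upper' (hodd : ¬ Even (Fintype.card F)) : omega 4 F + Fintype.card F ≤
    Fintype.card F ^ 3 + Fintype.card F ^ 2 := by
  have h1 : omega 4 F ≤ Fintype.card F ^ 3 + Fintype.card F ^ 2 - Fintype.card F := by
    apply csSup_le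
    · exact ⟨0, ∅, by simp, by simp, rfl⟩
    · rintro _ ⟨X, h1, h2, rfl⟩
      have := upper hodd X h1 h2
      omega
  have h2 : Fintype.card F ≤ Fintype.card F ^ 2 := Nat.le_self_pow (by norm_num) _
  omega

end Upper

/-- main theorem -/
theorem main : ¬ ∃ (P : Polynomial ℝ) (q₀ : ℕ), ∀ (F : Type) [Field F] [Fintype F],
    q₀ ≤ Fintype.card F → (omega 4 F : ℝ) = P.eval (Fintype.card F : ℝ) := by
  classical
  rintro ⟨P, q₀, hP⟩
  set R : Polynomial ℝ := P - (Polynomial.X ^ 3 + Polynomial.X ^ 2 - Polynomial.X) with hR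
  have ev : ∀ x : ℝ, R.eval x = P.eval x - (x ^ 3 + x ^ 2 - x) := fun x => by simp [hR]
  have h2 : ∀ n : ℕ, n ≠ 0 → q₀ ≤ 2 ^ n → 1 ≤ R.eval ((2 : ℝ) ^ n) := by
    intro n hn hle
    haveI : Fact (Nat.Prime 2) := ⟨Nat.prime_two⟩
    letI : Fintype (GaloisField 2 n) := Fintype.ofFinite _
    have hcard : Fintype.card (GaloisField 2 n) = 2 ^ n := by
      rw [← Nat.card_eq_fintype_card, GaloisField.card 2 n hn]
    have h3 := hP (GaloisField 2 n) (by rw [hcard]; exact hle)
    have h4 := lower (F := GaloisField 2 n) (by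
      have := CharP.cast_eq_zero (GaloisField 2 n) 2
      exact_mod_cast this)
    rw [hcard] at h3 h4
    rw [ev]
    have h5 : ((2 ^ n : ℕ) : ℝ) ^ 3 + ((2 ^ n : ℕ) : ℝ) ^ 2 + 1 ≤ omega 4 (GaloisField 2 n) + ((2 ^ n : ℕ) : ℝ) := by
      exact_mod_cast h4
    push_cast at h3 h5
    rw [← h3]
    linarith
  have h3 : ∀ n : ℕ, n ≠ 0 → q₀ ≤ 3 ^ n → R.eval ((3 : ℝ) ^ n) ≤ 0 := by
    intro n hn hle
    haveI : Fact (Nat.Prime 3) := ⟨Nat.prime_three⟩
    letI : Fintype (GaloisField 3 n) := Fintype.ofFinite _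
    have hcard : Fintype.card (GaloisField 3 n) = 3 ^ n := by
      rw [← Nat.card_eq_fintype_card, GaloisField.card 3 n hn]
    have h3 := hP (GaloisField 3 n) (by rw [hcard]; exact hle)
    have h4 := upper' (F := GaloisField 3 n) (by
      rw [hcard, Nat.not_even_iff_odd]
      exact Odd.pow (by decide))
    rw [hcard] at h3 h4
    rw [ev]
    have h5 : (omega 4 (GaloisField 3 n) : ℝ) + ((3 ^ n : ℕ) : ℝ) ≤ ((3 ^ n : ℕ) : ℝ) ^ 3 + ((3 ^ n : ℕ) : ℝ) ^ 2 := by
      exact_mod_cast h4
    push_cast at h3 h5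
    rw [← h3]
    linarith
  have t2 : Filter.Tendsto (fun n : ℕ => (2 : ℝ) ^ n) Filter.atTop Filter.atTop :=
    tendsto_pow_atTop_atTop_of_one_lt (by norm_num)
  have t3 : Filter.Tendsto (fun n : ℕ => (3 : ℝ) ^ n) Filter.atTop Filter.atTop :=
    tendsto_pow_atTop_atTop_of_one_lt (by norm_num)
  have e2 : ∀ᶠ n : ℕ in Filter.atTop, 1 ≤ R.eval ((2 : ℝ) ^ n) := by
    filter_upwards [Filter.eventually_ge_atTop (q₀ + 1)] with n hn
    exact h2 n (by omega) (by have := Nat.lt_two_pow_self (n := n); omega)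
  have e3 : ∀ᶠ n : ℕ in Filter.atTop, R.eval ((3 : ℝ) ^ n) ≤ 0 := by
    filter_upwards [Filter.eventually_ge_atTop (q₀ + 1)] with n hn
    exact h3 n (by omega) (by have := Nat.lt_pow_self (n := n) (a := 3) (by norm_num); omega)
  by_cases hdeg : R.degree ≤ 0
  · rw [Polynomial.eq_C_of_degree_le_zero hdeg] at e2 e3
    simp only [Polynomial.eval_C] at e2 e3
    obtain ⟨n, hn2, hn3⟩ := (e2.and e3).exists
    linarith
  · push Not at hdeg
    rcases le_or_gt 0 R.leadingCoeff with hl | hl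
    · have := (R.tendsto_atTop_of_leadingCoeff_nonneg hdeg hl).comp t3
      obtain ⟨n, hn1, hn2⟩ := ((this.eventually_ge_atTop 1).and e3).exists
      simp only [Function.comp] at hn1
      linarith
    · have := (R.tendsto_atBot_of_leadingCoeff_nonpos hdeg hl.le).comp t2
      obtain ⟨n, hn1, hn2⟩ := ((this.eventually_le_atBot 0).and e2).exists
      simp only [Function.comp] at hn1
      linarith

/-- the two bounds -/
theorem bounds (F : Type) [Field F] [Fintype F] :
    (Even (Fintype.card F) → Fintype.card F ^ 3 + Fintype.card F ^ 2 + 1 ≤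
      omega 4 F + Fintype.card F) ∧
    (¬ Even (Fintype.card F) → omega 4 F + Fintype.card F ≤
      Fintype.card F ^ 3 + Fintype.card F ^ 2) := by
  classical
  refine ⟨fun h => lower ?_, fun h => upper' h⟩
  obtain ⟨r, hr⟩ := h
  have h1 : ((Fintype.card F : ℕ) : F) = 0 := Nat.cast_card_eq_zero F
  obtain ⟨p, hp⟩ := CharP.exists F
  obtain ⟨n, hpp, hn⟩ := FiniteField.card F p
  have h2 : p = 2 := by
    have : 2 ∣ p ^ (n : ℕ) := by rw [← hn, hr]; exact ⟨r, by ring⟩
    exact ((Nat.prime_dvd_prime_iff_eq Nat.prime_two hpp).mp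
      (Nat.prime_two.dvd_of_dvd_pow this)).symm
  subst h2
  exact_mod_cast CharP.cast_eq_zero F 2

end Pool.Agent.Q112.UU
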