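import Mathlib

/-!
# Tools for algebras presented by generators and relations (as `RingQuot`)
-/

namespace Pool.Agent.Q112.RQ

variable {k : Type} [CommRing k] {I : Type} (r : FreeAlgebra k I → FreeAlgebra k I → Prop)

/-- the image of a generator in the presented algebra -/
noncomputable def gen (i : I) : RingQuot r := RingQuot.mkAlgHom k r (FreeAlgebra.ι k i)

lemma adjoin_gen : Algebra.adjoin k (Set.range (gen r)) = ⊤ := by
  have h1 : Set.range (gen r) = (RingQuot.mkAlgHom k r) '' (Set.range (FreeAlgebra.ι k)) := by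
    rw [← Set.range_comp]; rfl
  rw [h1, ← AlgHom.map_adjoin, FreeAlgebra.adjoin_range_ι, Algebra.map_top,
    AlgHom.range_eq_top]
  exact RingQuot.mkAlgHom_surjective k r

variable {B : Type} [Semiring B] [Algebra k B]

/-- algebra maps from a presented algebra -/
noncomputable def liftP (f : I → B)
    (h : ∀ ⦃a b⦄, r a b → FreeAlgebra.lift k f a = FreeAlgebra.lift k f b) : RingQuot r →ₐ[k] B :=
  RingQuot.liftAlgHom k ⟨FreeAlgebra.lift k f, h⟩

lemma liftP_gen (f : I → B)
    (h : ∀ ⦃a b⦄, r a b → FreeAlgebra.lift k f a = FreeAlgebra.lift k f b) (i : I) :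
    liftP r f h (gen r i) = f i := by
  rw [liftP, gen, RingQuot.liftAlgHom_mkAlgHom_apply, FreeAlgebra.lift_ι_apply]

end Pool.Agent.Q112.RQ
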