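import Mathlib
import Pool.Agent.Q112.PresRQ

open Pool.Agent.Q112.RQ

namespace Pool.Agent.Q112.PH

open FreeAlgebra (ι)

/-- The defining relations of `O(S_N^+)`: the entries `u_ij` are idempotent and every row and every
column sums to `1`. -/
inductive RelS (N : ℕ) : FreeAlgebra ℂ (Fin N × Fin N) → FreeAlgebra ℂ (Fin N × Fin N) → Prop
  | idem (i j : Fin N) : RelS N (ι ℂ (i, j) * ι ℂ (i, j)) (ι ℂ (i, j))
  | row (i : Fin N) : RelS N (∑ j, ι ℂ (i, j)) 1
  | col (j : Fin N) : RelS N (∑ i, ι ℂ (i, j)) 1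

/-- The algebra `O(S_N^+)` of Wang's quantum symmetric group. -/
abbrev OS (N : ℕ) : Type := RingQuot (RelS N)

/-- The defining relations of `O(H_n^+)`: `u` is orthogonal and cubic. -/
inductive RelH (n : ℕ) : FreeAlgebra ℂ (Fin n × Fin n) → FreeAlgebra ℂ (Fin n × Fin n) → Prop
  | orth (i j : Fin n) : RelH n (∑ k, ι ℂ (i, k) * ι ℂ (j, k)) (if i = j then 1 else 0)
  | orth' (i j : Fin n) : RelH n (∑ k, ι ℂ (k, i) * ι ℂ (k, j)) (if i = j then 1 else 0)
  | cubic (i j k : Fin n) : j ≠ k → RelH n (ι ℂ (i, j) * ι ℂ (i, k)) 0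
  | cubic' (i j k : Fin n) : j ≠ k → RelH n (ι ℂ (j, i) * ι ℂ (k, i)) 0

/-- The algebra `O(H_n^+)` of the free hyperoctahedral quantum group. -/
abbrev OH (n : ℕ) : Type := RingQuot (RelH n)

/-- The generators `u_ij` of `O(H_n^+)`. -/
noncomputable def uH {n : ℕ} (i j : Fin n) : OH n := gen (RelH n) (i, j)

/-- The algebra `O(PH_n^+)` of the projective version: the subalgebra of `O(H_n^+)` generated by
the products `u_ij u_kl`. -/
noncomputable def OPH (n : ℕ) : Subalgebra ℂ (OH n) :=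
  Algebra.adjoin ℂ {x | ∃ i j k l : Fin n, x = uH i j * uH k l}

open LaurentPolynomial in
/-- the images of the diagonal generators -/
noncomputable def gm {n : ℕ} (i : Fin n) : Matrix (Fin 2) (Fin 2) (LaurentPolynomial ℂ) :=
  if i.val = 0 then !![0, 1; 1, 0] else !![0, T (-1); T 1, 0]

open LaurentPolynomial in
lemma gm_sq {n : ℕ} (i : Fin n) : gm i * gm i = 1 := by
  rw [gm]
  split_ifs
  · ext a b; fin_cases a <;> fin_cases b <;> simp [Matrix.mul_apply, Fin.sum_univ_two]
  · have h1 : (T (-1) : LaurentPolynomial ℂ) * T 1 = 1 := by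
      rw [← T_add]; simp
    have h2 : (T 1 : LaurentPolynomial ℂ) * T (-1) = 1 := by
      rw [← T_add]; simp
    ext a b; fin_cases a <;> fin_cases b <;>
      simp [Matrix.mul_apply, Fin.sum_univ_two, h1, h2]

/-- the values of the generators -/
noncomputable def val {n : ℕ} (ij : Fin n × Fin n) :
    Matrix (Fin 2) (Fin 2) (LaurentPolynomial ℂ) := if ij.1 = ij.2 then gm ij.1 else 0

/-- The representation. -/
noncomputable def φ (n : ℕ) : OH n →ₐ[ℂ] Matrix (Fin 2) (Fin 2) (LaurentPolynomial ℂ) :=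
  liftP (RelH n) val (by
    intro a b h
    cases h with
    | orth i j =>
      simp only [map_sum, map_mul, FreeAlgebra.lift_ι_apply, val]
      rw [Finset.sum_eq_single i]
      · by_cases h : i = j
        · subst h; simp [gm_sq]
        · simp [h, Ne.symm h]
      · intro b _ hb; simp [Ne.symm hb]
      · simp
    | orth' i j =>
      simp only [map_sum, map_mul, FreeAlgebra.lift_ι_apply, val]
      rw [Finset.sum_eq_single i]
      · by_cases h : i = j
        · subst h; simp [gm_sq]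
        · simp [h]
      · intro b _ hb; simp [hb]
      · simp
    | cubic i j k h =>
      simp only [map_mul, FreeAlgebra.lift_ι_apply, val, map_zero]
      by_cases h1 : i = j
      · subst h1; simp [h]
      · simp [h1]
    | cubic' i j k h =>
      simp only [map_mul, FreeAlgebra.lift_ι_apply, val, map_zero]
      by_cases h1 : j = i
      · subst h1; simp [h.symm]
      · simp [h1])

lemma φ_u {n : ℕ} (i j : Fin n) : φ n (uH i j) = if i = j then gm i else 0 := by
  rw [φ, uH, liftP_gen]; rfl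

lemma gm_diag {n : ℕ} (i : Fin n) : gm i 0 0 = 0 ∧ gm i 1 1 = 0 := by
  rw [gm]; split_ifs <;> simp

lemma φ_off {n : ℕ} {x : OH n} (hx : x ∈ OPH n) : φ n x 0 1 = 0 ∧ φ n x 1 0 = 0 := by
  rw [OPH] at hx
  induction hx using Algebra.adjoin_induction with
  | mem x hx =>
    obtain ⟨i, j, k, l, rfl⟩ := hx
    rw [map_mul, φ_u, φ_u]
    split_ifs <;> simp [Matrix.mul_apply, Fin.sum_univ_two, (gm_diag _).1, (gm_diag _).2]
  | algebraMap r => rw [AlgHom.commutes, Matrix.algebraMap_eq_diagonal]; simp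
  | add x y _ _ hx hy => simp [hx.1, hx.2, hy.1, hy.2]
  | mul x y _ _ hx hy => simp [Matrix.mul_apply, Fin.sum_univ_two, hx.1, hx.2, hy.1, hy.2]

/-- The algebra map `O(PH_n^+) → ℂ[t, t⁻¹]`. -/
noncomputable def ψ (n : ℕ) : OPH n →ₐ[ℂ] LaurentPolynomial ℂ where
  toFun x := φ n x 0 0
  map_one' := by simp
  map_mul' x y := by simp [Matrix.mul_apply, Fin.sum_univ_two, (φ_off x.2).1]
  map_zero' := by simp
  map_add' x y := by simp
  commutes' r := by
    change φ n (algebraMap ℂ (OH n) r) 0 0 = _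
    rw [AlgHom.commutes, Matrix.algebraMap_eq_diagonal]; simp

open LaurentPolynomial in
theorem no_surjection (n : ℕ) (hn : 2 ≤ n) (N : ℕ) :
    ¬ ∃ f : OS N →ₐ[ℂ] OPH n, Function.Surjective f := by
  rintro ⟨f, hf⟩
  have hr : ((ψ n).comp f).range ≤ ⊥ := by
    rw [← Algebra.map_top, ← adjoin_gen (RelS N), AlgHom.map_adjoin, Algebra.adjoin_le_iff]
    rintro _ ⟨_, ⟨⟨i, j⟩, rfl⟩, rfl⟩
    have h1 : gen (RelS N) (i, j) * gen (RelS N) (i, j) = gen (RelS N) (i, j) := by
      have := RingQuot.mkAlgHom_rel ℂ (RelS.idem i j)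
      rwa [map_mul] at this
    have h2 := congrArg ((ψ n).comp f) h1
    rw [map_mul] at h2
    rcases IsIdempotentElem.iff_eq_zero_or_one.1 h2 with h | h
    · rw [h]; exact zero_mem _
    · rw [h]; exact one_mem _
  let i0 : Fin n := ⟨0, by omega⟩
  let i1 : Fin n := ⟨1, by omega⟩
  have hmem : uH i0 i0 * uH i1 i1 ∈ OPH n := Algebra.subset_adjoin ⟨_, _, _, _, rfl⟩
  obtain ⟨a, ha⟩ := hf ⟨_, hmem⟩
  have h3 : ((ψ n).comp f) a = T 1 := by
    rw [AlgHom.comp_apply, ha]
    change φ n (uH i0 i0 * uH i1 i1) 0 0 = _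
    rw [map_mul, φ_u, φ_u, if_pos rfl, if_pos rfl]
    simp [gm, i0, i1, Matrix.mul_apply, Fin.sum_univ_two]
  have h4 : T 1 ∈ (⊥ : Subalgebra ℂ (LaurentPolynomial ℂ)) := by
    rw [← h3]; exact hr ⟨a, rfl⟩
  rw [Algebra.mem_bot] at h4
  obtain ⟨c, hc⟩ := h4
  have h5 := congrArg (fun g : LaurentPolynomial ℂ => g.coeff 1) hc
  simp only [LaurentPolynomial.algebraMap_apply, Algebra.algebraMap_self, RingHom.id_apply] at h5
  rw [← LaurentPolynomial.single_eq_C, LaurentPolynomial.T] at h5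
  simp at h5

end Pool.Agent.Q112.PH
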