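import Mathlib

open scoped TensorProduct

universe u

namespace Pool.Agent.Q112.Rack

/-- A rack bialgebra structure on a coalgebra `C`: a group-like element `1` and a coalgebra
morphism `C ⊗ C → C`, `x ⊗ y ↦ x ◁ y`, subject to the axioms of a rack bialgebra. -/
structure RackBialgebra (k : Type) [Field k] (C : Type) [AddCommGroup C] [Module k C]
    [Coalgebra k C] where
  one : C
  comul_one : Coalgebra.comul (R := k) one = one ⊗ₜ[k] one
  counit_one : Coalgebra.counit (R := k) one = 1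
  /-- the operation `x ◁ y`; being a coalgebra morphism it satisfies `ε(x ◁ y) = ε(x) ε(y)` -/
  op : C ⊗[k] C →ₗc[k] C
  /-- `(x ◁ y) ◁ z = (x ◁ z₁) ◁ (y ◁ z₂)` -/
  distrib : ∀ x y z : C, op (op (x ⊗ₜ y) ⊗ₜ z) =
    op (TensorProduct.map ((op : C ⊗[k] C →ₗ[k] C) ∘ₗ TensorProduct.mk k C C x)
      ((op : C ⊗[k] C →ₗ[k] C) ∘ₗ TensorProduct.mk k C C y) (Coalgebra.comul (R := k) z))
  op_one : ∀ x : C, op (x ⊗ₜ one) = x
  one_op : ∀ x : C, op (one ⊗ₜ x) = Coalgebra.counit (R := k) x • one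

/-- The data and axioms expressing a rack bialgebra `C` as a Yetter-Drinfel'd rack over a
bialgebra `H`. -/
structure YetterDrinfeldRack {k : Type} [Field k] {C : Type} [AddCommGroup C] [Module k C]
    [Coalgebra k C] (R : RackBialgebra k C) (H : Type u) [Ring H] [Bialgebra k H] where
  /-- the right action `C ⊗ H → C`, a coalgebra morphism -/
  act : C ⊗[k] H →ₗc[k] C
  act_one : ∀ x : C, act (x ⊗ₜ 1) = x
  act_mul : ∀ (x : C) (g h : H), act (act (x ⊗ₜ g) ⊗ₜ h) = act (x ⊗ₜ (g * h))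
  /-- the morphism `q : C → H` of counital coalgebras -/
  q : C →ₗc[k] H
  q_one : q R.one = 1
  op_eq : ∀ a b : C, R.op (a ⊗ₜ b) = act (a ⊗ₜ q b)
  /-- `h₁ q(a · h₂) = q(a) h` -/
  yd : ∀ (h : H) (a : C), LinearMap.mul' k H (TensorProduct.map LinearMap.id
    ((q : C →ₗ[k] H) ∘ₗ (act : C ⊗[k] H →ₗ[k] C) ∘ₗ TensorProduct.mk k C H a)
    (Coalgebra.comul (R := k) h)) = q a * h

section Example

variable (k : Type) [Field k]

/-- The five-dimensional space with basis `1, h, u, v, b`. -/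
def C5 : Type := Fin 5 → k

noncomputable instance : AddCommGroup (C5 k) := inferInstanceAs (AddCommGroup (Fin 5 → k))
noncomputable instance : Module k (C5 k) := inferInstanceAs (Module k (Fin 5 → k))

/-- basis -/
noncomputable def bas : Module.Basis (Fin 5) k (C5 k) := Pi.basisFun k (Fin 5)

/-- basis vectors -/
noncomputable abbrev e (i : Fin 5) : C5 k := bas k i

/-- values of the comultiplication -/
noncomputable def cm : Fin 5 → C5 k ⊗[k] C5 k :=
  ![e k 0 ⊗ₜ e k 0, e k 1 ⊗ₜ e k 0 + e k 0 ⊗ₜ e k 1, e k 2 ⊗ₜ e k 0 + e k 0 ⊗ₜ e k 2,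
    e k 3 ⊗ₜ e k 0 + e k 0 ⊗ₜ e k 3, e k 4 ⊗ₜ e k 0 + e k 0 ⊗ₜ e k 4 + e k 2 ⊗ₜ e k 3]

/-- comultiplication -/
noncomputable def comulL : C5 k →ₗ[k] C5 k ⊗[k] C5 k := (bas k).constr k (cm k)
/-- counit -/
noncomputable def counitL : C5 k →ₗ[k] k := (bas k).constr k ![1, 0, 0, 0, 0]

lemma comulL_e (i : Fin 5) : comulL k (e k i) = cm k i := by
  rw [comulL, Module.Basis.constr_basis]
lemma counitL_e (i : Fin 5) : counitL k (e k i) = (![1, 0, 0, 0, 0] : Fin 5 → k) i := by
  rw [counitL, Module.Basis.constr_basis]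

noncomputable instance : Coalgebra k (C5 k) where
  comul := comulL k
  counit := counitL k
  coassoc := by
    apply (bas k).ext
    intro i
    simp only [LinearMap.comp_apply, LinearEquiv.coe_coe]
    change (TensorProduct.assoc k _ _ _) ((comulL k).rTensor _ (comulL k (e k i))) =
      (comulL k).lTensor _ (comulL k (e k i))
    rw [comulL_e]
    fin_cases i <;>
      simp [cm, comulL_e, TensorProduct.add_tmul, TensorProduct.tmul_add, -bas] <;> abel
  rTensor_counit_comp_comul := by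
    apply (bas k).ext
    intro i
    simp only [LinearMap.comp_apply]
    change (counitL k).rTensor _ (comulL k (e k i)) = _
    rw [comulL_e]
    fin_cases i <;> simp [cm, counitL_e]
  lTensor_counit_comp_comul := by
    apply (bas k).ext
    intro i
    simp only [LinearMap.comp_apply]
    change (counitL k).lTensor _ (comulL k (e k i)) = _
    rw [comulL_e]
    fin_cases i <;> simp [cm, counitL_e]

lemma comul_e (i : Fin 5) : Coalgebra.comul (R := k) (e k i) = cm k i := comulL_e k i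
lemma counit_e (i : Fin 5) : Coalgebra.counit (R := k) (e k i) =
    (![1, 0, 0, 0, 0] : Fin 5 → k) i := counitL_e k i

/-- multiplication table -/
noncomputable def T : Fin 5 → Fin 5 → C5 k :=
  ![![e k 0, 0, 0, 0, 0], ![e k 1, 0, e k 2, e k 3, 0], ![e k 2, -e k 2, 0, 0, 0],
    ![e k 3, -e k 3, 0, 0, 0], ![e k 4, -(e k 4 + e k 4), 0, 0, 0]]

/-- the operation as a linear map -/
noncomputable def opL : C5 k ⊗[k] C5 k →ₗ[k] C5 k :=
  ((bas k).tensorProduct (bas k)).constr k (fun ij => T k ij.1 ij.2)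

lemma opL_e (i j : Fin 5) : opL k (e k i ⊗ₜ e k j) = T k i j := by
  rw [opL, ← Module.Basis.tensorProduct_apply, Module.Basis.constr_basis]

/-- The operation. -/
noncomputable def op : C5 k ⊗[k] C5 k →ₗc[k] C5 k where
  __ := opL k
  counit_comp := by
    apply ((bas k).tensorProduct (bas k)).ext
    rintro ⟨i, j⟩
    rw [Module.Basis.tensorProduct_apply]
    change Coalgebra.counit (R := k) (opL k (e k i ⊗ₜ e k j)) = _
    rw [opL_e, TensorProduct.counit_tmul, counit_e, counit_e]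
    fin_cases i <;> fin_cases j <;> simp [T, counit_e]
  map_comp_comul := by
    apply ((bas k).tensorProduct (bas k)).ext
    rintro ⟨i, j⟩
    rw [Module.Basis.tensorProduct_apply]
    change TensorProduct.map (opL k) (opL k) (Coalgebra.comul (R := k) (e k i ⊗ₜ e k j)) =
      Coalgebra.comul (R := k) (opL k (e k i ⊗ₜ e k j))
    rw [opL_e, TensorProduct.comul_tmul, comul_e, comul_e]
    fin_cases i <;> fin_cases j <;>
      simp [T, cm, comul_e, TensorProduct.add_tmul, TensorProduct.tmul_add, opL_e,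
        TensorProduct.neg_tmul, TensorProduct.tmul_neg] <;> abel

lemma op_e (i j : Fin 5) : op k (e k i ⊗ₜ e k j) = T k i j := opL_e k i j

/-- The left hand side of self-distributivity. -/
noncomputable def F3 : (C5 k ⊗[k] C5 k) ⊗[k] C5 k →ₗ[k] C5 k :=
  opL k ∘ₗ TensorProduct.map (opL k) LinearMap.id

/-- The right hand side of self-distributivity. -/
noncomputable def G3 : (C5 k ⊗[k] C5 k) ⊗[k] C5 k →ₗ[k] C5 k :=
  opL k ∘ₗ TensorProduct.map (opL k) (opL k) ∘ₗ
    (TensorProduct.tensorTensorTensorComm k (C5 k) (C5 k) (C5 k) (C5 k)).toLinearMap ∘ₗ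
      TensorProduct.map LinearMap.id (comulL k)

lemma F3_eq_G3 : F3 k = G3 k := by
  apply (((bas k).tensorProduct (bas k)).tensorProduct (bas k)).ext
  rintro ⟨⟨i, j⟩, l⟩
  rw [Module.Basis.tensorProduct_apply, Module.Basis.tensorProduct_apply]
  change opL k (TensorProduct.map (opL k) LinearMap.id ((e k i ⊗ₜ e k j) ⊗ₜ e k l)) =
    opL k (TensorProduct.map (opL k) (opL k) (TensorProduct.tensorTensorTensorComm k _ _ _ _
      (TensorProduct.map LinearMap.id (comulL k) ((e k i ⊗ₜ e k j) ⊗ₜ e k l))))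
  rw [TensorProduct.map_tmul, TensorProduct.map_tmul, comulL_e, opL_e]
  fin_cases l <;> simp only [cm, TensorProduct.tmul_add, map_add,
    TensorProduct.tensorTensorTensorComm_tmul, TensorProduct.map_tmul, opL_e, LinearMap.id_apply,
    Fin.zero_eta, Fin.mk_one, Fin.reduceFinMk, Matrix.cons_val] <;>
  fin_cases i <;> fin_cases j <;>
    simp [T, opL_e, TensorProduct.add_tmul, TensorProduct.tmul_add, TensorProduct.neg_tmul,
      TensorProduct.tmul_neg]

lemma distrib (x y z : C5 k) : op k (op k (x ⊗ₜ y) ⊗ₜ z) =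
    op k (TensorProduct.map ((op k : C5 k ⊗[k] C5 k →ₗ[k] C5 k) ∘ₗ TensorProduct.mk k _ _ x)
      ((op k : C5 k ⊗[k] C5 k →ₗ[k] C5 k) ∘ₗ TensorProduct.mk k _ _ y)
        (Coalgebra.comul (R := k) z)) := by
  have h := LinearMap.congr_fun (F3_eq_G3 k) ((x ⊗ₜ y) ⊗ₜ z)
  have h2 : ∀ t : C5 k ⊗[k] C5 k,
      TensorProduct.map (opL k ∘ₗ TensorProduct.mk k _ _ x) (opL k ∘ₗ TensorProduct.mk k _ _ y) t =
      TensorProduct.map (opL k) (opL k) (TensorProduct.tensorTensorTensorComm k _ _ _ _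
        ((x ⊗ₜ[k] y) ⊗ₜ[k] t)) := by
    intro t
    induction t using TensorProduct.induction_on with
    | zero => simp
    | tmul a b => simp
    | add a b ha hb => rw [map_add, ha, hb, TensorProduct.tmul_add, map_add, map_add]
  refine h.trans ?_
  change opL k _ = opL k (TensorProduct.map (opL k ∘ₗ TensorProduct.mk k _ _ x)
    (opL k ∘ₗ TensorProduct.mk k _ _ y) (comulL k z))
  rw [h2]
  rfl

/-- The rack bialgebra. -/
noncomputable def rack : RackBialgebra k (C5 k) where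
  one := e k 0
  comul_one := comul_e k 0
  counit_one := by rw [counit_e]; rfl
  op := op k
  distrib := distrib k
  op_one := by
    intro x
    have : opL k ∘ₗ (TensorProduct.mk k (C5 k) (C5 k)).flip (e k 0) = LinearMap.id := by
      apply (bas k).ext
      intro i
      change opL k (e k i ⊗ₜ e k 0) = e k i
      rw [opL_e]
      fin_cases i <;> rfl
    exact LinearMap.congr_fun this x
  one_op := by
    intro x
    have : opL k ∘ₗ TensorProduct.mk k (C5 k) (C5 k) (e k 0) =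
        (counitL k).smulRight (e k 0) := by
      apply (bas k).ext
      intro i
      change opL k (e k 0 ⊗ₜ e k i) = counitL k (e k i) • e k 0
      rw [opL_e, counitL_e]
      fin_cases i <;> simp [T]
    exact LinearMap.congr_fun this x

/-- The rack bialgebra is not a Yetter-Drinfel'd rack. -/
theorem not_yd (H : Type u) [Ring H] [Bialgebra k H] :
    IsEmpty (YetterDrinfeldRack (rack k) H) := by
  constructor
  intro Y
  -- the images of the basis elements
  have hcomul : ∀ i, Coalgebra.comul (R := k) (Y.q (e k i)) =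
      TensorProduct.map (Y.q : C5 k →ₗ[k] H) (Y.q : C5 k →ₗ[k] H) (cm k i) := by
    intro i
    rw [← comul_e]
    exact (LinearMap.congr_fun Y.q.map_comp_comul (e k i)).symm
  have q0 : Y.q (e k 0) = 1 := Y.q_one
  have c1 : ∀ i : Fin 5, cm k i = e k i ⊗ₜ e k 0 + e k 0 ⊗ₜ e k i →
      Coalgebra.comul (R := k) (Y.q (e k i)) = Y.q (e k i) ⊗ₜ 1 + 1 ⊗ₜ Y.q (e k i) := by
    intro i hi
    rw [hcomul, hi, map_add, TensorProduct.map_tmul, TensorProduct.map_tmul]
    change Y.q (e k i) ⊗ₜ Y.q (e k 0) + Y.q (e k 0) ⊗ₜ Y.q (e k i) = _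
    rw [q0]
  have cA := c1 1 rfl
  have cU := c1 2 rfl
  have cV := c1 3 rfl
  have cQ : Coalgebra.comul (R := k) (Y.q (e k 4)) = Y.q (e k 4) ⊗ₜ 1 + 1 ⊗ₜ Y.q (e k 4) +
      Y.q (e k 2) ⊗ₜ Y.q (e k 3) := by
    rw [hcomul]
    change TensorProduct.map (Y.q : C5 k →ₗ[k] H) (Y.q : C5 k →ₗ[k] H)
      (e k 4 ⊗ₜ e k 0 + e k 0 ⊗ₜ e k 4 + e k 2 ⊗ₜ e k 3) = _
    rw [map_add, map_add, TensorProduct.map_tmul, TensorProduct.map_tmul, TensorProduct.map_tmul]
    change Y.q (e k 4) ⊗ₜ Y.q (e k 0) + Y.q (e k 0) ⊗ₜ Y.q (e k 4) + Y.q (e k 2) ⊗ₜ Y.q (e k 3) = _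
    rw [q0]
  have hact : ∀ i j, Y.act (e k i ⊗ₜ Y.q (e k j)) = T k i j := by
    intro i j
    rw [← Y.op_eq]
    exact op_e k i j
  -- Yetter-Drinfel'd condition for primitive elements
  have y2 := Y.yd (Y.q (e k 2)) (e k 1)
  have y3 := Y.yd (Y.q (e k 3)) (e k 1)
  have y4 := Y.yd (Y.q (e k 4)) (e k 1)
  rw [cU] at y2
  rw [cV] at y3
  rw [cQ] at y4
  simp only [map_add, TensorProduct.map_tmul, LinearMap.mul'_apply, LinearMap.id_apply] at y2 y3 y4
  change Y.q (e k 2) * Y.q (Y.act (e k 1 ⊗ₜ 1)) + 1 * Y.q (Y.act (e k 1 ⊗ₜ Y.q (e k 2))) = _ at y2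
  change Y.q (e k 3) * Y.q (Y.act (e k 1 ⊗ₜ 1)) + 1 * Y.q (Y.act (e k 1 ⊗ₜ Y.q (e k 3))) = _ at y3
  change Y.q (e k 4) * Y.q (Y.act (e k 1 ⊗ₜ 1)) + 1 * Y.q (Y.act (e k 1 ⊗ₜ Y.q (e k 4))) +
    Y.q (e k 2) * Y.q (Y.act (e k 1 ⊗ₜ Y.q (e k 3))) = _ at y4
  rw [Y.act_one, hact, one_mul] at y2 y3
  rw [Y.act_one, hact, hact, one_mul] at y4
  change _ + Y.q (e k 2) = _ at y2
  change _ + Y.q (e k 3) = _ at y3
  change _ + Y.q 0 + Y.q (e k 2) * Y.q (e k 3) = _ at y4
  rw [map_zero, add_zero] at y4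
  generalize hA : Y.q (e k 1) = A at *
  generalize hU : Y.q (e k 2) = U' at *
  generalize hV : Y.q (e k 3) = V' at *
  generalize hQ : Y.q (e k 4) = Q at *
  -- comultiply `Q A + U V = A Q`
  have z := congrArg (Coalgebra.comul (R := k)) y4
  rw [map_add, Bialgebra.comul_mul, Bialgebra.comul_mul, Bialgebra.comul_mul, cA, cU, cV, cQ] at z
  have key : U' ⊗ₜ[k] V' = V' ⊗ₜ[k] U' := by
    simp only [mul_add, add_mul, Algebra.TensorProduct.tmul_mul_tmul, one_mul, mul_one] at z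
    rw [← y4, ← y2, ← y3] at z
    simp only [TensorProduct.add_tmul, TensorProduct.tmul_add] at z
    rw [← sub_eq_zero] at z ⊢
    rw [← neg_eq_zero, ← z]
    abel
  have act2 := congrArg (TensorProduct.map
      ((Y.act : C5 k ⊗[k] H →ₗ[k] C5 k) ∘ₗ TensorProduct.mk k _ _ (e k 1))
      ((Y.act : C5 k ⊗[k] H →ₗ[k] C5 k) ∘ₗ TensorProduct.mk k _ _ (e k 1))) key
  rw [TensorProduct.map_tmul, TensorProduct.map_tmul] at act2
  have aU : Y.act (e k 1 ⊗ₜ U') = e k 2 := by rw [← hU, hact]; rfl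
  have aV : Y.act (e k 1 ⊗ₜ V') = e k 3 := by rw [← hV, hact]; rfl
  change Y.act (e k 1 ⊗ₜ U') ⊗ₜ Y.act (e k 1 ⊗ₜ V') =
    Y.act (e k 1 ⊗ₜ V') ⊗ₜ Y.act (e k 1 ⊗ₜ U') at act2
  rw [aU, aV] at act2
  have h3 := congrArg (LinearMap.mul' k k ∘ₗ
    TensorProduct.map ((bas k).coord 2) ((bas k).coord 3)) act2
  simp [-bas, Module.Basis.coord_apply, Finsupp.single_apply] at h3

end Example

theorem main (k : Type) [Field k] : ∃ (C : Type) (_ : AddCommGroup C) (_ : Module k C)
    (_ : Coalgebra k C) (R : RackBialgebra k C), FiniteDimensional k C ∧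
      ∀ (H : Type u) [Ring H] [Bialgebra k H], IsEmpty (YetterDrinfeldRack R H) :=
  ⟨C5 k, inferInstance, inferInstance, inferInstance, rack k,
    Module.Finite.of_basis (bas k), fun H _ _ => not_yd k H⟩

end Pool.Agent.Q112.Rack
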