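import Mathlib

open scoped TensorProduct

/-!
# Hopf orders in group algebras, lattices, `G_0^R(Λ)` and the map `φ_Λ`

`R` is a commutative ring, `K` a field that is an `R`-algebra (in the application the fraction
field of the domain `R`), `G` a group, and `K[G] = MonoidAlgebra K G` with Mathlib's Hopf algebra
structure (`Δ g = g ⊗ g`, `ε g = 1`, `S g = g⁻¹`).
-/

namespace Pool.Agent.Q112.Swan

section General

variable {R K G : Type} [CommRing R] [Field K] [Algebra R K] [Group G]

/-- `Λ` is an `R`-order in `K[G]`: a subring containing `1` (and closed under `R`-scalars) that is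
a finitely generated `R`-module with `K Λ = K[G]`. -/
structure IsOrder (Λ : Subalgebra R (MonoidAlgebra K G)) : Prop where
  finite : Module.Finite R Λ
  span_eq_top : Submodule.span K (Λ : Set (MonoidAlgebra K G)) = ⊤

/-- The `R`-span in `K[G] ⊗_K K[G]` of the pure tensors with both factors in `Λ`,
i.e. the image of `Λ ⊗_R Λ`. -/
noncomputable def tensorSquare (Λ : Subalgebra R (MonoidAlgebra K G)) :
    Submodule R (MonoidAlgebra K G ⊗[K] MonoidAlgebra K G) :=
  Submodule.span R {y | ∃ a ∈ Λ, ∃ b ∈ Λ, y = a ⊗ₜ[K] b}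

/-- `Λ` is an `R`-Hopf order in the group algebra `K[G]`: an order with
`Δ(Λ) ⊆ Λ ⊗_R Λ`, `ε(Λ) ⊆ R` and `S(Λ) ⊆ Λ`. -/
structure IsHopfOrder (Λ : Subalgebra R (MonoidAlgebra K G)) : Prop extends IsOrder Λ where
  comul_mem : ∀ x ∈ Λ, Coalgebra.comul (R := K) x ∈ tensorSquare Λ
  counit_mem : ∀ x ∈ Λ, Coalgebra.counit (R := K) x ∈ Set.range (algebraMap R K)
  antipode_mem : ∀ x ∈ Λ, HopfAlgebra.antipode K x ∈ Λ

/-- A `Λ`-lattice: a finitely generated left `Λ`-module that is free as an `R`-module (the
`R`-module structure being the one that comes from `Λ`). -/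
structure Lattice (Λ : Subalgebra R (MonoidAlgebra K G)) where
  carrier : Type
  [grp : AddCommGroup carrier]
  [modR : Module R carrier]
  [mod : Module Λ carrier]
  [tower : IsScalarTower R Λ carrier]
  [finite : Module.Finite Λ carrier]
  [free : Module.Free R carrier]

attribute [instance] Lattice.grp Lattice.modR Lattice.mod Lattice.tower Lattice.finite
  Lattice.free

/-- A finitely generated left module over a ring `A`. -/
structure FGMod (A : Type) [Ring A] where
  carrier : Type
  [grp : AddCommGroup carrier]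
  [mod : Module A carrier]
  [finite : Module.Finite A carrier]

attribute [instance] FGMod.grp FGMod.mod FGMod.finite

/-- `IsSES M' M M''`: there is a short exact sequence `0 → M' → M → M'' → 0` of `Λ`-lattices. -/
def Lattice.IsSES {Λ : Subalgebra R (MonoidAlgebra K G)} (M' M M'' : Lattice Λ) : Prop :=
  ∃ (i : M'.carrier →ₗ[Λ] M.carrier) (p : M.carrier →ₗ[Λ] M''.carrier),
    Function.Injective i ∧ Function.Exact i p ∧ Function.Surjective p

/-- `IsSES M' M M''`: there is a short exact sequence `0 → M' → M → M'' → 0` of finitely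
generated `A`-modules. -/
def FGMod.IsSES {A : Type} [Ring A] (M' M M'' : FGMod A) : Prop :=
  ∃ (i : M'.carrier →ₗ[A] M.carrier) (p : M.carrier →ₗ[A] M''.carrier),
    Function.Injective i ∧ Function.Exact i p ∧ Function.Surjective p

/-- The relations `[M] = [M'] + [M'']` for short exact sequences of `Λ`-lattices. -/
def Lattice.relations (Λ : Subalgebra R (MonoidAlgebra K G)) :
    AddSubgroup (FreeAbelianGroup (Lattice Λ)) :=
  AddSubgroup.closure {x | ∃ M' M M'' : Lattice Λ, Lattice.IsSES M' M M'' ∧
    x = FreeAbelianGroup.of M - FreeAbelianGroup.of M' - FreeAbelianGroup.of M''}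

/-- The relations `[M] = [M'] + [M'']` for short exact sequences of f.g. `A`-modules. -/
def FGMod.relations (A : Type) [Ring A] : AddSubgroup (FreeAbelianGroup (FGMod A)) :=
  AddSubgroup.closure {x | ∃ M' M M'' : FGMod A, FGMod.IsSES M' M M'' ∧
    x = FreeAbelianGroup.of M - FreeAbelianGroup.of M' - FreeAbelianGroup.of M''}

/-- `G_0^R(Λ)`: the abelian group generated by the `Λ`-lattices subject to
`[M] = [M'] + [M'']` for every short exact sequence of `Λ`-lattices (isomorphic lattices have
equal classes, by the sequence `0 → M → N → 0 → 0`). -/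
abbrev G0R (Λ : Subalgebra R (MonoidAlgebra K G)) : Type 1 :=
  FreeAbelianGroup (Lattice Λ) ⧸ Lattice.relations Λ

/-- `G_0(A)`: the Grothendieck group of finitely generated left `A`-modules. -/
abbrev G0 (A : Type) [Ring A] : Type 1 :=
  FreeAbelianGroup (FGMod A) ⧸ FGMod.relations A

variable [IsDomain R] [IsFractionRing R K]

/-- The canonical algebra map `K ⊗_R Λ → K[G]`, `a ⊗ λ ↦ a λ`. -/
noncomputable def mulHom (Λ : Subalgebra R (MonoidAlgebra K G)) :
    K ⊗[R] Λ →ₐ[K] MonoidAlgebra K G :=
  Algebra.TensorProduct.lift (Algebra.ofId K (MonoidAlgebra K G)) Λ.val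
    (fun a b => show Commute _ _ from Algebra.commute_algebraMap_left a (b : MonoidAlgebra K G))

omit [IsDomain R] [IsFractionRing R K] in
lemma mulHom_tmul (Λ : Subalgebra R (MonoidAlgebra K G)) (a : K) (b : Λ) :
    mulHom Λ (a ⊗ₜ b) = a • (b : MonoidAlgebra K G) := by
  rw [mulHom, Algebra.TensorProduct.lift_tmul, Algebra.ofId_apply, Algebra.smul_def]
  rfl

theorem mulHom_bijective {Λ : Subalgebra R (MonoidAlgebra K G)} (h : IsOrder Λ) :
    Function.Bijective (mulHom Λ) := by
  have key : IsLocalizedModule (nonZeroDivisors R) Λ.val.toLinearMap := by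
    refine ⟨?_, ?_, ?_⟩
    · intro x
      have hx : algebraMap R K x ≠ 0 := by
        have := nonZeroDivisors.ne_zero x.2
        rwa [Ne, FaithfulSMul.algebraMap_eq_zero_iff]
      rw [Module.End.isUnit_iff]
      constructor
      · intro a b hab
        rw [Module.algebraMap_end_apply, Module.algebraMap_end_apply,
          ← algebraMap_smul K (x : R) a, ← algebraMap_smul K (x : R) b] at hab
        exact smul_right_injective _ hx hab
      · intro a
        refine ⟨(algebraMap R K x)⁻¹ • a, ?_⟩
        rw [Module.algebraMap_end_apply, ← algebraMap_smul K (x : R), smul_smul,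
          mul_inv_cancel₀ hx, one_smul]
    · intro y
      have hy : y ∈ Submodule.span K (Λ : Set (MonoidAlgebra K G)) := by
        rw [h.span_eq_top]; trivial
      induction hy using Submodule.span_induction with
      | mem x hx => exact ⟨(⟨x, hx⟩, 1), by simp⟩
      | zero => exact ⟨(0, 1), by simp⟩
      | add x y _ _ hx hy =>
        obtain ⟨⟨a, s⟩, ha⟩ := hx
        obtain ⟨⟨b, t⟩, hb⟩ := hy
        refine ⟨((t : R) • a + (s : R) • b, s * t), ?_⟩
        simp only [Submonoid.smul_def, AlgHom.toLinearMap_apply, Subalgebra.coe_val] at ha hb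
        simp only [Submonoid.smul_def, Submonoid.coe_mul, AlgHom.toLinearMap_apply, map_add,
          map_smul, Subalgebra.coe_val, ← ha, ← hb, smul_add, smul_smul]
        rw [mul_comm (t : R) (s : R)]
      | smul c x _ hx =>
        obtain ⟨⟨a, s⟩, ha⟩ := hx
        obtain ⟨⟨u, v⟩, hc⟩ := IsLocalization.surj (nonZeroDivisors R) c
        refine ⟨(u • a, v * s), ?_⟩
        simp only [Submonoid.smul_def, AlgHom.toLinearMap_apply, Subalgebra.coe_val] at ha
        simp only [Submonoid.smul_def, Submonoid.coe_mul, AlgHom.toLinearMap_apply,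
          map_smul, Subalgebra.coe_val, ← ha]
        have hc' : c * algebraMap R K v = algebraMap R K u := hc
        calc ((v : R) * (s : R)) • c • x = ((algebraMap R K v) * (algebraMap R K s) * c) • x := by
              rw [← algebraMap_smul K, map_mul, smul_smul]
          _ = u • (s : R) • x := by
              rw [← algebraMap_smul K u, ← algebraMap_smul K (s : R), smul_smul, ← hc']
              congr 1; ring
    · intro x y hxy
      exact ⟨1, by simpa using Subtype.ext hxy⟩
  have hb : IsBaseChange K Λ.val.toLinearMap := IsLocalizedModule.isBaseChange (nonZeroDivisors R) K _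
  have : (mulHom Λ : K ⊗[R] Λ → MonoidAlgebra K G) = hb.equiv := by
    ext1 x
    induction x using TensorProduct.induction_on with
    | zero => simp
    | tmul a b => rw [mulHom_tmul, IsBaseChange.equiv_tmul]; rfl
    | add x y hx hy => rw [map_add, map_add, hx, hy]
  rw [this]
  exact hb.equiv.bijective

/-- For an order `Λ` the canonical map `K ⊗_R Λ → K[G]` is an isomorphism. -/
noncomputable def mulEquiv {Λ : Subalgebra R (MonoidAlgebra K G)} (h : IsOrder Λ) :
    K ⊗[R] Λ ≃ₐ[K] MonoidAlgebra K G :=
  AlgEquiv.ofBijective (mulHom Λ) (mulHom_bijective h)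

/-- The action of `K ⊗_R Λ` on `K ⊗_R M`: `(a ⊗ λ) (b ⊗ m) = (a b) ⊗ (λ m)`. -/
noncomputable def baseAct {Λ : Subalgebra R (MonoidAlgebra K G)} (M : Lattice Λ) :
    K ⊗[R] Λ →ₐ[K] Module.End K (K ⊗[R] M.carrier) :=
  (LinearMap.tensorProductEnd R K M.carrier).comp
    (Algebra.TensorProduct.map (AlgHom.id K K) (Algebra.lsmul R R M.carrier))

/-- The action of `K[G] ≃ K ⊗_R Λ` on `K ⊗_R M`. -/
noncomputable def act {Λ : Subalgebra R (MonoidAlgebra K G)} (h : IsOrder Λ) (M : Lattice Λ) :
    MonoidAlgebra K G →ₐ[K] Module.End K (K ⊗[R] M.carrier) :=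
  (baseAct M).comp (mulEquiv h).symm.toAlgHom

lemma act_coe {Λ : Subalgebra R (MonoidAlgebra K G)} (h : IsOrder Λ) (M : Lattice Λ)
    (l : Λ) (a : K) (m : M.carrier) :
    act h M (l : MonoidAlgebra K G) (a ⊗ₜ m) = a ⊗ₜ (l • m) := by
  have : (mulEquiv h).symm (l : MonoidAlgebra K G) = 1 ⊗ₜ l := by
    rw [AlgEquiv.symm_apply_eq, mulEquiv, AlgEquiv.ofBijective_apply, mulHom_tmul, one_smul]
  change baseAct M ((mulEquiv h).symm (l : MonoidAlgebra K G)) (a ⊗ₜ m) = _
  rw [this, baseAct, AlgHom.comp_apply, Algebra.TensorProduct.map_tmul]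
  change ((1 : K) • LinearMap.baseChange K (Algebra.lsmul R R M.carrier l)) (a ⊗ₜ m) = _
  rw [one_smul, LinearMap.baseChange_tmul]
  rfl

/-- Extension of scalars: the finitely generated `K[G]`-module `K ⊗_R M` of a `Λ`-lattice
`M`. -/
noncomputable def extend {Λ : Subalgebra R (MonoidAlgebra K G)} (h : IsOrder Λ) (M : Lattice Λ) :
    FGMod (MonoidAlgebra K G) :=
  letI : Module (MonoidAlgebra K G) (K ⊗[R] M.carrier) :=
    Module.compHom _ (act h M).toRingHom
  haveI : IsScalarTower K (MonoidAlgebra K G) (K ⊗[R] M.carrier) :=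
    ⟨fun a b x => by
      change act h M (a • b) x = a • act h M b x
      rw [map_smul]; rfl⟩
  haveI : Module.Finite R Λ := h.finite
  haveI : Module.Finite R M.carrier := Module.Finite.trans Λ M.carrier
  haveI : Module.Finite (MonoidAlgebra K G) (K ⊗[R] M.carrier) :=
    Module.Finite.of_restrictScalars_finite K (MonoidAlgebra K G) _
  { carrier := K ⊗[R] M.carrier }

lemma act_comm {Λ : Subalgebra R (MonoidAlgebra K G)} (h : IsOrder Λ) {M N : Lattice Λ}
    (f : M.carrier →ₗ[Λ] N.carrier) (x : MonoidAlgebra K G) (v : K ⊗[R] M.carrier) :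
    LinearMap.baseChange K (f.restrictScalars R) (act h M x v) =
      act h N x (LinearMap.baseChange K (f.restrictScalars R) v) := by
  have hx : x ∈ Submodule.span K (Λ : Set (MonoidAlgebra K G)) := by
    rw [h.span_eq_top]; trivial
  induction hx using Submodule.span_induction with
  | mem x hx =>
    induction v using TensorProduct.induction_on with
    | zero => simp
    | tmul a m =>
      have h1 := act_coe h M ⟨x, hx⟩ a m
      have h2 := act_coe h N ⟨x, hx⟩ a (f m)
      simp only at h1 h2
      rw [h1, LinearMap.baseChange_tmul, LinearMap.baseChange_tmul]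
      change _ = act h N x (a ⊗ₜ f m)
      rw [h2]
      congr 1
      exact map_smul f _ _
    | add v w hv hw => simp only [map_add, hv, hw]
  | zero => simp
  | add x y _ _ hx hy => simp only [map_add, LinearMap.add_apply, hx, hy]
  | smul c x _ hx => simp only [map_smul, LinearMap.smul_apply, hx]

/-- Base change of a morphism. -/
noncomputable def extendMap {Λ : Subalgebra R (MonoidAlgebra K G)} (h : IsOrder Λ)
    {M N : Lattice Λ} (f : M.carrier →ₗ[Λ] N.carrier) :
    (extend h M).carrier →ₗ[MonoidAlgebra K G] (extend h N).carrier where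
  toFun := LinearMap.baseChange K (f.restrictScalars R)
  map_add' x y := map_add (LinearMap.baseChange K (f.restrictScalars R)) x y
  map_smul' x v := act_comm h f x v

lemma extend_isSES {Λ : Subalgebra R (MonoidAlgebra K G)} (h : IsOrder Λ)
    {M' M M'' : Lattice Λ} (hs : Lattice.IsSES M' M M'') :
    FGMod.IsSES (extend h M') (extend h M) (extend h M'') := by
  obtain ⟨i, p, hi, hip, hp⟩ := hs
  have : Module.Flat R K := IsLocalization.flat K (nonZeroDivisors R)
  refine ⟨extendMap h i, extendMap h p, ?_, ?_, ?_⟩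
  · exact Module.Flat.lTensor_preserves_injective_linearMap (M := K) (i.restrictScalars R) hi
  · exact lTensor_exact K (f := i.restrictScalars R) (g := p.restrictScalars R) hip hp
  · exact LinearMap.lTensor_surjective K (g := p.restrictScalars R) hp

/-- The extension of scalars map `φ_Λ : G_0^R(Λ) → G_0(K[G])`, `[M] ↦ [K ⊗_R M]`. -/
noncomputable def phi {Λ : Subalgebra R (MonoidAlgebra K G)} (h : IsOrder Λ) :
    G0R Λ →+ G0 (MonoidAlgebra K G) :=
  QuotientAddGroup.lift (Lattice.relations Λ)
    (FreeAbelianGroup.lift fun M => QuotientAddGroup.mk (FreeAbelianGroup.of (extend h M)))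
    (by
      rw [Lattice.relations, AddSubgroup.closure_le]
      rintro x ⟨M', M, M'', hs, rfl⟩
      simp only [SetLike.mem_coe, AddMonoidHom.mem_ker, map_sub, FreeAbelianGroup.lift_apply_of]
      rw [← QuotientAddGroup.mk_sub, ← QuotientAddGroup.mk_sub, QuotientAddGroup.eq_zero_iff]
      exact AddSubgroup.subset_closure ⟨_, _, _, extend_isSES h hs, rfl⟩)

end General

end Pool.Agent.Q112.Swan
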