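import Mathlib

namespace Pool.Agent.Q112.Swan

section Parity

/-- data in a ring -/
structure Trip (A : Type) [Ring A] where
  f : A
  s : A
  t : A
  ff : f * f = f
  ss : s * s = 1
  tt : t * t = 1
  fs : f * s = s * f
  ft : f * t = t * f
  st : f * (s * t) = - (f * (t * s))

variable {A : Type} [Ring A] (T : Trip A)
variable (M : Type) [AddCommGroup M] [Module A M]

/-- the subgroup `B(M)` of those `m` for which `f (m + s m)` is divisible by `2` -/
def Trip.B : AddSubgroup M where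
  carrier := {m | ∃ n : M, T.f • (m + T.s • m) = n + n}
  zero_mem' := ⟨0, by simp⟩
  add_mem' := by
    rintro a b ⟨n, hn⟩ ⟨k, hk⟩
    refine ⟨n + k, ?_⟩
    have : T.f • (a + b + T.s • (a + b)) = T.f • (a + T.s • a) + T.f • (b + T.s • b) := by
      rw [← smul_add]; congr 1; rw [smul_add]; abel
    rw [this, hn, hk]; abel
  neg_mem' := by
    rintro a ⟨n, hn⟩
    refine ⟨-n, ?_⟩
    have : T.f • (-a + T.s • -a) = - (T.f • (a + T.s • a)) := by
      rw [← smul_neg]; congr 1; rw [smul_neg]; abel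
    rw [this, hn]; abel

/-- the `+1` part -/
def Trip.P : AddSubgroup M where
  carrier := {m | T.f • m = m ∧ T.s • m = m}
  zero_mem' := by simp
  add_mem' := by
    rintro a b ⟨h1, h2⟩ ⟨h3, h4⟩
    exact ⟨by rw [smul_add, h1, h3], by rw [smul_add, h2, h4]⟩
  neg_mem' := by
    rintro a ⟨h1, h2⟩
    exact ⟨by rw [smul_neg, h1], by rw [smul_neg, h2]⟩

/-- the `-1` part -/
def Trip.N : AddSubgroup M where
  carrier := {m | T.f • m = m ∧ T.s • m = - m}
  zero_mem' := by simp
  add_mem' := by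
    rintro a b ⟨h1, h2⟩ ⟨h3, h4⟩
    exact ⟨by rw [smul_add, h1, h3], by rw [smul_add, h2, h4]; abel⟩
  neg_mem' := by
    rintro a ⟨h1, h2⟩
    exact ⟨by rw [smul_neg, h1], by rw [smul_neg, h2]⟩

variable {M}
lemma Trip.mem_B {m : M} : m ∈ T.B M ↔ ∃ n : M, T.f • (m + T.s • m) = n + n := Iff.rfl
lemma Trip.mem_P {m : M} : m ∈ T.P M ↔ T.f • m = m ∧ T.s • m = m := Iff.rfl
lemma Trip.mem_N {m : M} : m ∈ T.N M ↔ T.f • m = m ∧ T.s • m = - m := Iff.rfl

lemma Trip.fsm (m : M) : T.f • T.s • m = T.s • T.f • m := by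
  rw [smul_smul, smul_smul, T.fs]
lemma Trip.ftm (m : M) : T.f • T.t • m = T.t • T.f • m := by
  rw [smul_smul, smul_smul, T.ft]
lemma Trip.ffm (m : M) : T.f • T.f • m = T.f • m := by
  rw [smul_smul, T.ff]
lemma Trip.ssm (m : M) : T.s • T.s • m = m := by
  rw [smul_smul, T.ss, one_smul]
lemma Trip.ttm (m : M) : T.t • T.t • m = m := by
  rw [smul_smul, T.tt, one_smul]

/-- torsion-freeness at 2 -/
def TF (M : Type) [AddCommGroup M] : Prop := ∀ x y : M, x + x = y + y → x = y

/-- key: from `f (m + s m) = n + n` get `n ∈ P` and `f m - n ∈ N`. -/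
lemma Trip.key_P (hM : TF M) {m n : M} (h : T.f • (m + T.s • m) = n + n) : n ∈ T.P M := by
  refine ⟨hM _ _ ?_, hM _ _ ?_⟩
  · rw [← smul_add, ← h, T.ffm]
  · rw [← smul_add, ← h, ← T.fsm, smul_add, T.ssm, add_comm]

lemma Trip.key_N (hM : TF M) {m n : M} (h : T.f • (m + T.s • m) = n + n) :
    T.f • m - n ∈ T.N M := by
  obtain ⟨h1, h2⟩ := T.key_P hM h
  refine ⟨by rw [smul_sub, T.ffm, h1], ?_⟩
  rw [smul_sub, h2, ← T.fsm]
  have : T.f • T.s • m = n + n - T.f • m := by
    rw [← h, smul_add]; abel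
  rw [this]; abel

variable {M' M'' : Type} [AddCommGroup M'] [Module A M'] [AddCommGroup M''] [Module A M'']

lemma Trip.comap_B (hM'' : TF M'') (i : M' →ₗ[A] M) (p : M →ₗ[A] M'')
    (hi : Function.Injective i) (hip : Function.Exact i p) :
    (T.B M).comap i.toAddMonoidHom = T.B M' := by
  ext m
  simp only [AddSubgroup.mem_comap, T.mem_B]
  change (∃ n, T.f • (i m + T.s • i m) = n + n) ↔ _
  rw [show T.f • (i m + T.s • i m) = i (T.f • (m + T.s • m)) by
    simp only [map_smul, map_add]]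
  constructor
  · rintro ⟨n, hn⟩
    have h0 : p n = 0 := by
      apply hM''
      have := congrArg p hn
      rw [hip.apply_apply_eq_zero, map_add] at this
      rw [← this, add_zero]
    obtain ⟨n', rfl⟩ := (hip n).1 h0
    exact ⟨n', hi (by rw [hn, map_add])⟩
  · rintro ⟨n, hn⟩
    exact ⟨i n, by rw [hn, map_add]⟩

lemma Trip.map_B_le (p : M →ₗ[A] M'') : (T.B M).map p.toAddMonoidHom ≤ T.B M'' := by
  rintro _ ⟨m, ⟨n, hn⟩, rfl⟩
  refine ⟨p n, ?_⟩
  change T.f • (p m + T.s • p m) = _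
  rw [← map_add, ← hn]
  simp only [map_smul, map_add]

lemma Trip.P_le_B : T.P M ≤ T.B M := by
  rintro m ⟨h1, h2⟩
  exact ⟨m, by rw [h2, smul_add, h1]⟩

lemma Trip.N_le_B : T.N M ≤ T.B M := by
  rintro m ⟨h1, h2⟩
  exact ⟨0, by rw [h2]; simp⟩

lemma Trip.map_B_inf_P (hM : TF M) (hM'' : TF M'') (p : M →ₗ[A] M'') :
    (T.B M).map p.toAddMonoidHom ⊓ T.P M'' = (T.P M).map p.toAddMonoidHom := by
  apply le_antisymm
  · rintro _ ⟨⟨m, ⟨n, hn⟩, rfl⟩, h1, h2⟩
    change T.f • p m = p m at h1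
    change T.s • p m = p m at h2
    refine ⟨n, T.key_P hM hn, ?_⟩
    change p n = p m
    apply hM''
    rw [← map_add, ← hn, map_smul, map_add, map_smul, h2, smul_add, h1]
  · rintro _ ⟨m, hm, rfl⟩
    refine ⟨⟨m, T.P_le_B hm, rfl⟩, ?_, ?_⟩
    · change T.f • p m = p m
      rw [← map_smul, hm.1]
    · change T.s • p m = p m
      rw [← map_smul, hm.2]

lemma Trip.map_B_sup_P_inf_N (hM : TF M) (hM'' : TF M'') (p : M →ₗ[A] M'') :
    ((T.B M).map p.toAddMonoidHom ⊔ T.P M'') ⊓ T.N M'' = (T.N M).map p.toAddMonoidHom := by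
  apply le_antisymm
  · rintro x ⟨hx, h1, h2⟩
    have hx' : x ∈ ((T.B M).map p.toAddMonoidHom ⊔ T.P M'' : AddSubgroup M'') := hx
    rw [AddSubgroup.mem_sup] at hx'
    obtain ⟨_, ⟨m, ⟨n, hn⟩, rfl⟩, y, ⟨hy1, hy2⟩, hxy⟩ := hx'
    change p m + y = x at hxy
    have hnP := T.key_P hM hn
    refine ⟨T.f • m - n, T.key_N hM hn, ?_⟩
    change p (T.f • m - n) = x
    have hpm : p m = x - y := by rw [← hxy]; abel
    have hpn : p n = - y := by
      apply hM''
      rw [← map_add, ← hn, map_smul, map_add, map_smul, hpm, smul_sub, h2, hy2, smul_add,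
        smul_sub, h1, hy1, smul_sub, smul_neg, h1, hy1]
      abel
    rw [map_sub, map_smul, hpn, hpm, smul_sub, h1, hy1]; abel
  · rintro _ ⟨m, hm, rfl⟩
    refine ⟨AddSubgroup.mem_sup_left ⟨m, T.N_le_B hm, rfl⟩, ?_, ?_⟩
    · change T.f • p m = p m
      rw [← map_smul, hm.1]
    · change T.s • p m = - p m
      rw [← map_smul, hm.2, map_neg]

lemma Trip.B_eq (hM'' : TF M'') (p : M →ₗ[A] M'') (hp : Function.Surjective p) :
    ((T.B M).map p.toAddMonoidHom ⊔ T.P M'') ⊔ T.N M'' = T.B M'' := by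
  apply le_antisymm
  · exact sup_le (sup_le (T.map_B_le p) T.P_le_B) T.N_le_B
  · rintro y ⟨n, hn⟩
    have h1 := T.key_P hM'' hn
    have h2 := T.key_N hM'' hn
    obtain ⟨m, rfl⟩ := hp y
    have h3 : p m - T.f • p m ∈ (T.B M).map p.toAddMonoidHom := by
      refine ⟨m - T.f • m, ⟨0, ?_⟩, ?_⟩
      · rw [smul_add, T.fsm, smul_sub, T.ffm]; simp
      · change p (m - T.f • m) = _
        rw [map_sub, map_smul]
    have : p m = (p m - T.f • p m) + n + (T.f • p m - n) := by abel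
    rw [this]
    exact AddSubgroup.add_mem_sup (AddSubgroup.add_mem_sup h3 h1) h2

/-- multiplication by `t` as an equivalence -/
def Trip.tEquiv : M'' ≃+ M'' where
  toFun m := T.t • m
  invFun m := T.t • m
  left_inv m := T.ttm m
  right_inv m := T.ttm m
  map_add' a b := smul_add _ a b

lemma Trip.stm {m : M} (h : T.f • m = m) : T.s • T.t • m = - (T.t • T.s • m) := by
  have h1 : T.f • T.s • T.t • m = T.s • T.t • m := by
    rw [T.fsm, T.ftm, h]
  have h2 : T.f • T.t • T.s • m = T.t • T.s • m := by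
    rw [T.ftm, T.fsm, h]
  rw [← h1, ← h2, smul_smul, smul_smul, smul_smul, smul_smul, ← neg_smul, mul_assoc, mul_assoc,
    T.st]

lemma Trip.map_t_P : (T.P M).map (T.tEquiv (M'' := M) : M →+ M) = T.N M := by
  apply le_antisymm
  · rintro _ ⟨m, ⟨h1, h2⟩, rfl⟩
    refine ⟨?_, ?_⟩
    · change T.f • T.t • m = T.t • m
      rw [T.ftm, h1]
    · change T.s • T.t • m = - (T.t • m)
      rw [T.stm h1, h2]
  · rintro m ⟨h1, h2⟩
    refine ⟨T.t • m, ⟨?_, ?_⟩, T.ttm m⟩
    · rw [T.ftm, h1]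
    · rw [T.stm h1, h2, smul_neg, neg_neg]

lemma Trip.relIndex_eq (p : M →ₗ[A] M'') :
    ((T.N M).map p.toAddMonoidHom).relIndex (T.N M'') =
      ((T.P M).map p.toAddMonoidHom).relIndex (T.P M'') := by
  rw [← T.map_t_P (M := M''), ← T.map_t_P (M := M)]
  have : ((T.P M).map (T.tEquiv (M'' := M) : M →+ M)).map p.toAddMonoidHom =
      ((T.P M).map p.toAddMonoidHom).map (T.tEquiv (M'' := M'') : M'' →+ M'') := by
    rw [AddSubgroup.map_map, AddSubgroup.map_map]
    congr 1
    ext m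
    change p (T.t • m) = T.t • p m
    rw [map_smul]
  rw [this, AddSubgroup.relIndex_map_map_of_injective]
  exact T.tEquiv.injective

/-- the multiplicativity up to squares -/
theorem Trip.index_B (hM : TF M) (hM'' : TF M'') (i : M' →ₗ[A] M) (p : M →ₗ[A] M'')
    (hi : Function.Injective i) (hip : Function.Exact i p) (hp : Function.Surjective p) :
    (T.B M).index = (T.B M').index * (T.B M'').index *
      (((T.P M).map p.toAddMonoidHom).relIndex (T.P M'')) ^ 2 := by
  have hker : p.toAddMonoidHom.ker = i.toAddMonoidHom.range := by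
    ext x
    exact hip x
  have e1 : (T.B M).relIndex p.toAddMonoidHom.ker = (T.B M').index := by
    rw [hker, ← AddSubgroup.index_comap, T.comap_B hM'' i p hi hip]
  have e2 : (T.B M).index = (T.B M).relIndex p.toAddMonoidHom.ker *
      ((T.B M).map p.toAddMonoidHom).index := by
    have h1 : ((T.B M).map p.toAddMonoidHom).index = (T.B M ⊔ p.toAddMonoidHom.ker).index := by
      rw [← AddSubgroup.comap_map_eq]
      exact (AddSubgroup.index_comap_of_surjective _ hp).symm
    have h2 : (T.B M).relIndex p.toAddMonoidHom.ker =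
        (T.B M).relIndex (T.B M ⊔ p.toAddMonoidHom.ker) :=
      (AddSubgroup.relIndex_sup_left _ _).symm
    rw [h1, h2]
    exact (AddSubgroup.relIndex_mul_index le_sup_left).symm
  have e3 : ((T.B M).map p.toAddMonoidHom).index =
      ((T.B M).map p.toAddMonoidHom).relIndex (T.B M'') * (T.B M'').index :=
    (AddSubgroup.relIndex_mul_index (T.map_B_le p)).symm
  have e4 : ((T.B M).map p.toAddMonoidHom).relIndex (T.B M'') =
      ((T.B M).map p.toAddMonoidHom).relIndex (T.P M'') *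
      ((T.B M).map p.toAddMonoidHom ⊔ T.P M'').relIndex (T.N M'') := by
    have h1 : ((T.B M).map p.toAddMonoidHom).relIndex (T.P M'') =
        ((T.B M).map p.toAddMonoidHom).relIndex ((T.B M).map p.toAddMonoidHom ⊔ T.P M'') :=
      (AddSubgroup.relIndex_sup_left _ _).symm
    have h2 : ((T.B M).map p.toAddMonoidHom ⊔ T.P M'').relIndex (T.N M'') =
        ((T.B M).map p.toAddMonoidHom ⊔ T.P M'').relIndex (T.B M'') := by
      rw [← T.B_eq hM'' p hp]
      exact (AddSubgroup.relIndex_sup_left _ _).symm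
    rw [h1, h2]
    refine (AddSubgroup.relIndex_mul_relIndex _ _ _ le_sup_left ?_).symm
    rw [← T.B_eq hM'' p hp]
    exact le_sup_left
  have e5 : ((T.B M).map p.toAddMonoidHom).relIndex (T.P M'') =
      ((T.P M).map p.toAddMonoidHom).relIndex (T.P M'') := by
    rw [← T.map_B_inf_P hM hM'' p]
    exact (AddSubgroup.inf_relIndex_right _ _).symm
  have e6 : ((T.B M).map p.toAddMonoidHom ⊔ T.P M'').relIndex (T.N M'') =
      ((T.N M).map p.toAddMonoidHom).relIndex (T.N M'') := by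
    rw [← T.map_B_sup_P_inf_N hM hM'' p]
    exact (AddSubgroup.inf_relIndex_right _ _).symm
  rw [e2, e3, e4, e5, e6, T.relIndex_eq p, e1]
  ring

end Parity

end Pool.Agent.Q112.Swan
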