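import Mathlib
import Pool.Agent.Q112.SwanDefs
import Pool.Agent.Q112.SwanParity

open scoped TensorProduct Pointwise

namespace Pool.Agent.Q112.Swan

abbrev R2 := ℤ_[2]
abbrev K2 := ℚ_[2]
abbrev D4 := DihedralGroup 4

open MonoidAlgebra (single)

/-- group element in the group algebra -/
noncomputable def gr (g : D4) : MonoidAlgebra K2 D4 := single g 1

lemma gr_mul (g h : D4) : gr g * gr h = gr (g * h) := by
  simp [gr, MonoidAlgebra.single_mul_single]

lemma gr_one : gr 1 = 1 := rfl

/-- the central idempotent `(1+z)/2` -/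
noncomputable def eK : MonoidAlgebra K2 D4 := (1/2 : K2) • (1 + gr (DihedralGroup.r 2))

lemma eK_comm (g : D4) : eK * gr g = gr g * eK := by
  have hz : DihedralGroup.r 2 * g = g * DihedralGroup.r 2 := by revert g; decide
  rw [eK, smul_mul_assoc, mul_smul_comm, add_mul, mul_add, one_mul, mul_one, gr_mul, gr_mul, hz]

lemma eK_idem : eK * eK = eK := by
  have hz : gr (DihedralGroup.r 2) * gr (DihedralGroup.r 2) = 1 := by
    rw [gr_mul, ← gr_one]; congr 1
  have : (1 + gr (DihedralGroup.r 2)) * (1 + gr (DihedralGroup.r 2)) =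
      (2 : K2) • (1 + gr (DihedralGroup.r 2)) := by
    rw [mul_add, add_mul, add_mul, hz, two_smul]; simp only [one_mul, mul_one]; abel
  rw [eK, smul_mul_smul_comm, this, smul_smul]
  norm_num

/-- generators of the order -/
def genSet : Set (MonoidAlgebra K2 D4) := Set.range gr ∪ Set.range (fun g => gr g * eK)

lemma genSet_mul : genSet * genSet ⊆ genSet := by
  rintro _ ⟨x, hx, y, hy, rfl⟩
  rcases hx with ⟨g, rfl⟩ | ⟨g, rfl⟩ <;> rcases hy with ⟨h, rfl⟩ | ⟨h, rfl⟩
  · exact Or.inl ⟨g * h, (gr_mul g h).symm⟩
  · exact Or.inr ⟨g * h, by simp only [← gr_mul, mul_assoc]⟩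
  · exact Or.inr ⟨g * h, by simp only [← gr_mul]; rw [mul_assoc, mul_assoc, eK_comm]⟩
  · refine Or.inr ⟨g * h, ?_⟩
    simp only [← gr_mul]
    rw [mul_assoc (gr g) eK, ← mul_assoc eK (gr h), eK_comm, mul_assoc (gr h) eK eK, eK_idem,
      mul_assoc]

/-- The order `Λ = R[G] + R[G] e`. -/
noncomputable def Lam : Subalgebra R2 (MonoidAlgebra K2 D4) :=
  Submodule.toSubalgebra (Submodule.span R2 genSet)
    (Submodule.subset_span (Or.inl ⟨1, gr_one⟩))
    (fun x y hx hy => by
      have := Submodule.mul_mem_mul hx hy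
      rw [Submodule.span_mul_span] at this
      exact Submodule.span_mono genSet_mul this)

lemma mem_Lam {x : MonoidAlgebra K2 D4} : x ∈ Lam ↔ x ∈ Submodule.span R2 genSet := Iff.rfl

lemma gr_mem (g : D4) : gr g ∈ Lam := Submodule.subset_span (Or.inl ⟨g, rfl⟩)
lemma gre_mem (g : D4) : gr g * eK ∈ Lam := Submodule.subset_span (Or.inr ⟨g, rfl⟩)
lemma eK_mem : eK ∈ Lam := by
  have := gre_mem 1
  rwa [gr_one, one_mul] at this

lemma genSet_finite : genSet.Finite := (Set.finite_range _).union (Set.finite_range _)

lemma Lam_isOrder : IsOrder Lam where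
  finite := by
    have : (Submodule.span R2 genSet).FG := Submodule.fg_span genSet_finite
    exact Module.Finite.iff_fg.2 this
  span_eq_top := by
    rw [eq_top_iff]
    rintro x -
    induction x using MonoidAlgebra.induction_linear with
    | zero => exact zero_mem _
    | add f g hf hg => exact add_mem hf hg
    | single g a =>
      have : (single g a : MonoidAlgebra K2 D4) = a • gr g := by
        rw [gr, MonoidAlgebra.smul_single]; simp
      rw [this]
      exact Submodule.smul_mem _ _ (Submodule.subset_span (gr_mem g))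

lemma comul_gr (g : D4) : Coalgebra.comul (R := K2) (gr g) = gr g ⊗ₜ gr g := by
  simp [gr]

lemma comul_eK : Coalgebra.comul (R := K2) eK = eK ⊗ₜ[K2] eK + (1 - eK) ⊗ₜ[K2] (1 - eK) := by
  rw [eK, map_smul, map_add, comul_gr, Bialgebra.comul_one, Algebra.TensorProduct.one_def]
  generalize (1 : MonoidAlgebra K2 D4) = a
  generalize gr (DihedralGroup.r 2) = b
  have : (a - (1/2 : K2) • (a + b)) = (1/2 : K2) • (a - b) := by module
  rw [this]
  simp only [← TensorProduct.smul_tmul', TensorProduct.tmul_smul, TensorProduct.tmul_add,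
    TensorProduct.add_tmul, TensorProduct.tmul_sub, TensorProduct.sub_tmul, smul_add, smul_sub]
  module

lemma Lam_isHopfOrder : IsHopfOrder Lam where
  toIsOrder := Lam_isOrder
  comul_mem := by
    intro x hx
    rw [mem_Lam] at hx
    induction hx using Submodule.span_induction with
    | zero => rw [map_zero]; exact zero_mem _
    | add x y _ _ hx hy => rw [map_add]; exact add_mem hx hy
    | smul r x _ hx =>
      rw [← algebraMap_smul K2 r x, map_smul, algebraMap_smul]
      exact Submodule.smul_mem _ _ hx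
    | mem x hx =>
      rcases hx with ⟨g, rfl⟩ | ⟨g, rfl⟩
      · rw [comul_gr]
        exact Submodule.subset_span ⟨_, gr_mem g, _, gr_mem g, rfl⟩
      · change Coalgebra.comul (R := K2) (gr g * eK) ∈ _
        rw [Bialgebra.comul_mul, comul_gr, comul_eK, mul_add, Algebra.TensorProduct.tmul_mul_tmul,
          Algebra.TensorProduct.tmul_mul_tmul]
        have h2 : gr g * (1 - eK) ∈ Lam := mul_mem (gr_mem g) (sub_mem (one_mem _) eK_mem)
        exact add_mem (Submodule.subset_span ⟨_, gre_mem g, _, gre_mem g, rfl⟩)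
          (Submodule.subset_span ⟨_, h2, _, h2, rfl⟩)
  counit_mem := by
    intro x hx
    rw [mem_Lam] at hx
    have : ∃ r : R2, algebraMap R2 K2 r = Coalgebra.counit (R := K2) x := by
      induction hx using Submodule.span_induction with
      | zero => exact ⟨0, by simp⟩
      | add x y _ _ hx hy =>
        obtain ⟨a, ha⟩ := hx
        obtain ⟨b, hb⟩ := hy
        exact ⟨a + b, by rw [map_add, map_add, ha, hb]⟩
      | smul r x _ hx =>
        obtain ⟨a, ha⟩ := hx
        refine ⟨r * a, ?_⟩
        rw [← algebraMap_smul K2 r x, map_smul, map_mul, ha, smul_eq_mul]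
      | mem x hx =>
        have hg : ∀ g, Coalgebra.counit (R := K2) (gr g) = 1 := fun g => by simp [gr]
        have he : Coalgebra.counit (R := K2) eK = 1 := by
          rw [eK, map_smul, map_add, Bialgebra.counit_one, hg]; norm_num
        rcases hx with ⟨g, rfl⟩ | ⟨g, rfl⟩
        · exact ⟨1, by rw [hg, map_one]⟩
        · refine ⟨1, ?_⟩
          change _ = Coalgebra.counit (R := K2) (gr g * eK)
          rw [Bialgebra.counit_mul, hg, he, map_one, one_mul]
    exact this
  antipode_mem := by
    intro x hx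
    rw [mem_Lam] at hx
    have hg : ∀ g, HopfAlgebra.antipode K2 (gr g) = gr g⁻¹ := fun g => by simp [gr]
    have hge : ∀ g, HopfAlgebra.antipode K2 (gr g * eK) = gr g⁻¹ * eK := by
      intro g
      rw [eK, mul_smul_comm, map_smul, mul_add, mul_one, map_add, gr_mul, hg, hg, mul_smul_comm,
        mul_add, mul_one, gr_mul]
      have : (g * DihedralGroup.r 2)⁻¹ = g⁻¹ * DihedralGroup.r 2 := by revert g; decide
      rw [this]
    induction hx using Submodule.span_induction with
    | zero => rw [map_zero]; exact zero_mem _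
    | add x y _ _ hx hy => rw [map_add]; exact add_mem hx hy
    | smul r x _ hx =>
      rw [← algebraMap_smul K2 r x, map_smul, algebraMap_smul]
      exact Subalgebra.smul_mem _ hx _
    | mem x hx =>
      rcases hx with ⟨g, rfl⟩ | ⟨g, rfl⟩
      · rw [hg]; exact gr_mem _
      · change HopfAlgebra.antipode K2 (gr g * eK) ∈ _
        rw [hge]; exact gre_mem _

end Pool.Agent.Q112.Swan
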