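import Mathlib
import Pool.Agent.Q112.SwanOrder

open scoped TensorProduct Pointwise

namespace Pool.Agent.Q112.Swan

open MonoidAlgebra (single)

/-- matrices -/
def mkFun (J S : Matrix (Fin 2) (Fin 2) ℤ) : D4 → Matrix (Fin 2) (Fin 2) ℤ
  | DihedralGroup.r i => J ^ i.val
  | DihedralGroup.sr i => S * J ^ i.val

def J0 : Matrix (Fin 2) (Fin 2) ℤ := !![0, 1; -1, 0]
def S0 : Matrix (Fin 2) (Fin 2) ℤ := !![1, 0; 0, -1]
def J1 : Matrix (Fin 2) (Fin 2) ℤ := !![1, 2; -1, -1]
def S1 : Matrix (Fin 2) (Fin 2) ℤ := !![1, 0; -1, -1]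

lemma mkFun_mul (J S : Matrix (Fin 2) (Fin 2) ℤ) (h1 : J ^ 4 = 1) (h2 : S * S = 1)
    (h3 : J * S * J = S) (a b : D4) :
    mkFun J S (a * b) = mkFun J S a * mkFun J S b := by
  have hJ : ∀ n : ℕ, J ^ (n % 4) = J ^ n := fun n => by
    conv_rhs => rw [← Nat.div_add_mod n 4, pow_add, pow_mul, h1, one_pow, one_mul]
  have hv : ∀ x y : ZMod 4, J ^ (x + y).val = J ^ x.val * J ^ y.val := fun x y => by
    rw [ZMod.val_add, hJ, pow_add]
  have hJS : ∀ n : ℕ, J ^ n * S * J ^ n = S := by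
    intro n
    induction n with
    | zero => simp
    | succ n ih =>
      calc J ^ (n + 1) * S * J ^ (n + 1) = J ^ n * (J * S * J) * J ^ n := by
            rw [pow_succ J n]; nth_rewrite 2 [← pow_succ]; rw [pow_succ']; noncomm_ring
        _ = S := by rw [h3, ih]
  have hJS' : ∀ x y : ZMod 4, J ^ x.val * S * J ^ y.val = S * J ^ (y - x).val := by
    intro x y
    conv_lhs => rw [show y = x + (y - x) by ring, hv]
    rw [← mul_assoc, hJS]
  rcases a with i | i <;> rcases b with j | j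
  · exact hv i j
  · change S * J ^ (j - i).val = J ^ i.val * (S * J ^ j.val)
    rw [← mul_assoc, hJS']
  · change S * J ^ (i + j).val = S * J ^ i.val * J ^ j.val
    rw [hv, mul_assoc]
  · change J ^ (j - i).val = S * J ^ i.val * (S * J ^ j.val)
    rw [mul_assoc, ← mul_assoc (J ^ i.val), hJS', ← mul_assoc, h2, one_mul]

/-- representation -/
def mkRep (J S : Matrix (Fin 2) (Fin 2) ℤ) (h1 : J ^ 4 = 1) (h2 : S * S = 1)
    (h3 : J * S * J = S) : D4 →* Matrix (Fin 2) (Fin 2) ℤ where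
  toFun := mkFun J S
  map_one' := by
    change mkFun J S (DihedralGroup.r 0) = 1
    simp [mkFun]
  map_mul' := mkFun_mul J S h1 h2 h3

def rep0 : D4 →* Matrix (Fin 2) (Fin 2) ℤ := mkRep J0 S0 (by decide) (by decide) (by decide)
def rep1 : D4 →* Matrix (Fin 2) (Fin 2) ℤ := mkRep J1 S1 (by decide) (by decide) (by decide)

/-- representation over `K` -/
noncomputable def repK (ρ : D4 →* Matrix (Fin 2) (Fin 2) ℤ) :
    MonoidAlgebra K2 D4 →ₐ[K2] Matrix (Fin 2) (Fin 2) K2 :=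
  MonoidAlgebra.lift K2 (Matrix (Fin 2) (Fin 2) K2) D4
    (((Int.castRingHom K2).mapMatrix (m := Fin 2)).toMonoidHom.comp ρ)

lemma repK_gr (ρ : D4 →* Matrix (Fin 2) (Fin 2) ℤ) (g : D4) :
    repK ρ (gr g) = (ρ g).map (Int.castRingHom K2) := by
  rw [repK, gr, MonoidAlgebra.lift_single, one_smul]
  rfl

/-- inclusion of matrix rings -/
noncomputable def inc : Matrix (Fin 2) (Fin 2) R2 →ₐ[R2] Matrix (Fin 2) (Fin 2) K2 :=
  (Algebra.ofId R2 K2).mapMatrix

lemma inc_injective : Function.Injective inc := by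
  intro a b h
  ext i j
  have : (inc a) i j = (inc b) i j := by rw [h]
  have h2 : algebraMap R2 K2 (a i j) = algebraMap R2 K2 (b i j) := this
  exact FaithfulSMul.algebraMap_injective R2 K2 h2

lemma repK_mem (ρ : D4 →* Matrix (Fin 2) (Fin 2) ℤ) (hz : ρ (DihedralGroup.r 2) = -1)
    (x : MonoidAlgebra K2 D4) (hx : x ∈ Submodule.span R2 genSet) :
    ((repK ρ).restrictScalars R2) x ∈ inc.range := by
  have hg : ∀ g, (repK ρ) (gr g) = inc ((ρ g).map (Int.castRingHom R2)) := by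
    intro g
    rw [repK_gr]
    ext i j
    simp [inc]
  have he : repK ρ eK = 0 := by
    rw [eK, map_smul, map_add, map_one, hg, hz]
    ext i j
    fin_cases i <;> fin_cases j <;> simp [inc]
  induction hx using Submodule.span_induction with
  | zero => rw [map_zero]; exact zero_mem _
  | add x y _ _ hx hy => rw [map_add]; exact add_mem hx hy
  | smul r x _ hx =>
    rw [map_smul]
    exact Subalgebra.smul_mem _ hx _
  | mem x hx =>
    rcases hx with ⟨g, rfl⟩ | ⟨g, rfl⟩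
    · exact ⟨_, (hg g).symm⟩
    · change (repK ρ) (gr g * eK) ∈ _
      rw [map_mul, he, mul_zero]; exact zero_mem _

/-- the representation of `Λ` over `R` -/
noncomputable def repR (ρ : D4 →* Matrix (Fin 2) (Fin 2) ℤ) (hz : ρ (DihedralGroup.r 2) = -1) :
    Lam →ₐ[R2] Matrix (Fin 2) (Fin 2) R2 :=
  (AlgEquiv.ofInjective inc inc_injective).symm.toAlgHom.comp
    ((((repK ρ).restrictScalars R2).comp Lam.val).codRestrict inc.range
      (fun x => repK_mem ρ hz x.1 (mem_Lam.1 x.2)))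

lemma inc_repR (ρ : D4 →* Matrix (Fin 2) (Fin 2) ℤ) (hz : ρ (DihedralGroup.r 2) = -1) (x : Lam) :
    inc (repR ρ hz x) = repK ρ x := by
  have := AlgEquiv.apply_symm_apply (AlgEquiv.ofInjective inc inc_injective)
    (((((repK ρ).restrictScalars R2).comp Lam.val).codRestrict inc.range
      (fun x => repK_mem ρ hz x.1 (mem_Lam.1 x.2))) x)
  exact congrArg Subtype.val this

lemma repR_gr (ρ : D4 →* Matrix (Fin 2) (Fin 2) ℤ) (hz : ρ (DihedralGroup.r 2) = -1) (g : D4) :
    repR ρ hz ⟨gr g, gr_mem g⟩ = (ρ g).map (Int.castRingHom R2) := by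
  apply inc_injective
  rw [inc_repR, repK_gr]
  ext i j
  simp [inc]

lemma repR_e (ρ : D4 →* Matrix (Fin 2) (Fin 2) ℤ) (hz : ρ (DihedralGroup.r 2) = -1) :
    repR ρ hz ⟨eK, eK_mem⟩ = 0 := by
  apply inc_injective
  rw [inc_repR, map_zero]
  change repK ρ eK = 0
  rw [eK, map_smul, map_add, map_one, repK_gr, hz]
  ext i j
  fin_cases i <;> fin_cases j <;> simp

/-- The lattice `R²` with the action through `ρ`. -/
noncomputable def lat (ρ : D4 →* Matrix (Fin 2) (Fin 2) ℤ) (hz : ρ (DihedralGroup.r 2) = -1) :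
    Lattice Lam :=
  letI : Module Lam (Fin 2 → R2) := Module.compHom _
    ((Matrix.toLinAlgEquiv' (R := R2) (n := Fin 2)).toAlgHom.comp (repR ρ hz)).toRingHom
  haveI : IsScalarTower R2 Lam (Fin 2 → R2) := ⟨fun a b v => by
    change Matrix.toLinAlgEquiv' (repR ρ hz (a • b)) v = a • Matrix.toLinAlgEquiv' (repR ρ hz b) v
    rw [map_smul, map_smul]; rfl⟩
  haveI : Module.Finite Lam (Fin 2 → R2) := Module.Finite.of_restrictScalars_finite R2 Lam _
  { carrier := Fin 2 → R2 }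

lemma lat_smul (ρ : D4 →* Matrix (Fin 2) (Fin 2) ℤ) (hz : ρ (DihedralGroup.r 2) = -1)
    (x : Lam) (v : Fin 2 → R2) :
    (x • (show (lat ρ hz).carrier from v) : (lat ρ hz).carrier) = (repR ρ hz x).mulVec v := by
  change Matrix.toLinAlgEquiv' (repR ρ hz x) v = _
  rw [Matrix.toLinAlgEquiv'_apply]

end Pool.Agent.Q112.Swan
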