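import Mathlib
import Pool.Agent.Q112.SwanLat

open scoped TensorProduct Pointwise

namespace Pool.Agent.Q112.Swan

open MonoidAlgebra (single)

lemma z_mul : gr (DihedralGroup.r 2) * gr (DihedralGroup.r 2) = 1 := by
  rw [gr_mul, ← gr_one]; congr 1

lemma e_z : (1 - eK) * (1 + gr (DihedralGroup.r 2)) = 0 := by
  have : (1 + gr (DihedralGroup.r 2)) = (2 : K2) • eK := by
    rw [eK, smul_smul]; norm_num
  rw [this, mul_smul_comm, sub_mul, one_mul, eK_idem, sub_self, smul_zero]

/-- the triple `(1-e, s, t)` in `Λ` -/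
noncomputable def tr : Trip Lam where
  f := 1 - ⟨eK, eK_mem⟩
  s := ⟨gr (DihedralGroup.sr 0), gr_mem _⟩
  t := ⟨gr (DihedralGroup.sr 1), gr_mem _⟩
  ff := by
    have : (⟨eK, eK_mem⟩ : Lam) * ⟨eK, eK_mem⟩ = ⟨eK, eK_mem⟩ := Subtype.ext eK_idem
    rw [sub_mul, one_mul, mul_sub, mul_one, this]; abel
  ss := by
    apply Subtype.ext
    change gr _ * gr _ = 1
    rw [gr_mul, ← gr_one]; congr 1
  tt := by
    apply Subtype.ext
    change gr _ * gr _ = 1
    rw [gr_mul, ← gr_one]; congr 1
  fs := by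
    apply Subtype.ext
    change (1 - eK) * gr _ = gr _ * (1 - eK)
    rw [sub_mul, mul_sub, one_mul, mul_one, eK_comm]
  ft := by
    apply Subtype.ext
    change (1 - eK) * gr _ = gr _ * (1 - eK)
    rw [sub_mul, mul_sub, one_mul, mul_one, eK_comm]
  st := by
    apply Subtype.ext
    change (1 - eK) * (gr _ * gr _) = - ((1 - eK) * (gr _ * gr _))
    rw [gr_mul, gr_mul, eq_neg_iff_add_eq_zero, ← mul_add]
    have h1 : (DihedralGroup.sr 0 * DihedralGroup.sr 1 : D4) = 1 * DihedralGroup.r 1 := by decide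
    have h2 : (DihedralGroup.sr 1 * DihedralGroup.sr 0 : D4) =
      DihedralGroup.r 2 * DihedralGroup.r 1 := by decide
    rw [h1, h2, ← gr_mul, ← gr_mul, gr_one, ← add_mul, ← mul_assoc, e_z, zero_mul]

lemma tf_lattice (M : Lattice Lam) : TF M.carrier := by
  intro x y h
  have h2 : (2 : R2) • x = (2 : R2) • y := by rw [two_smul, two_smul, h]
  have : Module.IsTorsionFree R2 M.carrier := inferInstance
  exact smul_right_injective M.carrier (two_ne_zero : (2 : R2) ≠ 0) h2

lemma finite_quot : Finite (R2 ⧸ (Ideal.span {(2 : R2)})) := by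
  have h : Ideal.span {(2 : R2)} = RingHom.ker (PadicInt.toZMod (p := 2)) := by
    rw [PadicInt.ker_toZMod, PadicInt.maximalIdeal_eq_span_p]; norm_num
  rw [h]
  have := RingHom.quotientKerEquivOfSurjective (f := PadicInt.toZMod (p := 2))
    (ZMod.ringHom_surjective _)
  exact Finite.of_equiv _ this.symm.toEquiv

lemma index_ne_zero (M : Lattice Lam) : (tr.B M.carrier).index ≠ 0 := by
  have := finite_quot
  have : Module.Finite R2 Lam := Lam_isOrder.finite
  have : Module.Finite R2 M.carrier := Module.Finite.trans Lam M.carrier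
  let I : Ideal R2 := Ideal.span {(2 : R2)}
  let S : Submodule R2 M.carrier := I • (⊤ : Submodule R2 M.carrier)
  have : Finite (R2 ⧸ I) := finite_quot
  have : Finite (M.carrier ⧸ S) := Module.finite_of_finite (R2 ⧸ I)
  have hS : S.toAddSubgroup ≤ tr.B M.carrier := by
    intro x hx
    have hx' : x ∈ Ideal.span {(2 : R2)} • (⊤ : Submodule R2 M.carrier) := hx
    rw [Submodule.ideal_span_singleton_smul, Submodule.mem_smul_pointwise_iff_exists] at hx'
    obtain ⟨y, -, rfl⟩ := hx'
    refine ⟨tr.f • (y + tr.s • y), ?_⟩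
    have e1 : (2 : R2) • y = y + y := two_smul _ _
    change tr.f • ((2 : R2) • y + tr.s • (2 : R2) • y) = _
    rw [e1, ← smul_add]
    congr 1
    rw [smul_add]; abel
  have h1 : S.toAddSubgroup.index ≠ 0 := by
    have : Finite (M.carrier ⧸ S.toAddSubgroup) := ‹Finite (M.carrier ⧸ S)›
    exact AddSubgroup.index_ne_zero_of_finite
  intro h0
  have := AddSubgroup.index_dvd_of_le hS
  rw [h0] at this
  exact h1 (Nat.eq_zero_of_zero_dvd this)

/-- the parity of a lattice -/
noncomputable def par (M : Lattice Lam) : ZMod 2 :=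
  ((padicValNat 2 (tr.B M.carrier).index : ℕ) : ZMod 2)

lemma par_add {M' M M'' : Lattice Lam} (h : Lattice.IsSES M' M M'') : par M = par M' + par M'' := by
  obtain ⟨i, p, hi, hip, hp⟩ := h
  have key := tr.index_B (tf_lattice M) (tf_lattice M'') i p hi hip hp
  have h0 := index_ne_zero M
  have h1 := index_ne_zero M'
  have h2 := index_ne_zero M''
  set c := ((tr.P M.carrier).map p.toAddMonoidHom).relIndex (tr.P M''.carrier)
  have hc : c ≠ 0 := by
    rintro hc
    rw [hc] at key
    apply h0; rw [key]; simp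
  have hc2 : c ^ 2 ≠ 0 := pow_ne_zero _ hc
  rw [par, par, par, key, padicValNat.mul (mul_ne_zero h1 h2) hc2, padicValNat.mul h1 h2,
    pow_two, padicValNat.mul hc hc]
  push_cast
  rw [CharTwo.add_self_eq_zero, add_zero]

noncomputable def parHom : G0R Lam →+ ZMod 2 :=
  QuotientAddGroup.lift (Lattice.relations Lam) (FreeAbelianGroup.lift par)
    (by
      rw [Lattice.relations, AddSubgroup.closure_le]
      rintro x ⟨M', M, M'', hs, rfl⟩
      simp only [SetLike.mem_coe, AddMonoidHom.mem_ker, map_sub, FreeAbelianGroup.lift_apply_of]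
      rw [par_add hs]; abel)


lemma hz0 : rep0 (DihedralGroup.r 2) = -1 := by decide
lemma hz1 : rep1 (DihedralGroup.r 2) = -1 := by decide

/-- the underlying vector -/
noncomputable def un (ρ : D4 →* Matrix (Fin 2) (Fin 2) ℤ) (hz : ρ (DihedralGroup.r 2) = -1) :
    (lat ρ hz).carrier ≃ₗ[R2] (Fin 2 → R2) := LinearEquiv.refl R2 (Fin 2 → R2)

lemma un_smul (ρ : D4 →* Matrix (Fin 2) (Fin 2) ℤ) (hz : ρ (DihedralGroup.r 2) = -1)
    (x : Lam) (v : (lat ρ hz).carrier) :
    un ρ hz (x • v) = (repR ρ hz x).mulVec (un ρ hz v) :=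
  lat_smul ρ hz x v

lemma un_tr_f (ρ : D4 →* Matrix (Fin 2) (Fin 2) ℤ) (hz : ρ (DihedralGroup.r 2) = -1)
    (v : (lat ρ hz).carrier) : un ρ hz (tr.f • v) = un ρ hz v := by
  rw [un_smul]
  change (repR ρ hz (1 - ⟨eK, eK_mem⟩)).mulVec _ = _
  rw [map_sub, map_one, repR_e, sub_zero, Matrix.one_mulVec]

lemma un_tr_s (ρ : D4 →* Matrix (Fin 2) (Fin 2) ℤ) (hz : ρ (DihedralGroup.r 2) = -1)
    (v : (lat ρ hz).carrier) : un ρ hz (tr.s • v) =
      ((ρ (DihedralGroup.sr 0)).map (Int.castRingHom R2)).mulVec (un ρ hz v) := by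
  rw [un_smul]
  change (repR ρ hz ⟨gr (DihedralGroup.sr 0), gr_mem _⟩).mulVec _ = _
  rw [repR_gr]

lemma mem_B_lat (ρ : D4 →* Matrix (Fin 2) (Fin 2) ℤ) (hz : ρ (DihedralGroup.r 2) = -1)
    (v : (lat ρ hz).carrier) : v ∈ tr.B (lat ρ hz).carrier ↔
      ∃ n : Fin 2 → R2, un ρ hz v +
        ((ρ (DihedralGroup.sr 0)).map (Int.castRingHom R2)).mulVec (un ρ hz v) = n + n := by
  rw [Trip.mem_B]
  constructor
  · rintro ⟨n, hn⟩
    refine ⟨un ρ hz n, ?_⟩
    rw [← un_tr_s, ← map_add, ← map_add, ← hn, un_tr_f]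
  · rintro ⟨n, hn⟩
    refine ⟨(un ρ hz).symm n, (un ρ hz).injective ?_⟩
    rw [un_tr_f, map_add, map_add, un_tr_s, hn, LinearEquiv.apply_symm_apply]

lemma index0 : (tr.B (lat rep0 hz0).carrier).index = 1 := by
  rw [AddSubgroup.index_eq_one, eq_top_iff]
  rintro v -
  rw [mem_B_lat]
  refine ⟨![un rep0 hz0 v 0, 0], ?_⟩
  have : rep0 (DihedralGroup.sr 0) = !![1, 0; 0, -1] := by decide
  rw [this]
  ext i
  fin_cases i
  · simp [Matrix.mulVec, dotProduct, Fin.sum_univ_two]
  · simp [Matrix.mulVec, dotProduct, Fin.sum_univ_two]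

lemma mem_B1 (v : (lat rep1 hz1).carrier) :
    v ∈ tr.B (lat rep1 hz1).carrier ↔ ∃ c : R2, un rep1 hz1 v 0 = c + c := by
  rw [mem_B_lat]
  have : rep1 (DihedralGroup.sr 0) = !![1, 0; -1, -1] := by decide
  rw [this]
  constructor
  · rintro ⟨n, hn⟩
    have := congrFun hn 1
    simp [Matrix.mulVec, dotProduct, Fin.sum_univ_two] at this
    exact ⟨- n 1, by linear_combination -this⟩
  · rintro ⟨c, hc⟩
    refine ⟨![un rep1 hz1 v 0, -c], ?_⟩
    ext i
    fin_cases i
    · simp [Matrix.mulVec, dotProduct, Fin.sum_univ_two]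
    · simp [Matrix.mulVec, dotProduct, Fin.sum_univ_two, hc]

lemma even_iff (c : R2) : (∃ d, c = d + d) ↔ PadicInt.toZMod c = 0 := by
  have h : RingHom.ker (PadicInt.toZMod (p := 2)) = Ideal.span {(2 : R2)} := by
    rw [PadicInt.ker_toZMod, PadicInt.maximalIdeal_eq_span_p]; norm_num
  rw [← RingHom.mem_ker, h, Ideal.mem_span_singleton]
  constructor
  · rintro ⟨d, rfl⟩; exact ⟨d, (two_mul d).symm⟩
  · rintro ⟨d, rfl⟩; exact ⟨d, two_mul d⟩

lemma index1 : (tr.B (lat rep1 hz1).carrier).index = 2 := by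
  rw [AddSubgroup.index_eq_two_iff]
  refine ⟨(un rep1 hz1).symm ![1, 0], fun v => ?_⟩
  rw [mem_B1, mem_B1, even_iff, even_iff, map_add, LinearEquiv.apply_symm_apply, Pi.add_apply,
    map_add]
  generalize PadicInt.toZMod (un rep1 hz1 v 0) = x
  simp only [Matrix.cons_val_zero, map_one]
  revert x
  decide

lemma intertwineZ (g : D4) : (!![1, 0; 1, 2] : Matrix (Fin 2) (Fin 2) ℤ) * rep1 g =
    rep0 g * !![1, 0; 1, 2] := by
  revert g; decide

/-- the comparison matrix -/
noncomputable def PR : Matrix (Fin 2) (Fin 2) R2 :=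
  (!![1, 0; 1, 2] : Matrix (Fin 2) (Fin 2) ℤ).map (Int.castRingHom R2)

lemma inc_map (A : Matrix (Fin 2) (Fin 2) ℤ) :
    inc (A.map (Int.castRingHom R2)) = A.map (Int.castRingHom K2) := by
  ext i j
  simp [inc]

lemma intertwineK (x : MonoidAlgebra K2 D4) : inc PR * repK rep1 x = repK rep0 x * inc PR := by
  rw [PR, inc_map]
  induction x using MonoidAlgebra.induction_linear with
  | zero => simp
  | add f g hf hg => rw [map_add, map_add, mul_add, add_mul, hf, hg]
  | single g a =>
    have : (single g a : MonoidAlgebra K2 D4) = a • gr g := by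
      rw [gr, MonoidAlgebra.smul_single]; simp
    rw [this, map_smul, map_smul, repK_gr, repK_gr, mul_smul_comm, smul_mul_assoc,
      ← Matrix.map_mul, ← Matrix.map_mul, intertwineZ]

lemma intertwineR (x : Lam) : PR * repR rep1 hz1 x = repR rep0 hz0 x * PR := by
  apply inc_injective
  rw [map_mul, map_mul, inc_repR, inc_repR, intertwineK]

/-- the comparison map `M1 → M0` -/
noncomputable def cmp : (lat rep1 hz1).carrier →ₗ[Lam] (lat rep0 hz0).carrier where
  toFun v := (un rep0 hz0).symm (PR.mulVec (un rep1 hz1 v))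
  map_add' v w := by rw [map_add, Matrix.mulVec_add, map_add]
  map_smul' x v := by
    apply (un rep0 hz0).injective
    rw [un_smul, RingHom.id_apply, un_smul]
    simp only [LinearEquiv.apply_symm_apply, Matrix.mulVec_mulVec]
    rw [intertwineR]

lemma cmp_injective : Function.Injective cmp := by
  intro v w h
  have h1 : PR.mulVec (un rep1 hz1 v) = PR.mulVec (un rep1 hz1 w) := (un rep0 hz0).symm.injective h
  apply (un rep1 hz1).injective
  have e0 := congrFun h1 0
  have e1 := congrFun h1 1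
  simp [PR, Matrix.mulVec, dotProduct, Fin.sum_univ_two] at e0 e1
  ext i
  fin_cases i
  · simp [e0]
  · rw [e0] at e1
    simpa using e1

lemma two_smul_mem (w : (lat rep0 hz0).carrier) : ∃ v, cmp v = (2 : R2) • w := by
  refine ⟨(un rep1 hz1).symm ![2 * un rep0 hz0 w 0, un rep0 hz0 w 1 - un rep0 hz0 w 0], ?_⟩
  apply (un rep0 hz0).injective
  rw [map_smul]
  change PR.mulVec (un rep1 hz1 ((un rep1 hz1).symm _)) = _
  rw [LinearEquiv.apply_symm_apply]
  ext i
  fin_cases i
  · simp [PR, Matrix.mulVec, dotProduct, Fin.sum_univ_two]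
  · simp [PR, Matrix.mulVec, dotProduct, Fin.sum_univ_two]
    ring

lemma extendMap_cmp_bijective : Function.Bijective (extendMap Lam_isOrder cmp) := by
  constructor
  · haveI : Module.Flat R2 K2 := IsLocalization.flat K2 (nonZeroDivisors R2)
    exact Module.Flat.lTensor_preserves_injective_linearMap (M := K2) (cmp.restrictScalars R2)
      cmp_injective
  · have key : ∀ x : K2 ⊗[R2] (lat rep0 hz0).carrier,
        ∃ y, LinearMap.baseChange K2 (cmp.restrictScalars R2) y = x := by
      intro x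
      induction x using TensorProduct.induction_on with
      | zero => exact ⟨0, by simp⟩
      | tmul a w =>
        obtain ⟨v, hv⟩ := two_smul_mem w
        refine ⟨(a / 2) ⊗ₜ v, ?_⟩
        rw [LinearMap.baseChange_tmul]
        change (a / 2) ⊗ₜ[R2] (cmp v) = _
        rw [hv, TensorProduct.tmul_smul, TensorProduct.smul_tmul']
        congr 1
        rw [Algebra.smul_def]
        have : algebraMap R2 K2 2 = 2 := map_ofNat _ 2
        rw [this]; field_simp
      | add x y hx hy =>
        obtain ⟨u, hu⟩ := hx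
        obtain ⟨v, hv⟩ := hy
        exact ⟨u + v, by rw [map_add, hu, hv]⟩
    exact key

/-- zero module -/
def zeroMod (A : Type) [Ring A] : FGMod A where
  carrier := PUnit

instance (A : Type) [Ring A] : Subsingleton (zeroMod A).carrier :=
  inferInstanceAs (Subsingleton PUnit)

lemma G0_rel {A : Type} [Ring A] {M' M M'' : FGMod A} (hs : FGMod.IsSES M' M M'') :
    (QuotientAddGroup.mk (FreeAbelianGroup.of M) : G0 A) =
      QuotientAddGroup.mk (FreeAbelianGroup.of M') + QuotientAddGroup.mk (FreeAbelianGroup.of M'') := by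
  have h : FreeAbelianGroup.of M - FreeAbelianGroup.of M' - FreeAbelianGroup.of M'' ∈
      FGMod.relations A := AddSubgroup.subset_closure ⟨_, _, _, hs, rfl⟩
  have h2 := (QuotientAddGroup.eq_zero_iff _).2 h
  rw [QuotientAddGroup.mk_sub, QuotientAddGroup.mk_sub] at h2
  rw [← sub_eq_zero, ← h2]; abel

lemma G0_zero (A : Type) [Ring A] :
    (QuotientAddGroup.mk (FreeAbelianGroup.of (zeroMod A)) : G0 A) = 0 := by
  have : FGMod.IsSES (zeroMod A) (zeroMod A) (zeroMod A) :=
    ⟨LinearMap.id, LinearMap.id, Function.injective_id,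
      fun x => ⟨fun _ => ⟨0, Subsingleton.elim _ _⟩, fun _ => Subsingleton.elim _ _⟩,
      Function.surjective_id⟩
  have h := G0_rel this
  exact left_eq_add.1 h

lemma G0_iso {A : Type} [Ring A] {M N : FGMod A} (f : M.carrier →ₗ[A] N.carrier)
    (hf : Function.Bijective f) :
    (QuotientAddGroup.mk (FreeAbelianGroup.of M) : G0 A) =
      QuotientAddGroup.mk (FreeAbelianGroup.of N) := by
  have hs : FGMod.IsSES M N (zeroMod A) := by
    refine ⟨f, 0, hf.1, fun x => ?_, fun x => ⟨0, Subsingleton.elim _ _⟩⟩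
    constructor
    · intro _; exact hf.2 x
    · intro _; rfl
  rw [G0_rel hs, G0_zero, add_zero]

/-- the class `[M0] - [M1]` -/
noncomputable def cls : G0R Lam :=
  QuotientAddGroup.mk (FreeAbelianGroup.of (lat rep0 hz0)) -
    QuotientAddGroup.mk (FreeAbelianGroup.of (lat rep1 hz1))

lemma phi_mk (M : Lattice Lam) :
    phi Lam_isOrder (QuotientAddGroup.mk (FreeAbelianGroup.of M)) =
      QuotientAddGroup.mk (FreeAbelianGroup.of (extend Lam_isOrder M)) := by
  have : phi Lam_isOrder (QuotientAddGroup.mk (FreeAbelianGroup.of M)) =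
    FreeAbelianGroup.lift (fun M => (QuotientAddGroup.mk (FreeAbelianGroup.of
      (extend Lam_isOrder M)) : G0 (MonoidAlgebra K2 D4))) (FreeAbelianGroup.of M) := rfl
  rw [this, FreeAbelianGroup.lift_apply_of]

lemma phi_cls : phi Lam_isOrder cls = 0 := by
  rw [cls, map_sub, sub_eq_zero, phi_mk, phi_mk]
  exact (G0_iso (extendMap Lam_isOrder cmp) extendMap_cmp_bijective).symm

lemma parHom_mk (M : Lattice Lam) :
    parHom (QuotientAddGroup.mk (FreeAbelianGroup.of M)) = par M := by
  have : parHom (QuotientAddGroup.mk (FreeAbelianGroup.of M)) =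
    FreeAbelianGroup.lift par (FreeAbelianGroup.of M) := rfl
  rw [this, FreeAbelianGroup.lift_apply_of]

lemma parHom_cls : parHom cls ≠ 0 := by
  rw [cls, map_sub, parHom_mk, parHom_mk, par, par, index0, index1]
  simp

theorem exists_not_injective : ∃ (L : Subalgebra ℤ_[2] (MonoidAlgebra ℚ_[2] (DihedralGroup 4)))
    (h : IsHopfOrder L), ¬ Function.Injective (phi h.toIsOrder) := by
  refine ⟨Lam, Lam_isHopfOrder, fun hinj => ?_⟩
  have : cls = 0 := hinj (by rw [phi_cls, map_zero])
  exact parHom_cls (by rw [this, map_zero])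

end Pool.Agent.Q112.Swan
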