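import Mathlib

set_option maxHeartbeats 4000000
open Matrix

namespace Pool.Agent.Q112.TP

/-- A `1/2`-derivation of a complex Lie algebra: `φ[x,y] = 1/2 ([φ x, y] + [x, φ y])`. -/
def IsHalfDerivation {L : Type} [LieRing L] [LieAlgebra ℂ L] (φ : L →ₗ[ℂ] L) : Prop :=
  ∀ x y : L, φ ⁅x, y⁆ = (1 / 2 : ℂ) • (⁅φ x, y⁆ + ⁅x, φ y⁆)

/-- Every `1/2`-derivation of `L` is a scalar multiple of the identity. -/
def OnlyTrivialHalfDerivations (L : Type) [LieRing L] [LieAlgebra ℂ L] : Prop :=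
  ∀ φ : L →ₗ[ℂ] L, IsHalfDerivation φ → ∃ a : ℂ, φ = a • LinearMap.id

/-- A transposed Poisson structure on `L`: a bilinear product that is commutative, associative and
satisfies `2 z · [x, y] = [z · x, y] + [x, z · y]`. -/
structure IsTransposedPoisson {L : Type} [LieRing L] [LieAlgebra ℂ L]
    (m : L →ₗ[ℂ] L →ₗ[ℂ] L) : Prop where
  comm : ∀ x y, m x y = m y x
  assoc : ∀ x y z, m (m x y) z = m x (m y z)
  compat : ∀ x y z, (2 : ℂ) • m z ⁅x, y⁆ = ⁅m z x, y⁆ + ⁅x, m z y⁆

/-- Every transposed Poisson structure on `L` is zero. -/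
def OnlyTrivialTransposedPoisson (L : Type) [LieRing L] [LieAlgebra ℂ L] : Prop :=
  ∀ m : L →ₗ[ℂ] L →ₗ[ℂ] L, IsTransposedPoisson m → m = 0

/-- `π : E → L` is an indecomposable one-dimensional central extension with central element `c`:
`π` is surjective, its kernel is the line `ℂ c` with `c ≠ 0` central, and `π` does not split as a
homomorphism of Lie algebras. -/
structure IsIndecomposableCentralExtension {E L : Type} [LieRing E] [LieAlgebra ℂ E] [LieRing L]
    [LieAlgebra ℂ L] (π : E →ₗ⁅ℂ⁆ L) (c : E) : Prop where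
  surjective : Function.Surjective π
  ne_zero : c ≠ 0
  central : ∀ x : E, ⁅c, x⁆ = 0
  ker : ∀ x : E, π x = 0 ↔ ∃ a : ℂ, x = a • c
  not_split : ¬ ∃ s : L →ₗ⁅ℂ⁆ E, ∀ x : L, π (s x) = x

/-- vectors -/
abbrev Vec := Fin 2 → ℂ
/-- matrices -/
abbrev Mat := Matrix (Fin 2) (Fin 2) ℂ

/-- `gl₂ ⋉ (V ⊕ V*)` -/
def LL : Type := Mat × Vec × Vec

noncomputable instance : AddCommGroup LL := inferInstanceAs (AddCommGroup (Mat × Vec × Vec))
noncomputable instance : Module ℂ LL := inferInstanceAs (Module ℂ (Mat × Vec × Vec))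

/-- constructor -/
def mk (A : Mat) (v w : Vec) : LL := (A, v, w)
/-- matrix part -/
def LL.A (x : LL) : Mat := x.1
/-- vector part -/
def LL.v (x : LL) : Vec := x.2.1
/-- covector part -/
def LL.w (x : LL) : Vec := x.2.2

lemma LL.ext {x y : LL} (h1 : x.A = y.A) (h2 : x.v = y.v) (h3 : x.w = y.w) : x = y :=
  Prod.ext h1 (Prod.ext h2 h3)

@[simp] lemma mk_A (A : Mat) (v w : Vec) : (mk A v w).A = A := rfl
@[simp] lemma mk_v (A : Mat) (v w : Vec) : (mk A v w).v = v := rfl
@[simp] lemma mk_w (A : Mat) (v w : Vec) : (mk A v w).w = w := rfl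
@[simp] lemma add_A (x y : LL) : (x + y).A = x.A + y.A := rfl
@[simp] lemma add_v (x y : LL) : (x + y).v = x.v + y.v := rfl
@[simp] lemma add_w (x y : LL) : (x + y).w = x.w + y.w := rfl
@[simp] lemma zero_A : (0 : LL).A = 0 := rfl
@[simp] lemma zero_v : (0 : LL).v = 0 := rfl
@[simp] lemma zero_w : (0 : LL).w = 0 := rfl
@[simp] lemma smul_A (c : ℂ) (x : LL) : (c • x).A = c • x.A := rfl
@[simp] lemma smul_v (c : ℂ) (x : LL) : (c • x).v = c • x.v := rfl
@[simp] lemma smul_w (c : ℂ) (x : LL) : (c • x).w = c • x.w := rfl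

noncomputable instance : Bracket LL LL where
  bracket x y := mk (x.A * y.A - y.A * x.A) (x.A *ᵥ y.v - y.A *ᵥ x.v)
    (y.Aᵀ *ᵥ x.w - x.Aᵀ *ᵥ y.w)

@[simp] lemma br_A (x y : LL) : ⁅x, y⁆.A = x.A * y.A - y.A * x.A := rfl
@[simp] lemma br_v (x y : LL) : ⁅x, y⁆.v = x.A *ᵥ y.v - y.A *ᵥ x.v := rfl
@[simp] lemma br_w (x y : LL) : ⁅x, y⁆.w = y.Aᵀ *ᵥ x.w - x.Aᵀ *ᵥ y.w := rfl

noncomputable instance : LieRing LL where
  add_lie x y z := by
    apply LL.ext
    · simp [add_mul, mul_add]; abel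
    · ext i; fin_cases i <;> simp [Matrix.mulVec, dotProduct, Fin.sum_univ_two] <;> ring
    · ext i; fin_cases i <;> simp [Matrix.mulVec, dotProduct, Fin.sum_univ_two] <;> ring
  lie_add x y z := by
    apply LL.ext
    · simp [add_mul, mul_add]; abel
    · ext i; fin_cases i <;> simp [Matrix.mulVec, dotProduct, Fin.sum_univ_two] <;> ring
    · ext i; fin_cases i <;> simp [Matrix.mulVec, dotProduct, Fin.sum_univ_two] <;> ring
  lie_self x := by
    apply LL.ext <;> simp
  leibniz_lie x y z := by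
    apply LL.ext
    · simp; noncomm_ring
    · ext i; fin_cases i <;> simp [Matrix.mulVec, dotProduct, Fin.sum_univ_two, Matrix.mul_apply] <;> ring
    · ext i; fin_cases i <;> simp [Matrix.mulVec, dotProduct, Fin.sum_univ_two, Matrix.mul_apply] <;> ring

noncomputable instance : LieAlgebra ℂ LL where
  lie_smul c x y := by
    apply LL.ext
    · simp [smul_sub]
    · ext i; fin_cases i <;> simp [Matrix.mulVec, dotProduct, Fin.sum_univ_two] <;> ring
    · ext i; fin_cases i <;> simp [Matrix.mulVec, dotProduct, Fin.sum_univ_two] <;> ring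

/-- the grading element -/
noncomputable def d : LL := mk 1 0 0

/-- the cocycle -/
noncomputable def om (x y : LL) : ℂ := x.w ⬝ᵥ y.v - y.w ⬝ᵥ x.v

/-- the central extension -/
def EE : Type := LL × ℂ

noncomputable instance : AddCommGroup EE := inferInstanceAs (AddCommGroup (LL × ℂ))
noncomputable instance : Module ℂ EE := inferInstanceAs (Module ℂ (LL × ℂ))

/-- constructor -/
def mkE (x : LL) (a : ℂ) : EE := (x, a)
/-- `L` part -/
def EE.x (e : EE) : LL := e.1
/-- central part -/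
def EE.a (e : EE) : ℂ := e.2

lemma EE.ext {x y : EE} (h1 : x.x = y.x) (h2 : x.a = y.a) : x = y := Prod.ext h1 h2
@[simp] lemma mkE_x (x : LL) (a : ℂ) : (mkE x a).x = x := rfl
@[simp] lemma mkE_a (x : LL) (a : ℂ) : (mkE x a).a = a := rfl
@[simp] lemma add_x (x y : EE) : (x + y).x = x.x + y.x := rfl
@[simp] lemma add_a (x y : EE) : (x + y).a = x.a + y.a := rfl
@[simp] lemma zero_x : (0 : EE).x = 0 := rfl
@[simp] lemma zero_a : (0 : EE).a = 0 := rfl
@[simp] lemma smul_x (c : ℂ) (x : EE) : (c • x).x = c • x.x := rfl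
@[simp] lemma smul_a (c : ℂ) (x : EE) : (c • x).a = c * x.a := rfl

noncomputable instance : Bracket EE EE where
  bracket x y := mkE ⁅x.x, y.x⁆ (om x.x y.x)

@[simp] lemma brE_x (x y : EE) : ⁅x, y⁆.x = ⁅x.x, y.x⁆ := rfl
@[simp] lemma brE_a (x y : EE) : ⁅x, y⁆.a = om x.x y.x := rfl

lemma om_cocycle (x y z : LL) : om x ⁅y, z⁆ = om ⁅x, y⁆ z + om y ⁅x, z⁆ := by
  simp [om, Matrix.mulVec_sub, dotProduct, Matrix.mulVec, Fin.sum_univ_two]
  ring

noncomputable instance : LieRing EE where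
  add_lie x y z := by
    apply EE.ext
    · simp
    · simp [om, dotProduct, Fin.sum_univ_two]; ring
  lie_add x y z := by
    apply EE.ext
    · simp
    · simp [om, dotProduct, Fin.sum_univ_two]; ring
  lie_self x := by
    apply EE.ext
    · simp
    · simp [om]
  leibniz_lie x y z := by
    apply EE.ext
    · simp
    · rw [brE_a, add_a, brE_a, brE_a, brE_x, brE_x, brE_x]
      exact om_cocycle _ _ _

noncomputable instance : LieAlgebra ℂ EE where
  lie_smul c x y := by
    apply EE.ext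
    · simp
    · simp [om, dotProduct, Fin.sum_univ_two]; ring

/-- the projection -/
noncomputable def piE : EE →ₗ⁅ℂ⁆ LL where
  toFun e := e.x
  map_add' _ _ := rfl
  map_smul' _ _ := rfl
  map_lie' := rfl

lemma piE_apply (e : EE) : piE e = e.x := rfl

/-- the central element -/
noncomputable def cc : EE := mkE 0 1

/-- basis vector -/
noncomputable def e0 : Vec := ![1, 0]
/-- basis vector -/
noncomputable def e1 : Vec := ![0, 1]

theorem isExt : IsIndecomposableCentralExtension piE cc where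
  surjective x := ⟨mkE x 0, rfl⟩
  ne_zero h := by
    have := congrArg EE.a h
    simp [cc] at this
  central x := by
    apply EE.ext
    · simp [cc]
    · simp [cc, om]
  ker x := by
    constructor
    · intro h
      refine ⟨x.a, EE.ext ?_ ?_⟩
      · rw [piE_apply] at h
        simp [h, cc]
      · simp [cc]
    · rintro ⟨a, rfl⟩
      rw [piE_apply]
      simp [cc]
  not_split := by
    rintro ⟨s, hs⟩
    have h1 : s ⁅mk 0 0 e0, mk 0 e0 0⁆ = ⁅s (mk 0 0 e0), s (mk 0 e0 0)⁆ := s.map_lie _ _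
    have h2 : ⁅mk 0 0 e0, mk 0 e0 0⁆ = 0 := by
      apply LL.ext <;> simp
    rw [h2, map_zero] at h1
    have h3 := congrArg EE.a h1
    rw [brE_a] at h3
    have h4 : (s (mk 0 0 e0)).x = mk 0 0 e0 := hs _
    have h5 : (s (mk 0 e0 0)).x = mk 0 e0 0 := hs _
    rw [h4, h5] at h3
    simp [om, e0] at h3

theorem half_trivial : OnlyTrivialHalfDerivations LL := by
  intro φ hφ
  have h2 : ∀ x y : LL, ⁅φ x, y⁆ + ⁅x, φ y⁆ = (2 : ℂ) • φ ⁅x, y⁆ := fun x y => by
    rw [hφ x y, smul_smul]; norm_num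
  have hA : ∀ x y : LL, ((φ x).A * y.A - y.A * (φ x).A) + (x.A * (φ y).A - (φ y).A * x.A) =
      (2 : ℂ) • (φ ⁅x, y⁆).A := fun x y => congrArg LL.A (h2 x y)
  have hv : ∀ x y : LL, ((φ x).A *ᵥ y.v - y.A *ᵥ (φ x).v) +
      (x.A *ᵥ (φ y).v - (φ y).A *ᵥ x.v) = (2 : ℂ) • (φ ⁅x, y⁆).v :=
    fun x y => congrArg LL.v (h2 x y)
  have hw : ∀ x y : LL, (y.Aᵀ *ᵥ (φ x).w - (φ x).Aᵀ *ᵥ y.w) +
      ((φ y).Aᵀ *ᵥ x.w - x.Aᵀ *ᵥ (φ y).w) = (2 : ℂ) • (φ ⁅x, y⁆).w :=
    fun x y => congrArg LL.w (h2 x y)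
  -- brackets with d
  have b1 : ∀ B : Mat, ⁅d, mk B 0 0⁆ = 0 := fun B => by apply LL.ext <;> simp [d]
  have b2 : ∀ v : Vec, ⁅d, mk 0 v 0⁆ = mk 0 v 0 := fun v => by apply LL.ext <;> simp [d]
  have b3 : ∀ w : Vec, ⁅d, mk 0 0 w⁆ = (-1 : ℂ) • mk 0 0 w := fun w => by
    apply LL.ext
    · rw [smul_A]; simp [d]
    · rw [smul_v]; simp [d]
    · rw [smul_w]; simp [d]
  have b4 : ∀ (B : Mat) (v : Vec), ⁅mk B 0 0, mk 0 v 0⁆ = mk 0 (B *ᵥ v) 0 := fun B v => by
    apply LL.ext
    · rw [br_A]; simp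
    · rw [br_v, mk_A, mk_A, mk_v, mk_v, mk_v, Matrix.zero_mulVec, sub_zero]
    · rw [br_w, mk_A, mk_A, mk_w, mk_w, mk_w]; simp
  have b5 : ∀ (B C : Mat), ⁅mk B 0 0, mk C 0 0⁆ = mk (B * C - C * B) 0 0 := fun B C => by
    apply LL.ext
    · rw [br_A]; simp
    · rw [br_v, mk_A, mk_A, mk_v, mk_v, mk_v, Matrix.mulVec_zero, Matrix.mulVec_zero, sub_zero]
    · rw [br_w, mk_A, mk_A, mk_w, mk_w, mk_w, Matrix.mulVec_zero, Matrix.mulVec_zero, sub_zero]
  have dA : d.A = 1 := rfl
  have dv : d.v = 0 := rfl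
  have dw : d.w = 0 := rfl
  -- a0 commutes with everything
  have c1 : ∀ B : Mat, (φ d).A * B = B * (φ d).A := by
    intro B
    have h := hA d (mk B 0 0)
    rw [b1, map_zero, dA, mk_A, zero_A, smul_zero, one_mul, mul_one, sub_self, add_zero] at h
    exact sub_eq_zero.mp h
  obtain ⟨l, hl⟩ : ∃ l : ℂ, (φ d).A = l • (1 : Mat) := by
    refine ⟨(φ d).A 0 0, ?_⟩
    have h1 := c1 !![0, 1; 0, 0]
    have h2 := c1 !![0, 0; 1, 0]
    have h10 := congrFun (congrFun h1 0) 0
    have h11 := congrFun (congrFun h1 0) 1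
    have h20 := congrFun (congrFun h2 0) 0
    have h21 := congrFun (congrFun h2 1) 0
    simp [Matrix.mul_apply, Fin.sum_univ_two] at h10 h11 h20 h21
    ext i j
    fin_cases i <;> fin_cases j <;> simp <;> first | done | (simp_all) 
  have c2 : ∀ B : Mat, (φ (mk B 0 0)).v = B *ᵥ (φ d).v := by
    intro B
    have h := hv d (mk B 0 0)
    rw [b1, map_zero, dA, mk_A, mk_v, dv, zero_v, smul_zero, Matrix.mulVec_zero, Matrix.mulVec_zero,
      Matrix.one_mulVec, zero_sub, sub_zero] at h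
    exact (neg_add_eq_zero.mp h).symm
  have c3 : ∀ B : Mat, (φ (mk B 0 0)).w = Bᵀ *ᵥ (φ d).w := by
    intro B
    have h := hw d (mk B 0 0)
    rw [b1, map_zero, dA, mk_A, mk_w, dw, zero_w, smul_zero, Matrix.mulVec_zero, Matrix.mulVec_zero,
      Matrix.transpose_one, Matrix.one_mulVec, zero_sub, sub_zero] at h
    exact (add_neg_eq_zero.mp h).symm
  have c4 : ∀ v : Vec, φ (mk 0 v 0) = l • mk 0 v 0 := by
    intro v
    have h1 := hA d (mk 0 v 0)
    have h2 := hv d (mk 0 v 0)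
    have h3 := hw d (mk 0 v 0)
    rw [b2] at h1 h2 h3
    rw [dA, mk_A, mul_zero, zero_mul, sub_zero, zero_add, one_mul, mul_one, sub_self] at h1
    rw [dA, mk_A, mk_v, dv, hl, Matrix.smul_mulVec, Matrix.one_mulVec, Matrix.one_mulVec,
      Matrix.zero_mulVec, Matrix.mulVec_zero, sub_zero, sub_zero] at h2
    rw [dA, mk_A, mk_w, dw, Matrix.transpose_zero, Matrix.transpose_one, Matrix.zero_mulVec,
      Matrix.mulVec_zero, Matrix.mulVec_zero, Matrix.one_mulVec, sub_self, zero_add, zero_sub] at h3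
    apply LL.ext
    · rw [smul_A, mk_A, smul_zero]
      have := h1.symm
      rwa [smul_eq_zero_iff_right (by norm_num)] at this
    · rw [smul_v, mk_v]
      rw [two_smul] at h2
      exact (add_right_cancel h2).symm
    · rw [smul_w, mk_w, smul_zero]
      have h4 : (3 : ℂ) • (φ (mk 0 v 0)).w = 0 := by
        have : (3 : ℂ) = 2 + 1 := by norm_num
        rw [this, add_smul, ← h3, one_smul, neg_add_cancel]
      rwa [smul_eq_zero_iff_right (by norm_num)] at h4
  have c5 : ∀ w : Vec, φ (mk 0 0 w) = l • mk 0 0 w := by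
    intro w
    have h1 := hA d (mk 0 0 w)
    have h2 := hv d (mk 0 0 w)
    have h3 := hw d (mk 0 0 w)
    rw [b3, map_smul] at h1 h2 h3
    rw [dA, mk_A, mul_zero, zero_mul, sub_zero, zero_add, one_mul, mul_one, sub_self, smul_A] at h1
    rw [dA, mk_A, mk_v, dv, Matrix.one_mulVec, smul_v,
      Matrix.zero_mulVec, Matrix.mulVec_zero, Matrix.mulVec_zero, sub_zero, sub_zero, zero_add] at h2
    rw [dA, mk_A, mk_w, dw, Matrix.transpose_zero, Matrix.transpose_one, Matrix.zero_mulVec, hl,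
      Matrix.mulVec_zero, Matrix.one_mulVec, zero_sub, zero_sub, smul_w, Matrix.transpose_smul,
      Matrix.transpose_one, Matrix.smul_mulVec, Matrix.one_mulVec] at h3
    apply LL.ext
    · rw [smul_A, mk_A, smul_zero]
      have := h1.symm
      rw [smul_smul, smul_eq_zero_iff_right (by norm_num)] at this
      exact this
    · rw [smul_v, mk_v, smul_zero]
      have h4 : (3 : ℂ) • (φ (mk 0 0 w)).v = 0 := by
        have : (3 : ℂ) = 1 - (2 * (-1)) := by norm_num
        rw [this, sub_smul, one_smul, sub_eq_zero, ← smul_smul]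
        exact h2
      rwa [smul_eq_zero_iff_right (by norm_num)] at h4
    · rw [smul_w, mk_w]
      rw [smul_smul] at h3
      have h4 : (φ (mk 0 0 w)).w = l • w + (-(l • w) + -(φ (mk 0 0 w)).w) + (2 : ℂ) • (φ (mk 0 0 w)).w := by
        module
      rw [h4, h3]
      module
  have c6 : ∀ B C : Mat, (B * C - C * B) *ᵥ (φ d).v = 0 := by
    intro B C
    have h := hv (mk B 0 0) (mk C 0 0)
    rw [b5, mk_A, mk_A, mk_v, mk_v, c2, c2, c2, Matrix.mulVec_zero, Matrix.mulVec_zero, zero_sub,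
      sub_zero, Matrix.mulVec_mulVec, Matrix.mulVec_mulVec, ← Matrix.neg_mulVec,
      ← Matrix.add_mulVec, two_smul, ← Matrix.add_mulVec, neg_add_eq_sub] at h
    rw [Matrix.add_mulVec] at h
    exact (left_eq_add.mp h)
  have c7 : ∀ B C : Mat, (B * C - C * B)ᵀ *ᵥ (φ d).w = 0 := by
    intro B C
    have h := hw (mk B 0 0) (mk C 0 0)
    rw [b5, mk_A, mk_A, mk_w, mk_w, c3, c3, c3, Matrix.mulVec_zero, Matrix.mulVec_zero, zero_sub,
      sub_zero, Matrix.mulVec_mulVec, Matrix.mulVec_mulVec, ← Matrix.neg_mulVec,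
      ← Matrix.add_mulVec, two_smul, ← Matrix.transpose_mul, ← Matrix.transpose_mul,
      ← sub_eq_add_neg, ← Matrix.transpose_sub] at h
    exact (left_eq_add.mp h)
  have c8 : (φ d).v = 0 := by
    have h1 := c6 !![0, 1; 0, 0] !![0, 0; 1, 0]
    have h10 := congrFun h1 0
    have h11 := congrFun h1 1
    simp [Matrix.mulVec, dotProduct, Fin.sum_univ_two] at h10 h11
    ext i
    fin_cases i
    · simpa using h10
    · simpa using h11
  have c9 : (φ d).w = 0 := by
    have h1 := c7 !![0, 1; 0, 0] !![0, 0; 1, 0]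
    have h10 := congrFun h1 0
    have h11 := congrFun h1 1
    simp [Matrix.mulVec, dotProduct, Fin.sum_univ_two] at h10 h11
    ext i
    fin_cases i
    · simpa using h10
    · simpa using h11
  have c10 : ∀ B : Mat, φ (mk B 0 0) = l • mk B 0 0 := by
    intro B
    apply LL.ext
    · rw [smul_A, mk_A]
      have key : ∀ v : Vec, (φ (mk B 0 0)).A *ᵥ v = (l • B) *ᵥ v := by
        intro v
        have h := hv (mk B 0 0) (mk 0 v 0)
        rw [b4, c4, c4, mk_A, mk_A, mk_v, mk_v, smul_v, smul_v, mk_v, mk_v, Matrix.zero_mulVec,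
          Matrix.mulVec_zero, sub_zero, sub_zero, two_smul, Matrix.mulVec_smul] at h
        rw [Matrix.smul_mulVec]
        exact add_right_cancel h
      exact Matrix.ext_iff_mulVec.mpr (fun v => key v) 
    · rw [smul_v, mk_v, smul_zero, c2, c8, Matrix.mulVec_zero]
    · rw [smul_w, mk_w, smul_zero, c3, c9, Matrix.mulVec_zero]
  refine ⟨l, LinearMap.ext fun x => ?_⟩
  have hx : x = mk x.A 0 0 + mk 0 x.v 0 + mk 0 0 x.w := by
    apply LL.ext <;> simp
  rw [LinearMap.smul_apply, LinearMap.id_apply]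
  conv_lhs => rw [hx, map_add, map_add, c10, c4, c5]
  conv_rhs => rw [hx]
  rw [smul_add, smul_add]

theorem tp_trivial : OnlyTrivialTransposedPoisson LL := by
  intro m hm
  have h1 : ∀ z : LL, ∃ a : ℂ, m z = a • LinearMap.id := fun z =>
    half_trivial (m z) (fun x y => by
      rw [← hm.compat, smul_smul]; norm_num)
  choose l hl using h1
  have h2 : ∀ x y : LL, l x • y = l y • x := fun x y => by
    have := hm.comm x y
    rw [hl x, hl y] at this
    exact this
  have h3 : l (mk 1 0 0) = 0 := by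
    have := congrArg LL.v (h2 (mk 1 0 0) (mk 0 e0 0))
    rw [smul_v, smul_v, mk_v, mk_v] at this
    have := congrFun this 0
    simpa [e0] using this
  ext1 x
  rw [hl x]
  have h4 : l x = 0 := by
    have := congrArg LL.A (h2 x (mk 1 0 0))
    rw [h3, smul_A, smul_A, mk_A] at this
    have := congrFun (congrFun this 0) 0
    simpa using this
  rw [h4, zero_smul]
  rfl

/-- the trace functional -/
noncomputable def ff : EE →ₗ[ℂ] ℂ where
  toFun e := e.x.A 0 0 + e.x.A 1 1
  map_add' x y := by rw [add_x, add_A]; simp; ring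
  map_smul' c x := by rw [smul_x, smul_A]; simp; ring

lemma ff_apply (e : EE) : ff e = e.x.A 0 0 + e.x.A 1 1 := rfl

lemma ff_bracket (x y : EE) : ff ⁅x, y⁆ = 0 := by
  rw [ff_apply, brE_x, br_A]
  simp [Matrix.mul_apply, Fin.sum_univ_two]
  ring

lemma ff_cc : ff cc = 0 := by
  rw [ff_apply]
  simp [cc]

lemma cc_bracket (x : EE) : ⁅cc, x⁆ = 0 := isExt.central x

lemma bracket_cc (x : EE) : ⁅x, cc⁆ = 0 := by
  rw [← lie_skew, cc_bracket, neg_zero]

/-- nontrivial half derivation -/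
noncomputable def phi : EE →ₗ[ℂ] EE := ff.smulRight cc

lemma phi_apply (x : EE) : phi x = ff x • cc := rfl

lemma cc_ne : cc ≠ 0 := isExt.ne_zero

theorem phi_half : IsHalfDerivation phi := by
  intro x y
  rw [phi_apply, phi_apply, phi_apply, ff_bracket, zero_smul, smul_lie, lie_smul, cc_bracket,
    bracket_cc, smul_zero, smul_zero, add_zero, smul_zero]

lemma ff_d : ff (mkE d 0) = 2 := by
  rw [ff_apply]
  simp [d]
  norm_num

theorem phi_nontrivial : ¬ ∃ a : ℂ, phi = a • LinearMap.id := by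
  rintro ⟨a, ha⟩
  have h1 := LinearMap.congr_fun ha cc
  rw [phi_apply, ff_cc, zero_smul, LinearMap.smul_apply, LinearMap.id_apply] at h1
  have h2 : a = 0 := by
    rcases smul_eq_zero.mp h1.symm with h | h
    · exact h
    · exact absurd h cc_ne
  have h3 := LinearMap.congr_fun ha (mkE d 0)
  rw [phi_apply, ff_d, h2, zero_smul, LinearMap.zero_apply] at h3
  rcases smul_eq_zero.mp h3 with h | h
  · norm_num at h
  · exact cc_ne h

/-- nontrivial transposed Poisson structure -/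
noncomputable def mm : EE →ₗ[ℂ] EE →ₗ[ℂ] EE := ff.smulRight phi

lemma mm_apply (x y : EE) : mm x y = (ff x * ff y) • cc := by
  change ff x • (ff y • cc) = _
  rw [smul_smul]

theorem mm_tp : IsTransposedPoisson mm where
  comm x y := by rw [mm_apply, mm_apply, mul_comm]
  assoc x y z := by
    rw [mm_apply, mm_apply, mm_apply, mm_apply, map_smul, map_smul, ff_cc]
    simp
  compat x y z := by
    rw [mm_apply, mm_apply, mm_apply, ff_bracket, smul_lie, lie_smul, cc_bracket, bracket_cc]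
    simp

theorem mm_ne : mm ≠ 0 := by
  intro h
  have h1 := LinearMap.congr_fun (LinearMap.congr_fun h (mkE d 0)) (mkE d 0)
  rw [mm_apply, ff_d, LinearMap.zero_apply, LinearMap.zero_apply] at h1
  rcases smul_eq_zero.mp h1 with h | h
  · norm_num at h
  · exact cc_ne h

end Pool.Agent.Q112.TP
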